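import Pool.Agent.ETX.Stmts

set_option autoImplicit false

namespace Pool.Agent.ETX

open Module

namespace BAS_

/-- periodic functions -/
def Per (n : ℕ) (s : ℤ_[2]) (j : ℕ) (f : Uh n s → ZMod 2) : Prop :=
  ∀ k k' : Uh n s, (∀ i, (2 : ℤ_[2]) ^ j ∣ k i - k' i) → f k = f k'

/-- natural points -/
noncomputable def pt (n : ℕ) (s : ℤ_[2]) (j : ℕ) (ρ : Fin (n + 1) → Fin (2 ^ j)) : Uh n s :=
  fun i => ((ρ i : ℕ) : ℤ_[2])

open Classical in
/-- one-variable delta functions -/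
noncomputable def dl (j : ℕ) (r : Fin (2 ^ j)) (x : ℤ_[2]) : ZMod 2 :=
  if (2 : ℤ_[2]) ^ j ∣ x - ((r : ℕ) : ℤ_[2]) then 1 else 0

lemma nat_dvd (j : ℕ) (a b : ℕ) (ha : a < 2 ^ j) (hb : b < 2 ^ j)
    (h : (2 : ℤ_[2]) ^ j ∣ (a : ℤ_[2]) - (b : ℤ_[2])) : a = b := by
  have h1 : ((2 : ℕ) : ℤ_[2]) ^ j ∣ (((a : ℤ) - (b : ℤ) : ℤ) : ℤ_[2]) := by
    push_cast
    exact h
  have h2 := (PadicInt.pow_p_dvd_int_iff (p := 2) j _).1 h1
  have h3 : ((a : ℤ) - (b : ℤ)).natAbs < 2 ^ j := by omega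
  have h4 : (a : ℤ) - (b : ℤ) = 0 := by
    apply Int.eq_zero_of_abs_lt_dvd h2
    rw [Int.abs_eq_natAbs]
    exact_mod_cast h3
  omega

lemma exists_nat (j : ℕ) (x : ℤ_[2]) : ∃ r : Fin (2 ^ j), (2 : ℤ_[2]) ^ j ∣ x - ((r : ℕ) : ℤ_[2]) := by
  refine ⟨⟨x.appr j, x.appr_lt j⟩, ?_⟩
  have h := PadicInt.appr_spec j x
  rw [Ideal.mem_span_singleton] at h
  exact_mod_cast h

lemma dl_per (j : ℕ) (r : Fin (2 ^ j)) (x y : ℤ_[2]) (h : (2 : ℤ_[2]) ^ j ∣ x - y) :
    dl j r x = dl j r y := by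
  unfold dl
  have h1 : (2 : ℤ_[2]) ^ j ∣ x - ((r : ℕ) : ℤ_[2]) ↔ (2 : ℤ_[2]) ^ j ∣ y - ((r : ℕ) : ℤ_[2]) := by
    constructor
    · intro h2
      have := dvd_sub h2 h
      convert this using 1
      ring
    · intro h2
      have := dvd_add h2 h
      convert this using 1
      ring
  by_cases h3 : (2 : ℤ_[2]) ^ j ∣ y - ((r : ℕ) : ℤ_[2])
  · rw [if_pos (h1.2 h3), if_pos h3]
  · rw [if_neg (fun h4 => h3 (h1.1 h4)), if_neg h3]

variable {n : ℕ} {s : ℤ_[2]}

/-- expansion in the Mahler functions -/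
lemma expand (hBI1 : Stmt_BI1) (j : ℕ) (f : Uh n s → ZMod 2) (hf : Per n s j f) :
    ∃ c : (Fin (n + 1) → Fin (2 ^ j)) → ZMod 2,
      ∀ k, f k = ∑ α, c α * Ef n s (fun i => (α i : ℕ)) k := by
  choose c hc _ using fun r : Fin (2 ^ j) => hBI1 j (dl j r) (dl_per j r)
  simp only at hc
  refine ⟨fun α => ∑ ρ : Fin (n + 1) → Fin (2 ^ j), f (pt n s j ρ) * ∏ i, c (ρ i) (α i), ?_⟩
  intro k
  choose r hr using fun i => exists_nat j (k i)
  have h1 : f k = ∑ ρ : Fin (n + 1) → Fin (2 ^ j), f (pt n s j ρ) * ∏ i, dl j (ρ i) (k i) := by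
    rw [Finset.sum_eq_single r]
    · have h2 : ∏ i, dl j (r i) (k i) = 1 := by
        apply Finset.prod_eq_one
        intro i _
        unfold dl
        rw [if_pos (hr i)]
      rw [h2, mul_one]
      exact hf _ _ hr
    · intro ρ _ hρ
      have h3 : ∃ i, ρ i ≠ r i := by
        by_contra hcon
        push Not at hcon
        exact hρ (funext hcon)
      obtain ⟨i, hi⟩ := h3
      have h4 : dl j (ρ i) (k i) = 0 := by
        unfold dl
        rw [if_neg]
        intro h5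
        apply hi
        apply Fin.ext
        apply nat_dvd j _ _ (ρ i).2 (r i).2
        have := dvd_sub (hr i) h5
        convert this using 1
        ring
      rw [Finset.prod_eq_zero (Finset.mem_univ i) h4, mul_zero]
    · intro h
      exact absurd (Finset.mem_univ r) h
  rw [h1]
  have h6 : ∀ ρ : Fin (n + 1) → Fin (2 ^ j), ∏ i, dl j (ρ i) (k i) =
      ∑ α : Fin (n + 1) → Fin (2 ^ j), (∏ i, c (ρ i) (α i)) * Ef n s (fun i => (α i : ℕ)) k := by
    intro ρ
    have h7 : ∏ i, dl j (ρ i) (k i) = ∏ i, ∑ a, c (ρ i) a * bin (k i) a :=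
      Finset.prod_congr rfl fun i _ => hc (ρ i) (k i)
    rw [h7, Finset.prod_univ_sum, Fintype.piFinset_univ]
    refine Finset.sum_congr rfl fun α _ => ?_
    rw [Finset.prod_mul_distrib]
    rfl
  simp_rw [h6, Finset.mul_sum, Finset.sum_mul]
  rw [Finset.sum_comm]
  refine Finset.sum_congr rfl fun α _ => Finset.sum_congr rfl fun ρ _ => by ring

lemma ef_per (hBIN : Stmt_BIN) (j : ℕ) (α : Fin (n + 1) → ℕ) (hα : ∀ i, α i < 2 ^ j) :
    Per n s j (Ef n s α) := by
  intro k k' h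
  unfold Ef
  exact Finset.prod_congr rfl fun i _ => hBIN.2.2.2.2.2.2.1 j (α i) (hα i) _ _ (h i)

/-- uniqueness -/
lemma unique (hBIN : Stmt_BIN) (hBI1 : Stmt_BI1) (j : ℕ)
    (c : (Fin (n + 1) → Fin (2 ^ j)) → ZMod 2)
    (h : ∀ k : Uh n s, ∑ α, c α * Ef n s (fun i => (α i : ℕ)) k = 0) : c = 0 := by
  let Φ : ((Fin (n + 1) → Fin (2 ^ j)) → ZMod 2) →ₗ[ZMod 2] ((Fin (n + 1) → Fin (2 ^ j)) → ZMod 2) :=
    { toFun := fun c ρ => ∑ α, c α * Ef n s (fun i => (α i : ℕ)) (pt n s j ρ)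
      map_add' := by
        intro c d
        funext ρ
        simp [add_mul, Finset.sum_add_distrib]
      map_smul' := by
        intro a c
        funext ρ
        simp [Finset.mul_sum, mul_assoc] }
  have hsurj : Function.Surjective Φ := by
    intro g
    choose r hr using fun x => exists_nat j x
    let f : Uh n s → ZMod 2 := fun k => g (fun i => r (k i))
    have hrr : ∀ x y : ℤ_[2], (2 : ℤ_[2]) ^ j ∣ x - y → r x = r y := by
      intro x y hxy
      apply Fin.ext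
      apply nat_dvd j _ _ (r x).2 (r y).2
      have h1 := dvd_sub (dvd_add hxy (hr y)) (hr x)
      convert h1 using 1
      ring
    have hf : Per n s j f := by
      intro k k' hk
      have h2 : (fun i => r (k i)) = fun i => r (k' i) := funext fun i => hrr _ _ (hk i)
      change g _ = g _
      rw [h2]
    obtain ⟨c, hc⟩ := expand hBI1 j f hf
    refine ⟨c, ?_⟩
    funext ρ
    change ∑ α, c α * Ef n s (fun i => (α i : ℕ)) (pt n s j ρ) = g ρ
    rw [← hc]
    change g _ = g _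
    congr 1
    funext i
    apply Fin.ext
    apply nat_dvd j _ _ (r _).2 (ρ i).2
    have h3 := hr (pt n s j ρ i)
    have h4 : pt n s j ρ i = ((ρ i : ℕ) : ℤ_[2]) := rfl
    rw [h4] at h3
    have h5 := (dvd_neg).2 h3
    convert h5 using 1
    rw [h4]
    ring
  have hinj : Function.Injective Φ := Finite.injective_iff_surjective.2 hsurj
  apply hinj
  rw [map_zero]
  funext ρ
  exact h (pt n s j ρ)

/-- from level sets to periodicity -/
lemma per_of_lvl (j : ℕ) (f : Uh n s → ZMod 2) (h : ∀ k, ∀ v ∈ lvl n s j, f (k * v) = f k) :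
    Per n s j f := by
  intro k k' hk
  have h1 : k'⁻¹ * k ∈ lvl n s j := (inv_mul_mem_lvl j k' k).2 hk
  have h2 := h k' _ h1
  rw [mul_inv_cancel_left] at h2
  exact h2

lemma lvl_of_per (j : ℕ) (f : Uh n s → ZMod 2) (h : Per n s j f) :
    ∀ k, ∀ v ∈ lvl n s j, f (k * v) = f k := by
  intro k v hv
  apply h
  intro i
  rw [mul_apply]
  have h1 : k i + chi k * v i - k i = chi k * v i := by ring
  rw [h1]
  exact Dvd.dvd.mul_left (hv i) _

lemma exists_lvl (S : Finset (Ix n)) : ∃ j : ℕ, ∀ α ∈ S, ∀ i, (ofLex α) i < 2 ^ j := by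
  refine ⟨∑ α ∈ S, ∑ i, (ofLex α) i, fun α hα i => ?_⟩
  have h1 : (ofLex α) i ≤ ∑ α ∈ S, ∑ i, (ofLex α) i :=
    le_trans (Finset.single_le_sum (f := fun i => (ofLex α) i) (fun _ _ => Nat.zero_le _)
      (Finset.mem_univ i))
      (Finset.single_le_sum (f := fun α : Ix n => ∑ i, (ofLex α) i) (fun _ _ => Nat.zero_le _) hα)
  exact lt_of_le_of_lt h1 (Nat.lt_two_pow_self)

lemma ef_lc (hBIN : Stmt_BIN) (α : Fin (n + 1) → ℕ) : Ef n s α ∈ LC (filt n s) := by
  obtain ⟨j, hj⟩ := exists_lvl {(toLex α : Ix n)}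
  exact ⟨j, lvl_of_per j _ (ef_per hBIN j α (hj _ (Finset.mem_singleton_self _)))⟩

/-- the basis elements -/
noncomputable def e (hBIN : Stmt_BIN) (α : Ix n) : LC (filt n s) := ⟨Ef n s (ofLex α), ef_lc hBIN _⟩

lemma li (hBIN : Stmt_BIN) (hBI1 : Stmt_BI1) :
    LinearIndependent (ZMod 2) (e (n := n) (s := s) hBIN) := by
  rw [linearIndependent_iff']
  intro S g hg α hα
  obtain ⟨j, hj⟩ := exists_lvl S
  let emb : (Fin (n + 1) → Fin (2 ^ j)) → Ix n := fun β => toLex fun i => (β i : ℕ)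
  have hemb : Function.Injective emb := by
    intro β γ h
    funext i
    apply Fin.ext
    exact congrFun (congrArg ofLex h) i
  classical
  have h1 := unique (n := n) (s := s) hBIN hBI1 j (fun β => if emb β ∈ S then g (emb β) else 0) (by
    intro k
    have h2' := congrArg (Submodule.subtype (LC (filt n s))) hg
    rw [map_sum] at h2'
    simp only [map_smul, map_zero] at h2'
    have h2 := congrFun h2' k
    rw [Finset.sum_apply, Pi.zero_apply] at h2
    refine Eq.trans ?_ h2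
    have h3 : ∀ β : Fin (n + 1) → Fin (2 ^ j),
        (if emb β ∈ S then g (emb β) else 0) * Ef n s (fun i => (β i : ℕ)) k =
        if emb β ∈ S then g (emb β) * Ef n s (ofLex (emb β)) k else 0 := by
      intro β
      split_ifs
      · rfl
      · rw [zero_mul]
    simp_rw [h3]
    rw [← Finset.sum_filter]
    refine Finset.sum_bij (fun β _ => emb β) ?_ ?_ ?_ ?_
    · intro β hβ
      exact (Finset.mem_filter.1 hβ).2
    · intro β _ γ _ h
      exact hemb h
    · intro γ hγ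
      refine ⟨fun i => ⟨(ofLex γ) i, hj γ hγ i⟩, ?_, rfl⟩
      rw [Finset.mem_filter]
      exact ⟨Finset.mem_univ _, hγ⟩
    · intro β _
      rfl)
  have h4 := congrFun h1 (fun i => ⟨(ofLex α) i, hj α hα i⟩)
  have h5 : emb (fun i => ⟨(ofLex α) i, hj α hα i⟩) = α := rfl
  simp only [h5, if_pos hα, Pi.zero_apply] at h4
  exact h4

/-- functions of level `j` are in the span -/
lemma mem_span (hBIN : Stmt_BIN) (hBI1 : Stmt_BI1) (j : ℕ) (f : LC (filt n s))
    (hf : Per n s j (f : Uh n s → ZMod 2)) :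
    f ∈ Submodule.span (ZMod 2) (e hBIN '' {α : Ix n | ∀ i, (ofLex α) i < 2 ^ j}) := by
  obtain ⟨c, hc⟩ := expand hBI1 j _ hf
  have h1 : f = ∑ β : Fin (n + 1) → Fin (2 ^ j), c β • e hBIN (toLex fun i => (β i : ℕ)) := by
    apply Subtype.ext
    funext k
    rw [hc k]
    have hs : ((∑ β : Fin (n + 1) → Fin (2 ^ j), c β • e hBIN (toLex fun i => (β i : ℕ)) :
        LC (filt n s)) : Uh n s → ZMod 2) =
        ∑ β : Fin (n + 1) → Fin (2 ^ j), c β • Ef n s (fun i => (β i : ℕ)) := by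
      have := map_sum (Submodule.subtype (LC (filt n s)))
        (fun β : Fin (n + 1) → Fin (2 ^ j) => c β • e hBIN (toLex fun i => (β i : ℕ))) Finset.univ
      simp only [map_smul] at this
      exact this
    rw [hs, Finset.sum_apply]
    rfl
  rw [h1]
  refine Submodule.sum_mem _ fun β _ => Submodule.smul_mem _ _ (Submodule.subset_span ?_)
  exact ⟨_, fun i => (β i).2, rfl⟩

lemma sp (hBIN : Stmt_BIN) (hBI1 : Stmt_BI1) :
    ⊤ ≤ Submodule.span (ZMod 2) (Set.range (e (n := n) (s := s) hBIN)) := by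
  rintro f -
  obtain ⟨j, hj⟩ := f.2
  exact Submodule.span_mono (Set.image_subset_range _ _)
    (mem_span hBIN hBI1 j f (per_of_lvl j _ hj))

/-- the basis -/
noncomputable def bas (hBIN : Stmt_BIN) (hBI1 : Stmt_BI1) (n : ℕ) (s : ℤ_[2]) :
    Basis (Ix n) (ZMod 2) (LC (filt n s)) := Basis.mk (li hBIN hBI1) (sp hBIN hBI1)

lemma bas_isE (hBIN : Stmt_BIN) (hBI1 : Stmt_BI1) : IsE (bas hBIN hBI1 n s) := by
  intro α
  unfold bas
  rw [Basis.mk_apply]
  rfl

lemma isE_eq (hBIN : Stmt_BIN) (b : Basis (Ix n) (ZMod 2) (LC (filt n s))) (hb : IsE b) :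
    ∀ α, b α = e hBIN α := by
  intro α
  apply Subtype.ext
  exact hb (ofLex α)

/-- reindexing -/
def eqv (n k : ℕ) : (Σ _ : Fin k, Ix n) ≃ Ixk n k where
  toFun x := toLex (x.2, x.1)
  invFun x := ⟨(ofLex x).2, (ofLex x).1⟩
  left_inv x := rfl
  right_inv x := rfl

end BAS_

theorem bas_proof (hBIN : Stmt_BIN) (hBI1 : Stmt_BI1) : Stmt_BAS := by
  intro n s
  refine ⟨⟨BAS_.bas hBIN hBI1 n s, BAS_.bas_isE hBIN hBI1⟩, ?_, ?_⟩
  · intro b hb j
    have hbe : ∀ α, b α = BAS_.e hBIN α := BAS_.isE_eq hBIN b hb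
    have him : (b '' {α : Ix n | ∀ i, (ofLex α) i < 2 ^ j}) =
        (BAS_.e hBIN '' {α : Ix n | ∀ i, (ofLex α) i < 2 ^ j}) :=
      Set.image_congr fun α _ => hbe α
    rw [him]
    apply le_antisymm
    · intro f hf
      apply BAS_.mem_span hBIN hBI1 j f
      apply BAS_.per_of_lvl
      intro k v hv
      have h1 := hf v hv
      have h2 := congrArg (fun g : LC (filt n s) => (g : Uh n s → ZMod 2) k) h1
      simpa using h2
    · rw [Submodule.span_le]
      rintro _ ⟨α, hα, rfl⟩ v hv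
      apply Subtype.ext
      funext k
      rw [rt_apply]
      exact BAS_.lvl_of_per j _ (BAS_.ef_per hBIN j _ hα) k v hv
  · intro k
    refine ⟨(Pi.basis fun _ : Fin k => BAS_.bas hBIN hBI1 n s).reindex (BAS_.eqv n k), ?_⟩
    intro α p q
    rw [Basis.reindex_apply]
    have h1 : (BAS_.eqv n k).symm (ix α p) = ⟨p, toLex α⟩ := rfl
    rw [h1, Pi.basis_apply]
    by_cases hq : q = p
    · subst hq
      rw [Pi.single_eq_same, if_pos rfl]
      exact BAS_.bas_isE hBIN hBI1 α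
    · rw [Pi.single_eq_of_ne hq, if_neg hq]
      rfl

end Pool.Agent.ETX
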