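import Pool.Agent.ETX.Stmts

set_option autoImplicit false

/-!
Module BI1 of ETX: the functions `bin · a`, `a < 2^j`, are a basis of the functions of period `2^j`.
-/

namespace Pool.Agent.ETX

open Module

namespace BI1_

theorem bin_nat (m a : ℕ) : bin (m : ℤ_[2]) a = ((m.choose a : ℕ) : ZMod 2) := by
  unfold bin
  rw [Ring.choose_natCast, map_natCast]

/-- the matrix of binomial coefficients -/
def M (N : ℕ) : Matrix (Fin N) (Fin N) (ZMod 2) :=
  Matrix.of fun x a => (((x : ℕ).choose (a : ℕ) : ℕ) : ZMod 2)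

theorem M_det (N : ℕ) : (M N).det = 1 := by
  rw [Matrix.det_of_lowerTriangular]
  · refine Finset.prod_eq_one fun i _ => ?_
    simp [M]
  · intro i k hik
    have h : (i : ℕ) < k := hik
    simp [M, Nat.choose_eq_zero_of_lt h]

theorem appr (j : ℕ) (x : ℤ_[2]) : ∃ m : ℕ, m < 2 ^ j ∧ (2 : ℤ_[2]) ^ j ∣ x - m := by
  refine ⟨x.appr j, x.appr_lt j, ?_⟩
  have h := x.appr_spec j
  rw [Ideal.mem_span_singleton] at h
  exact_mod_cast h

end BI1_

open BI1_ in
theorem bi1_proof (hB : Stmt_BIN) : Stmt_BI1 := by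
  intro j f hf
  obtain ⟨-, -, -, -, -, -, hper, -, -⟩ := hB
  have hu : IsUnit (M (2 ^ j)).det := by rw [M_det]; exact isUnit_one
  have key : ∀ c : Fin (2 ^ j) → ZMod 2, (∀ x, f x = ∑ a, c a * bin x a) ↔
      (M (2 ^ j)).mulVec c = fun x : Fin (2 ^ j) => f ((x : ℕ) : ℤ_[2]) := by
    intro c
    constructor
    · intro h
      funext x
      rw [h]
      simp only [Matrix.mulVec, dotProduct, M, Matrix.of_apply, bin_nat]
      exact Finset.sum_congr rfl fun a _ => mul_comm _ _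
    · intro h x
      obtain ⟨m, hm, hd⟩ := appr j x
      have h1 := congrFun h ⟨m, hm⟩
      simp only [Matrix.mulVec, dotProduct, M, Matrix.of_apply] at h1
      rw [hf x m hd, ← h1]
      refine Finset.sum_congr rfl fun a _ => ?_
      rw [hper j a a.2 x m hd, bin_nat, mul_comm]
  refine ⟨(M (2 ^ j))⁻¹.mulVec (fun x : Fin (2 ^ j) => f ((x : ℕ) : ℤ_[2])), ?_, ?_⟩
  · refine (key _).2 ?_
    rw [Matrix.mulVec_mulVec, Matrix.mul_nonsing_inv _ hu, Matrix.one_mulVec]
  · intro c hc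
    have h := (key c).1 hc
    rw [← h, Matrix.mulVec_mulVec, Matrix.nonsing_inv_mul _ hu, Matrix.one_mulVec]

end Pool.Agent.ETX
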