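import Pool.Agent.ETX.Stmts

set_option autoImplicit false

namespace Pool.Agent.ETX

open Module

namespace BIN_

theorem zero_right (z : ℤ_[2]) : bin z 0 = 1 := by
  unfold bin
  rw [Ring.choose_zero_right, map_one]

theorem zero_left (a : ℕ) (ha : 0 < a) : bin 0 a = 0 := by
  unfold bin
  rw [Ring.choose_zero_pos ℤ_[2] ha, map_zero]

theorem natCast (m a : ℕ) : bin (m : ℤ_[2]) a = ((m.choose a : ℕ) : ZMod 2) := by
  unfold bin
  rw [Ring.choose_natCast, map_natCast]

theorem one_one : bin 1 1 = 1 := by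
  have h := natCast 1 1
  simpa using h

theorem one_big (a : ℕ) (ha : 1 < a) : bin 1 a = 0 := by
  have h := natCast 1 a
  rw [Nat.choose_eq_zero_of_lt ha] at h
  simpa using h

theorem vand (x y : ℤ_[2]) (a : ℕ) :
    bin (x + y) a = ∑ ij ∈ Finset.HasAntidiagonal.antidiagonal a, bin x ij.1 * bin y ij.2 := by
  unfold bin
  rw [Ring.add_choose_eq a (Commute.all x y), map_sum]
  refine Finset.sum_congr rfl fun ij _ => ?_
  rw [map_mul]

theorem sq (c : ZMod 2) : c * c = c := by
  revert c
  decide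

theorem dbl (z : ℤ_[2]) (a : ℕ) :
    bin (2 * z) a = if 2 ∣ a then bin z (a / 2) else 0 := by
  rw [two_mul, vand]
  split_ifs with h
  · obtain ⟨b, rfl⟩ := h
    have hb : (b, b) ∈ Finset.HasAntidiagonal.antidiagonal (2 * b) := by
      rw [Finset.HasAntidiagonal.mem_antidiagonal]
      omega
    rw [← Finset.add_sum_erase _ _ hb]
    have h2 : 2 * b / 2 = b := by omega
    rw [h2, sq]
    have h3 : ∑ x ∈ (Finset.HasAntidiagonal.antidiagonal (2 * b)).erase (b, b),
        bin z x.1 * bin z x.2 = 0 := by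
      refine Finset.sum_involution (fun x _ => (x.2, x.1)) ?_ ?_ ?_ ?_
      · intro x _
        have h4 : bin z x.2 * bin z x.1 = bin z x.1 * bin z x.2 := mul_comm _ _
        simp only
        rw [h4]
        exact CharTwo.add_self_eq_zero _
      · intro x hx _ he
        have h5 := (Finset.mem_erase.1 hx)
        have h6 := Finset.HasAntidiagonal.mem_antidiagonal.1 h5.2
        have h7 : x.2 = x.1 := congrArg Prod.fst he
        apply h5.1
        refine Prod.ext ?_ ?_
        · change x.1 = b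
          omega
        · change x.2 = b
          omega
      · intro x hx
        have h5 := (Finset.mem_erase.1 hx)
        have h6 := Finset.HasAntidiagonal.mem_antidiagonal.1 h5.2
        refine Finset.mem_erase.2 ⟨?_, ?_⟩
        · intro he
          apply h5.1
          have h8 : x.2 = b := congrArg Prod.fst he
          have h9 : x.1 = b := congrArg Prod.snd he
          exact Prod.ext h9 h8
        · rw [Finset.HasAntidiagonal.mem_antidiagonal]
          simp only
          omega
      · intro x _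
        rfl
    rw [h3, add_zero]
  · refine Finset.sum_involution (fun x _ => (x.2, x.1)) ?_ ?_ ?_ ?_
    · intro x _
      have h4 : bin z x.2 * bin z x.1 = bin z x.1 * bin z x.2 := mul_comm _ _
      simp only
      rw [h4]
      exact CharTwo.add_self_eq_zero _
    · intro x hx _ he
      have h6 := Finset.HasAntidiagonal.mem_antidiagonal.1 hx
      have h7 : x.2 = x.1 := congrArg Prod.fst he
      apply h
      refine ⟨x.1, ?_⟩
      omega
    · intro x hx
      have h6 := Finset.HasAntidiagonal.mem_antidiagonal.1 hx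
      rw [Finset.HasAntidiagonal.mem_antidiagonal]
      simp only
      omega
    · intro x _
      rfl

theorem pw2 (t : ℕ) : ∀ (z : ℤ_[2]) (a : ℕ),
    bin (2 ^ t * z) a = if 2 ^ t ∣ a then bin z (a / 2 ^ t) else 0 := by
  induction t with
  | zero =>
    intro z a
    simp
  | succ t ih =>
    intro z a
    have h1 : (2 : ℤ_[2]) ^ (t + 1) * z = 2 * (2 ^ t * z) := by ring
    rw [h1, dbl]
    by_cases h : 2 ∣ a
    · rw [if_pos h, ih]
      obtain ⟨b, rfl⟩ := h
      have h2 : 2 * b / 2 = b := by omega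
      rw [h2]
      have h3 : (2 ^ (t + 1) ∣ 2 * b) ↔ 2 ^ t ∣ b := by
        rw [pow_succ, mul_comm (2 ^ t) 2]
        exact Nat.mul_dvd_mul_iff_left (by norm_num)
      have h4 : 2 * b / 2 ^ (t + 1) = b / 2 ^ t := by
        rw [pow_succ, mul_comm (2 ^ t) 2]
        exact Nat.mul_div_mul_left _ _ (by norm_num)
      by_cases h5 : 2 ^ t ∣ b
      · rw [if_pos h5, if_pos (h3.2 h5), h4]
      · rw [if_neg h5, if_neg (fun h6 => h5 (h3.1 h6))]
    · rw [if_neg h, if_neg]
      intro h2
      apply h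
      exact (dvd_pow_self 2 (Nat.succ_ne_zero t)).trans h2

theorem per (j a : ℕ) (ha : a < 2 ^ j) (x y : ℤ_[2]) (h : (2 : ℤ_[2]) ^ j ∣ x - y) :
    bin x a = bin y a := by
  obtain ⟨w, hw⟩ := h
  have hx : x = y + 2 ^ j * w := by linear_combination hw
  rw [hx, vand]
  have hm : (a, 0) ∈ Finset.HasAntidiagonal.antidiagonal a := by
    rw [Finset.HasAntidiagonal.mem_antidiagonal]
    omega
  rw [Finset.sum_eq_single_of_mem (a, 0) hm]
  · change bin y a * bin (2 ^ j * w) 0 = bin y a
    rw [zero_right, mul_one]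
  · intro b hb hne
    have h1 := Finset.HasAntidiagonal.mem_antidiagonal.1 hb
    rw [pw2]
    rw [if_neg, mul_zero]
    intro hd
    have h2 : b.2 ≠ 0 := by
      intro h0
      apply hne
      refine Prod.ext ?_ h0
      change b.1 = a
      omega
    have h3 := Nat.le_of_dvd (Nat.pos_of_ne_zero h2) hd
    omega

/-- polynomial functions of degree less than `N` -/
def Pol (N : ℕ) (f : ℤ_[2] → ZMod 2) : Prop :=
  ∃ c : ℕ → ZMod 2, ∀ x : ℤ_[2], f x = ∑ m ∈ Finset.range N, c m * bin x m

theorem Pol.bin {N m : ℕ} (h : m < N) : Pol N (fun x => ETX.bin x m) := by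
  refine ⟨fun i => if i = m then 1 else 0, fun x => ?_⟩
  rw [Finset.sum_eq_single_of_mem m (Finset.mem_range.2 h)]
  · simp
  · intro b _ hb
    simp [hb]

theorem Pol.zero (N : ℕ) : Pol N (fun _ => 0) := ⟨fun _ => 0, fun x => by simp⟩

theorem Pol.add {N : ℕ} {f g : ℤ_[2] → ZMod 2} (hf : Pol N f) (hg : Pol N g) :
    Pol N (fun x => f x + g x) := by
  obtain ⟨c, hc⟩ := hf
  obtain ⟨d, hd⟩ := hg
  refine ⟨fun m => c m + d m, fun x => ?_⟩
  change f x + g x = ∑ m ∈ Finset.range N, (c m + d m) * ETX.bin x m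
  rw [hc, hd, ← Finset.sum_add_distrib]
  refine Finset.sum_congr rfl fun m _ => ?_
  ring

theorem Pol.smul {N : ℕ} {f : ℤ_[2] → ZMod 2} (r : ZMod 2) (hf : Pol N f) :
    Pol N (fun x => r * f x) := by
  obtain ⟨c, hc⟩ := hf
  refine ⟨fun m => r * c m, fun x => ?_⟩
  change r * f x = ∑ m ∈ Finset.range N, (r * c m) * ETX.bin x m
  rw [hc, Finset.mul_sum]
  refine Finset.sum_congr rfl fun m _ => ?_
  ring

theorem Pol.sum {ι : Type} {N : ℕ} (s : Finset ι) {f : ι → ℤ_[2] → ZMod 2}
    (hf : ∀ i ∈ s, Pol N (f i)) : Pol N (fun x => ∑ i ∈ s, f i x) := by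
  classical
  induction s using Finset.induction_on with
  | empty => simpa using Pol.zero N
  | insert a s ha ih =>
    have h1 := hf a (Finset.mem_insert_self a s)
    have h2 := ih (fun i hi => hf i (Finset.mem_insert_of_mem hi))
    have h3 := h1.add h2
    have h4 : (fun x => ∑ i ∈ insert a s, f i x) = fun x => f a x + ∑ i ∈ s, f i x := by
      funext x
      rw [Finset.sum_insert ha]
    rw [h4]
    exact h3

theorem prod (a b : ℕ) : Pol (a + b + 1) (fun x => ETX.bin x a * ETX.bin x b) := by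
  have h : (fun x : ℤ_[2] => ETX.bin x a * ETX.bin x b) = fun x =>
      ∑ ij ∈ Finset.HasAntidiagonal.antidiagonal b,
        ((((a + ij.1).choose a : ℕ) : ZMod 2) * ((a.choose ij.2 : ℕ) : ZMod 2)) *
          ETX.bin x (a + ij.1) := by
    funext x
    have h1 : x = (x - (a : ℤ_[2])) + (a : ℤ_[2]) := by ring
    have h2 : ETX.bin x b = ∑ ij ∈ Finset.HasAntidiagonal.antidiagonal b,
        ETX.bin (x - (a : ℤ_[2])) ij.1 * ETX.bin (a : ℤ_[2]) ij.2 := by
      conv_lhs => rw [h1]
      exact vand _ _ _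
    rw [h2, Finset.mul_sum]
    refine Finset.sum_congr rfl fun ij _ => ?_
    have h3 := Ring.choose_smul_choose (x : ℤ_[2]) (Nat.le_add_right a ij.1)
    have h4 : a + ij.1 - a = ij.1 := by omega
    rw [h4] at h3
    have h5 : (((a + ij.1).choose a : ℕ) : ZMod 2) * ETX.bin x (a + ij.1) =
        ETX.bin x a * ETX.bin (x - (a : ℤ_[2])) ij.1 := by
      unfold ETX.bin
      rw [← map_mul, ← h3, nsmul_eq_mul, map_mul, map_natCast]
    rw [natCast]
    calc ETX.bin x a * (ETX.bin (x - (a : ℤ_[2])) ij.1 * ((a.choose ij.2 : ℕ) : ZMod 2))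
        = (ETX.bin x a * ETX.bin (x - (a : ℤ_[2])) ij.1) * ((a.choose ij.2 : ℕ) : ZMod 2) := by
          ring
      _ = _ := by
          rw [← h5]
          ring
  rw [h]
  refine Pol.sum _ fun ij hij => ?_
  have h6 := Finset.HasAntidiagonal.mem_antidiagonal.1 hij
  exact (Pol.bin (by omega)).smul _

theorem mulBin {i k : ℕ} {f : ℤ_[2] → ZMod 2} (hf : Pol (i + 1) f) :
    Pol (i + k + 1) (fun x => f x * ETX.bin x k) := by
  obtain ⟨c, hc⟩ := hf
  have h : (fun x : ℤ_[2] => f x * ETX.bin x k) = fun x =>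
      ∑ m ∈ Finset.range (i + 1), c m * (ETX.bin x m * ETX.bin x k) := by
    funext x
    rw [hc, Finset.sum_mul]
    refine Finset.sum_congr rfl fun m _ => ?_
    ring
  rw [h]
  refine Pol.sum _ fun m hm => ?_
  have hm' := Finset.mem_range.1 hm
  refine Pol.smul _ ?_
  obtain ⟨d, hd⟩ := prod m k
  refine ⟨fun l => if l < m + k + 1 then d l else 0, fun x => ?_⟩
  have h1 : (Finset.range (m + k + 1)) ⊆ Finset.range (i + k + 1) := by
    intro l hl
    rw [Finset.mem_range] at hl ⊢
    omega
  change ETX.bin x m * ETX.bin x k = _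
  have h2 := hd x
  change ETX.bin x m * ETX.bin x k = _ at h2
  rw [h2]
  rw [← Finset.sum_subset h1]
  · refine Finset.sum_congr rfl fun l hl => ?_
    change _ = (if l < m + k + 1 then d l else 0) * _
    rw [if_pos (Finset.mem_range.1 hl)]
  · intro l _ hl
    rw [Finset.mem_range] at hl
    change (if l < m + k + 1 then d l else 0) * _ = 0
    rw [if_neg hl, zero_mul]

theorem natMul (y : ℕ) : ∀ a : ℕ, Pol (a + 1) (fun x => ETX.bin ((y : ℤ_[2]) * x) a) := by
  induction y with
  | zero =>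
    intro a
    rcases Nat.eq_zero_or_pos a with rfl | ha
    · have h : (fun x : ℤ_[2] => ETX.bin (((0 : ℕ) : ℤ_[2]) * x) 0) = fun x => ETX.bin x 0 := by
        funext x
        rw [zero_right, zero_right]
      rw [h]
      exact Pol.bin (by omega)
    · have h : (fun x : ℤ_[2] => ETX.bin (((0 : ℕ) : ℤ_[2]) * x) a) = fun x => 0 := by
        funext x
        rw [Nat.cast_zero, zero_mul]
        exact zero_left a ha
      rw [h]
      exact Pol.zero _
  | succ y ih =>
    intro a
    have h : (fun x : ℤ_[2] => ETX.bin (((y + 1 : ℕ) : ℤ_[2]) * x) a) = fun x =>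
        ∑ ij ∈ Finset.HasAntidiagonal.antidiagonal a,
          ETX.bin ((y : ℤ_[2]) * x) ij.1 * ETX.bin x ij.2 := by
      funext x
      have h1 : ((y + 1 : ℕ) : ℤ_[2]) * x = (y : ℤ_[2]) * x + x := by
        push_cast
        ring
      rw [h1]
      exact vand _ _ _
    rw [h]
    refine Pol.sum _ fun ij hij => ?_
    have h2 := Finset.HasAntidiagonal.mem_antidiagonal.1 hij
    have h3 := mulBin (k := ij.2) (ih ij.1)
    rw [h2] at h3
    exact h3

theorem appr (j : ℕ) (y : ℤ_[2]) : ∃ m : ℕ, (2 : ℤ_[2]) ^ j ∣ y - (m : ℤ_[2]) := by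
  refine ⟨y.appr j, ?_⟩
  have h := PadicInt.appr_spec (p := 2) j y
  rw [Ideal.mem_span_singleton] at h
  exact_mod_cast h

theorem padMul (a : ℕ) (y : ℤ_[2]) : Pol (a + 1) (fun x => ETX.bin (y * x) a) := by
  obtain ⟨m, hm⟩ := appr a y
  have h : (fun x : ℤ_[2] => ETX.bin (y * x) a) = fun x => ETX.bin ((m : ℤ_[2]) * x) a := by
    funext x
    refine per a a Nat.lt_two_pow_self _ _ ?_
    have h1 : y * x - (m : ℤ_[2]) * x = (y - m) * x := by ring
    rw [h1]
    exact Dvd.dvd.mul_right hm x
  rw [h]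
  exact natMul m a

end BIN_

theorem bin_proof : Stmt_BIN :=
  ⟨BIN_.zero_right, BIN_.zero_left, BIN_.one_one, BIN_.one_big, BIN_.vand, BIN_.pw2,
    fun j a ha x y h => BIN_.per j a ha x y h, fun a b => BIN_.prod a b,
    fun a y => BIN_.padMul a y⟩

end Pool.Agent.ETX
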