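import Pool.Agent.ETX.Stmts

/-!
# ETX, module CLI: the climb along characters mod 4
-/

set_option autoImplicit false

namespace Pool.Agent.ETX

open Module

namespace CLI_

/-- Linear algebra of a unipotent operator `t` with `t^4 = 0` whose `ker t^2` has half the
dimension: then `ker t` has a quarter of it. -/
theorem halve {M : Type} [AddCommGroup M] [Module (ZMod 2) M] (Y K2 K1 : Submodule (ZMod 2) M)
    (t : M →ₗ[ZMod 2] M) (hY : ∀ y ∈ Y, t y ∈ Y) (h4 : ∀ y ∈ Y, t (t (t (t y))) = 0)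
    (hK2 : ∀ y, y ∈ K2 ↔ y ∈ Y ∧ t (t y) = 0) (hK1 : ∀ y, y ∈ K1 ↔ y ∈ Y ∧ t y = 0)
    (hf : FiniteDimensional (ZMod 2) Y)
    (hd : finrank (ZMod 2) Y = 2 * finrank (ZMod 2) K2) :
    finrank (ZMod 2) K2 = 2 * finrank (ZMod 2) K1 := by
  have := hf
  have hK2Y : K2 ≤ Y := fun y hy => ((hK2 y).1 hy).1
  have hK1Y : K1 ≤ Y := fun y hy => ((hK1 y).1 hy).1
  let T : Y →ₗ[ZMod 2] Y := t.restrict hY
  have hT : ∀ y : Y, ((T y : Y) : M) = t y := fun y => rfl
  have e2 : LinearMap.ker (T ∘ₗ T) = K2.comap Y.subtype := by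
    ext y
    rw [LinearMap.mem_ker, Submodule.mem_comap, Submodule.coe_subtype, hK2]
    constructor
    · intro h
      refine ⟨y.2, ?_⟩
      have := congrArg (Subtype.val) h
      simpa [hT] using this
    · rintro ⟨_, h⟩
      apply Subtype.ext
      simpa [hT] using h
  have e1 : LinearMap.ker T = K1.comap Y.subtype := by
    ext y
    rw [LinearMap.mem_ker, Submodule.mem_comap, Submodule.coe_subtype, hK1]
    constructor
    · intro h
      refine ⟨y.2, ?_⟩
      have := congrArg (Subtype.val) h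
      simpa [hT] using this
    · rintro ⟨_, h⟩
      apply Subtype.ext
      simpa [hT] using h
  have f2 : finrank (ZMod 2) (LinearMap.ker (T ∘ₗ T)) = finrank (ZMod 2) K2 := by
    rw [e2]
    exact (Submodule.comapSubtypeEquivOfLe hK2Y).finrank_eq
  have f1 : finrank (ZMod 2) (LinearMap.ker T) = finrank (ZMod 2) K1 := by
    rw [e1]
    exact (Submodule.comapSubtypeEquivOfLe hK1Y).finrank_eq
  have r2 := LinearMap.finrank_range_add_finrank_ker (T ∘ₗ T)
  rw [f2, hd] at r2
  have hle : LinearMap.range (T ∘ₗ T) ≤ LinearMap.ker (T ∘ₗ T) := by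
    rintro _ ⟨y, rfl⟩
    rw [LinearMap.mem_ker]
    apply Subtype.ext
    simpa [hT] using h4 y y.2
  have heq : LinearMap.range (T ∘ₗ T) = LinearMap.ker (T ∘ₗ T) := by
    apply Submodule.eq_of_le_of_finrank_eq hle
    rw [f2]
    omega
  -- the restriction of `T` to `ker T^2`
  let S := LinearMap.ker (T ∘ₗ T)
  let R : S →ₗ[ZMod 2] Y := T.domRestrict S
  have hkS : LinearMap.ker T ≤ S := by
    intro y hy
    rw [LinearMap.mem_ker] at hy
    change (T ∘ₗ T) y = 0
    rw [LinearMap.comp_apply, hy, map_zero]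
  have hkR : LinearMap.ker R = (LinearMap.ker T).comap S.subtype := by
    ext y
    rfl
  have hrR : LinearMap.range R = LinearMap.ker T := by
    apply le_antisymm
    · rintro _ ⟨y, rfl⟩
      exact y.2
    · intro z hz
      have hz2 : z ∈ LinearMap.range (T ∘ₗ T) := by
        rw [heq]
        exact hkS hz
      obtain ⟨y, hy⟩ := hz2
      have hTy : T y ∈ S := by
        change (T ∘ₗ T) (T y) = 0
        have : (T ∘ₗ T) (T y) = T ((T ∘ₗ T) y) := rfl
        rw [this, hy]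
        exact hz
      exact ⟨⟨T y, hTy⟩, hy⟩
  have r1 := LinearMap.finrank_range_add_finrank_ker R
  have g1 : finrank (ZMod 2) (LinearMap.ker R) = finrank (ZMod 2) K1 := by
    rw [hkR, (Submodule.comapSubtypeEquivOfLe hkS).finrank_eq, f1]
  rw [hrR, f1, g1] at r1
  have hS : finrank (ZMod 2) S = finrank (ZMod 2) K2 := f2
  rw [hS] at r1
  omega

theorem z4_xor (a b : ZMod 4) (ha : 2 * a ≠ 0) :
    Xor (2 * (b + a) = 0) (2 * b = 0) := by
  revert a b
  decide

theorem z4_xor' (a b : ZMod 4) (ha : 2 * a ≠ 0) (hb : 2 * b = 0) :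
    Xor (b + (a + a) = 0) (b = 0) := by
  revert a b
  decide

theorem z4_gen (a b : ZMod 4) (ha : 2 * a ≠ 0) :
    b = 0 ∨ b = a ∨ b = a + a ∨ b = a + (a + a) := by
  revert a b
  decide

theorem z4_gen' (a b : ZMod 4) (ha : 2 * a ≠ 0) (hb : 2 * b = 0) :
    b = 0 ∨ b = a + a := by
  revert a b
  decide

theorem z4_four (a : ZMod 4) : a + (a + (a + a)) = 0 := by
  revert a
  decide

theorem relIndex_inf {G : Type} [Group G] {A B W W1 : Subgroup G} (hW : W ≤ A) (hB : B ≤ A)
    (hAB : B.relIndex A = 2) (h1 : W1 ≤ W) (h1B : W1 ≤ B) (hW1 : W1.relIndex W = 2) :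
    W.relIndex A = W1.relIndex B := by
  have e1 := Subgroup.relIndex_mul_relIndex W1 W A h1 hW
  have e2 := Subgroup.relIndex_mul_relIndex W1 B A h1B hB
  rw [hW1] at e1
  rw [hAB] at e2
  omega

/-- one step of the climb -/
theorem step {G M : Type} [Group G] [AddCommGroup M] [Module (ZMod 2) M]
    (F : Filt G) (ρ : Representation (ZMod 2) G M) (A B : Subgroup G) (hBA : B ≤ A)
    (χ : G → ZMod 4) (hmul : ∀ g ∈ A, ∀ h ∈ A, χ (g * h) = χ g + χ h)
    (hone : ∃ g ∈ A, χ g = 1) (hker : ∀ g ∈ A, (g ∈ B ↔ 2 * χ g = 0))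
    (hopen : ∃ j, ∀ v ∈ F.V j, χ v = 0) (hA : ∃ j, F.V j ≤ A) (q : ℕ)
    (H : ∀ W : Subgroup G, (∃ j, F.V j ≤ W) → W ≤ B → FiniteDimensional (ZMod 2) (fixd ρ W) ∧
      finrank (ZMod 2) (fixd ρ W) = q * W.relIndex B) :
    ∃ q', q = 2 * q' ∧
      ∀ W : Subgroup G, (∃ j, F.V j ≤ W) → W ≤ A → FiniteDimensional (ZMod 2) (fixd ρ W) ∧
        finrank (ZMod 2) (fixd ρ W) = q' * W.relIndex A := by
  have hχ1 : χ 1 = 0 := by
    have := hmul 1 A.one_mem 1 A.one_mem
    rw [mul_one] at this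
    exact (add_eq_left.1 this.symm)
  have hχinv : ∀ g ∈ A, χ g⁻¹ = - χ g := by
    intro g hg
    have := hmul g hg g⁻¹ (A.inv_mem hg)
    rw [mul_inv_cancel, hχ1] at this
    exact (neg_eq_of_add_eq_zero_right this.symm).symm
  have hAB : B.relIndex A = 2 := by
    rw [Subgroup.relIndex_eq_two_iff]
    obtain ⟨g, hg, hg1⟩ := hone
    refine ⟨g, hg, fun b hb => ?_⟩
    have h1 := hker b hb
    have h2 := hker (b * g) (A.mul_mem hb hg)
    rw [hmul b hb g hg] at h2
    rw [h1, h2]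
    exact z4_xor (χ g) (χ b) (by rw [hg1]; decide)
  -- the main computation for `W` not inside `B`
  have key : ∀ W : Subgroup G, (∃ j, F.V j ≤ W) → W ≤ A → ¬ W ≤ B →
      FiniteDimensional (ZMod 2) (fixd ρ W) ∧
        ∃ W1 : Subgroup G, W1 = W ⊓ B ∧ W1.relIndex W = 2 ∧
        q * W1.relIndex B = 2 * finrank (ZMod 2) (fixd ρ W) := by
    intro W hWo hWA hWB
    obtain ⟨g, hgW, hgB⟩ := SetLike.not_le_iff_exists.1 hWB
    have hgA := hWA hgW
    have hodd : 2 * χ g ≠ 0 := fun h => hgB ((hker g hgA).2 h)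
    let W2 : Subgroup G :=
      { carrier := {w | w ∈ W ∧ χ w = 0}
        mul_mem' := by
          rintro a b ⟨ha, ha'⟩ ⟨hb, hb'⟩
          exact ⟨W.mul_mem ha hb, by rw [hmul a (hWA ha) b (hWA hb), ha', hb', add_zero]⟩
        one_mem' := ⟨W.one_mem, hχ1⟩
        inv_mem' := by
          rintro a ⟨ha, ha'⟩
          exact ⟨W.inv_mem ha, by rw [hχinv a (hWA ha), ha', neg_zero]⟩ }
    have mW2 : ∀ w, w ∈ W2 ↔ w ∈ W ∧ χ w = 0 := fun w => Iff.rfl
    have mW1 : ∀ w, w ∈ W ⊓ B ↔ w ∈ W ∧ 2 * χ w = 0 := by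
      intro w
      rw [Subgroup.mem_inf]
      constructor
      · rintro ⟨h1, h2⟩
        exact ⟨h1, (hker w (hWA h1)).1 h2⟩
      · rintro ⟨h1, h2⟩
        exact ⟨h1, (hker w (hWA h1)).2 h2⟩
    have h21 : W2 ≤ W ⊓ B := by
      intro w hw
      rw [mW1]
      rw [mW2] at hw
      exact ⟨hw.1, by rw [hw.2, mul_zero]⟩
    have hV2 : ∃ j, F.V j ≤ W2 := by
      obtain ⟨j, hj⟩ := hWo
      obtain ⟨j', hj'⟩ := hopen
      refine ⟨max j j', fun v hv => ?_⟩
      rw [mW2]
      exact ⟨hj (F.anti j _ (le_max_left _ _) hv), hj' v (F.anti j' _ (le_max_right _ _) hv)⟩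
    have hV1 : ∃ j, F.V j ≤ W ⊓ B := by
      obtain ⟨j, hj⟩ := hV2
      exact ⟨j, hj.trans h21⟩
    obtain ⟨fd2, d2⟩ := H W2 hV2 (h21.trans inf_le_right)
    obtain ⟨fd1, d1⟩ := H (W ⊓ B) hV1 inf_le_right
    have i21 : W2.relIndex (W ⊓ B) = 2 := by
      rw [Subgroup.relIndex_eq_two_iff]
      have hgg : χ (g * g) = χ g + χ g := hmul g hgA g hgA
      refine ⟨g * g, ?_, fun b hb => ?_⟩
      · rw [mW1]
        refine ⟨W.mul_mem hgW hgW, ?_⟩
        rw [hgg]
        generalize χ g = a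
        revert a
        decide
      · rw [mW1] at hb
        have e := z4_xor' (χ g) (χ b) hodd hb.2
        have h1 : b ∈ W2 ↔ χ b = 0 := ⟨fun h => ((mW2 b).1 h).2, fun h => (mW2 b).2 ⟨hb.1, h⟩⟩
        have h2 : b * (g * g) ∈ W2 ↔ χ b + (χ g + χ g) = 0 := by
          rw [mW2, hmul b (hWA hb.1) (g * g) (A.mul_mem hgA hgA), hgg]
          exact ⟨fun h => h.2, fun h => ⟨W.mul_mem hb.1 (W.mul_mem hgW hgW), h⟩⟩
        rw [h1, h2]
        exact e
    have i1 : (W ⊓ B).relIndex W = 2 := by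
      rw [Subgroup.relIndex_eq_two_iff]
      refine ⟨g, hgW, fun b hb => ?_⟩
      have e := z4_xor (χ g) (χ b) hodd
      have h1 : b ∈ W ⊓ B ↔ 2 * χ b = 0 := ⟨fun h => ((mW1 b).1 h).2, fun h => (mW1 b).2 ⟨hb, h⟩⟩
      have h2 : b * g ∈ W ⊓ B ↔ 2 * (χ b + χ g) = 0 := by
        rw [mW1, hmul b (hWA hb) g hgA]
        exact ⟨fun h => h.2, fun h => ⟨W.mul_mem hb hgW, h⟩⟩
      rw [h1, h2]
      exact e
    have e21 := Subgroup.relIndex_mul_relIndex W2 (W ⊓ B) B h21 inf_le_right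
    rw [i21] at e21
    -- the operator
    let t : M →ₗ[ZMod 2] M := ρ g - 1
    have ht : ∀ y, t y = ρ g y - y := fun y => rfl
    have two : ∀ y : M, y + y = 0 := by
      intro y
      have : (2 : ZMod 2) • y = y + y := two_smul _ y
      rw [← this]
      have h2 : (2 : ZMod 2) = 0 := rfl
      rw [h2, zero_smul]
    have sub_add : ∀ x y : M, x - y = x + y := by
      intro x y
      rw [sub_eq_iff_eq_add, add_assoc, two, add_zero]
    have htt : ∀ y, t (t y) = ρ (g * g) y - y := by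
      intro y
      rw [ht, ht, map_sub, sub_add, sub_add, sub_add, sub_add]
      have : ρ (g * g) y = ρ g (ρ g y) := by
        rw [map_mul]
        rfl
      rw [this]
      have h3 := two (ρ g y)
      calc ρ g (ρ g y) + ρ g y + (ρ g y + y)
          = ρ g (ρ g y) + y + (ρ g y + ρ g y) := by abel
        _ = ρ g (ρ g y) + y := by rw [h3, add_zero]
    have htttt : ∀ y, t (t (t (t y))) = ρ (g * (g * (g * g))) y - y := by
      intro y
      rw [htt (t (t y)), htt y, map_sub, sub_add, sub_add, sub_add, sub_add]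
      have : ρ (g * (g * (g * g))) y = ρ (g * g) (ρ (g * g) y) := by
        have e : g * (g * (g * g)) = (g * g) * (g * g) := by group
        rw [e, map_mul]
        rfl
      rw [this]
      have h3 := two (ρ (g * g) y)
      calc ρ (g * g) (ρ (g * g) y) + ρ (g * g) y + (ρ (g * g) y + y)
          = ρ (g * g) (ρ (g * g) y) + y + (ρ (g * g) y + ρ (g * g) y) := by abel
        _ = ρ (g * g) (ρ (g * g) y) + y := by rw [h3, add_zero]
    have mf : ∀ (X : Subgroup G) (y : M), y ∈ fixd ρ X ↔ ∀ w ∈ X, ρ w y = y := fun X y => Iff.rfl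
    have mulρ : ∀ (a b : G) (y : M), ρ (a * b) y = ρ a (ρ b y) := by
      intro a b y
      rw [map_mul]
      rfl
    -- `w` acts through `g` modulo `W2`
    have act : ∀ y ∈ fixd ρ W2, ∀ c ∈ W, ρ c y = y → ∀ w ∈ W, χ w = χ c → ρ w y = y := by
      intro y hy c hc hcy w hw hwc
      have h1 : c⁻¹ * w ∈ W2 := by
        rw [mW2]
        refine ⟨W.mul_mem (W.inv_mem hc) hw, ?_⟩
        rw [hmul _ (A.inv_mem (hWA hc)) w (hWA hw), hχinv c (hWA hc), hwc]
        exact neg_add_cancel _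
      have h2 := (mf _ _).1 hy _ h1
      have h3 : w = c * (c⁻¹ * w) := by group
      rw [h3, mulρ, h2, hcy]
    have Yst : ∀ y ∈ fixd ρ W2, ρ g y ∈ fixd ρ W2 := by
      intro y hy
      rw [mf]
      intro w hw
      have hwW := ((mW2 w).1 hw).1
      have h1 : g⁻¹ * (w * g) ∈ W2 := by
        rw [mW2]
        refine ⟨W.mul_mem (W.inv_mem hgW) (W.mul_mem hwW hgW), ?_⟩
        rw [hmul _ (A.inv_mem hgA) _ (A.mul_mem (hWA hwW) hgA), hmul w (hWA hwW) g hgA,
          hχinv g hgA, ((mW2 w).1 hw).2, zero_add]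
        exact neg_add_cancel _
      have h2 := (mf _ _).1 hy _ h1
      have h3 : w * g = g * (g⁻¹ * (w * g)) := by group
      rw [← mulρ, h3, mulρ, h2]
    have hd : finrank (ZMod 2) (fixd ρ W2) = 2 * finrank (ZMod 2) (fixd ρ (W ⊓ B)) := by
      rw [d2, d1, ← e21]
      ring
    have hgg1 : χ (g * g) = χ g + χ g := hmul g hgA g hgA
    have hggg1 : χ (g * (g * g)) = χ g + (χ g + χ g) := by
      rw [hmul g hgA _ (A.mul_mem hgA hgA), hgg1]
    have hgggg1 : χ (g * (g * (g * g))) = 0 := by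
      rw [hmul g hgA _ (A.mul_mem hgA (A.mul_mem hgA hgA)), hggg1]
      exact z4_four _
    have res := halve (fixd ρ W2) (fixd ρ (W ⊓ B)) (fixd ρ W) t
      (fun y hy => by
        rw [ht]
        exact Submodule.sub_mem _ (Yst y hy) hy)
      (fun y hy => by
        rw [htttt, sub_eq_zero]
        apply (mf _ _).1 hy
        rw [mW2]
        exact ⟨W.mul_mem hgW (W.mul_mem hgW (W.mul_mem hgW hgW)), hgggg1⟩)
      (fun y => by
        rw [htt, sub_eq_zero]
        constructor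
        · intro hy
          refine ⟨fun w hw => hy w (h21 hw), hy _ ?_⟩
          rw [mW1]
          refine ⟨W.mul_mem hgW hgW, ?_⟩
          rw [hgg1]
          generalize χ g = a
          revert a
          decide
        · rintro ⟨hy, hgy⟩ w hw
          rw [mW1] at hw
          rcases z4_gen' (χ g) (χ w) hodd hw.2 with h | h
          · exact hy w ((mW2 w).2 ⟨hw.1, h⟩)
          · exact act y hy (g * g) (W.mul_mem hgW hgW) hgy w hw.1 (by rw [h, hgg1]))
      (fun y => by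
        rw [ht, sub_eq_zero]
        constructor
        · intro hy
          exact ⟨fun w hw => hy w ((mW2 w).1 hw).1, hy g hgW⟩
        · rintro ⟨hy, hgy⟩ w hw
          have hgy2 : ρ (g * g) y = y := by rw [mulρ, hgy, hgy]
          have hgy3 : ρ (g * (g * g)) y = y := by rw [mulρ, hgy2, hgy]
          rcases z4_gen (χ g) (χ w) hodd with h | h | h | h
          · exact hy w ((mW2 w).2 ⟨hw, h⟩)
          · exact act y hy g hgW hgy w hw h
          · exact act y hy (g * g) (W.mul_mem hgW hgW) hgy2 w hw (by rw [h, hgg1])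
          · exact act y hy (g * (g * g)) (W.mul_mem hgW (W.mul_mem hgW hgW)) hgy3 w hw
              (by rw [h, hggg1]))
      fd2 hd
    refine ⟨?_, W ⊓ B, rfl, i1, ?_⟩
    · have hle : fixd ρ W ≤ fixd ρ (W ⊓ B) := fun y hy w hw => hy w (inf_le_left (a := W) hw)
      exact Submodule.finiteDimensional_of_le hle
    · rw [← d1, res]
  have hAnB : ¬ A ≤ B := by
    intro h
    obtain ⟨g, hg, hg1⟩ := hone
    have := (hker g hg).1 (h hg)
    rw [hg1] at this
    revert this
    decide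
  obtain ⟨_, W1, hW1, _, hq⟩ := key A hA le_rfl hAnB
  have hAB1 : A ⊓ B = B := inf_eq_right.2 hBA
  rw [hW1, hAB1, Subgroup.relIndex_self, mul_one] at hq
  refine ⟨finrank (ZMod 2) (fixd ρ A), hq, fun W hWo hWA => ?_⟩
  by_cases hWB : W ≤ B
  · obtain ⟨fd, d⟩ := H W hWo hWB
    refine ⟨fd, ?_⟩
    have e := Subgroup.relIndex_mul_relIndex W B A hWB hBA
    rw [hAB] at e
    rw [d, hq, ← e]
    ring
  · obtain ⟨fd, W1', hW1', i1, e⟩ := key W hWo hWA hWB
    refine ⟨fd, ?_⟩
    have e3 := relIndex_inf hWA hBA hAB (W1 := W1') (by rw [hW1']; exact inf_le_left)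
      (by rw [hW1']; exact inf_le_right) i1
    rw [e3]
    rw [hq, mul_assoc] at e
    omega

end CLI_

/-- CLI. -/
theorem cli_proof : Stmt_CLI := by
  intro G M _ _ _ D ρ r H
  have hUV : ∀ i, i ≤ D.m → D.U ≤ D.Gc i := by
    intro i hi
    obtain ⟨k, hk⟩ := Nat.exists_eq_add_of_le hi
    induction k generalizing i with
    | zero =>
      have : i = D.m := by omega
      rw [this, D.Gcm]
    | succ k ih =>
      exact (ih (i + 1) (by omega) (by omega)).trans (D.Gcle i (by omega))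
  have hV0 : D.F.V 0 ≤ D.U := fun g hg => ((D.F_spec 0 g).1 hg).1
  have main : ∀ k, k ≤ D.m → ∃ q, r = 2 ^ k * q ∧
      ∀ W : Subgroup G, (∃ j, D.F.V j ≤ W) → W ≤ D.Gc (D.m - k) →
        FiniteDimensional (ZMod 2) (fixd ρ W) ∧
        finrank (ZMod 2) (fixd ρ W) = q * W.relIndex (D.Gc (D.m - k)) := by
    intro k
    induction k with
    | zero =>
      intro _
      refine ⟨r, by simp, ?_⟩
      rw [Nat.sub_zero, D.Gcm]
      exact H
    | succ k ih =>
      intro hk
      obtain ⟨q, hq, hW⟩ := ih (by omega)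
      have him : D.m - (k + 1) < D.m := by omega
      have hi1 : D.m - (k + 1) + 1 = D.m - k := by omega
      have st := CLI_.step D.F ρ (D.Gc (D.m - (k + 1))) (D.Gc (D.m - (k + 1) + 1))
        (D.Gcle _ him) (D.ch (D.m - (k + 1))) (D.ch_mul _ him) (D.ch_one _ him)
        (D.ch_ker _ him) (D.ch_open _ him)
        ⟨0, hV0.trans (hUV _ (by omega))⟩ q (by rw [hi1]; exact hW)
      obtain ⟨q', hq', hW'⟩ := st
      refine ⟨q', ?_, hW'⟩
      rw [hq, hq', pow_succ]
      ring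
  obtain ⟨q, hq, _⟩ := main D.m le_rfl
  exact ⟨q, hq⟩

end Pool.Agent.ETX
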