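import Pool.Agent.ETX.Stmts

/-!
# ETX, module DCC: descending chains of stable subspaces stabilise
-/

set_option autoImplicit false

namespace Pool.Agent.ETX

open Module

namespace DCC_

/-- ascending chains of upper sets in `ℕ^m` stabilise -/
lemma chain {m : ℕ} (D : ℕ → Set (Fin m → ℕ)) (hmono : ∀ i j, i ≤ j → D i ⊆ D j)
    (hup : ∀ i, ∀ a ∈ D i, ∀ b, a ≤ b → b ∈ D i) : ∃ M, ∀ i, M ≤ i → D i ⊆ D M := by
  by_contra hcon
  push_neg at hcon
  -- for every `M` a later index and an element outside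
  have h1 : ∀ M, ∃ i, M ≤ i ∧ ∃ a, a ∈ D i ∧ a ∉ D M := by
    intro M
    obtain ⟨i, hi, hn⟩ := hcon M
    obtain ⟨a, ha, hna⟩ := Set.not_subset.1 hn
    exact ⟨i, hi, a, ha, hna⟩
  choose nx hnx el hel helM using h1
  let s : ℕ → ℕ := fun t => nx^[t] 0
  have hs : ∀ t, s (t + 1) = nx (s t) := fun t => Function.iterate_succ_apply' nx t 0
  have hsm : Monotone s := monotone_nat_of_le_succ fun t => by rw [hs]; exact hnx _
  obtain ⟨t, t', htt, hle⟩ := wellQuasiOrdered_le (α := Fin m → ℕ) (fun t => el (s t))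
  have h2 : el (s t) ∈ D (s (t + 1)) := by rw [hs]; exact hel _
  have h3 : el (s t') ∈ D (s (t + 1)) := hup _ _ h2 _ hle
  have h4 : el (s t') ∈ D (s t') := hmono _ _ (hsm htt) h3
  exact helM _ h4

lemma Deg_mono {I M : Type} [LinearOrder I] [AddCommGroup M] [Module (ZMod 2) M]
    (b : Basis I (ZMod 2) M) {N N' : Submodule (ZMod 2) M} (h : N ≤ N') : Deg b N ⊆ Deg b N' := by
  rintro i ⟨f, hf, h1⟩
  exact ⟨f, h hf, h1⟩

end DCC_

open DCC_ in
theorem dcc_proof (hLTM : Stmt_LTM) (hBAS : Stmt_BAS) (hDWN : Stmt_DWN) : Stmt_DCC := by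
  intro n k s N hN hst
  obtain ⟨B, hB⟩ := (hBAS n s).2.2 k
  have hd := hDWN n k s B hB
  have h1 : ∀ p : Fin k, ∃ M, ∀ i, M ≤ i → {α : Fin (n + 1) → ℕ | ix α p ∉ Deg B (N i)} ⊆
      {α : Fin (n + 1) → ℕ | ix α p ∉ Deg B (N M)} := by
    intro p
    refine chain (fun i => {α : Fin (n + 1) → ℕ | ix α p ∉ Deg B (N i)}) ?_ ?_
    · intro i j hij α hα hc
      exact hα (Deg_mono B (hN hij) hc)
    · intro i α hα β hle hc
      exact hα (hd (N i) (hst i) β α p hc hle)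
  choose M hM using h1
  refine ⟨Finset.univ.sup M, fun m' hm' => ?_⟩
  refine (hLTM (Ixk n k) (Fin k → LC (filt n s)) B).2.1 (N m') (N (Finset.univ.sup M)) (hN hm') ?_
  intro x hx
  obtain ⟨α, p, rfl⟩ : ∃ (α : Fin (n + 1) → ℕ) (p : Fin k), x = ix α p :=
    ⟨ofLex (ofLex x).1, (ofLex x).2, rfl⟩
  by_contra hc
  have hMp : M p ≤ Finset.univ.sup M := Finset.le_sup (Finset.mem_univ p)
  have h2 := hM p m' (hMp.trans hm') (show α ∈ {α : Fin (n + 1) → ℕ | ix α p ∉ Deg B (N m')} from hc)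
  exact h2 (Deg_mono B (hN hMp) hx)

end Pool.Agent.ETX
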