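import Pool.Agent.ETX.Stmts

/-!
Module DIM of the squad ETX: dimensions of the fixed spaces of `LC^k`.
-/

set_option autoImplicit false

namespace Pool.Agent.ETX

open Module

namespace DIM_

variable {H : Type} [Group H]

/-- the fixed vectors of `LC^k` are functions on `H / W` -/
noncomputable def eqv (Φ : Filt H) (k : ℕ) (W : Subgroup H) (hW : ∃ j, Φ.V j ≤ W) :
    (fixd (pw (rt Φ) k) W) ≃ₗ[ZMod 2] (Fin k → (H ⧸ W) → ZMod 2) where
  toFun f := fun p q => Quotient.liftOn' q
    (fun x => ((f : Fin k → LC Φ) p : H → ZMod 2) x) (by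
      intro a b hab
      have h1 : a⁻¹ * b ∈ W := QuotientGroup.leftRel_apply.1 hab
      have h2 := f.2 (a⁻¹ * b) h1
      have h3 := congrArg (fun g : Fin k → LC Φ => (g p : H → ZMod 2) a) h2
      simp only [pw_apply, rt_apply] at h3
      rw [mul_inv_cancel_left] at h3
      exact h3.symm)
  map_add' f g := by
    funext p q
    induction q using Quotient.inductionOn' with
    | h x => rfl
  map_smul' c f := by
    funext p q
    induction q using Quotient.inductionOn' with
    | h x => rfl
  invFun g := ⟨fun p => ⟨fun x => g p (QuotientGroup.mk x), by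
      obtain ⟨j, hj⟩ := hW
      refine ⟨j, fun h v hv => ?_⟩
      have h1 : (QuotientGroup.mk (h * v) : H ⧸ W) = QuotientGroup.mk h := by
        rw [QuotientGroup.eq]
        have h2 : (h * v)⁻¹ * h = v⁻¹ := by group
        rw [h2]
        exact W.inv_mem (hj hv)
      show g p (QuotientGroup.mk (h * v)) = g p (QuotientGroup.mk h)
      rw [h1]⟩, by
      intro w hw
      funext p
      apply Subtype.ext
      funext x
      rw [pw_apply, rt_apply]
      have h1 : (QuotientGroup.mk (x * w) : H ⧸ W) = QuotientGroup.mk x := by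
        rw [QuotientGroup.eq]
        have h2 : (x * w)⁻¹ * x = w⁻¹ := by group
        rw [h2]
        exact W.inv_mem hw
      show g p (QuotientGroup.mk (x * w)) = g p (QuotientGroup.mk x)
      rw [h1]⟩
  left_inv f := by
    apply Subtype.ext
    funext p
    apply Subtype.ext
    funext x
    rfl
  right_inv g := by
    funext p q
    induction q using Quotient.inductionOn' with
    | h x => rfl

theorem smooth (Φ : Filt H) (k : ℕ) : Smooth Φ (pw (rt Φ) k) := by
  intro f
  have h1 : ∀ p, ∃ j, ∀ h, ∀ v ∈ Φ.V j, (f p : H → ZMod 2) (h * v) = (f p : H → ZMod 2) h :=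
    fun p => (f p).2
  choose J hJ using h1
  refine ⟨Finset.univ.sup J, fun v hv => ?_⟩
  funext p
  apply Subtype.ext
  funext x
  rw [pw_apply, rt_apply]
  exact hJ p x v (Φ.anti _ _ (Finset.le_sup (Finset.mem_univ p)) hv)

end DIM_

open DIM_ in
theorem dim_proof : Stmt_DIM := by
  intro H _ Φ k
  have key : ∀ W : Subgroup H, (∃ j, Φ.V j ≤ W) →
      FiniteDimensional (ZMod 2) (fixd (pw (rt Φ) k) W) ∧
      finrank (ZMod 2) (fixd (pw (rt Φ) k) W) = k * W.index := by
    intro W hW
    have hfin : Finite (H ⧸ W) := by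
      obtain ⟨j, hj⟩ := hW
      obtain ⟨c, hc⟩ := Φ.two j
      have h1 : (Φ.V j).index ≠ 0 := by
        rw [hc]
        positivity
      have h2 : W.index ≠ 0 := by
        intro h0
        apply h1
        have h3 := Subgroup.index_dvd_of_le hj
        rw [h0] at h3
        exact Nat.eq_zero_of_zero_dvd h3
      have h4 : W.FiniteIndex := ⟨h2⟩
      exact Subgroup.finite_quotient_of_finiteIndex
    have := Fintype.ofFinite (H ⧸ W)
    refine ⟨?_, ?_⟩
    · exact (eqv Φ k W hW).symm.finiteDimensional
    · rw [(eqv Φ k W hW).finrank_eq, Module.finrank_pi_fintype]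
      simp only [Module.finrank_fintype_fun_eq_card, Finset.sum_const, Finset.card_univ,
        Fintype.card_fin, smul_eq_mul]
      rw [Subgroup.index_eq_card, Nat.card_eq_fintype_card]
  refine ⟨⟨smooth Φ k, (key ⊤ ⟨0, le_top⟩).1⟩, key⟩

end Pool.Agent.ETX
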