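import Pool.Agent.ETX.Stmts

/-! # DVS: integrality -/

set_option autoImplicit false

namespace Pool.Agent.ETX

open Module

namespace DVS_

theorem fix_equiv {H M M' : Type} [Group H] [AddCommGroup M] [Module (ZMod 2) M] [AddCommGroup M']
    [Module (ZMod 2) M'] (ρ : Representation (ZMod 2) H M) (ρ' : Representation (ZMod 2) H M')
    (f : M ≃ₗ[ZMod 2] M') (hf : Equi ρ ρ' f.toLinearMap) (W : Subgroup H) :
    Nonempty (fixd ρ W ≃ₗ[ZMod 2] fixd ρ' W) := by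
  have hf' : ∀ h x, f (ρ h x) = ρ' h (f x) := hf
  have hmap : (fixd ρ W).map f.toLinearMap = fixd ρ' W := by
    ext y
    rw [Submodule.mem_map]
    constructor
    · rintro ⟨x, hx, rfl⟩ w hw
      have := hf' w x
      rw [hx w hw] at this
      exact this.symm
    · intro hy
      refine ⟨f.symm y, ?_, f.apply_symm_apply y⟩
      intro w hw
      apply f.injective
      rw [hf', f.apply_symm_apply]
      exact hy w hw
  exact ⟨(f.submoduleMap (fixd ρ W)).trans (LinearEquiv.ofEq _ _ hmap)⟩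

theorem pull_top {G : Type} [Group G] (D : IData G) : D.pull ⊤ = D.U := by
  ext g
  exact ⟨fun h => h.1, fun h => ⟨h, Subgroup.mem_top _⟩⟩

/-- the statement with the goodness `l` -/
def PP {G : Type} [Group G] (D : IData G) (l : ℕ) : Prop :=
  ∀ (M : Type) [AddCommGroup M] [Module (ZMod 2) M]
    (ρ : Representation (ZMod 2) G M) (σ : Representation (ZMod 2) (Uh D.n D.s) M) (r : ℕ),
    Smooth D.F ρ → FiniteDimensional (ZMod 2) (fixd ρ D.U) → IsHat D ρ σ → HasRk σ r → Good σ l →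
    2 ^ D.m ∣ r

theorem base {G : Type} [Group G] (D : IData G) (hDIM : Stmt_DIM) (hRNK : Stmt_RNK) (hGOC : Stmt_GOC)
    (hEXT : Stmt_EXT) (hCLI : Stmt_CLI) : PP D (D.n + 1) := by
  intro M _ _ ρ σ r hρ hfin hhat hr hgood
  obtain ⟨-, -, hE3, hE4⟩ := hEXT G D
  have htop : fixd σ ⊤ = fixd ρ D.U := by
    rw [hE3 M ρ σ hhat ⊤ 0 le_top, pull_top]
  have hadm : Adm (filt D.n D.s) σ := ⟨hhat.1, by rw [htop]; exact hfin⟩
  obtain ⟨r', f, hf⟩ := hGOC D.n D.s M σ hadm hgood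
  have hdim : ∀ W : Subgroup (Uh D.n D.s), (∃ j, lvl D.n D.s j ≤ W) →
      FiniteDimensional (ZMod 2) (fixd σ W) ∧ finrank (ZMod 2) (fixd σ W) = r' * W.index := by
    intro W hW
    obtain ⟨e⟩ := fix_equiv σ _ f hf W
    obtain ⟨h1, h2⟩ := (hDIM (Uh D.n D.s) (filt D.n D.s) r').2 W hW
    refine ⟨Module.Finite.equiv e.symm, ?_⟩
    rw [e.finrank_eq, h2]
  have hr' : HasRk σ r' := by
    refine ⟨0, fun j => ?_⟩
    have h1 := (hdim (lvl D.n D.s j) ⟨j, le_rfl⟩).2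
    rw [lvl_index, ← pow_mul, mul_comm j] at h1
    rw [h1]
    omega
  have hrr : r = r' := (hRNK D.n D.s).2.1 M σ r r' hr hr'
  apply hCLI G M D ρ r
  rintro W ⟨j, hj⟩ hWU
  obtain ⟨W', hW'j, hW', hidx⟩ := hE4 W j hj hWU
  have h1 : fixd σ W' = fixd ρ W := by
    rw [hE3 M ρ σ hhat W' j hW'j, hW']
  obtain ⟨h2, h3⟩ := hdim W' ⟨j, hW'j⟩
  rw [h1] at h2 h3
  refine ⟨h2, ?_⟩
  rw [h3, hidx, hrr]

theorem step {G : Type} [Group G] (D : IData G) (hEMB : Stmt_EMB) (hDIM : Stmt_DIM) (hADQ : Stmt_ADQ)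
    (hRNK : Stmt_RNK) (hGOB : Stmt_GOB) (hEXT : Stmt_EXT) (hRES : Stmt_RES) (l : ℕ)
    (ih : PP D (l + 1)) : PP D l := by
  intro M _ _ ρ σ r hρ hfin hhat hr hgood
  obtain ⟨hE1, hE2, hE3, -⟩ := hEXT G D
  have hle : fixd ρ (⊤ : Subgroup G) ≤ fixd ρ D.U := fun x hx w _ => hx w (Subgroup.mem_top w)
  have hadm : Adm D.F ρ := ⟨hρ, Submodule.finiteDimensional_of_le hle⟩
  obtain ⟨f, hf, hfi⟩ := hEMB G M D.F ρ hadm (finrank (ZMod 2) (fixd ρ (⊤ : Subgroup G))) le_rfl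
  generalize finrank (ZMod 2) (fixd ρ (⊤ : Subgroup G)) = k at f
  have hN : Stab (pw (rt D.F) k) (LinearMap.range f) := by
    rintro h _ ⟨x, rfl⟩
    exact ⟨ρ h x, hf h x⟩
  set ρ'' := quor (pw (rt D.F) k) (LinearMap.range f) hN with hρ''
  have hp : Equi (pw (rt D.F) k) ρ'' (LinearMap.range f).mkQ := fun h x =>
    (quor_mk (pw (rt D.F) k) (LinearMap.range f) hN h x).symm
  have hsC : Smooth D.F (pw (rt D.F) k) := ((hDIM G D.F k).1).1
  have hs'' : Smooth D.F ρ'' := by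
    intro y
    obtain ⟨x, rfl⟩ := (LinearMap.range f).mkQ_surjective y
    obtain ⟨j, hj⟩ := hsC x
    refine ⟨j, fun v hv => ?_⟩
    rw [← hp v x, hj v hv]
  obtain ⟨σC, hσC⟩ := hE1 _ (pw (rt D.F) k) hsC
  obtain ⟨σ'', hσ''⟩ := hE1 _ ρ'' hs''
  obtain ⟨e, he⟩ := hRES G D k σC hσC
  have h1 : Equi σ σC f := hE2 _ _ ρ _ σ σC f hhat hσC hf
  have h2 : Equi σC σ'' (LinearMap.range f).mkQ := hE2 _ _ _ ρ'' σC σ'' _ hσC hσ'' hp
  have he' : ∀ h x, e (σC h x) = pw (rt (filt D.n D.s)) (2 ^ D.m * k) h (e x) := he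
  have hes : ∀ h y, e.symm (pw (rt (filt D.n D.s)) (2 ^ D.m * k) h y) = σC h (e.symm y) := by
    intro h y
    apply e.injective
    rw [he', e.apply_symm_apply, e.apply_symm_apply]
  have hSES : SES σ (pw (rt (filt D.n D.s)) (2 ^ D.m * k)) σ'' (e.toLinearMap ∘ₗ f)
      ((LinearMap.range f).mkQ ∘ₗ e.symm.toLinearMap) := by
    refine ⟨?_, ?_, ?_, ?_, ?_⟩
    · intro h x
      change e (f (σ h x)) = _
      rw [h1 h x, he']
      rfl
    · intro h y
      change (LinearMap.range f).mkQ (e.symm _) = _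
      rw [hes, h2]
      rfl
    · exact e.injective.comp hfi
    · exact (LinearMap.range f).mkQ_surjective.comp e.symm.surjective
    · intro x
      change (LinearMap.range f).mkQ (e.symm x) = 0 ↔ _
      rw [Submodule.mkQ_apply, Submodule.Quotient.mk_eq_zero]
      constructor
      · rintro ⟨y, hy⟩
        refine ⟨y, ?_⟩
        change e (f y) = x
        rw [hy, e.apply_symm_apply]
      · rintro ⟨y, hy⟩
        refine ⟨y, ?_⟩
        have hy' : e (f y) = x := hy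
        rw [← hy', e.symm_apply_apply]
  have hadmC : Adm (filt D.n D.s) (pw (rt (filt D.n D.s)) (2 ^ D.m * k)) :=
    (hDIM (Uh D.n D.s) (filt D.n D.s) (2 ^ D.m * k)).1
  have hadm'' : Adm (filt D.n D.s) σ'' :=
    (hADQ D.n D.s _ _ _ σ'' _ hSES.ep).1 hSES.surj hadmC
  have hfin'' : FiniteDimensional (ZMod 2) (fixd ρ'' D.U) := by
    have htop : fixd σ'' ⊤ = fixd ρ'' D.U := by
      rw [hE3 _ ρ'' σ'' hσ'' ⊤ 0 le_top, pull_top]
    rw [← htop]
    exact hadm''.2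
  obtain ⟨r'', hr'', -⟩ := (hRNK D.n D.s).1 _ σ'' hadm''
  have hsum : r + r'' = 2 ^ D.m * k := (hRNK D.n D.s).2.2.2 M _ σ σ'' (2 ^ D.m * k) r r'' _ _ hSES hr hr''
  have hgood'' : Good σ'' (l + 1) := hGOB D.n D.s M _ σ σ'' (2 ^ D.m * k) l _ _ hSES hgood
  have hdvd : 2 ^ D.m ∣ r'' := ih _ ρ'' σ'' r'' hs'' hfin'' hσ'' hr'' hgood''
  exact (Nat.dvd_add_iff_left hdvd).2 (by rw [hsum]; exact Dvd.intro _ rfl)

end DVS_

open DVS_ in
theorem dvs_proof (hEMB : Stmt_EMB) (hDIM : Stmt_DIM) (hADQ : Stmt_ADQ) (hRNK : Stmt_RNK)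
    (hGOB : Stmt_GOB) (hGOC : Stmt_GOC) (hEXT : Stmt_EXT) (hRES : Stmt_RES) (hCLI : Stmt_CLI) :
    Stmt_DVS := by
  intro G M _ _ _ D ρ σ r hρ hfin hhat hr
  have hall : ∀ d l : ℕ, l + d = D.n + 1 → PP D l := by
    intro d
    induction d with
    | zero =>
      intro l hl
      have : l = D.n + 1 := by omega
      subst this
      exact base D hDIM hRNK hGOC hEXT hCLI
    | succ d ih =>
      intro l hl
      exact step D hEMB hDIM hADQ hRNK hGOB hEXT hRES l (ih (l + 1) (by omega))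
  exact hall (D.n + 1) 0 (by omega) M ρ σ r hρ hfin hhat hr (fun i hi => absurd hi (Nat.not_lt_zero _))

end Pool.Agent.ETX
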