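import Pool.Agent.ETX.Stmts

/-!
# ETX/DWN: leading exponents of a stable subspace form a lower set
-/

set_option autoImplicit false

namespace Pool.Agent.ETX

open Module

namespace DWN_

variable {n k : ℕ} {s : ℤ_[2]}

theorem below_mono {I M : Type} [LinearOrder I] [AddCommGroup M] [Module (ZMod 2) M]
    (b : Basis I (ZMod 2) M) {i j : I} (h : i ≤ j) : below b i ≤ below b j :=
  Submodule.span_mono (Set.image_mono fun _ hl => lt_of_lt_of_le hl h)

theorem mem_below {I M : Type} [LinearOrder I] [AddCommGroup M] [Module (ZMod 2) M]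
    (b : Basis I (ZMod 2) M) {i j : I} (h : i < j) : b i ∈ below b j :=
  Submodule.subset_span ⟨i, h, rfl⟩

/-- `X_i f = gen_i f - f` -/
noncomputable def X (n k : ℕ) (s : ℤ_[2]) (i : Fin (n + 1)) :
    (Fin k → LC (filt n s)) →ₗ[ZMod 2] (Fin k → LC (filt n s)) :=
  pw (rt (filt n s)) k (gen n s i) - LinearMap.id

theorem X_apply (i : Fin (n + 1)) (f : Fin k → LC (filt n s)) :
    X n k s i f = pw (rt (filt n s)) k (gen n s i) f - f := rfl

theorem X_single (i : Fin (n + 1)) (q : Fin k) (y : LC (filt n s)) :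
    X n k s i (Pi.single q y) = Pi.single q (rt (filt n s) (gen n s i) y - y) := by
  funext r
  rw [X_apply, Pi.sub_apply, pw_apply]
  by_cases h : r = q
  · subst h
    rw [Pi.single_eq_same, Pi.single_eq_same]
  · rw [Pi.single_eq_of_ne h, Pi.single_eq_of_ne h, map_zero, sub_zero]

theorem B_eq (B : Basis (Ixk n k) (ZMod 2) (Fin k → LC (filt n s))) (hB : IsEk B)
    (b : Basis (Ix n) (ZMod 2) (LC (filt n s))) (hb : IsE b) (α : Fin (n + 1) → ℕ) (p : Fin k) :
    B (ix α p) = Pi.single p (b (toLex α)) := by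
  funext q
  apply Subtype.ext
  rw [hB α p q]
  by_cases h : q = p
  · subst h
    rw [if_pos rfl, Pi.single_eq_same, hb α]
  · rw [if_neg h, Pi.single_eq_of_ne h]
    rfl

theorem ix_lt_of {α β : Fin (n + 1) → ℕ} (p q : Fin k) (h : toLex α < toLex β) :
    ix α p < ix β q := by
  rw [Prod.Lex.lt_iff]
  exact Or.inl h

theorem toLex_sub_lt {α γ : Fin (n + 1) → ℕ} {i : Fin (n + 1)} (hα : 1 ≤ α i) (hγ : 1 ≤ γ i)
    (h : toLex γ < toLex α) :
    toLex (γ - Pi.single i 1) < toLex (α - Pi.single i 1) := by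
  obtain ⟨l, hl, hl2⟩ := h
  refine ⟨l, fun j hj => ?_, ?_⟩
  · have := hl j hj
    show (γ - Pi.single i 1 : Fin (n + 1) → ℕ) j = (α - Pi.single i 1 : Fin (n + 1) → ℕ) j
    rw [Pi.sub_apply, Pi.sub_apply]
    have h3 : γ j = α j := this
    rw [h3]
  · show (γ - Pi.single i 1 : Fin (n + 1) → ℕ) l < (α - Pi.single i 1 : Fin (n + 1) → ℕ) l
    have h3 : γ l < α l := hl2
    rw [Pi.sub_apply, Pi.sub_apply]
    by_cases hli : l = i
    · subst hli
      rw [Pi.single_eq_same]
      omega
    · rw [Pi.single_eq_of_ne hli]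
      omega

/-- the leading term of `X_i B(γ, q)` -/
theorem X_B (hO : Stmt_OPS) (B : Basis (Ixk n k) (ZMod 2) (Fin k → LC (filt n s)))
    (hB : IsEk B) (b : Basis (Ix n) (ZMod 2) (LC (filt n s))) (hb : IsE b) (i : Fin (n + 1))
    (γ : Fin (n + 1) → ℕ) (q : Fin k) :
    (γ i = 0 → X n k s i (B (ix γ q)) = 0) ∧
    (1 ≤ γ i → X n k s i (B (ix γ q)) - B (ix (γ - Pi.single i 1) q) ∈
      below B (ix (γ - Pi.single i 1) q)) := by
  have hO' := hO n s b hb γ i
  constructor
  · intro h
    rw [B_eq B hB b hb, X_single, hO'.1 h, sub_self, Pi.single_zero]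
  · intro h
    -- the extra terms
    have h1 : rt (filt n s) (gen n s i) (b (toLex γ)) - b (toLex γ) -
        b (toLex (γ - Pi.single i 1)) ∈
        Submodule.span (ZMod 2) (b '' {δ | δ < toLex (γ - Pi.single i 1)}) := by
      by_cases hi : i = Fin.last n
      · subst hi
        refine Submodule.span_mono (Set.image_mono ?_) (hO'.2.2 h)
        rintro δ ⟨hδ1, hδ2⟩
        refine ⟨Fin.last n, fun j hj => ?_, ?_⟩
        · show ofLex δ j = (γ - Pi.single (Fin.last n) 1 : Fin (n + 1) → ℕ) j
          rw [hδ1 j (ne_of_lt hj), Pi.sub_apply, Pi.single_eq_of_ne (ne_of_lt hj)]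
          omega
        · show ofLex δ (Fin.last n) < (γ - Pi.single (Fin.last n) 1 : Fin (n + 1) → ℕ) (Fin.last n)
          rw [Pi.sub_apply, Pi.single_eq_same]
          omega
      · refine Submodule.span_mono (Set.image_mono ?_) (hO'.2.1 h hi)
        rintro δ ⟨hδ1, hδ2⟩
        refine ⟨i, fun j hj => ?_, ?_⟩
        · show ofLex δ j = (γ - Pi.single i 1 : Fin (n + 1) → ℕ) j
          have hj2 : j ≠ Fin.last n := by
            intro h5
            rw [h5] at hj
            exact absurd (Fin.le_last i) (not_le_of_gt hj)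
          rw [hδ1 j (ne_of_lt hj) hj2, Pi.sub_apply, Pi.single_eq_of_ne (ne_of_lt hj)]
          omega
        · show ofLex δ i < (γ - Pi.single i 1 : Fin (n + 1) → ℕ) i
          rw [Pi.sub_apply, Pi.single_eq_same]
          omega
    have h2 : X n k s i (B (ix γ q)) - B (ix (γ - Pi.single i 1) q) =
        LinearMap.single (ZMod 2) (fun _ : Fin k => LC (filt n s)) q
          (rt (filt n s) (gen n s i) (b (toLex γ)) - b (toLex γ) -
            b (toLex (γ - Pi.single i 1))) := by
      rw [B_eq B hB b hb, B_eq B hB b hb, X_single, LinearMap.single_apply, ← Pi.single_sub]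
    rw [h2]
    have h3 := Submodule.mem_map_of_mem
      (f := LinearMap.single (ZMod 2) (fun _ : Fin k => LC (filt n s)) q) h1
    rw [Submodule.map_span] at h3
    refine Submodule.span_mono ?_ h3
    rintro _ ⟨_, ⟨δ, hδ, rfl⟩, rfl⟩
    refine ⟨ix (ofLex δ) q, ix_lt_of q q hδ, ?_⟩
    rw [B_eq B hB b hb, LinearMap.single_apply]
    rfl

/-- one step -/
theorem step (hO : Stmt_OPS) (B : Basis (Ixk n k) (ZMod 2) (Fin k → LC (filt n s)))
    (hB : IsEk B) (b : Basis (Ix n) (ZMod 2) (LC (filt n s))) (hb : IsE b)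
    (N : Submodule (ZMod 2) (Fin k → LC (filt n s))) (hN : Stab (pw (rt (filt n s)) k) N)
    (i : Fin (n + 1)) (α : Fin (n + 1) → ℕ) (p : Fin k) (hα : 1 ≤ α i)
    (h : ix α p ∈ Deg B N) : ix (α - Pi.single i 1) p ∈ Deg B N := by
  obtain ⟨f, hf, hf2⟩ := h
  refine ⟨X n k s i f, N.sub_mem (hN _ hf) hf, ?_⟩
  have h1 : below B (ix α p) ≤ (below B (ix (α - Pi.single i 1) p)).comap (X n k s i) := by
    rw [below, Submodule.span_le]
    rintro _ ⟨c, hc, rfl⟩
    show X n k s i (B c) ∈ below B (ix (α - Pi.single i 1) p)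
    obtain ⟨γ, q, rfl⟩ : ∃ (γ : Fin (n + 1) → ℕ) (q : Fin k), c = ix γ q :=
      ⟨ofLex (ofLex c).1, (ofLex c).2, rfl⟩
    have hXB := X_B hO B hB b hb i γ q
    by_cases hγ : γ i = 0
    · rw [hXB.1 hγ]
      exact Submodule.zero_mem _
    · have hγ' : 1 ≤ γ i := Nat.one_le_iff_ne_zero.2 hγ
      have hlt : ix (γ - Pi.single i 1) q < ix (α - Pi.single i 1) p := by
        have hc' : ix γ q < ix α p := hc
        rw [Prod.Lex.lt_iff] at hc' ⊢
        rcases hc' with h3 | ⟨h3, h4⟩
        · exact Or.inl (toLex_sub_lt hα hγ' h3)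
        · refine Or.inr ⟨?_, h4⟩
          have h5 : γ = α := toLex.injective h3
          rw [h5]
          rfl
      have h4 := hXB.2 hγ'
      have h5 := Submodule.add_mem _ (below_mono B hlt.le h4) (mem_below B hlt)
      rwa [sub_add_cancel] at h5
  have h2 := h1 hf2
  have h3 : X n k s i (f - B (ix α p)) ∈ below B (ix (α - Pi.single i 1) p) := h2
  have h4 := (X_B hO B hB b hb i α p).2 hα
  have h5 := Submodule.add_mem _ h3 h4
  have e : X n k s i (f - B (ix α p)) + (X n k s i (B (ix α p)) - B (ix (α - Pi.single i 1) p)) =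
      X n k s i f - B (ix (α - Pi.single i 1) p) := by
    rw [map_sub]
    abel
  rwa [e] at h5

end DWN_

open DWN_ in
theorem dwn_proof (_hLTM : Stmt_LTM) (hBAS : Stmt_BAS) (hOPS : Stmt_OPS) : Stmt_DWN := by
  intro n k s B hB N hN α β p hα hβ
  obtain ⟨b, hb⟩ := (hBAS n s).1
  -- induction on the sum of the differences
  have key : ∀ (m : ℕ) (α : Fin (n + 1) → ℕ), ∑ i, (α i - β i) = m → ix α p ∈ Deg B N →
      β ≤ α → ix β p ∈ Deg B N := by
    intro m
    induction m with
    | zero =>
      intro α hm hα hβ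
      have h : β = α := by
        funext i
        have h1 : α i - β i = 0 := (Finset.sum_eq_zero_iff.1 hm) i (Finset.mem_univ i)
        have h2 : β i ≤ α i := hβ i
        omega
      rw [h]
      exact hα
    | succ m ih =>
      intro α hm hα hβ
      obtain ⟨i, hi⟩ : ∃ i, β i < α i := by
        by_contra hcon
        push Not at hcon
        have : ∑ i, (α i - β i) = 0 := Finset.sum_eq_zero fun i _ => by
          have := hcon i
          omega
        omega
      refine ih (α - Pi.single i 1) ?_ (step hOPS B hB b hb N hN i α p (by omega) hα) ?_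
      · have h1 : ∀ l, (α l - β l) = ((α - Pi.single i 1 : Fin (n + 1) → ℕ) l - β l) +
            (Pi.single i 1 : Fin (n + 1) → ℕ) l := by
          intro l
          rw [Pi.sub_apply]
          by_cases hl : l = i
          · subst hl
            rw [Pi.single_eq_same]
            omega
          · rw [Pi.single_eq_of_ne hl]
            omega
        have h2 : ∑ l, (α l - β l) = ∑ l, ((α - Pi.single i 1 : Fin (n + 1) → ℕ) l - β l) +
            ∑ l, (Pi.single i 1 : Fin (n + 1) → ℕ) l := by
          rw [← Finset.sum_add_distrib]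
          exact Finset.sum_congr rfl fun l _ => h1 l
        rw [hm, Finset.sum_pi_single'] at h2
        simp only [Finset.mem_univ, if_true] at h2
        omega
      · intro l
        show β l ≤ (α - Pi.single i 1 : Fin (n + 1) → ℕ) l
        rw [Pi.sub_apply]
        by_cases hl : l = i
        · subst hl
          rw [Pi.single_eq_same]
          omega
        · rw [Pi.single_eq_of_ne hl]
          exact hβ l
  exact key _ α rfl hα hβ

end Pool.Agent.ETX
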