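import Pool.Agent.ETX.Stmts

set_option autoImplicit false

namespace Pool.Agent.ETX

open Module

namespace EMB_

/-- a finite-dimensional space of dimension at most `k` embeds in `F_2^k` -/
theorem exists_inj {W : Type} [AddCommGroup W] [Module (ZMod 2) W]
    [FiniteDimensional (ZMod 2) W] (k : ℕ) (hk : finrank (ZMod 2) W ≤ k) :
    ∃ L : W →ₗ[ZMod 2] (Fin k → ZMod 2), ∀ x, L x = 0 → x = 0 := by
  let b := Module.finBasis (ZMod 2) W
  refine ⟨LinearMap.pi fun p : Fin k =>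
    if h : (p : ℕ) < finrank (ZMod 2) W then b.coord ⟨p, h⟩ else 0, fun x hx => ?_⟩
  apply b.ext_elem_iff.2
  intro i
  have h1 := congrFun hx ⟨(i : ℕ), i.2.trans_le hk⟩
  simp only [LinearMap.pi_apply, Fin.is_lt, dite_true, Pi.zero_apply] at h1
  rw [map_zero]
  exact h1

end EMB_

theorem emb_proof (hFRO : Stmt_FRO) (hFIX : Stmt_FIX) : Stmt_EMB := by
  intro H M _ _ _ Φ ρ hadm k hk
  have hfd : FiniteDimensional (ZMod 2) (fixd ρ ⊤) := hadm.2
  obtain ⟨L0, hL0⟩ := EMB_.exists_inj k hk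
  obtain ⟨L, hL⟩ := LinearMap.exists_extend L0
  have hex : ∀ p : Fin k, ∃ f : M →ₗ[ZMod 2] LC Φ, Equi ρ (rt Φ) f ∧
      ∀ x, (f x : H → ZMod 2) 1 = (LinearMap.proj p ∘ₗ L) x :=
    fun p => hFRO H M Φ ρ hadm.1 _
  choose f hf1 hf2 using hex
  have hE : Equi ρ (pw (rt Φ) k) (LinearMap.pi f) := by
    intro h x
    funext p
    rw [pw_apply]
    exact hf1 p h x
  refine ⟨LinearMap.pi f, hE, ?_⟩
  rw [← LinearMap.ker_eq_bot]
  by_contra hne
  obtain ⟨y, hy, hy0, hinv⟩ := hFIX H M Φ ρ hadm.1 (LinearMap.ker (LinearMap.pi f))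
    (by
      intro h x hx
      rw [Submodule.mem_comap, LinearMap.mem_ker, hE h x, LinearMap.mem_ker.1 hx, map_zero]) hne
  apply hy0
  have hyW : y ∈ fixd ρ ⊤ := fun w _ => hinv w
  have h1 : L0 ⟨y, hyW⟩ = 0 := by
    have h2 : L0 ⟨y, hyW⟩ = L y := by
      rw [← hL]
      rfl
    rw [h2]
    funext p
    have h3 := hf2 p y
    have h4 : f p y = 0 := congrFun (LinearMap.mem_ker.1 hy) p
    rw [h4] at h3
    exact h3.symm
  exact congrArg Subtype.val (hL0 _ h1)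

end Pool.Agent.ETX
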