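import Pool.Agent.ETX.Stmts

/-!
Module EXT: extension of the action of `U` to `Uh`.
-/

set_option autoImplicit false

namespace Pool.Agent.ETX

open Module

namespace EXT_

section basics

variable {G : Type} [Group G] (D : IData G)

theorem kap_one : D.kap 1 = 1 := by
  have h := D.kap_mul 1 D.U.one_mem 1 D.U.one_mem
  rw [mul_one] at h
  exact (mul_eq_left (a := D.kap 1) (b := D.kap 1)).1 h.symm

theorem kap_inv {a : G} (ha : a ∈ D.U) : D.kap a⁻¹ = (D.kap a)⁻¹ := by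
  have h := D.kap_mul a⁻¹ (D.U.inv_mem ha) a ha
  rw [inv_mul_cancel, kap_one D] at h
  exact eq_inv_of_mul_eq_one_left h.symm

/-- comparison of two approximations -/
theorem comp {u u' : G} (hu : u ∈ D.U) (hu' : u' ∈ D.U) {j : ℕ}
    (h : (D.kap u)⁻¹ * D.kap u' ∈ lvl D.n D.s j) : u⁻¹ * u' ∈ D.F.V j := by
  rw [D.F_spec]
  refine ⟨D.U.mul_mem (D.U.inv_mem hu) hu', ?_⟩
  rw [D.kap_mul _ (D.U.inv_mem hu) _ hu', kap_inv D hu]
  exact h

theorem comp2 {u u' : G} (hu : u ∈ D.U) (hu' : u' ∈ D.U) {j : ℕ} {k : Uh D.n D.s}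
    (h : (D.kap u)⁻¹ * k ∈ lvl D.n D.s j) (h' : (D.kap u')⁻¹ * k ∈ lvl D.n D.s j) :
    u⁻¹ * u' ∈ D.F.V j := by
  apply comp D hu hu'
  have h1 := (lvl D.n D.s j).mul_mem h ((lvl D.n D.s j).inv_mem h')
  have h2 : (D.kap u)⁻¹ * k * ((D.kap u')⁻¹ * k)⁻¹ = (D.kap u)⁻¹ * D.kap u' := by group
  rw [h2] at h1
  exact h1

theorem lvl_anti {i j : ℕ} (h : i ≤ j) : lvl D.n D.s j ≤ lvl D.n D.s i :=
  (filt D.n D.s).anti i j h

theorem lvl_conj {j : ℕ} {a : Uh D.n D.s} (ha : a ∈ lvl D.n D.s j) (g : Uh D.n D.s) :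
    g⁻¹ * a * g ∈ lvl D.n D.s j := by
  have h := ((filt D.n D.s).nrm j).conj_mem a ha g⁻¹
  rw [inv_inv] at h
  exact h

theorem V_conj {j : ℕ} {a : G} (ha : a ∈ D.F.V j) (g : G) : g⁻¹ * a * g ∈ D.F.V j := by
  have h := (D.F.nrm j).conj_mem a ha g⁻¹
  rw [inv_inv] at h
  exact h

end basics

section ext

variable {G : Type} [Group G] (D : IData G) {M : Type} [AddCommGroup M] [Module (ZMod 2) M]
  (ρ : Representation (ZMod 2) G M)

/-- `V j` fixes `x` -/
def Fx (j : ℕ) (x : M) : Prop := ∀ v ∈ D.F.V j, ρ v x = x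

/-- `u` approximates `k` at level `j` -/
def Ap (j : ℕ) (k : Uh D.n D.s) (u : G) : Prop := u ∈ D.U ∧ (D.kap u)⁻¹ * k ∈ lvl D.n D.s j

variable {D} {ρ}

theorem Fx.mono {i j : ℕ} {x : M} (h : Fx D ρ i x) (hij : i ≤ j) : Fx D ρ j x :=
  fun v hv => h v (D.F.anti i j hij hv)

theorem Ap.mono {i j : ℕ} {k : Uh D.n D.s} {u : G} (h : Ap D j k u) (hij : i ≤ j) : Ap D i k u :=
  ⟨h.1, lvl_anti D hij h.2⟩

theorem eq_of_ap {j : ℕ} {x : M} {k : Uh D.n D.s} {u u' : G} (hx : Fx D ρ j x)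
    (hu : Ap D j k u) (hu' : Ap D j k u') : ρ u x = ρ u' x := by
  have h1 := comp2 D hu.1 hu'.1 hu.2 hu'.2
  have h2 := hx _ h1
  calc ρ u x = ρ u (ρ (u⁻¹ * u') x) := by rw [h2]
    _ = (ρ u * ρ (u⁻¹ * u')) x := rfl
    _ = ρ u' x := by rw [← map_mul, mul_inv_cancel_left]

theorem eq_of_ap2 {i j : ℕ} {x : M} {k : Uh D.n D.s} {u u' : G} (hx : Fx D ρ i x)
    (hx' : Fx D ρ j x) (hu : Ap D i k u) (hu' : Ap D j k u') : ρ u x = ρ u' x := by
  obtain ⟨w, hw1, hw2⟩ := D.kap_onto k (max i j)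
  have hw : Ap D (max i j) k w := ⟨hw1, hw2⟩
  rw [eq_of_ap hx hu (hw.mono (le_max_left i j)), eq_of_ap hx' hu' (hw.mono (le_max_right i j))]

theorem fx_conj {j : ℕ} {x : M} (hx : Fx D ρ j x) (g : G) : Fx D ρ j (ρ g x) := by
  intro v hv
  have h1 : ρ v (ρ g x) = (ρ v * ρ g) x := rfl
  have h2 : v * g = g * (g⁻¹ * v * g) := by group
  rw [h1, ← map_mul, h2, map_mul]
  show ρ g (ρ (g⁻¹ * v * g) x) = ρ g x
  rw [hx _ (V_conj D hv g)]

end ext

end EXT_

open EXT_ in
theorem ext_one (G : Type) [Group G] (D : IData G) (M : Type) [AddCommGroup M]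
    [Module (ZMod 2) M] (ρ : Representation (ZMod 2) G M) (hρ : Smooth D.F ρ) :
    ∃ σ, IsHat D ρ σ := by
  have hJ : ∀ x : M, ∃ j, Fx D ρ j x := hρ
  choose J hJ using hJ
  have hA : ∀ (k : Uh D.n D.s) (j : ℕ), ∃ u, Ap D j k u := by
    intro k j
    obtain ⟨u, h1, h2⟩ := D.kap_onto k j
    exact ⟨u, h1, h2⟩
  choose A hA using hA
  have key : ∀ (k : Uh D.n D.s) (x : M) (j : ℕ) (u : G), Fx D ρ j x → Ap D j k u →
      ρ (A k (J x)) x = ρ u x := fun k x j u hx hu => eq_of_ap2 (hJ x) hx (hA k (J x)) hu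
  let sg : Uh D.n D.s → M →ₗ[ZMod 2] M := fun k =>
    { toFun := fun x => ρ (A k (J x)) x
      map_add' := by
        intro x y
        have hx := (hJ x).mono (le_max_left (J x) (J y))
        have hy := (hJ y).mono (le_max_right (J x) (J y))
        have hxy : Fx D ρ (max (J x) (J y)) (x + y) := by
          intro v hv
          rw [map_add, hx v hv, hy v hv]
        rw [key k x _ _ hx (hA k _), key k y _ _ hy (hA k _), key k (x + y) _ _ hxy (hA k _),
          map_add]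
      map_smul' := by
        intro c x
        have hcx : Fx D ρ (J x) (c • x) := by
          intro v hv
          rw [map_smul, hJ x v hv]
        rw [key k (c • x) _ _ hcx (hA k _), map_smul]
        rfl }
  have hsg : ∀ (k : Uh D.n D.s) (x : M) (j : ℕ) (u : G), Fx D ρ j x → Ap D j k u →
      sg k x = ρ u x := key
  have ap_one : ∀ (j : ℕ) (v : Uh D.n D.s), v ∈ lvl D.n D.s j → Ap D j v 1 := by
    intro j v hv
    refine ⟨D.U.one_mem, ?_⟩
    rw [kap_one D, inv_one, one_mul]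
    exact hv
  let σ : Representation (ZMod 2) (Uh D.n D.s) M :=
    { toFun := sg
      map_one' := by
        ext x
        rw [hsg 1 x (J x) 1 (hJ x) (ap_one _ 1 (Subgroup.one_mem _)), map_one]
      map_mul' := by
        intro k k'
        ext x
        show sg (k * k') x = sg k (sg k' x)
        have h1 := hA k' (J x)
        have h2 := hA k (J x)
        rw [hsg k' x _ _ (hJ x) h1, hsg k _ _ _ (fx_conj (hJ x) _) h2]
        have h3 : Ap D (J x) (k * k') (A k (J x) * A k' (J x)) := by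
          refine ⟨D.U.mul_mem h2.1 h1.1, ?_⟩
          rw [D.kap_mul _ h2.1 _ h1.1]
          have h4 := lvl_conj D h2.2 (D.kap (A k' (J x)))
          have h5 := Subgroup.mul_mem _ h4 h1.2
          have h6 : (D.kap (A k' (J x)))⁻¹ * ((D.kap (A k (J x)))⁻¹ * k) * D.kap (A k' (J x)) *
              ((D.kap (A k' (J x)))⁻¹ * k') =
              (D.kap (A k (J x)) * D.kap (A k' (J x)))⁻¹ * (k * k') := by group
          rw [h6] at h5
          exact h5
        rw [hsg (k * k') x _ _ (hJ x) h3, map_mul]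
        rfl }
  refine ⟨σ, ?_, ?_⟩
  · intro x
    refine ⟨J x, fun v hv => ?_⟩
    have h := hsg v x (J x) 1 (hJ x) (ap_one _ v hv)
    rw [map_one] at h
    exact h
  · intro u hu
    ext x
    refine hsg (D.kap u) x (J x) u (hJ x) ⟨hu, ?_⟩
    rw [inv_mul_cancel]
    exact Subgroup.one_mem _

open EXT_ in
/-- the value of the extension -/
theorem hat_val {G : Type} [Group G] {D : IData G} {M : Type} [AddCommGroup M]
    [Module (ZMod 2) M] {ρ : Representation (ZMod 2) G M}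
    {σ : Representation (ZMod 2) (Uh D.n D.s) M} (hσ : IsHat D ρ σ) {j : ℕ} {x : M}
    (hx : ∀ v ∈ lvl D.n D.s j, σ v x = x) {k : Uh D.n D.s} {u : G} (hu : Ap D j k u) :
    σ k x = ρ u x := by
  have h1 : k = D.kap u * ((D.kap u)⁻¹ * k) := by group
  calc σ k x = σ (D.kap u * ((D.kap u)⁻¹ * k)) x := by rw [← h1]
    _ = σ (D.kap u) (σ ((D.kap u)⁻¹ * k) x) := by rw [map_mul]; rfl
    _ = ρ u x := by rw [hx _ hu.2, hσ.2 u hu.1]

open EXT_ in
theorem ext_two (G : Type) [Group G] (D : IData G) (M M' : Type) [AddCommGroup M]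
    [Module (ZMod 2) M] [AddCommGroup M'] [Module (ZMod 2) M'] (ρ : Representation (ZMod 2) G M)
    (ρ' : Representation (ZMod 2) G M') (σ : Representation (ZMod 2) (Uh D.n D.s) M)
    (σ' : Representation (ZMod 2) (Uh D.n D.s) M') (f : M →ₗ[ZMod 2] M')
    (h : IsHat D ρ σ) (h' : IsHat D ρ' σ') (he : Equi ρ ρ' f) : Equi σ σ' f := by
  intro k x
  obtain ⟨i, hi⟩ := h.1 x
  obtain ⟨j, hj⟩ := h'.1 (f x)
  obtain ⟨u, h1, h2⟩ := D.kap_onto k (max i j)
  have hu : Ap D (max i j) k u := ⟨h1, h2⟩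
  rw [hat_val h hi (hu.mono (le_max_left i j)), hat_val h' hj (hu.mono (le_max_right i j)), he]

open EXT_ in
theorem ext_three (G : Type) [Group G] (D : IData G) (M : Type) [AddCommGroup M]
    [Module (ZMod 2) M] (ρ : Representation (ZMod 2) G M)
    (σ : Representation (ZMod 2) (Uh D.n D.s) M) (h : IsHat D ρ σ)
    (W : Subgroup (Uh D.n D.s)) (j : ℕ) (hj : lvl D.n D.s j ≤ W) :
    fixd σ W = fixd ρ (D.pull W) := by
  ext x
  constructor
  · intro hx g hg
    rw [← h.2 g hg.1]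
    exact hx _ hg.2
  · intro hx w hw
    obtain ⟨i, hi⟩ := h.1 x
    obtain ⟨u, h1, h2⟩ := D.kap_onto w (max i j)
    have hu : Ap D (max i j) w u := ⟨h1, h2⟩
    rw [hat_val h hi (hu.mono (le_max_left i j))]
    apply hx
    refine ⟨h1, ?_⟩
    have h3 := hj (hu.mono (le_max_right i j)).2
    have h4 := W.mul_mem hw (W.inv_mem h3)
    have h5 : w * ((D.kap u)⁻¹ * w)⁻¹ = D.kap u := by group
    rw [h5] at h4
    exact h4

open EXT_ in
theorem ext_four (G : Type) [Group G] (D : IData G) (W : Subgroup G) (j : ℕ)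
    (hV : D.F.V j ≤ W) (hU : W ≤ D.U) :
    ∃ W' : Subgroup (Uh D.n D.s), lvl D.n D.s j ≤ W' ∧ D.pull W' = W ∧
      W'.index = W.relIndex D.U := by
  let W' : Subgroup (Uh D.n D.s) :=
    { carrier := {k | ∃ w ∈ W, (D.kap w)⁻¹ * k ∈ lvl D.n D.s j}
      mul_mem' := by
        rintro a b ⟨w, hw, ha⟩ ⟨w', hw', hb⟩
        refine ⟨w * w', W.mul_mem hw hw', ?_⟩
        rw [D.kap_mul w (hU hw) w' (hU hw')]
        have h4 := lvl_conj D ha (D.kap w')
        have h5 := Subgroup.mul_mem _ h4 hb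
        have h6 : (D.kap w')⁻¹ * ((D.kap w)⁻¹ * a) * D.kap w' * ((D.kap w')⁻¹ * b) =
            (D.kap w * D.kap w')⁻¹ * (a * b) := by group
        rw [h6] at h5
        exact h5
      one_mem' := by
        refine ⟨1, W.one_mem, ?_⟩
        rw [kap_one D, inv_one, one_mul]
        exact Subgroup.one_mem _
      inv_mem' := by
        rintro a ⟨w, hw, ha⟩
        refine ⟨w⁻¹, W.inv_mem hw, ?_⟩
        rw [kap_inv D (hU hw), inv_inv]
        have h4 := lvl_conj D (Subgroup.inv_mem _ ha) (D.kap w)⁻¹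
        rw [inv_inv] at h4
        have h6 : D.kap w * ((D.kap w)⁻¹ * a)⁻¹ * (D.kap w)⁻¹ = D.kap w * a⁻¹ := by group
        rw [h6] at h4
        exact h4 }
  have hmem : ∀ k, k ∈ W' ↔ ∃ w ∈ W, (D.kap w)⁻¹ * k ∈ lvl D.n D.s j := fun k => Iff.rfl
  have hl : lvl D.n D.s j ≤ W' := by
    intro k hk
    refine ⟨1, W.one_mem, ?_⟩
    rw [kap_one D, inv_one, one_mul]
    exact hk
  have hkap : ∀ g ∈ D.U, (D.kap g ∈ W' ↔ g ∈ W) := by
    intro g hg
    rw [hmem]
    constructor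
    · rintro ⟨w, hw, h1⟩
      have h2 := hV (comp D (hU hw) hg h1)
      have h3 := W.mul_mem hw h2
      rw [mul_inv_cancel_left] at h3
      exact h3
    · intro hw
      refine ⟨g, hw, ?_⟩
      rw [inv_mul_cancel]
      exact Subgroup.one_mem _
  refine ⟨W', hl, ?_, ?_⟩
  · ext g
    constructor
    · intro hg
      exact (hkap g hg.1).1 hg.2
    · intro hg
      exact ⟨hU hg, (hkap g (hU hg)).2 hg⟩
  · have hrel : ∀ a b : D.U, (QuotientGroup.leftRel (W.subgroupOf D.U)) a b ↔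
        (QuotientGroup.leftRel W') (D.kap a) (D.kap b) := by
      intro a b
      rw [QuotientGroup.leftRel_apply, QuotientGroup.leftRel_apply, Subgroup.mem_subgroupOf]
      have h1 : (D.kap (a : G))⁻¹ * D.kap (b : G) = D.kap ((a : G)⁻¹ * (b : G)) := by
        rw [D.kap_mul _ (D.U.inv_mem a.2) _ b.2, kap_inv D a.2]
      rw [h1, hkap _ (D.U.mul_mem (D.U.inv_mem a.2) b.2)]
      rfl
    let f : D.U ⧸ (W.subgroupOf D.U) → (Uh D.n D.s) ⧸ W' :=
      Quotient.map' (fun u : D.U => D.kap (u : G)) (fun a b h => (hrel a b).1 h)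
    have hf : Function.Bijective f := by
      constructor
      · rintro ⟨a⟩ ⟨b⟩ hab
        apply Quotient.sound'
        exact (hrel a b).2 (Quotient.exact' hab)
      · rintro ⟨k⟩
        obtain ⟨u, h1, h2⟩ := D.kap_onto k j
        refine ⟨Quotient.mk'' ⟨u, h1⟩, ?_⟩
        apply Quotient.sound'
        rw [QuotientGroup.leftRel_apply]
        exact hl h2
    have hc := Nat.card_congr (Equiv.ofBijective f hf)
    show W'.index = (W.subgroupOf D.U).index
    rw [Subgroup.index_eq_card, Subgroup.index_eq_card, hc]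

theorem ext_proof : Stmt_EXT := by
  intro G _ D
  exact ⟨ext_one G D, ext_two G D, ext_three G D, ext_four G D⟩

end Pool.Agent.ETX
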