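import Pool.Agent.ETX.Stmts

/-!
Module FIX: a non-zero stable subspace of a smooth module contains a non-zero invariant vector.
-/

set_option autoImplicit false

namespace Pool.Agent.ETX

open Module

theorem fix_proof : Stmt_FIX := by
  intro H M _ _ _ Φ ρ hS N hN hne
  obtain ⟨x, hx, hx0⟩ := Submodule.exists_mem_ne_zero_of_ne_bot hne
  obtain ⟨j, hj⟩ := hS x
  obtain ⟨c, hc⟩ := Φ.two j
  have hnor := Φ.nrm j
  have hidx : (Φ.V j).index ≠ 0 := by rw [hc]; positivity
  have hfi : (Φ.V j).FiniteIndex := ⟨hidx⟩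
  -- the orbit is finite
  have horb : (Set.range fun h : H => ρ h x).Finite := by
    let f : H ⧸ Φ.V j → M := Quotient.lift (fun h : H => ρ h x) (by
      intro a b hab
      have h1 : a⁻¹ * b ∈ Φ.V j := QuotientGroup.leftRel_apply.1 hab
      have h2 := hj _ h1
      calc ρ a x = ρ a (ρ (a⁻¹ * b) x) := by rw [h2]
        _ = ρ (a * (a⁻¹ * b)) x := by rw [map_mul ρ a]; rfl
        _ = ρ b x := by rw [mul_inv_cancel_left])
    have hfin : Finite (H ⧸ Φ.V j) := Subgroup.finite_quotient_of_finiteIndex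
    refine (Set.finite_range f).subset ?_
    rintro _ ⟨h, rfl⟩
    exact ⟨Quotient.mk _ h, rfl⟩
  let Y : Submodule (ZMod 2) M := Submodule.span (ZMod 2) (Set.range fun h : H => ρ h x)
  have hxY : x ∈ Y := Submodule.subset_span ⟨1, by simp⟩
  have hfd : FiniteDimensional (ZMod 2) Y := FiniteDimensional.span_of_finite _ horb
  have hYf : Finite Y := Module.finite_of_finite (ZMod 2)
  have hYN : Y ≤ N := by
    rw [Submodule.span_le]
    rintro _ ⟨h, rfl⟩
    exact hN h hx
  have hYs : ∀ h : H, ∀ y ∈ Y, ρ h y ∈ Y := by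
    intro h
    change Y ≤ Y.comap (ρ h)
    rw [Submodule.span_le]
    rintro _ ⟨g, rfl⟩
    refine Submodule.subset_span ⟨h * g, ?_⟩
    change ρ (h * g) x = ρ h (ρ g x)
    rw [map_mul]
    rfl
  have hYv : ∀ v ∈ Φ.V j, ∀ y ∈ Y, ρ v y = y := by
    have h1 : Y ≤ fixd ρ (Φ.V j) := by
      rw [Submodule.span_le]
      rintro _ ⟨g, rfl⟩
      intro v hv
      have h2 : g⁻¹ * v * g ∈ Φ.V j := by
        have := hnor.conj_mem v hv g⁻¹
        rwa [inv_inv] at this
      calc ρ v (ρ g x) = ρ (v * g) x := by rw [map_mul]; rfl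
        _ = ρ (g * (g⁻¹ * v * g)) x := by congr 2; group
        _ = ρ g (ρ (g⁻¹ * v * g) x) := by rw [map_mul ρ g]; rfl
        _ = ρ g x := by rw [hj _ h2]
    intro v hv y hy
    exact h1 hy v hv
  let act : MulAction H Y :=
    { smul := fun h y => ⟨ρ h y, hYs h y y.2⟩
      one_smul := fun y => Subtype.ext (by
        change ρ 1 (y : M) = y
        rw [map_one]; rfl)
      mul_smul := fun a b y => Subtype.ext (by
        change ρ (a * b) (y : M) = ρ a (ρ b y)
        rw [map_mul]; rfl) }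
  have hact : ∀ (h : H) (y : Y), ((MulAction.toPermHom H Y h y : Y) : M) = ρ h y :=
    fun h y => rfl
  have hP : IsPGroup 2 (MulAction.toPermHom H Y).range := by
    rintro ⟨_, h, rfl⟩
    refine ⟨c, Subtype.ext ?_⟩
    change (MulAction.toPermHom H Y h) ^ 2 ^ c = 1
    rw [← map_pow, ← hc]
    ext y
    rw [hact]
    exact hYv _ (Subgroup.pow_index_mem (Φ.V j) h) y y.2
  have hcard : 2 ∣ Nat.card Y := by
    rw [Module.natCard_eq_pow_finrank (K := ZMod 2) (V := Y)]
    have h1 : 0 < finrank (ZMod 2) Y := by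
      have : Nontrivial Y := ⟨⟨⟨x, hxY⟩, 0, fun h => hx0 (congrArg Subtype.val h)⟩⟩
      exact Module.finrank_pos
    have h2 : Nat.card (ZMod 2) = 2 := by simp
    rw [h2]
    exact dvd_pow_self 2 h1.ne'
  have h0 : (0 : Y) ∈ MulAction.fixedPoints (MulAction.toPermHom H Y).range Y := by
    rintro ⟨_, h, rfl⟩
    change MulAction.toPermHom H Y h 0 = 0
    apply Subtype.ext
    rw [hact]
    simp
  obtain ⟨b, hb, hb0⟩ :=
    hP.exists_fixed_point_of_prime_dvd_card_of_fixed_point Y hcard h0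
  refine ⟨b, hYN b.2, fun h => hb0 (Subtype.ext h.symm), fun h => ?_⟩
  have h5 := hb ⟨MulAction.toPermHom H Y h, h, rfl⟩
  exact congrArg Subtype.val h5

end Pool.Agent.ETX
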