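import Pool.Agent.ETX.Stmts

set_option autoImplicit false

namespace Pool.Agent.ETX

open Module

theorem fro_proof : Stmt_FRO := by
  intro H M _ _ _ Φ ρ hs lam
  refine ⟨{ toFun := fun x => ⟨fun h => lam (ρ h x), ?_⟩
            map_add' := ?_
            map_smul' := ?_ }, ?_, ?_⟩
  · obtain ⟨j, hj⟩ := hs x
    refine ⟨j, fun h v hv => ?_⟩
    change lam (ρ (h * v) x) = lam (ρ h x)
    rw [map_mul, Module.End.mul_apply, hj v hv]
  · intro x y
    apply Subtype.ext
    funext h
    change lam (ρ h (x + y)) = lam (ρ h x) + lam (ρ h y)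
    rw [map_add, map_add]
  · intro c x
    apply Subtype.ext
    funext h
    change lam (ρ h (c • x)) = c • lam (ρ h x)
    rw [map_smul, map_smul]
  · intro g x
    apply Subtype.ext
    funext h
    change lam (ρ h (ρ g x)) = lam (ρ (h * g) x)
    rw [map_mul, Module.End.mul_apply]
  · intro x
    change lam (ρ 1 x) = lam x
    rw [map_one, Module.End.one_apply]

end Pool.Agent.ETX
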