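import Pool.Agent.ETX.Stmts

/-!
# ETX, module GOA: `LC^k` is good
-/

set_option autoImplicit false

namespace Pool.Agent.ETX

open Module

namespace GOA_

variable {n : ℕ} {s : ℤ_[2]}

theorem bin_zero_right (z : ℤ_[2]) : bin z 0 = 1 := by
  unfold bin
  simp

theorem bin_zero_left (a : ℕ) (ha : 0 < a) : bin 0 a = 0 := by
  unfold bin
  obtain ⟨b, rfl⟩ := Nat.exists_eq_succ_of_ne_zero ha.ne'
  rw [Nat.succ_eq_add_one, Ring.choose_zero_succ, map_zero]

/-- set the coordinates below `i` to zero -/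
noncomputable def cut (i : Fin (n + 1)) (x : Uh n s) : Uh n s := fun l => if l < i then 0 else x l

/-- span of the basis vectors with zero exponents below `i` -/
noncomputable def SS (b : Basis (Ix n) (ZMod 2) (LC (filt n s))) (i : Fin (n + 1)) :
    Submodule (ZMod 2) (LC (filt n s)) :=
  Submodule.span (ZMod 2) (b '' {β | ∀ l, l < i → ofLex β l = 0})

theorem basis_fixed (b : Basis (Ix n) (ZMod 2) (LC (filt n s))) (hb : IsE b)
    (i : Fin (n + 1)) (α : Fin (n + 1) → ℕ) (hα : ∀ l, l < i → α l = 0) :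
    b (toLex α) ∈ fixd (rt (filt n s)) (subA n s i) := by
  intro v hv
  apply Subtype.ext
  funext x
  rw [rt_apply, hb α]
  unfold Ef
  refine Finset.prod_congr rfl fun l _ => ?_
  by_cases hl : l < i
  · rw [hα l hl, bin_zero_right, bin_zero_right]
  · have h1 : v l = 0 := hv l (by
      rw [not_lt] at hl
      exact hl)
    rw [mul_apply, h1, mul_zero, add_zero]

theorem SS_le (b : Basis (Ix n) (ZMod 2) (LC (filt n s))) (hb : IsE b) (i : Fin (n + 1)) :
    SS b i ≤ fixd (rt (filt n s)) (subA n s i) := by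
  unfold SS
  rw [Submodule.span_le]
  rintro _ ⟨β, hβ, rfl⟩
  exact basis_fixed b hb i (ofLex β) hβ

theorem cut_mem (i : Fin (n + 1)) (x : Uh n s) : x⁻¹ * cut i x ∈ subA n s i := by
  intro l hl
  have h1 := congrFun (mul_inv_cancel_left x (cut i x)) l
  rw [mul_apply] at h1
  have h2 : cut i x l = x l := by
    unfold cut
    rw [if_neg]
    rw [not_lt]
    exact hl
  rw [h2] at h1
  have h3 : chi x * (x⁻¹ * cut i x) l = 0 := by linear_combination h1
  exact ((chi_isUnit x).mul_right_eq_zero).1 h3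

theorem Ef_cut (i : Fin (n + 1)) (α : Fin (n + 1) → ℕ) (x : Uh n s) :
    Ef n s α (cut i x) = if ∀ l, l < i → α l = 0 then Ef n s α x else 0 := by
  split_ifs with h
  · unfold Ef
    refine Finset.prod_congr rfl fun l _ => ?_
    by_cases hl : l < i
    · rw [h l hl, bin_zero_right, bin_zero_right]
    · unfold cut
      rw [if_neg hl]
  · push Not at h
    obtain ⟨l, hl, hl2⟩ := h
    unfold Ef
    apply Finset.prod_eq_zero (Finset.mem_univ l)
    have h3 : cut i x l = 0 := by
      unfold cut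
      rw [if_pos hl]
    rw [h3]
    exact bin_zero_left _ (Nat.pos_of_ne_zero hl2)

theorem cut_in (b : Basis (Ix n) (ZMod 2) (LC (filt n s))) (hb : IsE b) (i : Fin (n + 1))
    (f : LC (filt n s)) : ∃ g ∈ SS b i, ∀ x, (g : Uh n s → ZMod 2) x =
      (f : Uh n s → ZMod 2) (cut i x) := by
  have hf : f ∈ Submodule.span (ZMod 2) (Set.range b) := by
    rw [b.span_eq]
    exact Submodule.mem_top
  induction hf using Submodule.span_induction with
  | mem f h =>
    obtain ⟨β, rfl⟩ := h
    by_cases hβ : ∀ l, l < i → ofLex β l = 0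
    · refine ⟨b β, Submodule.subset_span ⟨β, hβ, rfl⟩, fun x => ?_⟩
      have h1 := hb (ofLex β)
      rw [toLex_ofLex] at h1
      rw [h1, Ef_cut, if_pos hβ]
    · refine ⟨0, Submodule.zero_mem _, fun x => ?_⟩
      have h1 := hb (ofLex β)
      rw [toLex_ofLex] at h1
      rw [h1, Ef_cut, if_neg hβ]
      rfl
  | zero => exact ⟨0, Submodule.zero_mem _, fun x => rfl⟩
  | add f g _ _ hf hg =>
    obtain ⟨f', hf', hf2⟩ := hf
    obtain ⟨g', hg', hg2⟩ := hg
    refine ⟨f' + g', Submodule.add_mem _ hf' hg', fun x => ?_⟩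
    change (f' : Uh n s → ZMod 2) x + (g' : Uh n s → ZMod 2) x = _
    rw [hf2, hg2]
    rfl
  | smul c f _ hf =>
    obtain ⟨f', hf', hf2⟩ := hf
    refine ⟨c • f', Submodule.smul_mem _ c hf', fun x => ?_⟩
    change c • (f' : Uh n s → ZMod 2) x = _
    rw [hf2]
    rfl

theorem fixd_le (b : Basis (Ix n) (ZMod 2) (LC (filt n s))) (hb : IsE b) (i : Fin (n + 1)) :
    fixd (rt (filt n s)) (subA n s i) ≤ SS b i := by
  intro f hf
  obtain ⟨g, hg, hg2⟩ := cut_in b hb i f
  have h1 : f = g := by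
    apply Subtype.ext
    funext x
    rw [hg2 x]
    have h2 := hf _ (cut_mem i x)
    have h3 := congrFun (congrArg Subtype.val h2) x
    have h4 : (rt (filt n s) (x⁻¹ * cut i x) f : Uh n s → ZMod 2) x =
        (f : Uh n s → ZMod 2) (x * (x⁻¹ * cut i x)) := rt_apply _ _ _ _
    rw [h4, mul_inv_cancel_left] at h3
    exact h3.symm
  rw [h1]
  exact hg

/-- `X_i` -/
noncomputable def XX (i : Fin (n + 1)) : LC (filt n s) →ₗ[ZMod 2] LC (filt n s) :=
  rt (filt n s) (gen n s i) - LinearMap.id

theorem XX_apply (i : Fin (n + 1)) (f : LC (filt n s)) :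
    XX i f = rt (filt n s) (gen n s i) f - f := rfl

theorem surj_basis (hOPS : Stmt_OPS) (b : Basis (Ix n) (ZMod 2) (LC (filt n s)))
    (hb : IsE b) (i : Fin (n + 1)) : ∀ (N : ℕ) (α : Fin (n + 1) → ℕ), α i ≤ N →
      (∀ l, l < i → α l = 0) → b (toLex α) ∈ (SS b i).map (XX i) := by
  intro N
  induction N using Nat.strong_induction_on with
  | _ N ih =>
    intro α hN hα
    set α' : Fin (n + 1) → ℕ := α + Pi.single i 1 with hα'
    have hai : α' i = α i + 1 := by
      rw [hα']
      simp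
    have hal : ∀ l, l ≠ i → α' l = α l := by
      intro l hl
      rw [hα']
      simp [hl]
    have hsub : α' - Pi.single i 1 = α := by
      rw [hα']
      exact add_tsub_cancel_right _ _
    have hmem : b (toLex α') ∈ SS b i := by
      apply Submodule.subset_span
      refine ⟨toLex α', ?_, rfl⟩
      intro l hl
      rw [ofLex_toLex, hal l (ne_of_lt hl)]
      exact hα l hl
    have key : XX i (b (toLex α')) - b (toLex α) ∈
        Submodule.span (ZMod 2) (b '' {β | (∀ l, l < i → ofLex β l = 0) ∧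
          ofLex β i + 1 ≤ α i}) := by
      rcases hOPS n s b hb α' i with ⟨-, h2, h3⟩
      by_cases hi : i = Fin.last n
      · subst hi
        have h4 := h3 (by omega)
        rw [hsub] at h4
        refine Submodule.span_mono ?_ h4
        apply Set.image_mono
        rintro β ⟨hβ1, hβ2⟩
        refine ⟨fun l hl => ?_, by omega⟩
        rw [hβ1 l (ne_of_lt hl), hal l (ne_of_lt hl)]
        exact hα l hl
      · have h4 := h2 (by omega) hi
        rw [hsub] at h4
        refine Submodule.span_mono ?_ h4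
        apply Set.image_mono
        rintro β ⟨hβ1, hβ2⟩
        refine ⟨fun l hl => ?_, by omega⟩
        have hl2 : l ≠ Fin.last n := by
          intro h
          rw [h] at hl
          exact absurd (Fin.le_last i) (not_le.2 hl)
        rw [hβ1 l (ne_of_lt hl) hl2, hal l (ne_of_lt hl)]
        exact hα l hl
    have hle : Submodule.span (ZMod 2) (b '' {β | (∀ l, l < i → ofLex β l = 0) ∧
          ofLex β i + 1 ≤ α i}) ≤ (SS b i).map (XX i) := by
      rw [Submodule.span_le]
      rintro _ ⟨β, ⟨hβ1, hβ2⟩, rfl⟩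
      exact ih (ofLex β i) (by omega) (ofLex β) le_rfl hβ1
    have h5 : b (toLex α) = XX i (b (toLex α')) - (XX i (b (toLex α')) - b (toLex α)) := by
      abel
    rw [h5]
    exact Submodule.sub_mem _ ⟨_, hmem, rfl⟩ (hle key)

theorem surj_SS (hOPS : Stmt_OPS) (b : Basis (Ix n) (ZMod 2) (LC (filt n s)))
    (hb : IsE b) (i : Fin (n + 1)) : SS b i ≤ (SS b i).map (XX i) := by
  conv_lhs => unfold SS
  rw [Submodule.span_le]
  rintro _ ⟨β, hβ, rfl⟩
  exact surj_basis hOPS b hb i _ (ofLex β) le_rfl hβ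

theorem one_copy (hBAS : Stmt_BAS) (hOPS : Stmt_OPS) (i : Fin (n + 1))
    (f : LC (filt n s)) (hf : f ∈ fixd (rt (filt n s)) (subA n s i)) :
    ∃ g ∈ fixd (rt (filt n s)) (subA n s i), rt (filt n s) (gen n s i) g - g = f := by
  obtain ⟨⟨b, hb⟩, -, -⟩ := hBAS n s
  obtain ⟨g, hg, hg2⟩ := surj_SS hOPS b hb i (fixd_le b hb i hf)
  exact ⟨g, SS_le b hb i hg, hg2⟩

end GOA_

theorem goa_proof (hBAS : Stmt_BAS) (hOPS : Stmt_OPS) : Stmt_GOA := by
  intro n k s i _ y hy
  have h1 : ∀ p : Fin k, ∃ g ∈ fixd (rt (filt n s)) (subA n s i),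
      rt (filt n s) (gen n s i) g - g = y p := by
    intro p
    apply GOA_.one_copy hBAS hOPS i (y p)
    intro v hv
    have h2 := congrFun (hy v hv) p
    rw [pw_apply] at h2
    exact h2
  choose g hg hg2 using h1
  refine ⟨g, ?_, ?_⟩
  · intro v hv
    funext p
    rw [pw_apply]
    exact hg p v hv
  · funext p
    exact hg2 p

end Pool.Agent.ETX
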