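import Pool.Agent.ETX.Defs

/-!
# ETX: statements of the modules (recipes: /team-store/MP_d26ff6_ETX.md)
-/

set_option autoImplicit false

namespace Pool.Agent.ETX

open Module

/-! ## Part A: general smooth representations -/

/-- FRO: Frobenius reciprocity. -/
def Stmt_FRO : Prop :=
  ∀ (H M : Type) [Group H] [AddCommGroup M] [Module (ZMod 2) M] (Φ : Filt H)
    (ρ : Representation (ZMod 2) H M), Smooth Φ ρ → ∀ lam : M →ₗ[ZMod 2] ZMod 2,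
    ∃ f : M →ₗ[ZMod 2] LC Φ, Equi ρ (rt Φ) f ∧ ∀ x, (f x : H → ZMod 2) 1 = lam x

/-- FIX: a non-zero stable subspace of a smooth module contains a non-zero invariant vector. -/
def Stmt_FIX : Prop :=
  ∀ (H M : Type) [Group H] [AddCommGroup M] [Module (ZMod 2) M] (Φ : Filt H)
    (ρ : Representation (ZMod 2) H M), Smooth Φ ρ → ∀ N : Submodule (ZMod 2) M, Stab ρ N →
    N ≠ ⊥ → ∃ y ∈ N, y ≠ 0 ∧ ∀ h, ρ h y = y

/-- EMB: an admissible module embeds in `LC^k`, `k ≥ dim M^H`. -/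
def Stmt_EMB : Prop :=
  ∀ (H M : Type) [Group H] [AddCommGroup M] [Module (ZMod 2) M] (Φ : Filt H)
    (ρ : Representation (ZMod 2) H M), Adm Φ ρ → ∀ k : ℕ, finrank (ZMod 2) (fixd ρ ⊤) ≤ k →
    ∃ f : M →ₗ[ZMod 2] (Fin k → LC Φ), Equi ρ (pw (rt Φ) k) f ∧ Function.Injective f

/-- INJ: `LC^a` is injective. -/
def Stmt_INJ : Prop :=
  ∀ (H M M' : Type) [Group H] [AddCommGroup M] [Module (ZMod 2) M] [AddCommGroup M']
    [Module (ZMod 2) M'] (Φ : Filt H) (ρ : Representation (ZMod 2) H M)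
    (ρ' : Representation (ZMod 2) H M'), Smooth Φ ρ' → ∀ i : M →ₗ[ZMod 2] M', Equi ρ ρ' i →
    Function.Injective i → ∀ (a : ℕ) (f : M →ₗ[ZMod 2] (Fin a → LC Φ)),
    Equi ρ (pw (rt Φ) a) f →
    ∃ g : M' →ₗ[ZMod 2] (Fin a → LC Φ), Equi ρ' (pw (rt Φ) a) g ∧ g ∘ₗ i = f

/-- DIM: `dim (LC^k)^W = k [H : W]` for open `W`; `LC^k` is admissible. -/
def Stmt_DIM : Prop :=
  ∀ (H : Type) [Group H] (Φ : Filt H) (k : ℕ), Adm Φ (pw (rt Φ) k) ∧
    ∀ W : Subgroup H, (∃ j, Φ.V j ≤ W) →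
      FiniteDimensional (ZMod 2) (fixd (pw (rt Φ) k) W) ∧
      finrank (ZMod 2) (fixd (pw (rt Φ) k) W) = k * W.index

/-- MON: for admissible `M` and open `W`: `M^W` is finite and `dim M^W ≤ dim M^H [H:W]`. -/
def Stmt_MON : Prop :=
  ∀ (H M : Type) [Group H] [AddCommGroup M] [Module (ZMod 2) M] (Φ : Filt H)
    (ρ : Representation (ZMod 2) H M), Adm Φ ρ → ∀ W : Subgroup H, (∃ j, Φ.V j ≤ W) →
    FiniteDimensional (ZMod 2) (fixd ρ W) ∧
    finrank (ZMod 2) (fixd ρ W) ≤ finrank (ZMod 2) (fixd ρ ⊤) * W.index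

/-! ## Part B: leading terms (pure linear algebra over `F_2`) -/

/-- LTM -/
def Stmt_LTM : Prop :=
  ∀ (I M : Type) [LinearOrder I] [WellFoundedLT I] [AddCommGroup M] [Module (ZMod 2) M]
    (b : Basis I (ZMod 2) M),
    (∀ f : M, f ≠ 0 → ∃ i, f - b i ∈ below b i) ∧
    (∀ N' N : Submodule (ZMod 2) M, N' ≤ N → Deg b N ⊆ Deg b N' → N' = N) ∧
    (∀ N : Submodule (ZMod 2) M, IsCompl N (Submodule.span (ZMod 2) (b '' (Deg b N)ᶜ))) ∧
    (∀ N : Submodule (ZMod 2) M, (Deg b N).Finite →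
      FiniteDimensional (ZMod 2) N ∧ finrank (ZMod 2) N = (Deg b N).ncard) ∧
    (∀ N : Submodule (ZMod 2) M, FiniteDimensional (ZMod 2) N → (Deg b N).Finite) ∧
    Deg b ⊤ = Set.univ ∧
    (∀ (N : Submodule (ZMod 2) M) (i : I), i ∉ Deg b N → ∀ f ∈ N, f - b i ∉ below b i)

/-! ## Part C: the concrete group and its locally constant functions -/

/-- BIN: binomial coefficients mod 2. -/
def Stmt_BIN : Prop :=
  (∀ z, bin z 0 = 1) ∧ (∀ a, 0 < a → bin 0 a = 0) ∧ bin 1 1 = 1 ∧ (∀ a, 1 < a → bin 1 a = 0) ∧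
  (∀ x y a, bin (x + y) a = ∑ ij ∈ Finset.HasAntidiagonal.antidiagonal a, bin x ij.1 * bin y ij.2) ∧
  (∀ (t : ℕ) (z : ℤ_[2]) (a : ℕ),
    bin (2 ^ t * z) a = if 2 ^ t ∣ a then bin z (a / 2 ^ t) else 0) ∧
  (∀ (j a : ℕ), a < 2 ^ j → ∀ x y : ℤ_[2], (2 : ℤ_[2]) ^ j ∣ x - y → bin x a = bin y a) ∧
  (∀ a b : ℕ, ∃ c : ℕ → ZMod 2, ∀ x : ℤ_[2],
    bin x a * bin x b = ∑ m ∈ Finset.range (a + b + 1), c m * bin x m) ∧
  (∀ a : ℕ, ∀ y : ℤ_[2], ∃ c : ℕ → ZMod 2, ∀ x : ℤ_[2],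
    bin (y * x) a = ∑ m ∈ Finset.range (a + 1), c m * bin x m)

/-- one variable: the `bin · a`, `a < 2^j`, are a basis of the functions of period `2^j`. -/
def Stmt_BI1 : Prop :=
  ∀ (j : ℕ) (f : ℤ_[2] → ZMod 2), (∀ x y : ℤ_[2], (2 : ℤ_[2]) ^ j ∣ x - y → f x = f y) →
    ∃! c : Fin (2 ^ j) → ZMod 2, ∀ x, f x = ∑ a, c a * bin x a

/-- `b` is the Mahler basis of `LC`. -/
def IsE {n : ℕ} {s : ℤ_[2]} (b : Basis (Ix n) (ZMod 2) (LC (filt n s))) : Prop :=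
  ∀ α : Fin (n + 1) → ℕ, ((b (toLex α) : LC (filt n s)) : Uh n s → ZMod 2) = Ef n s α

/-- `B` is the Mahler basis of `LC^k`. -/
def IsEk {n k : ℕ} {s : ℤ_[2]}
    (B : Basis (Ixk n k) (ZMod 2) (Fin k → LC (filt n s))) : Prop :=
  ∀ (α : Fin (n + 1) → ℕ) (p q : Fin k),
    ((B (ix α p) q : LC (filt n s)) : Uh n s → ZMod 2) = if q = p then Ef n s α else 0

/-- BAS: existence of the bases, and the functions of level `j`. -/
def Stmt_BAS : Prop :=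
  ∀ (n : ℕ) (s : ℤ_[2]),
    (∃ b : Basis (Ix n) (ZMod 2) (LC (filt n s)), IsE b) ∧
    (∀ b : Basis (Ix n) (ZMod 2) (LC (filt n s)), IsE b → ∀ j : ℕ,
      fixd (rt (filt n s)) (lvl n s j) =
        Submodule.span (ZMod 2) (b '' {α | ∀ i, (ofLex α) i < 2 ^ j})) ∧
    ∀ k : ℕ, ∃ B : Basis (Ixk n k) (ZMod 2) (Fin k → LC (filt n s)), IsEk B

/-- OPS: the action of the generators on the Mahler basis. -/
def Stmt_OPS : Prop :=
  ∀ (n : ℕ) (s : ℤ_[2]) (b : Basis (Ix n) (ZMod 2) (LC (filt n s))), IsE b →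
    ∀ (α : Fin (n + 1) → ℕ) (i : Fin (n + 1)),
    (α i = 0 → rt (filt n s) (gen n s i) (b (toLex α)) = b (toLex α)) ∧
    (1 ≤ α i → i ≠ Fin.last n →
      rt (filt n s) (gen n s i) (b (toLex α)) - b (toLex α) -
        b (toLex (α - Pi.single i 1)) ∈
      Submodule.span (ZMod 2) (b '' {β | (∀ l, l ≠ i → l ≠ Fin.last n → ofLex β l = α l) ∧
        ofLex β i + 2 ≤ α i})) ∧
    (1 ≤ α (Fin.last n) →
      rt (filt n s) (gen n s (Fin.last n)) (b (toLex α)) - b (toLex α) -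
        b (toLex (α - Pi.single (Fin.last n) 1)) ∈
      Submodule.span (ZMod 2) (b '' {β | (∀ l, l ≠ Fin.last n → ofLex β l = α l) ∧
        ofLex β (Fin.last n) + 2 ≤ α (Fin.last n)}))

/-- DWN: leading exponents of a stable subspace form a lower set. -/
def Stmt_DWN : Prop :=
  ∀ (n k : ℕ) (s : ℤ_[2]) (B : Basis (Ixk n k) (ZMod 2) (Fin k → LC (filt n s))), IsEk B →
    ∀ N : Submodule (ZMod 2) (Fin k → LC (filt n s)), Stab (pw (rt (filt n s)) k) N →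
    ∀ (α β : Fin (n + 1) → ℕ) (p : Fin k), ix α p ∈ Deg B N → β ≤ α → ix β p ∈ Deg B N

/-- DCC: descending chains of stable subspaces of `LC^k` stabilise. -/
def Stmt_DCC : Prop :=
  ∀ (n k : ℕ) (s : ℤ_[2]) (N : ℕ → Submodule (ZMod 2) (Fin k → LC (filt n s))),
    Antitone N → (∀ i, Stab (pw (rt (filt n s)) k) (N i)) → ∃ m, ∀ m', m ≤ m' → N m' = N m

/-- QUO: quotients of `LC^k` are admissible. -/
def Stmt_QUO : Prop :=
  ∀ (n k : ℕ) (s : ℤ_[2]) (N : Submodule (ZMod 2) (Fin k → LC (filt n s)))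
    (hN : Stab (pw (rt (filt n s)) k) N),
    Adm (filt n s) (quor (pw (rt (filt n s)) k) N hN)

/-- ADQ: images of admissible modules of `Uh` are admissible; subobjects too. -/
def Stmt_ADQ : Prop :=
  ∀ (n : ℕ) (s : ℤ_[2]) (M M' : Type) [AddCommGroup M] [Module (ZMod 2) M] [AddCommGroup M']
    [Module (ZMod 2) M'] (ρ : Representation (ZMod 2) (Uh n s) M)
    (ρ' : Representation (ZMod 2) (Uh n s) M') (f : M →ₗ[ZMod 2] M'), Equi ρ ρ' f →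
    (Function.Surjective f → Adm (filt n s) ρ → Adm (filt n s) ρ') ∧
    (Function.Injective f → Adm (filt n s) ρ' → Adm (filt n s) ρ)

/-- The positions where not all exponents occur. -/
def tset {n k : ℕ} {s : ℤ_[2]} (B : Basis (Ixk n k) (ZMod 2) (Fin k → LC (filt n s)))
    (N : Submodule (ZMod 2) (Fin k → LC (filt n s))) : Set (Fin k) :=
  {p | ∃ α : Fin (n + 1) → ℕ, ix α p ∉ Deg B N}

/-- `k - |T|` -/
noncomputable def fr {n k : ℕ} {s : ℤ_[2]}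
    (B : Basis (Ixk n k) (ZMod 2) (Fin k → LC (filt n s)))
    (N : Submodule (ZMod 2) (Fin k → LC (filt n s))) : ℕ := k - (tset B N).ncard

/-- UPB: upper bound for the invariants of level `j`. -/
def Stmt_UPB : Prop :=
  ∀ (n k : ℕ) (s : ℤ_[2]) (B : Basis (Ixk n k) (ZMod 2) (Fin k → LC (filt n s))), IsEk B →
    ∀ N : Submodule (ZMod 2) (Fin k → LC (filt n s)), Stab (pw (rt (filt n s)) k) N →
    ∃ C : ℕ, ∀ j : ℕ,
      finrank (ZMod 2) (N ⊓ fixd (pw (rt (filt n s)) k) (lvl n s j) :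
        Submodule (ZMod 2) (Fin k → LC (filt n s))) ≤
      fr B N * 2 ^ ((n + 1) * j) + C * 2 ^ (n * j)

/-- SUR: `N` maps onto `LC^(k-|T|)`. -/
def Stmt_SUR : Prop :=
  ∀ (n k : ℕ) (s : ℤ_[2]) (B : Basis (Ixk n k) (ZMod 2) (Fin k → LC (filt n s))), IsEk B →
    ∀ (N : Submodule (ZMod 2) (Fin k → LC (filt n s)))
      (hN : Stab (pw (rt (filt n s)) k) N),
    Onto (filt n s) (subr (pw (rt (filt n s)) k) N hN) (fr B N)

/-- SRC: dual strong rank condition. -/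
def Stmt_SRC : Prop :=
  ∀ (n k r : ℕ) (s : ℤ_[2]), Onto (filt n s) (pw (rt (filt n s)) k) r → r ≤ k

/-- `M` has rank `r`. -/
def HasRk {n : ℕ} {s : ℤ_[2]} {M : Type} [AddCommGroup M] [Module (ZMod 2) M]
    (ρ : Representation (ZMod 2) (Uh n s) M) (r : ℕ) : Prop :=
  ∃ C : ℕ, ∀ j : ℕ,
    finrank (ZMod 2) (fixd ρ (lvl n s j)) ≤ r * 2 ^ ((n + 1) * j) + C * 2 ^ (n * j) ∧
    r * 2 ^ ((n + 1) * j) ≤ finrank (ZMod 2) (fixd ρ (lvl n s j)) + C * 2 ^ (n * j)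

/-- RNK: rank theory. -/
def Stmt_RNK : Prop :=
  ∀ (n : ℕ) (s : ℤ_[2]),
    (∀ (M : Type) [AddCommGroup M] [Module (ZMod 2) M]
      (ρ : Representation (ZMod 2) (Uh n s) M), Adm (filt n s) ρ →
      ∃ r, HasRk ρ r ∧ r ≤ finrank (ZMod 2) (fixd ρ ⊤)) ∧
    (∀ (M : Type) [AddCommGroup M] [Module (ZMod 2) M]
      (ρ : Representation (ZMod 2) (Uh n s) M) (r r' : ℕ), HasRk ρ r → HasRk ρ r' → r = r') ∧
    (∀ (k : ℕ) (B : Basis (Ixk n k) (ZMod 2) (Fin k → LC (filt n s))), IsEk B →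
      ∀ (N : Submodule (ZMod 2) (Fin k → LC (filt n s)))
        (hN : Stab (pw (rt (filt n s)) k) N),
      HasRk (subr (pw (rt (filt n s)) k) N hN) (fr B N)) ∧
    (∀ (M M'' : Type) [AddCommGroup M] [Module (ZMod 2) M] [AddCommGroup M'']
      [Module (ZMod 2) M''] (ρ : Representation (ZMod 2) (Uh n s) M)
      (ρ'' : Representation (ZMod 2) (Uh n s) M'') (k r r'' : ℕ)
      (i : M →ₗ[ZMod 2] (Fin k → LC (filt n s))) (p : (Fin k → LC (filt n s)) →ₗ[ZMod 2] M''),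
      SES ρ (pw (rt (filt n s)) k) ρ'' i p → HasRk ρ r → HasRk ρ'' r'' → r + r'' = k)

/-- KRC: expansion of `binom(∑ 2^{e_i} k_i, c)` and the functions on `Uh / levW e j`. -/
def Stmt_KRC : Prop :=
  ∀ (n : ℕ) (s : ℤ_[2]) (e : Fin (n + 1) → ℕ), e (Fin.last n) = 0 →
    ∀ b : Basis (Ix n) (ZMod 2) (LC (filt n s)), IsE b →
    ∃ h : ℕ → LC (filt n s),
      (∀ c, ∃ A : Finset (Ix n), (∀ α, α ∈ A ↔ ∑ i, 2 ^ e i * (ofLex α) i = c) ∧
        h c = ∑ α ∈ A, b α) ∧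
      (∀ j : ℕ, (∃ j', lvl n s j' ≤ levW n s e j) ∧
        fixd (rt (filt n s)) (levW n s e j) = Submodule.span (ZMod 2) (h '' {c | c < 2 ^ j}))

/-- KRG: growth along a Kronecker tower. -/
def Stmt_KRG : Prop :=
  ∀ (n : ℕ) (s : ℤ_[2]) (M : Type) [AddCommGroup M] [Module (ZMod 2) M]
    (ρ : Representation (ZMod 2) (Uh n s) M) (r : ℕ), Adm (filt n s) ρ → HasRk ρ r →
    ∃ (e : Fin (n + 1) → ℕ) (C : ℕ), e (Fin.last n) = 0 ∧
      ∀ j : ℕ, finrank (ZMod 2) (fixd ρ (levW n s e j)) ≤ r * 2 ^ j + C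

/-- `l`-good modules. -/
def Good {n : ℕ} {s : ℤ_[2]} {M : Type} [AddCommGroup M] [Module (ZMod 2) M]
    (ρ : Representation (ZMod 2) (Uh n s) M) (l : ℕ) : Prop :=
  ∀ i : Fin (n + 1), (i : ℕ) < l → ∀ y ∈ fixd ρ (subA n s i),
    ∃ x ∈ fixd ρ (subA n s i), ρ (gen n s i) x - x = y

/-- GOA: `LC^k` is good. -/
def Stmt_GOA : Prop :=
  ∀ (n k : ℕ) (s : ℤ_[2]), Good (pw (rt (filt n s)) k) (n + 1)

/-- GOI: invariants of `subA (i+1)`. -/
def Stmt_GOI : Prop :=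
  ∀ (n : ℕ) (s : ℤ_[2]) (M : Type) [AddCommGroup M] [Module (ZMod 2) M]
    (ρ : Representation (ZMod 2) (Uh n s) M), Smooth (filt n s) ρ →
    (∀ (i : Fin (n + 1)) (x : M), x ∈ fixd ρ (subA n s (i + 1)) ↔
      x ∈ fixd ρ (subA n s i) ∧ ρ (gen n s i) x = x) ∧
    (∀ (i : Fin (n + 1)) (x : M), x ∈ fixd ρ (subA n s i) →
      ρ (gen n s i) x ∈ fixd ρ (subA n s i)) ∧
    fixd ρ (subA n s 0) = ⊤ ∧ fixd ρ (subA n s (n + 1)) = fixd ρ ⊤

/-- GOB: co-syzygies become better. -/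
def Stmt_GOB : Prop :=
  ∀ (n : ℕ) (s : ℤ_[2]) (M M'' : Type) [AddCommGroup M] [Module (ZMod 2) M]
    [AddCommGroup M''] [Module (ZMod 2) M''] (ρ : Representation (ZMod 2) (Uh n s) M)
    (ρ'' : Representation (ZMod 2) (Uh n s) M'') (k l : ℕ)
    (i : M →ₗ[ZMod 2] (Fin k → LC (filt n s))) (p : (Fin k → LC (filt n s)) →ₗ[ZMod 2] M''),
    SES ρ (pw (rt (filt n s)) k) ρ'' i p → Good ρ l → Good ρ'' (l + 1)

/-- GOC: good and admissible implies cofree. -/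
def Stmt_GOC : Prop :=
  ∀ (n : ℕ) (s : ℤ_[2]) (M : Type) [AddCommGroup M] [Module (ZMod 2) M]
    (ρ : Representation (ZMod 2) (Uh n s) M), Adm (filt n s) ρ → Good ρ (n + 1) →
    ∃ (r : ℕ) (f : M ≃ₗ[ZMod 2] (Fin r → LC (filt n s))),
      Equi ρ (pw (rt (filt n s)) r) f.toLinearMap

/-! ## Part D: a group `G` with a normal subgroup `U` mapping densely to `Uh` -/

/-- The data of THM-I. -/
structure IData (G : Type) [Group G] where
  n : ℕ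
  s : ℤ_[2]
  m : ℕ
  U : Subgroup G
  Unrm : U.Normal
  Uidx : U.index = 2 ^ m
  kap : G → Uh n s
  kap_mul : ∀ u ∈ U, ∀ v ∈ U, kap (u * v) = kap u * kap v
  kap_onto : ∀ (c : Uh n s) (j : ℕ), ∃ u ∈ U, (kap u)⁻¹ * c ∈ lvl n s j
  F : Filt G
  F_spec : ∀ j g, g ∈ F.V j ↔ g ∈ U ∧ kap g ∈ lvl n s j
  Gc : ℕ → Subgroup G
  Gc0 : Gc 0 = ⊤
  Gcm : Gc m = U
  Gcle : ∀ i, i < m → Gc (i + 1) ≤ Gc i
  ch : ℕ → G → ZMod 4
  ch_mul : ∀ i, i < m → ∀ g ∈ Gc i, ∀ h ∈ Gc i, ch i (g * h) = ch i g + ch i h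
  ch_one : ∀ i, i < m → ∃ g ∈ Gc i, ch i g = 1
  ch_ker : ∀ i, i < m → ∀ g ∈ Gc i, (g ∈ Gc (i + 1) ↔ 2 * ch i g = 0)
  ch_open : ∀ i, i < m → ∃ j, ∀ v ∈ F.V j, ch i v = 0

/-- The preimage in `U` of a subgroup of `Uh`. -/
def IData.pull {G : Type} [Group G] (D : IData G) (W : Subgroup (Uh D.n D.s)) : Subgroup G where
  carrier := {g | g ∈ D.U ∧ D.kap g ∈ W}
  mul_mem' := by
    intro a b ha hb
    refine ⟨D.U.mul_mem ha.1 hb.1, ?_⟩
    rw [D.kap_mul a ha.1 b hb.1]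
    exact W.mul_mem ha.2 hb.2
  one_mem' := by
    refine ⟨D.U.one_mem, ?_⟩
    have h := D.kap_mul 1 D.U.one_mem 1 D.U.one_mem
    rw [mul_one] at h
    have h1 : D.kap 1 = 1 := by
      exact (mul_eq_left (a := D.kap 1) (b := D.kap 1)).1 h.symm
    rw [h1]
    exact W.one_mem
  inv_mem' := by
    intro a ha
    refine ⟨D.U.inv_mem ha.1, ?_⟩
    have h := D.kap_mul a⁻¹ (D.U.inv_mem ha.1) a ha.1
    have h0 := D.kap_mul 1 D.U.one_mem 1 D.U.one_mem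
    rw [mul_one] at h0
    have h1 : D.kap 1 = 1 := by
      exact (mul_eq_left (a := D.kap 1) (b := D.kap 1)).1 h0.symm
    rw [inv_mul_cancel, h1] at h
    have h2 : D.kap a⁻¹ = (D.kap a)⁻¹ := eq_inv_of_mul_eq_one_left h.symm
    rw [h2]
    exact W.inv_mem ha.2

/-- `σ` is the representation of `Uh` on `M` which extends the action of `U`. -/
def IsHat {G M : Type} [Group G] [AddCommGroup M] [Module (ZMod 2) M] (D : IData G)
    (ρ : Representation (ZMod 2) G M) (σ : Representation (ZMod 2) (Uh D.n D.s) M) : Prop :=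
  Smooth (filt D.n D.s) σ ∧ ∀ u ∈ D.U, σ (D.kap u) = ρ u

/-- EXT: extension of the action of `U` to `Uh`. -/
def Stmt_EXT : Prop :=
  ∀ (G : Type) [Group G] (D : IData G),
    (∀ (M : Type) [AddCommGroup M] [Module (ZMod 2) M] (ρ : Representation (ZMod 2) G M),
      Smooth D.F ρ → ∃ σ, IsHat D ρ σ) ∧
    (∀ (M M' : Type) [AddCommGroup M] [Module (ZMod 2) M] [AddCommGroup M']
      [Module (ZMod 2) M'] (ρ : Representation (ZMod 2) G M)
      (ρ' : Representation (ZMod 2) G M') (σ : Representation (ZMod 2) (Uh D.n D.s) M)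
      (σ' : Representation (ZMod 2) (Uh D.n D.s) M') (f : M →ₗ[ZMod 2] M'),
      IsHat D ρ σ → IsHat D ρ' σ' → Equi ρ ρ' f → Equi σ σ' f) ∧
    (∀ (M : Type) [AddCommGroup M] [Module (ZMod 2) M] (ρ : Representation (ZMod 2) G M)
      (σ : Representation (ZMod 2) (Uh D.n D.s) M), IsHat D ρ σ →
      ∀ (W : Subgroup (Uh D.n D.s)) (j : ℕ), lvl D.n D.s j ≤ W →
        fixd σ W = fixd ρ (D.pull W)) ∧
    (∀ (W : Subgroup G) (j : ℕ), D.F.V j ≤ W → W ≤ D.U →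
      ∃ W' : Subgroup (Uh D.n D.s), lvl D.n D.s j ≤ W' ∧ D.pull W' = W ∧
        W'.index = W.relIndex D.U)

/-- RES: restriction of `LC G` to `Uh` is `LC^(2^m)`. -/
def Stmt_RES : Prop :=
  ∀ (G : Type) [Group G] (D : IData G) (k : ℕ)
    (σ : Representation (ZMod 2) (Uh D.n D.s) (Fin k → LC D.F)), IsHat D (pw (rt D.F) k) σ →
    ∃ f : (Fin k → LC D.F) ≃ₗ[ZMod 2] (Fin (2 ^ D.m * k) → LC (filt D.n D.s)),
      Equi σ (pw (rt (filt D.n D.s)) (2 ^ D.m * k)) f.toLinearMap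

/-- CLI: the climb along characters mod 4. -/
def Stmt_CLI : Prop :=
  ∀ (G M : Type) [Group G] [AddCommGroup M] [Module (ZMod 2) M] (D : IData G)
    (ρ : Representation (ZMod 2) G M) (r : ℕ),
    (∀ W : Subgroup G, (∃ j, D.F.V j ≤ W) → W ≤ D.U → FiniteDimensional (ZMod 2) (fixd ρ W) ∧
      finrank (ZMod 2) (fixd ρ W) = r * W.relIndex D.U) → 2 ^ D.m ∣ r

/-- DVS: integrality, `2^m` divides the rank over `U` of an admissible `G`-module. -/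
def Stmt_DVS : Prop :=
  ∀ (G M : Type) [Group G] [AddCommGroup M] [Module (ZMod 2) M] (D : IData G)
    (ρ : Representation (ZMod 2) G M) (σ : Representation (ZMod 2) (Uh D.n D.s) M) (r : ℕ),
    Smooth D.F ρ → FiniteDimensional (ZMod 2) (fixd ρ D.U) → IsHat D ρ σ → HasRk σ r →
    2 ^ D.m ∣ r

/-- THI: THM-I. -/
def Stmt_THI : Prop :=
  ∀ (G M : Type) [Group G] [AddCommGroup M] [Module (ZMod 2) M] (D : IData G)
    (ρ : Representation (ZMod 2) G M), Smooth D.F ρ →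
    FiniteDimensional (ZMod 2) (fixd ρ D.U) →
    ∃ r : ℕ, r * 2 ^ D.m ≤ finrank (ZMod 2) (fixd ρ D.U) ∧
      ∃ (e : Fin (D.n + 1) → ℕ) (C : ℕ), e (Fin.last D.n) = 0 ∧
        ∀ j : ℕ, finrank (ZMod 2) (fixd ρ (D.pull (levW D.n D.s e j))) ≤
          r * 2 ^ D.m * 2 ^ j + C

end Pool.Agent.ETX
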