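/-
MP_d26ff6_al, module GOB (helper89).
-/
import Pool.Agent.ETX.Stmts

set_option linter.style.longLine false

namespace Pool.Agent.ETX

open Module

namespace GOB_

theorem smooth_pw {H : Type} [Group H] (Φ : Filt H) (k : ℕ) : Smooth Φ (pw (rt Φ) k) := by
  intro x
  have h : ∀ p : Fin k, ∃ j, ∀ h, ∀ v ∈ Φ.V j, (x p : H → ZMod 2) (h * v) =
      (x p : H → ZMod 2) h := fun p => (x p).2
  choose j hj using h
  refine ⟨Finset.univ.sup j, fun v hv => ?_⟩
  funext p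
  rw [pw_apply]
  apply Subtype.ext
  funext h
  rw [rt_apply]
  exact hj p h v (Φ.anti (j p) _ (Finset.le_sup (Finset.mem_univ p)) hv)

theorem smooth_quot {H : Type} [Group H] {Φ : Filt H} {M M'' : Type} [AddCommGroup M]
    [Module (ZMod 2) M] [AddCommGroup M''] [Module (ZMod 2) M'']
    {ρ : Representation (ZMod 2) H M} {ρ'' : Representation (ZMod 2) H M''}
    (p : M →ₗ[ZMod 2] M'') (hp : Equi ρ ρ'' p) (hs : Function.Surjective p)
    (h : Smooth Φ ρ) : Smooth Φ ρ'' := by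
  intro y
  obtain ⟨x, rfl⟩ := hs y
  obtain ⟨j, hj⟩ := h x
  refine ⟨j, fun v hv => ?_⟩
  rw [← hp v x, hj v hv]

theorem fixd_map {H : Type} [Group H] {M M'' : Type} [AddCommGroup M]
    [Module (ZMod 2) M] [AddCommGroup M''] [Module (ZMod 2) M'']
    {ρ : Representation (ZMod 2) H M} {ρ'' : Representation (ZMod 2) H M''}
    (p : M →ₗ[ZMod 2] M'') (hp : Equi ρ ρ'' p) (W : Subgroup H) {x : M}
    (hx : x ∈ fixd ρ W) : p x ∈ fixd ρ'' W := by
  intro w hw
  rw [← hp w x, hx w hw]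

theorem fixd_of_inj {H : Type} [Group H] {M M'' : Type} [AddCommGroup M]
    [Module (ZMod 2) M] [AddCommGroup M''] [Module (ZMod 2) M'']
    {ρ : Representation (ZMod 2) H M} {ρ'' : Representation (ZMod 2) H M''}
    (p : M →ₗ[ZMod 2] M'') (hp : Equi ρ ρ'' p) (hi : Function.Injective p) (W : Subgroup H)
    {x : M} (hx : p x ∈ fixd ρ'' W) : x ∈ fixd ρ W := by
  intro w hw
  apply hi
  rw [hp w x, hx w hw]

/-- The lifting claim. -/
theorem lift (hGOI : Stmt_GOI) {n : ℕ} {s : ℤ_[2]} {M M'' : Type} [AddCommGroup M]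
    [Module (ZMod 2) M] [AddCommGroup M''] [Module (ZMod 2) M'']
    (ρ : Representation (ZMod 2) (Uh n s) M)
    (ρ'' : Representation (ZMod 2) (Uh n s) M'') (k l : ℕ)
    (i : M →ₗ[ZMod 2] (Fin k → LC (filt n s))) (p : (Fin k → LC (filt n s)) →ₗ[ZMod 2] M'')
    (hS : SES ρ (pw (rt (filt n s)) k) ρ'' i p) (hG : Good ρ l) (t : ℕ) :
    t ≤ l → t ≤ n + 1 → ∀ y ∈ fixd ρ'' (subA n s t),
      ∃ c ∈ fixd (pw (rt (filt n s)) k) (subA n s t), p c = y := by
  have hsm := smooth_pw (filt n s) k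
  have hsm'' := smooth_quot p hS.ep hS.surj hsm
  obtain ⟨gi1, gi2, gi3, gi4⟩ := hGOI n s _ (pw (rt (filt n s)) k) hsm
  obtain ⟨gj1, gj2, gj3, gj4⟩ := hGOI n s _ ρ'' hsm''
  induction t with
  | zero =>
    intro _ _ y _
    obtain ⟨c, hc⟩ := hS.surj y
    refine ⟨c, ?_, hc⟩
    rw [gi3]
    exact Submodule.mem_top
  | succ t ih =>
    intro hl hn y hy
    have hy' := (gj1 ⟨t, by omega⟩ y).1 hy
    obtain ⟨c, hc, hpc⟩ := ih (by omega) (by omega) y hy'.1
    have h1 : pw (rt (filt n s)) k (gen n s ⟨t, by omega⟩) c - c ∈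
        fixd (pw (rt (filt n s)) k) (subA n s t) :=
      Submodule.sub_mem _ (gi2 ⟨t, by omega⟩ c hc) hc
    have h2 : p (pw (rt (filt n s)) k (gen n s ⟨t, by omega⟩) c - c) = 0 := by
      rw [map_sub, hS.ep, hpc, hy'.2, sub_self]
    obtain ⟨m, hm⟩ := (hS.exact _).1 h2
    have hm1 : m ∈ fixd ρ (subA n s t) := by
      apply fixd_of_inj i hS.ei hS.inj
      rw [hm]
      exact h1
    obtain ⟨m', hm', hmm⟩ := hG ⟨t, by omega⟩ (by simpa using hl) m hm1
    have hmi : i m' ∈ fixd (pw (rt (filt n s)) k) (subA n s t) := fixd_map i hS.ei _ hm'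
    refine ⟨c - i m', ?_, ?_⟩
    · apply (gi1 ⟨t, by omega⟩ _).2
      refine ⟨Submodule.sub_mem _ hc hmi, ?_⟩
      rw [← sub_eq_zero, map_sub, ← hS.ei]
      have h3 : i (ρ (gen n s ⟨t, by omega⟩) m') - i m' =
          pw (rt (filt n s)) k (gen n s ⟨t, by omega⟩) c - c := by
        rw [← map_sub, hmm, hm]
      calc pw (rt (filt n s)) k (gen n s ⟨t, by omega⟩) c - i (ρ (gen n s ⟨t, by omega⟩) m') -
            (c - i m') = (pw (rt (filt n s)) k (gen n s ⟨t, by omega⟩) c - c) -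
            (i (ρ (gen n s ⟨t, by omega⟩) m') - i m') := by abel
        _ = 0 := by rw [h3, sub_self]
    · rw [map_sub, hpc, (hS.exact (i m')).2 ⟨m', rfl⟩, sub_zero]

end GOB_

theorem gob_proof (_hDIM : Stmt_DIM) (hGOI : Stmt_GOI) (hGOA : Stmt_GOA) : Stmt_GOB := by
  intro n s M M'' _ _ _ _ ρ ρ'' k l i p hS hG j hj y hy
  obtain ⟨c, hc, hpc⟩ := GOB_.lift hGOI ρ ρ'' k l i p hS hG (j : ℕ) (by omega)
    (by have := j.2; omega) y hy
  obtain ⟨c', hc', hcc⟩ := hGOA n k s j j.2 c hc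
  refine ⟨p c', GOB_.fixd_map p hS.ep _ hc', ?_⟩
  rw [← hpc, ← hcc, map_sub, hS.ep]

end Pool.Agent.ETX
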