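import Pool.Agent.ETX.Stmts

/-!
Module GOC of the squad ETX: good admissible modules are cofree.
-/

set_option autoImplicit false

namespace Pool.Agent.ETX

open Module

namespace GOC_

variable {H : Type} [Group H] {M : Type} [AddCommGroup M] [Module (ZMod 2) M]

theorem quor_smooth (Φ : Filt H) (ρ : Representation (ZMod 2) H M) (h : Smooth Φ ρ)
    (N : Submodule (ZMod 2) M) (hN : Stab ρ N) : Smooth Φ (quor ρ N hN) := by
  intro y
  obtain ⟨x, rfl⟩ := N.mkQ_surjective y
  obtain ⟨j, hj⟩ := h x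
  refine ⟨j, fun v hv => ?_⟩
  rw [quor_mk, hj v hv]

end GOC_

open GOC_ in
theorem goc_proof (hEMB : Stmt_EMB) (hDIM : Stmt_DIM) (hFIX : Stmt_FIX) (hGOI : Stmt_GOI)
    (_hGOA : Stmt_GOA) : Stmt_GOC := by
  intro n s M _ _ ρ hadm hgood
  obtain ⟨r, hr⟩ : ∃ r, r = finrank (ZMod 2) (fixd ρ ⊤) := ⟨_, rfl⟩
  obtain ⟨i, hi, hinj⟩ := hEMB (Uh n s) M (filt n s) ρ hadm r hr.ge
  have hC : Smooth (filt n s) (pw (rt (filt n s)) r) := (hDIM (Uh n s) (filt n s) r).1.1
  have hN : Stab (pw (rt (filt n s)) r) (LinearMap.range i) := by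
    rintro h _ ⟨x, rfl⟩
    exact ⟨ρ h x, hi h x⟩
  have hE : Smooth (filt n s) (quor (pw (rt (filt n s)) r) (LinearMap.range i) hN) :=
    quor_smooth _ _ hC _ hN
  obtain ⟨gM1, -, gM3, gM4⟩ := hGOI n s M ρ hadm.1
  obtain ⟨gC1, gC2, gC3, gC4⟩ := hGOI n s _ _ hC
  obtain ⟨gE1, -, -, gE4⟩ := hGOI n s _ _ hE
  -- surjectivity on invariants
  have key : ∀ l : ℕ, l ≤ n + 1 → ∀ y ∈ fixd (quor (pw (rt (filt n s)) r) (LinearMap.range i) hN)
      (subA n s l), ∃ c ∈ fixd (pw (rt (filt n s)) r) (subA n s l),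
        (LinearMap.range i).mkQ c = y := by
    intro l
    induction l with
    | zero =>
      intro _ y _
      obtain ⟨c, rfl⟩ := (LinearMap.range i).mkQ_surjective y
      refine ⟨c, ?_, rfl⟩
      rw [gC3]
      trivial
    | succ l ih =>
      intro hl y hy
      have hl' : l < n + 1 := hl
      obtain ⟨hy1, hy2⟩ := (gE1 ⟨l, hl'⟩ y).1 hy
      obtain ⟨c, hc, hcy⟩ := ih hl'.le y hy1
      have hX : pw (rt (filt n s)) r (gen n s ⟨l, hl'⟩) c ∈
          fixd (pw (rt (filt n s)) r) (subA n s l) := gC2 ⟨l, hl'⟩ c hc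
      have h0 : (LinearMap.range i).mkQ (pw (rt (filt n s)) r (gen n s ⟨l, hl'⟩) c - c) = 0 := by
        rw [map_sub, ← quor_mk _ _ hN, hcy, hy2, sub_self]
      rw [Submodule.mkQ_apply, Submodule.Quotient.mk_eq_zero] at h0
      obtain ⟨m, hm⟩ := h0
      have hm1 : m ∈ fixd ρ (subA n s l) := by
        intro w hw
        apply hinj
        rw [hi w m, hm]
        exact (Submodule.sub_mem _ hX hc) w hw
      obtain ⟨m', hm', hm2⟩ := hgood ⟨l, hl'⟩ hl' m hm1
      have him' : i m' ∈ fixd (pw (rt (filt n s)) r) (subA n s l) := by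
        intro w hw
        rw [← hi w m', hm' w hw]
      refine ⟨c - i m', ?_, ?_⟩
      · refine (gC1 ⟨l, hl'⟩ _).2 ⟨Submodule.sub_mem _ hc him', ?_⟩
        rw [map_sub, ← hi]
        have h1 : ρ (gen n s ⟨l, hl'⟩) m' = m + m' := by
          rw [← hm2]
          abel
        have h2 : pw (rt (filt n s)) r (gen n s ⟨l, hl'⟩) c = i m + c := by
          rw [hm]
          abel
        rw [h1, h2, map_add]
        abel
      · rw [map_sub, hcy]
        have h1 : (LinearMap.range i).mkQ (i m') = 0 := by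
          rw [Submodule.mkQ_apply, Submodule.Quotient.mk_eq_zero]
          exact ⟨m', rfl⟩
        rw [h1, sub_zero]
  -- the invariants of the source and of the target have the same dimension
  have hfC : FiniteDimensional (ZMod 2) (fixd (pw (rt (filt n s)) r) ⊤) :=
    (hDIM (Uh n s) (filt n s) r).1.2
  have hdC : finrank (ZMod 2) (fixd (pw (rt (filt n s)) r) ⊤) = r := by
    have := ((hDIM (Uh n s) (filt n s) r).2 ⊤ ⟨0, le_top⟩).2
    rw [this, Subgroup.index_top, mul_one]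
  have hfM : FiniteDimensional (ZMod 2) (fixd ρ ⊤) := hadm.2
  have hmap : (fixd ρ ⊤).map i = fixd (pw (rt (filt n s)) r) ⊤ := by
    have hle : (fixd ρ ⊤).map i ≤ fixd (pw (rt (filt n s)) r) ⊤ := by
      rintro _ ⟨x, hx, rfl⟩ w hw
      rw [← hi w x, hx w hw]
    have hfm : finrank (ZMod 2) ((fixd ρ ⊤).map i) = r :=
      (Submodule.equivMapOfInjective i hinj (fixd ρ ⊤)).finrank_eq.symm.trans hr.symm
    exact Submodule.eq_of_le_of_finrank_eq hle (by rw [hfm, hdC])
  have hzero : ∀ y ∈ fixd (quor (pw (rt (filt n s)) r) (LinearMap.range i) hN) ⊤, y = 0 := by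
    intro y hy
    rw [← gE4] at hy
    obtain ⟨c, hc, hcy⟩ := key (n + 1) le_rfl y hy
    rw [gC4, ← hmap] at hc
    obtain ⟨x, -, rfl⟩ := hc
    rw [← hcy, Submodule.mkQ_apply, Submodule.Quotient.mk_eq_zero]
    exact ⟨x, rfl⟩
  have hsurj : Function.Surjective i := by
    rw [← LinearMap.range_eq_top]
    by_contra hne
    have htop : (⊤ : Submodule (ZMod 2) ((Fin r → LC (filt n s)) ⧸ LinearMap.range i)) ≠ ⊥ := by
      intro h
      apply hne
      rw [eq_top_iff]
      intro c _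
      have h1 : (LinearMap.range i).mkQ c ∈
          (⊤ : Submodule (ZMod 2) ((Fin r → LC (filt n s)) ⧸ LinearMap.range i)) := trivial
      rw [h, Submodule.mem_bot, Submodule.mkQ_apply, Submodule.Quotient.mk_eq_zero] at h1
      exact h1
    obtain ⟨y, -, hy0, hy⟩ := hFIX _ _ _ _ hE ⊤ (fun h x _ => trivial) htop
    exact hy0 (hzero y fun w _ => hy w)
  exact ⟨r, LinearEquiv.ofBijective i ⟨hinj, hsurj⟩, hi⟩

end Pool.Agent.ETX
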