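import Pool.Agent.ETX.Stmts

/-!
Module GOI: invariants of `subA (i + 1)`.
-/

set_option autoImplicit false

namespace Pool.Agent.ETX

open Module

namespace GOI_

variable {n : ℕ} {s : ℤ_[2]}

theorem mem_subA (i : ℕ) (k : Uh n s) :
    k ∈ subA n s i ↔ ∀ l : Fin (n + 1), i ≤ (l : ℕ) → k l = 0 := Iff.rfl

theorem mem_lvl (j : ℕ) (k : Uh n s) : k ∈ lvl n s j ↔ ∀ l, (2 : ℤ_[2]) ^ j ∣ k l := Iff.rfl

/-- the element `z e_i` -/
noncomputable def sg (n : ℕ) (s : ℤ_[2]) (i : Fin (n + 1)) (z : ℤ_[2]) : Uh n s :=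
  Pi.single (M := fun _ => ℤ_[2]) i z

theorem sg_same (i : Fin (n + 1)) (z : ℤ_[2]) : sg n s i z i = z :=
  Pi.single_eq_same (M := fun _ => ℤ_[2]) i z

theorem sg_ne (i l : Fin (n + 1)) (z : ℤ_[2]) (h : l ≠ i) : sg n s i z l = 0 :=
  Pi.single_eq_of_ne (M := fun _ => ℤ_[2]) h z

theorem gen_eq (i : Fin (n + 1)) : gen n s i = sg n s i 1 := rfl

theorem sg_mul (i : Fin (n + 1)) (z w : ℤ_[2]) :
    sg n s i z * sg n s i w = sg n s i (z + chi (sg n s i z) * w) := by
  funext l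
  rw [mul_apply]
  by_cases h : l = i
  · subst h
    rw [sg_same, sg_same, sg_same]
  · rw [sg_ne i l _ h, sg_ne i l _ h, sg_ne i l _ h]
    ring

theorem sg_zero (i : Fin (n + 1)) : sg n s i 0 = 1 := by
  funext l
  rw [one_apply]
  by_cases h : l = i
  · subst h
    rw [sg_same]
  · rw [sg_ne i l _ h]

/-- the character is odd -/
theorem chi_odd (k : Uh n s) : ∃ t : ℤ_[2], chi k = 1 + 2 * t := ⟨2 * s * k (Fin.last n), by
  unfold chi; ring⟩

theorem two_or (t : ℤ_[2]) : (∃ r, t = 2 * r) ∨ ∃ r, t = 1 + 2 * r := by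
  have h := dvd_iff_toZModPow 1 0 t
  have h' := dvd_iff_toZModPow 1 1 t
  rw [pow_one, sub_zero, map_zero] at h
  rw [pow_one, map_one] at h'
  have hc : ∀ z : ZMod (2 ^ 1), 0 = z ∨ 1 = z := by decide
  rcases hc (PadicInt.toZModPow (p := 2) 1 t) with h1 | h1
  · left
    exact h.2 h1
  · right
    obtain ⟨r, hr⟩ := h'.2 h1
    exact ⟨r, by rw [← hr]; ring⟩

/-- powers of the generator: `(gen i)^(2^j)` is `2^j` times an odd number -/
theorem pow_two_pow (i : Fin (n + 1)) (j : ℕ) :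
    ∃ t : ℤ_[2], (gen n s i) ^ (2 ^ j) = sg n s i (2 ^ j * (1 + 2 * t)) := by
  induction j with
  | zero =>
    refine ⟨0, ?_⟩
    rw [pow_zero, pow_one, pow_zero, gen_eq]
    congr 1
    ring
  | succ j ih =>
    obtain ⟨t, ht⟩ := ih
    rw [pow_succ, pow_mul, ht, pow_two, sg_mul]
    obtain ⟨c, hc⟩ : ∃ c : ℤ_[2], chi (sg n s i (2 ^ j * (1 + 2 * t))) = 1 + 4 * c := ⟨_, by
      unfold chi
      rw [mul_assoc]⟩
    refine ⟨t + c * (1 + 2 * t), ?_⟩
    rw [hc]
    congr 1
    ring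

/-- approximation by powers of the generator -/
theorem approx (i : Fin (n + 1)) (z : ℤ_[2]) (j : ℕ) :
    ∃ (m : ℕ) (c : ℤ_[2]), (gen n s i) ^ m = sg n s i c ∧ (2 : ℤ_[2]) ^ j ∣ z - c := by
  induction j with
  | zero => exact ⟨0, 0, by rw [pow_zero, sg_zero], by rw [pow_zero]; exact one_dvd _⟩
  | succ j ih =>
    obtain ⟨m, c, h1, t, ht⟩ := ih
    rcases two_or t with ⟨r, hr⟩ | ⟨r, hr⟩
    · refine ⟨m, c, h1, r, ?_⟩
      rw [ht, hr]
      ring
    · obtain ⟨u, hu⟩ := pow_two_pow (n := n) (s := s) i j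
      obtain ⟨v, hv⟩ := chi_odd (sg n s i c)
      refine ⟨m + 2 ^ j, c + chi (sg n s i c) * (2 ^ j * (1 + 2 * u)), ?_,
        r - v - u * (1 + 2 * v), ?_⟩
      · rw [pow_add, h1, hu, sg_mul]
      · rw [hv]
        have h3 : z - c = 2 ^ j * (1 + 2 * r) := by rw [ht, hr]
        linear_combination h3

theorem chi_of_last {k : Uh n s} (h : k (Fin.last n) = 0) : chi k = 1 := by
  unfold chi
  rw [h]
  ring

theorem chi_subA {i : Fin (n + 1)} {k : Uh n s} (h : k ∈ subA n s i) : chi k = 1 :=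
  chi_of_last (h (Fin.last n) (by rw [Fin.val_last]; exact Nat.lt_succ_iff.1 i.2))

section act

variable {M : Type} [AddCommGroup M] [Module (ZMod 2) M] (ρ : Representation (ZMod 2) (Uh n s) M)

theorem pow_fix {g : Uh n s} {x : M} (h : ρ g x = x) (m : ℕ) : ρ (g ^ m) x = x := by
  induction m with
  | zero => rw [pow_zero, map_one]; rfl
  | succ m ih =>
    rw [pow_succ, map_mul]
    show ρ (g ^ m) (ρ g x) = x
    rw [h, ih]

theorem fix_sg (hρ : Smooth (filt n s) ρ) (i : Fin (n + 1)) {x : M} (h : ρ (gen n s i) x = x)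
    (z : ℤ_[2]) : ρ (sg n s i z) x = x := by
  obtain ⟨j, hj⟩ := hρ x
  obtain ⟨m, c, h1, h2⟩ := approx (n := n) (s := s) i z j
  have h3 : ((gen n s i) ^ m)⁻¹ * sg n s i z ∈ lvl n s j := by
    rw [inv_mul_mem_lvl, h1]
    intro l
    by_cases hl : l = i
    · subst hl
      rw [sg_same, sg_same]
      exact h2
    · rw [sg_ne i l _ hl, sg_ne i l _ hl, sub_zero]
      exact dvd_zero _
  have h4 := hj _ h3
  calc ρ (sg n s i z) x = ρ ((gen n s i) ^ m * (((gen n s i) ^ m)⁻¹ * sg n s i z)) x := by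
        rw [mul_inv_cancel_left]
    _ = ρ ((gen n s i) ^ m) (ρ (((gen n s i) ^ m)⁻¹ * sg n s i z) x) := by rw [map_mul]; rfl
    _ = x := by rw [h4, pow_fix ρ h]

theorem step (hρ : Smooth (filt n s) ρ) (i : Fin (n + 1)) (x : M) :
    x ∈ fixd ρ (subA n s (i + 1)) ↔ x ∈ fixd ρ (subA n s i) ∧ ρ (gen n s i) x = x := by
  constructor
  · intro h
    refine ⟨fun k hk => h k fun l hl => hk l (Nat.le_of_succ_le hl), h _ fun l hl => ?_⟩
    rw [gen_eq]
    apply sg_ne
    rintro rfl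
    exact absurd hl (by omega)
  · rintro ⟨h1, h2⟩ k hk
    let a : Uh n s := Function.update (k : Fin (n + 1) → ℤ_[2]) i 0
    have ha : ∀ l, l ≠ i → a l = k l := fun l hl => Function.update_of_ne hl _ _
    have ha' : a i = 0 := Function.update_self _ _ _
    have haA : a ∈ subA n s i := by
      intro l hl
      by_cases hli : l = i
      · rw [hli, ha']
      · rw [ha l hli]
        apply hk
        have h3 : (i : ℕ) ≠ (l : ℕ) := fun h => hli (Fin.ext h.symm)
        omega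
    have hkab : k = a * sg n s i (k i) := by
      funext l
      rw [mul_apply, chi_subA haA, one_mul]
      by_cases hli : l = i
      · rw [hli, ha', sg_same, zero_add]
      · rw [ha l hli, sg_ne i l _ hli, add_zero]
    calc ρ k x = ρ (a * sg n s i (k i)) x := by rw [← hkab]
      _ = ρ a (ρ (sg n s i (k i)) x) := by rw [map_mul]; rfl
      _ = x := by rw [fix_sg ρ hρ i h2, h1 a haA]

theorem stable (i : Fin (n + 1)) (x : M) (hx : x ∈ fixd ρ (subA n s i)) :
    ρ (gen n s i) x ∈ fixd ρ (subA n s i) := by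
  intro a ha
  have h1 : (gen n s i)⁻¹ * a * gen n s i ∈ subA n s i := by
    intro l hl
    have h2 : gen n s i * ((gen n s i)⁻¹ * a * gen n s i) = a * gen n s i := by group
    have h3 : (gen n s i * ((gen n s i)⁻¹ * a * gen n s i)) l = (a * gen n s i) l := by rw [h2]
    have h5 := mul_apply (gen n s i) ((gen n s i)⁻¹ * a * gen n s i) l
    have h6 := mul_apply a (gen n s i) l
    rw [chi_subA ha, ha l hl, one_mul, zero_add] at h6
    have h4 : chi (gen n s i) * ((gen n s i)⁻¹ * a * gen n s i) l = 0 := by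
      rw [h5, h6] at h3
      linear_combination h3
    exact ((chi_isUnit (gen n s i)).mul_right_eq_zero).1 h4
  calc ρ a (ρ (gen n s i) x) = ρ (a * gen n s i) x := by rw [map_mul]; rfl
    _ = ρ (gen n s i * ((gen n s i)⁻¹ * a * gen n s i)) x := by
        congr 2
        group
    _ = ρ (gen n s i) (ρ ((gen n s i)⁻¹ * a * gen n s i) x) := by rw [map_mul]; rfl
    _ = ρ (gen n s i) x := by rw [hx _ h1]

end act

end GOI_

theorem goi_proof : Stmt_GOI := by
  intro n s M _ _ ρ hρ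
  refine ⟨GOI_.step ρ hρ, GOI_.stable ρ, ?_, ?_⟩
  · rw [eq_top_iff]
    intro x _ k hk
    have h1 : k = 1 := by
      funext l
      rw [one_apply]
      exact hk l (Nat.zero_le _)
    rw [h1, map_one]
    rfl
  · have h : subA n s (n + 1) = ⊤ := by
      rw [eq_top_iff]
      intro k _ l hl
      exact absurd l.2 (by omega)
    rw [h]

end Pool.Agent.ETX
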