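import Pool.Agent.ETX.Stmts

set_option autoImplicit false

namespace Pool.Agent.ETX

open Module

theorem inj_proof (hFRO : Stmt_FRO) : Stmt_INJ := by
  intro H M M' _ _ _ _ _ Φ ρ ρ' hs i hi hinj a f hf
  obtain ⟨s, hsi⟩ := LinearMap.exists_leftInverse_of_injective i (LinearMap.ker_eq_bot.2 hinj)
  have hsx : ∀ x, s (i x) = x := fun x => LinearMap.congr_fun hsi x
  let ev : LC Φ →ₗ[ZMod 2] ZMod 2 := (LinearMap.proj (1 : H)) ∘ₗ (LC Φ).subtype
  have hG := fun p : Fin a => hFRO H M' Φ ρ' hs (ev ∘ₗ LinearMap.proj p ∘ₗ f ∘ₗ s)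
  choose G hG1 hG2 using hG
  refine ⟨LinearMap.pi G, ?_, ?_⟩
  · intro h x
    funext p
    rw [pw_apply, LinearMap.pi_apply, LinearMap.pi_apply]
    exact hG1 p h x
  · ext1 x
    funext p
    apply Subtype.ext
    funext h
    have h1 : ((G p (i x) : LC Φ) : H → ZMod 2) h =
        ((rt Φ h (G p (i x)) : LC Φ) : H → ZMod 2) 1 := by
      rw [rt_apply, one_mul]
    have h2 : ((f x p : LC Φ) : H → ZMod 2) h =
        ((rt Φ h (f x p) : LC Φ) : H → ZMod 2) 1 := by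
      rw [rt_apply, one_mul]
    change ((G p (i x) : LC Φ) : H → ZMod 2) h = ((f x p : LC Φ) : H → ZMod 2) h
    rw [h1, h2, ← hG1 p h (i x), hG2, ← hi h x]
    change ((f (s (i (ρ h x))) p : LC Φ) : H → ZMod 2) 1 = _
    rw [hsx, hf h x, pw_apply]

end Pool.Agent.ETX
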