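import Pool.Agent.ETX.Stmts

set_option autoImplicit false

/-!
Module KRC of ETX: expansion of `binom(∑ 2^{e_i} k_i, c)` and the functions on `Uh / levW e j`.
-/

namespace Pool.Agent.ETX

open Module Finset

namespace KRC_

/-- generating function -/
noncomputable def F (z : ℤ_[2]) : PowerSeries (ZMod 2) := PowerSeries.mk (bin z)

theorem F_add (hB : Stmt_BIN) (x y : ℤ_[2]) : F (x + y) = F x * F y := by
  obtain ⟨-, -, -, -, hadd, -, -, -, -⟩ := hB
  ext a
  rw [PowerSeries.coeff_mul]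
  simp only [F, PowerSeries.coeff_mk]
  exact hadd x y a

theorem F_zero (hB : Stmt_BIN) : F 0 = 1 := by
  obtain ⟨h0, h1, -, -, -, -, -, -, -⟩ := hB
  ext a
  simp only [F, PowerSeries.coeff_mk, PowerSeries.coeff_one]
  split_ifs with h
  · rw [h]; exact h0 0
  · exact h1 a (Nat.pos_of_ne_zero h)

theorem F_sum (hB : Stmt_BIN) {ι : Type} (S : Finset ι) (z : ι → ℤ_[2]) :
    F (∑ i ∈ S, z i) = ∏ i ∈ S, F (z i) := by
  classical
  induction S using Finset.induction_on with
  | empty => simp [F_zero hB]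
  | insert i S hi ih => rw [Finset.sum_insert hi, Finset.prod_insert hi, F_add hB, ih]

variable {n : ℕ}

/-- the linear form -/
noncomputable def yy {s : ℤ_[2]} (e : Fin (n + 1) → ℕ) (k : Uh n s) : ℤ_[2] :=
  ∑ i, (2 : ℤ_[2]) ^ e i * k i

theorem yy_mul {s : ℤ_[2]} (e : Fin (n + 1) → ℕ) (h w : Uh n s) :
    yy e (h * w) = yy e h + chi h * yy e w := by
  unfold yy
  rw [Finset.mul_sum, ← Finset.sum_add_distrib]
  refine Finset.sum_congr rfl fun i _ => ?_
  rw [mul_apply]
  ring

theorem mem_levW {s : ℤ_[2]} (e : Fin (n + 1) → ℕ) (j : ℕ) (k : Uh n s) :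
    k ∈ levW n s e j ↔ (2 : ℤ_[2]) ^ j ∣ yy e k := Iff.rfl

theorem lvl_le {s : ℤ_[2]} (e : Fin (n + 1) → ℕ) (j : ℕ) : lvl n s j ≤ levW n s e j := by
  intro k hk
  rw [mem_levW]
  exact Finset.dvd_sum fun i _ => Dvd.dvd.mul_left (hk i) _

/-- the function `binom(∑ 2^{e_i} k_i, c)` -/
noncomputable def hh (hB : Stmt_BIN) (s : ℤ_[2]) (e : Fin (n + 1) → ℕ) (c : ℕ) : LC (filt n s) :=
  ⟨fun k => bin (yy e k) c, by
    obtain ⟨-, -, -, -, -, -, hper, -, -⟩ := hB
    refine ⟨c, fun h v hv => ?_⟩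
    refine hper c c Nat.lt_two_pow_self _ _ ?_
    rw [yy_mul, add_sub_cancel_left]
    exact Dvd.dvd.mul_left (lvl_le e c hv) _⟩

theorem hh_coe (hB : Stmt_BIN) (s : ℤ_[2]) (e : Fin (n + 1) → ℕ) (c : ℕ) (k : Uh n s) :
    (hh hB s e c : Uh n s → ZMod 2) k = bin (yy e k) c := rfl

theorem fin_A (e : Fin (n + 1) → ℕ) (c : ℕ) :
    {α : Ix n | ∑ i, 2 ^ e i * (ofLex α) i = c}.Finite := by
  have h : ({β : Fin (n + 1) → ℕ | ∀ i, β i ≤ c} : Set (Fin (n + 1) → ℕ)).Finite :=
    (Set.finite_Iic (fun _ : Fin (n + 1) => c)).subset fun β hβ => hβ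
  refine Set.Finite.subset (h.preimage (f := ofLex) ofLex.injective.injOn) ?_
  intro α hα i
  have h1 : 2 ^ e i * (ofLex α) i ≤ ∑ i, 2 ^ e i * (ofLex α) i :=
    Finset.single_le_sum (f := fun i => 2 ^ e i * (ofLex α) i) (fun _ _ => Nat.zero_le _)
      (Finset.mem_univ i)
  have h2 : (ofLex α) i ≤ 2 ^ e i * (ofLex α) i := Nat.le_mul_of_pos_left _ (by positivity)
  have h3 : ∑ i, 2 ^ e i * (ofLex α) i = c := hα
  change (ofLex α) i ≤ c
  omega

theorem expand (hB : Stmt_BIN) (e : Fin (n + 1) → ℕ) (c : ℕ) (z : Fin (n + 1) → ℤ_[2]) :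
    bin (∑ i, (2 : ℤ_[2]) ^ e i * z i) c =
      ∑ α ∈ (fin_A e c).toFinset, ∏ i, bin (z i) ((ofLex α) i) := by
  classical
  have h1 : bin (∑ i, (2 : ℤ_[2]) ^ e i * z i) c =
      PowerSeries.coeff c (F (∑ i, (2 : ℤ_[2]) ^ e i * z i)) := by
    simp only [F, PowerSeries.coeff_mk]
  rw [h1, F_sum hB, PowerSeries.coeff_prod]
  obtain ⟨-, -, -, -, -, h2, -, -, -⟩ := hB
  simp only [F, PowerSeries.coeff_mk, h2]
  symm
  refine Finset.sum_of_injOn (fun α => Finsupp.equivFunOnFinite.symm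
    (fun i => 2 ^ e i * (ofLex α) i)) ?_ ?_ ?_ ?_
  · intro α _ β _ hαβ
    have h3 := Finsupp.equivFunOnFinite.symm.injective hαβ
    have h4 : ofLex α = ofLex β := by
      funext i
      have h5 := congrFun h3 i
      exact Nat.eq_of_mul_eq_mul_left (by positivity) h5
    exact ofLex.injective h4
  · intro α hα
    have h3 : ∑ i, 2 ^ e i * (ofLex α) i = c := by
      have := hα
      rw [Finset.mem_coe, Set.Finite.mem_toFinset] at this
      exact this
    rw [Finset.mem_coe, Finset.mem_finsuppAntidiag]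
    refine ⟨?_, Finset.subset_univ _⟩
    exact h3
  · intro l hl hl'
    rw [Finset.mem_finsuppAntidiag] at hl
    by_contra hne
    apply hl'
    have h3 : ∀ i, 2 ^ e i ∣ l i := by
      intro i
      by_contra hi
      apply hne
      exact Finset.prod_eq_zero (Finset.mem_univ i) (if_neg hi)
    refine ⟨toLex (fun i => l i / 2 ^ e i), ?_, ?_⟩
    · rw [Finset.mem_coe, Set.Finite.mem_toFinset]
      change ∑ i, 2 ^ e i * (l i / 2 ^ e i) = c
      rw [← hl.1]
      exact Finset.sum_congr rfl fun i _ => Nat.mul_div_cancel' (h3 i)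
    · ext i
      change 2 ^ e i * (l i / 2 ^ e i) = l i
      exact Nat.mul_div_cancel' (h3 i)
  · intro α _
    refine Finset.prod_congr rfl fun i _ => ?_
    change bin (z i) ((ofLex α) i) = if 2 ^ e i ∣ 2 ^ e i * (ofLex α) i then
      bin (z i) (2 ^ e i * (ofLex α) i / 2 ^ e i) else 0
    rw [if_pos (dvd_mul_right _ _), Nat.mul_div_cancel_left _ (by positivity)]

/-- the element with last coordinate `z` and the others `0` -/
noncomputable def sg (n : ℕ) (s : ℤ_[2]) (z : ℤ_[2]) : Uh n s := Pi.single (M := fun _ => ℤ_[2]) (Fin.last n) z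

theorem yy_sg (s : ℤ_[2]) (e : Fin (n + 1) → ℕ) (he : e (Fin.last n) = 0) (z : ℤ_[2]) :
    yy e (sg n s z) = z := by
  unfold yy sg
  rw [Finset.sum_eq_single (Fin.last n)]
  · rw [he, pow_zero, one_mul, Pi.single_eq_same]
  · intro i _ hi
    rw [Pi.single_eq_of_ne hi, mul_zero]
  · intro h
    exact absurd (Finset.mem_univ _) h

end KRC_

open KRC_ in
theorem krc_proof (hBIN : Stmt_BIN) (hBI1 : Stmt_BI1) : Stmt_KRC := by
  intro n s e he b hb
  refine ⟨hh hBIN s e, ?_, ?_⟩
  · intro c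
    refine ⟨(fin_A e c).toFinset, fun α => ?_, ?_⟩
    · rw [Set.Finite.mem_toFinset]; rfl
    · apply Subtype.ext
      funext k
      rw [hh_coe]
      unfold yy
      rw [expand hBIN]
      have h1 : ((∑ α ∈ (fin_A e c).toFinset, b α : LC (filt n s)) : Uh n s → ZMod 2) k =
          ∑ α ∈ (fin_A e c).toFinset, ((b α : LC (filt n s)) : Uh n s → ZMod 2) k := by
        rw [Submodule.coe_sum, Finset.sum_apply]
      rw [h1]
      refine Finset.sum_congr rfl fun α _ => ?_
      have h2 := hb (ofLex α)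
      rw [toLex_ofLex] at h2
      rw [h2]
      rfl
  · intro j
    refine ⟨⟨j, lvl_le e j⟩, ?_⟩
    apply le_antisymm
    · intro f hf
      have hf' : ∀ k k' : Uh n s, (2 : ℤ_[2]) ^ j ∣ yy e k' - yy e k →
          (f : Uh n s → ZMod 2) k' = (f : Uh n s → ZMod 2) k := by
        intro k k' hkk
        have h1 : yy e k' = yy e k + chi k * yy e (k⁻¹ * k') := by
          rw [← yy_mul, mul_inv_cancel_left]
        have h2 : k⁻¹ * k' ∈ levW n s e j := by
          rw [mem_levW]
          rw [h1, add_sub_cancel_left] at hkk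
          exact ((chi_isUnit k).dvd_mul_left).1 hkk
        have h3 := congrArg (fun g : LC (filt n s) => (g : Uh n s → ZMod 2) k) (hf _ h2)
        simp only [rt_apply, mul_inv_cancel_left] at h3
        exact h3
      obtain ⟨c, hc, -⟩ := hBI1 j (fun z => (f : Uh n s → ZMod 2) (sg n s z)) (by
        intro x y hxy
        apply hf'
        rw [yy_sg s e he, yy_sg s e he]
        exact hxy)
      have h4 : f = ∑ a : Fin (2 ^ j), c a • hh hBIN s e a := by
        apply Subtype.ext
        funext k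
        have h5 : (f : Uh n s → ZMod 2) k = (f : Uh n s → ZMod 2) (sg n s (yy e k)) := by
          apply hf'
          rw [yy_sg s e he, sub_self]
          exact dvd_zero _
        rw [h5, hc (yy e k), Submodule.coe_sum, Finset.sum_apply]
        rfl
      rw [h4]
      refine Submodule.sum_mem _ fun a _ => Submodule.smul_mem _ _ (Submodule.subset_span ?_)
      exact ⟨a, a.2, rfl⟩
    · rw [Submodule.span_le]
      rintro _ ⟨c, hc, rfl⟩
      intro w hw
      apply Subtype.ext
      funext k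
      rw [rt_apply, hh_coe, hh_coe]
      obtain ⟨-, -, -, -, -, -, hper, -, -⟩ := hBIN
      refine hper j c hc _ _ ?_
      rw [yy_mul, add_sub_cancel_left]
      exact Dvd.dvd.mul_left hw _

end Pool.Agent.ETX
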