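import Pool.Agent.ETX.Stmts

/-!
# ETX, module KRG: growth along a Kronecker tower
-/

set_option autoImplicit false

namespace Pool.Agent.ETX

open Module

namespace KRG_

/-! ### weights -/

/-- exponents of the Kronecker tower -/
def ee (n L : ℕ) (i : Fin (n + 1)) : ℕ := L * (n - i)

/-- the weight -/
def wt {n : ℕ} (e : Fin (n + 1) → ℕ) (α : Fin (n + 1) → ℕ) : ℕ := ∑ i, 2 ^ e i * α i

theorem tail_lt (n L : ℕ) (a : Fin (n + 1) → ℕ) (ha : ∀ i, a i < 2 ^ L) :
    ∀ d m : ℕ, m + d = n + 1 →
      ∑ l ∈ Finset.univ.filter (fun l : Fin (n + 1) => m ≤ (l : ℕ)), 2 ^ (ee n L l) * a l <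
        2 ^ (L * d) := by
  intro d
  induction d with
  | zero =>
    intro m hm
    have h : Finset.univ.filter (fun l : Fin (n + 1) => m ≤ (l : ℕ)) = ∅ := by
      rw [Finset.filter_eq_empty_iff]
      intro l _
      have := l.2
      omega
    rw [h]
    simp
  | succ d ih =>
    intro m hm
    have hm' : m < n + 1 := by omega
    have h : Finset.univ.filter (fun l : Fin (n + 1) => m ≤ (l : ℕ)) =
        insert (⟨m, hm'⟩ : Fin (n + 1))
          (Finset.univ.filter (fun l : Fin (n + 1) => m + 1 ≤ (l : ℕ))) := by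
      ext l
      simp only [Finset.mem_filter, Finset.mem_univ, true_and, Finset.mem_insert, Fin.ext_iff]
      omega
    rw [h, Finset.sum_insert]
    · have h1 := ih (m + 1) (by omega)
      have h2 : ee n L ⟨m, hm'⟩ = L * d := by
        unfold ee
        have : n - m = d := by omega
        simp [this]
      rw [h2]
      have h3 := ha ⟨m, hm'⟩
      have h4 : 2 ^ (L * (d + 1)) = 2 ^ (L * d) * 2 ^ L := by
        rw [← pow_add]
        ring_nf
      rw [h4]
      have h5 : 2 ^ (L * d) * (a ⟨m, hm'⟩ + 1) ≤ 2 ^ (L * d) * 2 ^ L :=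
        Nat.mul_le_mul_left _ h3
      have h6 : 2 ^ (L * d) * (a ⟨m, hm'⟩ + 1) = 2 ^ (L * d) * a ⟨m, hm'⟩ + 2 ^ (L * d) := by ring
      omega
    · simp

theorem wt_lt (n L : ℕ) (a α : Fin (n + 1) → ℕ) (ha : ∀ i, a i < 2 ^ L)
    (h : toLex a < toLex α) : wt (ee n L) a < wt (ee n L) α := by
  classical
  obtain ⟨i, hi1, hi2⟩ := h
  have hi1' : ∀ j, j < i → a j = α j := hi1
  have hi2' : a i < α i := hi2
  have hsplit : ∀ β : Fin (n + 1) → ℕ, wt (ee n L) β =
      ∑ l ∈ Finset.univ.filter (fun l : Fin (n + 1) => ¬ (i : ℕ) ≤ (l : ℕ)),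
        2 ^ (ee n L l) * β l +
      ∑ l ∈ Finset.univ.filter (fun l : Fin (n + 1) => (i : ℕ) ≤ (l : ℕ)),
        2 ^ (ee n L l) * β l := by
    intro β
    unfold wt
    rw [← Finset.sum_filter_add_sum_filter_not Finset.univ
      (fun l : Fin (n + 1) => (i : ℕ) ≤ (l : ℕ))]
    exact add_comm _ _
  have h1 : ∑ l ∈ Finset.univ.filter (fun l : Fin (n + 1) => ¬ (i : ℕ) ≤ (l : ℕ)),
        2 ^ (ee n L l) * a l = ∑ l ∈ Finset.univ.filter (fun l : Fin (n + 1) => ¬ (i : ℕ) ≤ (l : ℕ)),
        2 ^ (ee n L l) * α l := by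
    refine Finset.sum_congr rfl fun l hl => ?_
    have hl' := (Finset.mem_filter.1 hl).2
    rw [hi1' l (by
      rw [Fin.lt_def]
      omega)]
  have h2 : Finset.univ.filter (fun l : Fin (n + 1) => (i : ℕ) ≤ (l : ℕ)) =
      insert i (Finset.univ.filter (fun l : Fin (n + 1) => (i : ℕ) + 1 ≤ (l : ℕ))) := by
    ext l
    simp only [Finset.mem_filter, Finset.mem_univ, true_and, Finset.mem_insert, Fin.ext_iff]
    omega
  have h3 : i ∉ Finset.univ.filter (fun l : Fin (n + 1) => (i : ℕ) + 1 ≤ (l : ℕ)) := by simp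
  rw [hsplit a, hsplit α, h1]
  refine Nat.add_lt_add_left ?_ _
  rw [h2, Finset.sum_insert h3, Finset.sum_insert h3]
  have hin := i.2
  have h4 := tail_lt n L a ha (n - i) (i + 1) (by omega)
  have h5 : 2 ^ (ee n L i) = 2 ^ (L * (n - i)) := rfl
  rw [h5]
  have h6 : 2 ^ (L * (n - i)) * (a i + 1) ≤ 2 ^ (L * (n - i)) * α i :=
    Nat.mul_le_mul_left _ hi2'
  have h7 : 2 ^ (L * (n - i)) * (a i + 1) = 2 ^ (L * (n - i)) * a i + 2 ^ (L * (n - i)) := by ring
  have h8 : 0 ≤ ∑ l ∈ Finset.univ.filter (fun l : Fin (n + 1) => (i : ℕ) + 1 ≤ (l : ℕ)),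
      2 ^ (ee n L l) * α l := Nat.zero_le _
  omega

theorem wt_single {n : ℕ} (e : Fin (n + 1) → ℕ) (he : e (Fin.last n) = 0) (c : ℕ) :
    wt e (Pi.single (Fin.last n) c) = c := by
  classical
  unfold wt
  rw [Finset.sum_eq_single (Fin.last n)]
  · rw [he, Pi.single_eq_same]
    ring
  · intro b _ hb
    rw [Pi.single_eq_of_ne hb, mul_zero]
  · intro h
    exact absurd (Finset.mem_univ _) h

theorem wt_add {n : ℕ} (e : Fin (n + 1) → ℕ) (α β : Fin (n + 1) → ℕ) :
    wt e (α + β) = wt e α + wt e β := by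
  unfold wt
  rw [← Finset.sum_add_distrib]
  refine Finset.sum_congr rfl fun i _ => ?_
  rw [Pi.add_apply]
  ring

variable {n k : ℕ} {s : ℤ_[2]}

theorem ix_surj (i : Ixk n k) : ∃ (α : Fin (n + 1) → ℕ) (p : Fin k), i = ix α p :=
  ⟨ofLex (ofLex i).1, (ofLex i).2, rfl⟩

theorem ix_inj (α α' : Fin (n + 1) → ℕ) (p p' : Fin k) :
    ix α p = ix α' p' ↔ α = α' ∧ p = p' := by
  constructor
  · intro h
    have h1 : (toLex α, p) = (toLex α', p') := toLex.injective h
    rw [Prod.mk.injEq] at h1
    exact ⟨toLex.injective h1.1, h1.2⟩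
  · rintro ⟨rfl, rfl⟩
    rfl

/-- coordinates in `LC^k` -/
theorem repr_eq (b : Basis (Ix n) (ZMod 2) (LC (filt n s))) (hb : IsE b)
    (B : Basis (Ixk n k) (ZMod 2) (Fin k → LC (filt n s))) (hB : IsEk B)
    (x : Fin k → LC (filt n s)) (α : Fin (n + 1) → ℕ) (p : Fin k) :
    B.repr x (ix α p) = b.repr (x p) (toLex α) := by
  classical
  have h : (Finsupp.lapply (ix α p) : (Ixk n k →₀ ZMod 2) →ₗ[ZMod 2] ZMod 2) ∘ₗ
        (B.repr : (Fin k → LC (filt n s)) →ₗ[ZMod 2] (Ixk n k →₀ ZMod 2)) =
      (Finsupp.lapply (toLex α) : (Ix n →₀ ZMod 2) →ₗ[ZMod 2] ZMod 2) ∘ₗ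
        (b.repr : LC (filt n s) →ₗ[ZMod 2] (Ix n →₀ ZMod 2)) ∘ₗ LinearMap.proj p := by
    refine B.ext fun i => ?_
    obtain ⟨α', p', rfl⟩ := ix_surj i
    have hBp : B (ix α' p') p = if p = p' then b (toLex α') else 0 := by
      apply Subtype.ext
      rw [hB α' p' p]
      split_ifs
      · exact (hb α').symm
      · rfl
    change B.repr (B (ix α' p')) (ix α p) = b.repr (B (ix α' p') p) (toLex α)
    rw [hBp, Basis.repr_self, Finsupp.single_apply]
    by_cases hp : p = p'
    · subst hp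
      rw [if_pos rfl, Basis.repr_self, Finsupp.single_apply]
      have h1 : ix α' p = ix α p ↔ toLex α' = toLex α := by
        rw [ix_inj]
        exact ⟨fun h => congrArg toLex h.1, fun h => ⟨toLex.injective h, rfl⟩⟩
      simp only [h1]
    · rw [if_neg hp, map_zero, Finsupp.zero_apply, if_neg]
      intro h
      exact hp ((ix_inj _ _ _ _).1 h).2.symm
  exact LinearMap.congr_fun h x

/-- `X = rt (gen last) - 1` on `LC` -/
noncomputable def XX (n : ℕ) (s : ℤ_[2]) : LC (filt n s) →ₗ[ZMod 2] LC (filt n s) :=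
  rt (filt n s) (gen n s (Fin.last n)) - LinearMap.id

theorem XX_coord (hOPS : Stmt_OPS) (b : Basis (Ix n) (ZMod 2) (LC (filt n s))) (hb : IsE b)
    (e : Fin (n + 1) → ℕ) (he : e (Fin.last n) = 0) (g : LC (filt n s)) (γ : Fin (n + 1) → ℕ)
    (hg : ∀ α : Fin (n + 1) → ℕ, wt e γ + 2 ≤ wt e α → b.repr g (toLex α) = 0) :
    b.repr (XX n s g) (toLex γ) = b.repr g (toLex (γ + Pi.single (Fin.last n) 1)) := by
  classical
  -- the coordinates of `X b_α`
  have key : ∀ α : Fin (n + 1) → ℕ, wt e α < wt e γ + 2 →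
      b.repr (XX n s (b (toLex α))) (toLex γ) =
        if toLex α = toLex (γ + Pi.single (Fin.last n) 1) then 1 else 0 := by
    intro α hα
    obtain ⟨o1, -, o3⟩ := hOPS n s b hb α (Fin.last n)
    rcases Nat.eq_zero_or_pos (α (Fin.last n)) with h0 | h0
    · have h1 : XX n s (b (toLex α)) = 0 := by
        unfold XX
        rw [LinearMap.sub_apply, o1 h0, LinearMap.id_apply, sub_self]
      rw [h1, map_zero, Finsupp.zero_apply, if_neg]
      intro h
      have h2 := congrFun (toLex.injective h) (Fin.last n)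
      rw [Pi.add_apply, Pi.single_eq_same, h0] at h2
      omega
    · have h1 := o3 h0
      set R := rt (filt n s) (gen n s (Fin.last n)) (b (toLex α)) - b (toLex α) -
        b (toLex (α - Pi.single (Fin.last n) 1)) with hR
      have h2 : XX n s (b (toLex α)) = b (toLex (α - Pi.single (Fin.last n) 1)) + R := by
        unfold XX
        rw [LinearMap.sub_apply, LinearMap.id_apply, hR]
        abel
      rw [h2, map_add, Finsupp.add_apply, Basis.repr_self]
      have h3 : b.repr R (toLex γ) = 0 := by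
        by_contra hne
        rw [Basis.mem_span_image] at h1
        have h4 := h1 (Finset.mem_coe.2 (Finsupp.mem_support_iff.2 hne))
        obtain ⟨h5, h6⟩ := h4
        have h5' : ∀ l, l ≠ Fin.last n → γ l = α l := h5
        have h6' : γ (Fin.last n) + 2 ≤ α (Fin.last n) := h6
        have h7 : α = γ + Pi.single (Fin.last n) (α (Fin.last n) - γ (Fin.last n)) := by
          funext l
          by_cases hl : l = Fin.last n
          · subst hl
            rw [Pi.add_apply, Pi.single_eq_same]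
            omega
          · rw [Pi.add_apply, Pi.single_eq_of_ne hl, h5' l hl, add_zero]
        have h8 : wt e α = wt e γ + (α (Fin.last n) - γ (Fin.last n)) := by
          conv_lhs => rw [h7]
          rw [wt_add, wt_single e he]
        omega
      rw [h3, add_zero, Finsupp.single_apply]
      have h9 : toLex (α - Pi.single (Fin.last n) 1) = toLex γ ↔
          toLex α = toLex (γ + Pi.single (Fin.last n) 1) := by
        constructor
        · intro h
          have h10 := toLex.injective h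
          rw [← h10]
          congr 1
          funext l
          by_cases hl : l = Fin.last n
          · subst hl
            rw [Pi.add_apply, Pi.sub_apply, Pi.single_eq_same]
            omega
          · rw [Pi.add_apply, Pi.sub_apply, Pi.single_eq_of_ne hl]
            rfl
        · intro h
          have h10 := toLex.injective h
          rw [h10]
          congr 1
          funext l
          rw [Pi.sub_apply, Pi.add_apply, Nat.add_sub_cancel]
      simp only [h9]
  -- expand `g`
  have hsum : g = ∑ α ∈ (b.repr g).support, b.repr g α • b α := by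
    have := b.linearCombination_repr g
    rw [Finsupp.linearCombination_apply, Finsupp.sum] at this
    exact this.symm
  have h1 : b.repr (XX n s g) (toLex γ) =
      ∑ α ∈ (b.repr g).support, b.repr g α * b.repr (XX n s (b α)) (toLex γ) := by
    conv_lhs => rw [hsum]
    rw [map_sum, map_sum, Finsupp.finsetSum_apply]
    refine Finset.sum_congr rfl fun α _ => ?_
    rw [map_smul, map_smul, Finsupp.smul_apply, smul_eq_mul]
  rw [h1]
  have h2 : ∀ α ∈ (b.repr g).support, b.repr g α * b.repr (XX n s (b α)) (toLex γ) =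
      if α = toLex (γ + Pi.single (Fin.last n) 1) then b.repr g α else 0 := by
    intro α hα
    have h3 : wt e (ofLex α) < wt e γ + 2 := by
      by_contra hlt
      push Not at hlt
      have := hg (ofLex α) hlt
      exact (Finsupp.mem_support_iff.1 hα) this
    have h4 := key (ofLex α) h3
    change b.repr (XX n s (b α)) (toLex γ) = _ at h4
    rw [h4]
    change b.repr g α * (if α = toLex (γ + Pi.single (Fin.last n) 1) then 1 else 0) = _
    split_ifs
    · rw [mul_one]
    · rw [mul_zero]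
  rw [Finset.sum_congr rfl h2, Finset.sum_ite_eq']
  split_ifs with h5
  · rfl
  · exact (Finsupp.notMem_support_iff.1 h5).symm

/-- coordinates of the functions of level `j` of the Kronecker tower -/
theorem lev_coord (b : Basis (Ix n) (ZMod 2) (LC (filt n s)))
    (e : Fin (n + 1) → ℕ) (he : e (Fin.last n) = 0) (h : ℕ → LC (filt n s))
    (hh : ∀ c, ∃ A : Finset (Ix n), (∀ α, α ∈ A ↔ ∑ i, 2 ^ e i * (ofLex α) i = c) ∧
        h c = ∑ α ∈ A, b α) (j : ℕ) (g : LC (filt n s))
    (hg : g ∈ Submodule.span (ZMod 2) (h '' {c | c < 2 ^ j})) (α : Fin (n + 1) → ℕ) :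
    b.repr g (toLex α) = b.repr g (toLex (Pi.single (Fin.last n) (wt e α))) ∧
      (2 ^ j ≤ wt e α → b.repr g (toLex α) = 0) := by
  classical
  have hc : ∀ c (β : Fin (n + 1) → ℕ), b.repr (h c) (toLex β) = if wt e β = c then 1 else 0 := by
    intro c β
    obtain ⟨A, hA, hA2⟩ := hh c
    rw [hA2, map_sum, Finsupp.finsetSum_apply]
    have h1 : ∀ x ∈ A, (b.repr (b x)) (toLex β) = if toLex β = x then 1 else 0 := by
      intro x _
      rw [Basis.repr_self, Finsupp.single_apply]
      simp only [eq_comm]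
    rw [Finset.sum_congr rfl h1, Finset.sum_ite_eq]
    have h2 := hA (toLex β)
    have h3 : (toLex β ∈ A) ↔ wt e β = c := h2
    simp only [h3]
  induction hg using Submodule.span_induction with
  | mem x hx =>
    obtain ⟨c, hc', rfl⟩ := hx
    have hc'' : c < 2 ^ j := hc'
    rw [hc, hc, wt_single e he]
    refine ⟨rfl, fun hle => ?_⟩
    rw [if_neg]
    omega
  | zero =>
    rw [map_zero]
    exact ⟨rfl, fun _ => rfl⟩
  | add x y _ _ hx hy =>
    rw [map_add, Finsupp.add_apply, Finsupp.add_apply, hx.1, hy.1]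
    refine ⟨rfl, fun hle => ?_⟩
    rw [← hx.1, ← hy.1, hx.2 hle, hy.2 hle, add_zero]
  | smul r x _ hx =>
    rw [map_smul, Finsupp.smul_apply, Finsupp.smul_apply, hx.1]
    refine ⟨rfl, fun hle => ?_⟩
    rw [← hx.1, hx.2 hle, smul_zero]

theorem zmod_one {x : ZMod 2} (h : x ≠ 0) : x = 1 := by
  revert x
  decide

/-- The main step: the operator `X` applied `m` times. -/
theorem step (hOPS : Stmt_OPS) (b : Basis (Ix n) (ZMod 2) (LC (filt n s))) (hb : IsE b)
    (e : Fin (n + 1) → ℕ) (he : e (Fin.last n) = 0)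
    (N : Submodule (ZMod 2) (Fin k → LC (filt n s))) (hN : Stab (pw (rt (filt n s)) k) N)
    (p : Fin k) (w : ℕ) :
    ∀ (m : ℕ) (g : Fin k → LC (filt n s)), g ∈ N →
      (∀ q α, w + m < wt e α → b.repr (g q) (toLex α) = 0) →
      (∀ q, p < q → ∀ α, wt e α = w + m → b.repr (g q) (toLex α) = 0) →
      (∀ α, wt e α = w + m → b.repr (g p) (toLex α) = 1) →
      ∃ g' ∈ N, (∀ q α, w < wt e α → b.repr (g' q) (toLex α) = 0) ∧
        (∀ q, p < q → ∀ α, wt e α = w → b.repr (g' q) (toLex α) = 0) ∧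
        (∀ α, wt e α = w → b.repr (g' p) (toLex α) = 1) := by
  intro m
  induction m with
  | zero =>
    intro g hg h1 h2 h3
    exact ⟨g, hg, h1, h2, h3⟩
  | succ m ih =>
    intro g hg h1 h2 h3
    have hgen : (fun q => XX n s (g q)) ∈ N := by
      have h4 : pw (rt (filt n s)) k (gen n s (Fin.last n)) g - g ∈ N :=
        N.sub_mem (hN _ hg) hg
      exact h4
    have hs : wt e (Pi.single (Fin.last n) 1) = 1 := wt_single e he 1
    have hco : ∀ q α, w + m ≤ wt e α → b.repr (XX n s (g q)) (toLex α) =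
        b.repr (g q) (toLex (α + Pi.single (Fin.last n) 1)) := by
      intro q α hα
      refine XX_coord hOPS b hb e he (g q) α fun β hβ => ?_
      refine h1 q β ?_
      omega
    refine ih (fun q => XX n s (g q)) hgen ?_ ?_ ?_
    · intro q α hα
      rw [hco q α (by omega)]
      refine h1 q _ ?_
      rw [wt_add, hs]
      omega
    · intro q hq α hα
      rw [hco q α (by omega)]
      refine h2 q hq _ ?_
      rw [wt_add, hs]
      omega
    · intro α hα
      rw [hco p α (by omega)]
      refine h3 _ ?_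
      rw [wt_add, hs]
      omega

/-- The bound inside `LC^k`. -/
theorem inner (hBAS : Stmt_BAS) (hOPS : Stmt_OPS) (hKRC : Stmt_KRC)
    (B : Basis (Ixk n k) (ZMod 2) (Fin k → LC (filt n s))) (hB : IsEk B)
    (N : Submodule (ZMod 2) (Fin k → LC (filt n s))) (hN : Stab (pw (rt (filt n s)) k) N) :
    ∃ (e : Fin (n + 1) → ℕ) (C : ℕ), e (Fin.last n) = 0 ∧ ∀ j : ℕ,
      finrank (ZMod 2) (N ⊓ fixd (pw (rt (filt n s)) k) (levW n s e j) :
        Submodule (ZMod 2) (Fin k → LC (filt n s))) ≤ fr B N * 2 ^ j + C := by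
  classical
  obtain ⟨⟨b, hb⟩, -, -⟩ := hBAS n s
  have hex : ∀ p : Fin k, ∃ a : Fin (n + 1) → ℕ, p ∈ tset B N → ix a p ∉ Deg B N := by
    intro p
    by_cases hp : p ∈ tset B N
    · obtain ⟨a, ha⟩ := hp
      exact ⟨a, fun _ => ha⟩
    · exact ⟨0, fun h => absurd h hp⟩
  choose a ha using hex
  -- the exponent `L`
  let L : ℕ := ∑ p, ∑ i, a p i
  have hL : ∀ p i, a p i < 2 ^ L := by
    intro p i
    have h1 : a p i ≤ ∑ i, a p i := Finset.single_le_sum (f := fun i => a p i)
      (fun _ _ => Nat.zero_le _) (Finset.mem_univ i)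
    have h2 : ∑ i, a p i ≤ L := Finset.single_le_sum (f := fun p => ∑ i, a p i)
      (fun _ _ => Nat.zero_le _) (Finset.mem_univ p)
    have h3 : L < 2 ^ L := Nat.lt_two_pow_self
    omega
  let e : Fin (n + 1) → ℕ := ee n L
  have he : e (Fin.last n) = 0 := by
    change L * (n - (Fin.last n : ℕ)) = 0
    rw [Fin.val_last, Nat.sub_self, mul_zero]
  obtain ⟨h, hh, hlev⟩ := hKRC n s e he b hb
  refine ⟨e, ∑ p, wt e (a p), he, fun j => ?_⟩
  let T : Finset (Fin k) := Finset.univ.filter (fun p => p ∉ tset B N)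
  let F1 : Finset (ℕ × Fin k) := (Finset.range (2 ^ j)) ×ˢ T
  let F2 : Finset (ℕ × Fin k) := Finset.univ.biUnion fun p =>
    (Finset.range (wt e (a p))).image fun c => (c, p)
  let V : Submodule (ZMod 2) (Fin k → LC (filt n s)) :=
    N ⊓ fixd (pw (rt (filt n s)) k) (levW n s e j)
  -- the coordinate functionals
  let φ : (Fin k → LC (filt n s)) →ₗ[ZMod 2] (ℕ × Fin k → ZMod 2) :=
    LinearMap.pi fun cp => (Finsupp.lapply (toLex (Pi.single (Fin.last n) cp.1)) :
      (Ix n →₀ ZMod 2) →ₗ[ZMod 2] ZMod 2) ∘ₗ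
        (b.repr : LC (filt n s) →ₗ[ZMod 2] (Ix n →₀ ZMod 2)) ∘ₗ LinearMap.proj cp.2
  have hφ : ∀ f c p, φ f (c, p) = b.repr (f p) (toLex (Pi.single (Fin.last n) c)) :=
    fun f c p => rfl
  have hV : ∀ f ∈ V, ∀ (q : Fin k) (α : Fin (n + 1) → ℕ),
      b.repr (f q) (toLex α) = φ f (wt e α, q) ∧
        (2 ^ j ≤ wt e α → b.repr (f q) (toLex α) = 0) := by
    intro f hf q α
    have h1 : f q ∈ fixd (rt (filt n s)) (levW n s e j) := fun x hx => congrFun (hf.2 x hx) q
    rw [(hlev j).2] at h1
    exact lev_coord b e he h hh j (f q) h1 α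
  -- injectivity
  have hinj : ∀ f ∈ V, (∀ x ∈ F1 ∪ F2, φ f x = 0) → f = 0 := by
    intro f hf hzero
    by_contra hne
    -- some coordinate is not zero
    have h1 : ∃ (q : Fin k) (α : Fin (n + 1) → ℕ), b.repr (f q) (toLex α) ≠ 0 := by
      by_contra hno
      push Not at hno
      apply hne
      funext q
      apply b.repr.injective
      rw [Pi.zero_apply, map_zero]
      ext α
      exact hno q (ofLex α)
    obtain ⟨q0, α0, h0⟩ := h1
    -- the set of indices
    let S : Finset (ℕ × Fin k) :=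
      ((Finset.range (2 ^ j)) ×ˢ (Finset.univ : Finset (Fin k))).filter (fun x => φ f x ≠ 0)
    have hS0 : (wt e α0, q0) ∈ S := by
      refine Finset.mem_filter.2 ⟨Finset.mem_product.2 ⟨?_, Finset.mem_univ _⟩, ?_⟩
      · rw [Finset.mem_range]
        by_contra hlt
        push Not at hlt
        exact h0 ((hV f hf q0 α0).2 hlt)
      · rw [← (hV f hf q0 α0).1]
        exact h0
    obtain ⟨x, hxS, hxmax⟩ := Finset.exists_max_image S (fun x => (toLex x : Lex (ℕ × Fin k)))
      ⟨_, hS0⟩
    obtain ⟨c, p⟩ := x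
    have hcp := Finset.mem_filter.1 hxS
    have hc : c < 2 ^ j := Finset.mem_range.1 (Finset.mem_product.1 hcp.1).1
    have hne0 : φ f (c, p) ≠ 0 := hcp.2
    have hnot : (c, p) ∉ F1 ∪ F2 := fun hmem => hne0 (hzero _ hmem)
    have hpT : p ∈ tset B N := by
      by_contra hp
      apply hnot
      exact Finset.mem_union_left _ (Finset.mem_product.2 ⟨Finset.mem_range.2 hc,
        Finset.mem_filter.2 ⟨Finset.mem_univ _, hp⟩⟩)
    have hwc : wt e (a p) ≤ c := by
      by_contra hlt
      push Not at hlt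
      apply hnot
      exact Finset.mem_union_right _ (Finset.mem_biUnion.2 ⟨p, Finset.mem_univ _,
        Finset.mem_image.2 ⟨c, Finset.mem_range.2 hlt, rfl⟩⟩)
    obtain ⟨m, hm⟩ := Nat.exists_eq_add_of_le hwc
    -- zero above
    have habove : ∀ (c' : ℕ) (q : Fin k), toLex (c, p) < toLex (c', q) → φ f (c', q) = 0 ∨
        2 ^ j ≤ c' := by
      intro c' q hlt
      by_contra hno
      push Not at hno
      have h2 : (c', q) ∈ S := Finset.mem_filter.2 ⟨Finset.mem_product.2
        ⟨Finset.mem_range.2 hno.2, Finset.mem_univ _⟩, hno.1⟩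
      exact absurd (hxmax _ h2) (not_le.2 hlt)
    have habove' : ∀ (q : Fin k) (α : Fin (n + 1) → ℕ), toLex (c, p) < toLex (wt e α, q) →
        b.repr (f q) (toLex α) = 0 := by
      intro q α hlt
      rcases habove _ q hlt with h2 | h2
      · rw [(hV f hf q α).1]
        exact h2
      · exact (hV f hf q α).2 h2
    obtain ⟨g, hgN, g1, g2, g3⟩ := step hOPS b hb e he N hN p (wt e (a p)) m f hf.1
      (by
        intro q α hα
        refine habove' q α ?_
        rw [Prod.Lex.toLex_lt_toLex]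
        left
        change c < wt e α
        omega)
      (by
        intro q hq α hα
        refine habove' q α ?_
        rw [Prod.Lex.toLex_lt_toLex]
        right
        refine ⟨?_, hq⟩
        change c = wt e α
        omega)
      (by
        intro α hα
        rw [(hV f hf p α).1]
        have h2 : wt e α = c := by omega
        rw [h2]
        exact zmod_one hne0)
    -- so `ix (a p) p` is a leading exponent
    apply ha p hpT
    refine ⟨g, hgN, ?_⟩
    unfold below
    rw [Basis.mem_span_image]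
    intro i hi
    rw [Finset.mem_coe, Finsupp.mem_support_iff] at hi
    obtain ⟨α, q, rfl⟩ := ix_surj i
    change ix α q < ix (a p) p
    by_contra hlt
    apply hi
    rw [map_sub, Finsupp.sub_apply, Basis.repr_self, Finsupp.single_apply,
      repr_eq b hb B hB]
    have hle : ix (a p) p ≤ ix α q := not_lt.1 hlt
    rcases hle.eq_or_lt with heq | hlt2
    · rw [if_pos heq]
      obtain ⟨h2, h3⟩ := (ix_inj _ _ _ _).1 heq
      rw [← h2, ← h3, g3 (a p) rfl, sub_self]
    · rw [if_neg hlt2.ne, sub_zero]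
      rw [Prod.Lex.toLex_lt_toLex] at hlt2
      rcases hlt2 with h2 | ⟨h2, h3⟩
      · have h2' : toLex (a p) < toLex α := h2
        exact g1 q α (wt_lt n L (a p) α (hL p) h2')
      · have h2' : a p = α := toLex.injective h2
        exact g2 q h3 α (by rw [← h2'])
  -- dimension
  let ψ : V →ₗ[ZMod 2] (↥(F1 ∪ F2) → ZMod 2) :=
    (LinearMap.pi fun x : ↥(F1 ∪ F2) => (LinearMap.proj (x : ℕ × Fin k) :
      (ℕ × Fin k → ZMod 2) →ₗ[ZMod 2] ZMod 2)) ∘ₗ φ ∘ₗ V.subtype
  have hψ : Function.Injective ψ := by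
    rw [← LinearMap.ker_eq_bot, LinearMap.ker_eq_bot']
    rintro ⟨f, hf⟩ hf0
    apply Subtype.ext
    refine hinj f hf fun x hx => ?_
    exact congrFun hf0 ⟨x, hx⟩
  have hdim := LinearMap.finrank_le_finrank_of_injective hψ
  rw [Module.finrank_fintype_fun_eq_card, Fintype.card_coe] at hdim
  refine hdim.trans ((Finset.card_union_le _ _).trans (add_le_add ?_ ?_))
  · have h1 : F1.card = 2 ^ j * T.card := by
      rw [Finset.card_product, Finset.card_range]
    rw [h1, mul_comm]
    refine Nat.mul_le_mul_right _ ?_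
    unfold fr
    have h2 : (tset B N).ncard = (Finset.univ.filter (fun p => p ∈ tset B N)).card := by
      rw [← Set.ncard_coe_finset]
      congr 1
      ext p
      simp
    rw [h2]
    have h3 := Finset.card_filter_add_card_filter_not (s := (Finset.univ : Finset (Fin k)))
      (fun p => p ∈ tset B N)
    rw [Finset.card_univ, Fintype.card_fin] at h3
    have h4 : T.card = (Finset.univ.filter (fun p => ¬ p ∈ tset B N)).card := rfl
    omega
  · refine Finset.card_biUnion_le.trans ?_
    refine Finset.sum_le_sum fun p _ => Finset.card_image_le.trans ?_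
    rw [Finset.card_range]

/-- the dimension of the fixed vectors, through an equivariant embedding -/
theorem fix_dim {M M' : Type} [AddCommGroup M] [Module (ZMod 2) M] [AddCommGroup M']
    [Module (ZMod 2) M'] (ρ : Representation (ZMod 2) (Uh n s) M)
    (ρ' : Representation (ZMod 2) (Uh n s) M') (f : M →ₗ[ZMod 2] M') (hf : Equi ρ ρ' f)
    (hinj : Function.Injective f) (W : Subgroup (Uh n s)) :
    finrank (ZMod 2) (fixd ρ W) =
      finrank (ZMod 2) (LinearMap.range f ⊓ fixd ρ' W : Submodule (ZMod 2) M') := by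
  have h : Submodule.map f (fixd ρ W) = LinearMap.range f ⊓ fixd ρ' W := by
    ext y
    rw [Submodule.mem_map, Submodule.mem_inf]
    constructor
    · rintro ⟨x, hx, rfl⟩
      refine ⟨LinearMap.mem_range_self f x, fun w hw => ?_⟩
      rw [← hf w x, hx w hw]
    · rintro ⟨⟨x, rfl⟩, hy⟩
      refine ⟨x, fun w hw => ?_, rfl⟩
      apply hinj
      rw [hf w x]
      exact hy w hw
  rw [← h]
  exact (Submodule.equivMapOfInjective f hinj (fixd ρ W)).finrank_eq

end KRG_

open KRG_ in
theorem krg_proof (_hLTM : Stmt_LTM) (hBAS : Stmt_BAS) (hOPS : Stmt_OPS) (_hDIM : Stmt_DIM)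
    (hEMB : Stmt_EMB) (hRNK : Stmt_RNK) (hKRC : Stmt_KRC) : Stmt_KRG := by
  intro n s M _ _ ρ r hadm hr
  obtain ⟨k, f, hf, hinj⟩ : ∃ (k : ℕ) (f : M →ₗ[ZMod 2] (Fin k → LC (filt n s))),
      Equi ρ (pw (rt (filt n s)) k) f ∧ Function.Injective f :=
    ⟨_, hEMB (Uh n s) M (filt n s) ρ hadm _ le_rfl⟩
  obtain ⟨B, hB⟩ := (hBAS n s).2.2 k
  let N : Submodule (ZMod 2) (Fin k → LC (filt n s)) := LinearMap.range f
  have hN : Stab (pw (rt (filt n s)) k) N := by
    rintro h _ ⟨x, rfl⟩
    rw [Submodule.mem_comap, ← hf h x]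
    exact LinearMap.mem_range_self f _
  -- the rank
  have h1 := (hRNK n s).2.2.1 k B hB N hN
  have h2 : ∀ W : Subgroup (Uh n s), finrank (ZMod 2) (fixd ρ W) =
      finrank (ZMod 2) (fixd (subr (pw (rt (filt n s)) k) N hN) W) := by
    intro W
    have h3 := fix_dim ρ (pw (rt (filt n s)) k) f hf hinj W
    have h4 := fix_dim (subr (pw (rt (filt n s)) k) N hN) (pw (rt (filt n s)) k) N.subtype
      (fun h x => rfl) Subtype.val_injective W
    rw [Submodule.range_subtype] at h4
    rw [h3, h4]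
  have h5 : HasRk ρ (fr B N) := by
    obtain ⟨C, hC⟩ := h1
    refine ⟨C, fun j => ?_⟩
    rw [h2]
    exact hC j
  have h6 : r = fr B N := (hRNK n s).2.1 M ρ r _ hr h5
  obtain ⟨e, C, he, hbound⟩ := inner hBAS hOPS hKRC B hB N hN
  refine ⟨e, C, he, fun j => ?_⟩
  rw [fix_dim ρ (pw (rt (filt n s)) k) f hf hinj, h6]
  exact hbound j

end Pool.Agent.ETX
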