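import Pool.Agent.ETX.Stmts

/-!
# ETX, module LTM: leading terms (linear algebra over `F_2`)
-/

set_option autoImplicit false

namespace Pool.Agent.ETX

open Module

namespace LTM_

variable {I M : Type} [LinearOrder I] [AddCommGroup M] [Module (ZMod 2) M]
  (b : Basis I (ZMod 2) M)

theorem mem_span_iff (D : Set I) (x : M) :
    x ∈ Submodule.span (ZMod 2) (b '' D) ↔ ∀ j, b.repr x j ≠ 0 → j ∈ D := by
  rw [Basis.mem_span_image]
  constructor
  · intro h j hj
    exact h (Finset.mem_coe.2 (Finsupp.mem_support_iff.2 hj))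
  · intro h j hj
    exact h j (Finsupp.mem_support_iff.1 (Finset.mem_coe.1 hj))

theorem lead_iff (f : M) (i : I) :
    f - b i ∈ below b i ↔ b.repr f i = 1 ∧ ∀ j, i < j → b.repr f j = 0 := by
  unfold below
  rw [mem_span_iff]
  have e : ∀ j, b.repr (f - b i) j = b.repr f j - (if i = j then 1 else 0) := by
    intro j
    rw [map_sub, Basis.repr_self, Finsupp.sub_apply, Finsupp.single_apply]
  constructor
  · intro h
    refine ⟨?_, ?_⟩
    · by_contra h1
      have h2 : b.repr (f - b i) i ≠ 0 := by
        rw [e, if_pos rfl]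
        exact sub_ne_zero.2 h1
      exact lt_irrefl i (h i h2)
    · intro j hj
      by_contra h1
      have h2 : b.repr (f - b i) j ≠ 0 := by
        rw [e, if_neg (ne_of_lt hj), sub_zero]
        exact h1
      exact lt_asymm hj (h j h2)
  · rintro ⟨h1, h2⟩ j hj
    rw [e] at hj
    rcases lt_trichotomy j i with h | h | h
    · exact h
    · rw [h, if_pos rfl, h1, sub_self] at hj
      exact absurd rfl hj
    · rw [if_neg (ne_of_lt h), h2 j h, sub_zero] at hj
      exact absurd rfl hj

theorem lead_ne {f : M} {i j : I} (hi : f - b i ∈ below b i) (hj : f - b j ∈ below b j) :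
    i = j := by
  rw [lead_iff] at hi hj
  rcases lt_trichotomy i j with h | h | h
  · have := hi.2 j h
    rw [hj.1] at this
    exact absurd this one_ne_zero
  · exact h
  · have := hj.2 i h
    rw [hi.1] at this
    exact absurd this one_ne_zero

theorem zmod_one {c : ZMod 2} (hc : c ≠ 0) : c = 1 := by
  revert c
  decide

theorem exists_lead {f : M} (hf : f ≠ 0) : ∃ i, f - b i ∈ below b i := by
  have h1 : (b.repr f).support.Nonempty := by
    rw [Finsupp.support_nonempty_iff]
    intro h
    exact hf ((LinearEquiv.map_eq_zero_iff _).1 h)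
  refine ⟨(b.repr f).support.max' h1, ?_⟩
  rw [lead_iff]
  refine ⟨zmod_one (Finsupp.mem_support_iff.1 (Finset.max'_mem _ h1)), ?_⟩
  intro j hj
  by_contra h2
  exact absurd (Finset.le_max' _ j (Finsupp.mem_support_iff.2 h2)) (not_le.2 hj)

theorem self_lead (i : I) : b i - b i ∈ below b i := by
  rw [sub_self]
  exact Submodule.zero_mem _

theorem deg_mono {N N' : Submodule (ZMod 2) M} (h : N ≤ N') : Deg b N ⊆ Deg b N' := by
  rintro i ⟨f, hf, h1⟩
  exact ⟨f, h hf, h1⟩

theorem deg_top : Deg b ⊤ = Set.univ := by
  ext i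
  exact ⟨fun _ => trivial, fun _ => ⟨b i, trivial, self_lead b i⟩⟩

theorem deg_span (D : Set I) : Deg b (Submodule.span (ZMod 2) (b '' D)) = D := by
  ext i
  constructor
  · rintro ⟨f, hf, h1⟩
    rw [mem_span_iff] at hf
    refine hf i ?_
    rw [((lead_iff b f i).1 h1).1]
    exact one_ne_zero
  · intro hi
    exact ⟨b i, Submodule.subset_span ⟨i, hi, rfl⟩, self_lead b i⟩

variable [WellFoundedLT I]

theorem eq_of_deg {N' N : Submodule (ZMod 2) M} (h : N' ≤ N) (hD : Deg b N ⊆ Deg b N') :
    N' = N := by
  have key : ∀ i : I, ∀ f ∈ N, f - b i ∈ below b i → f ∈ N' := by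
    intro i
    induction i using WellFoundedLT.induction with
    | ind i ih =>
      intro f hf h1
      obtain ⟨g, hg, h2⟩ := hD ⟨f, hf, h1⟩
      by_cases h0 : f - g = 0
      · rw [sub_eq_zero.1 h0]
        exact hg
      · obtain ⟨j, hj⟩ := exists_lead b h0
        have h3 := (lead_iff b f i).1 h1
        have h4 := (lead_iff b g i).1 h2
        have h5 := (lead_iff b (f - g) j).1 hj
        have hji : j < i := by
          by_contra hji
          have h6 : b.repr (f - g) j = 0 := by
            rw [map_sub, Finsupp.sub_apply]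
            rcases lt_or_eq_of_le (not_lt.1 hji) with h7 | h7
            · rw [h3.2 j h7, h4.2 j h7, sub_zero]
            · rw [← h7, h3.1, h4.1, sub_self]
          rw [h5.1] at h6
          exact one_ne_zero h6
        have h8 := ih j hji (f - g) (N.sub_mem hf (h hg)) hj
        have h9 := N'.add_mem h8 hg
        rwa [sub_add_cancel] at h9
  refine le_antisymm h ?_
  intro f hf
  by_cases h0 : f = 0
  · rw [h0]
    exact N'.zero_mem
  · obtain ⟨i, hi⟩ := exists_lead b h0
    exact key i f hf hi

theorem compl (N : Submodule (ZMod 2) M) :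
    IsCompl N (Submodule.span (ZMod 2) (b '' (Deg b N)ᶜ)) := by
  constructor
  · rw [Submodule.disjoint_def]
    intro x hx hx'
    by_contra h0
    obtain ⟨i, hi⟩ := exists_lead b h0
    rw [mem_span_iff] at hx'
    have h1 : b.repr x i ≠ 0 := by
      rw [((lead_iff b x i).1 hi).1]
      exact one_ne_zero
    exact hx' i h1 ⟨x, hx, hi⟩
  · rw [codisjoint_iff]
    refine eq_of_deg b le_top ?_
    intro i _
    by_cases hi : i ∈ Deg b N
    · exact deg_mono b le_sup_left hi
    · exact ⟨b i, Submodule.mem_sup_right (Submodule.subset_span ⟨i, hi, rfl⟩), self_lead b i⟩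

/-- a subspace is isomorphic to the span of the basis vectors of its leading exponents -/
noncomputable def iso (N : Submodule (ZMod 2) M) :
    N ≃ₗ[ZMod 2] Submodule.span (ZMod 2) (b '' Deg b N) :=
  (Submodule.quotientEquivOfIsCompl _ N (compl b N).symm).symm.trans
    (Submodule.quotientEquivOfIsCompl _ (Submodule.span (ZMod 2) (b '' Deg b N)) (by
      have h := compl b (Submodule.span (ZMod 2) (b '' Deg b N))
      rw [deg_span] at h
      exact h.symm))

end LTM_

open LTM_

theorem ltm_proof : Stmt_LTM := by
  intro I M _ _ _ _ b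
  refine ⟨fun f hf => exists_lead b hf, fun N' N h hD => eq_of_deg b h hD, fun N => compl b N,
    ?_, ?_, deg_top b, fun N i hi f hf h => hi ⟨f, hf, h⟩⟩
  · intro N hN
    have : Finite (Deg b N) := hN
    have : Fintype (Deg b N) := Fintype.ofFinite _
    have hfd : FiniteDimensional (ZMod 2) (Submodule.span (ZMod 2) (b '' Deg b N)) :=
      FiniteDimensional.span_of_finite _ (hN.image b)
    refine ⟨LinearEquiv.finiteDimensional (iso b N).symm, ?_⟩
    rw [LinearEquiv.finrank_eq (iso b N)]
    have hli : LinearIndependent (ZMod 2) (fun i : Deg b N => b (i : I)) :=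
      b.linearIndependent.comp _ Subtype.val_injective
    have h1 := finrank_span_eq_card hli
    have h2 : Set.range (fun i : Deg b N => b (i : I)) = b '' Deg b N := by
      rw [Set.image_eq_range]
    rw [h2] at h1
    rw [h1, Set.ncard_eq_toFinset_card', Set.toFinset_card]
  · intro N hN
    have hfin : Finite N := Module.finite_of_finite (ZMod 2)
    have hch : ∀ i : Deg b N, ∃ f : N, (f : M) - b (i : I) ∈ below b (i : I) := by
      rintro ⟨i, f, hf, h⟩
      exact ⟨⟨f, hf⟩, h⟩
    choose φ hφ using hch
    have hinj : Function.Injective φ := by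
      intro i j hij
      apply Subtype.ext
      have h1 := hφ i
      rw [hij] at h1
      exact lead_ne b h1 (hφ j)
    have : Finite (Deg b N) := Finite.of_injective φ hinj
    exact Set.toFinite _

end Pool.Agent.ETX
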