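import Pool.Agent.ETX.Stmts

/-!
# ETX, module MON: fixed vectors of open subgroups in an admissible module
-/

set_option autoImplicit false

namespace Pool.Agent.ETX

open Module

theorem mon_proof (hEMB : Stmt_EMB) (hDIM : Stmt_DIM) : Stmt_MON := by
  intro H M _ _ _ Φ ρ hA W hW
  obtain ⟨f, hf, hinj⟩ := hEMB H M Φ ρ hA (finrank (ZMod 2) (fixd ρ ⊤)) le_rfl
  obtain ⟨hfd, hfr⟩ := (hDIM H Φ (finrank (ZMod 2) (fixd ρ ⊤))).2 W hW
  have hmap : ∀ x : fixd ρ W, f (x : M) ∈ fixd (pw (rt Φ) (finrank (ZMod 2) (fixd ρ ⊤))) W := by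
    intro x w hw
    rw [← hf w (x : M)]
    rw [x.2 w hw]
  let g : fixd ρ W →ₗ[ZMod 2] fixd (pw (rt Φ) (finrank (ZMod 2) (fixd ρ ⊤))) W :=
    LinearMap.codRestrict _ (f ∘ₗ (fixd ρ W).subtype) hmap
  have hg : Function.Injective g := by
    intro x y hxy
    have h1 : f (x : M) = f (y : M) := congrArg Subtype.val hxy
    exact Subtype.ext (hinj h1)
  refine ⟨Module.Finite.of_injective g hg, ?_⟩
  rw [← hfr]
  exact LinearMap.finrank_le_finrank_of_injective hg

end Pool.Agent.ETX
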