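import Pool.Agent.ETX.StmtsS

/-!
Module MOS: monotonicity of `b_U / [G : U]`.
-/

set_option autoImplicit false

namespace Pool.Agent.ETX

open Module

namespace MOS_

variable {G R : Type} [Group G] [AddCommGroup R] [Module (ZMod 2) R]
  (rho : Representation (ZMod 2) G R) (U N : Subgroup G)

/-- the constant filtration of `U` by a normal subgroup of 2-power index -/
def cf (hN : N.Normal) (k : ℕ) (hk : N.index = 2 ^ k) : Filt U where
  V _ := N.subgroupOf U
  anti _ _ _ := le_rfl
  nrm _ := by infer_instance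
  two _ := by
    have h1 : (N.subgroupOf U).index ∣ N.index := Subgroup.relIndex_dvd_index_of_normal N U
    rw [hk] at h1
    obtain ⟨c, _, hc⟩ := (Nat.dvd_prime_pow Nat.prime_two).1 h1
    exact ⟨c, hc⟩

theorem stab (hN : N.Normal) (g : G) (x : R) (hx : x ∈ ETT.fix rho N) :
    rho g x ∈ ETT.fix rho N := by
  intro v hv
  have h1 : g⁻¹ * v * g ∈ N := by
    have := hN.conj_mem v hv g⁻¹
    rwa [inv_inv] at this
  calc rho v (rho g x) = rho (v * g) x := by rw [map_mul]; rfl
    _ = rho (g * (g⁻¹ * v * g)) x := by congr 2; group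
    _ = rho g (rho (g⁻¹ * v * g) x) := by rw [map_mul rho g]; rfl
    _ = rho g x := by rw [hx _ h1]

/-- the action of `U` on the vectors fixed by `N` -/
def ac (hN : N.Normal) : Representation (ZMod 2) U (ETT.fix rho N) where
  toFun h := (rho (h : G)).restrict (fun x hx => stab rho N hN h x hx)
  map_one' := by
    ext x
    simp
  map_mul' a b := by
    ext x
    simp

theorem ac_apply (hN : N.Normal) (h : U) (x : ETT.fix rho N) :
    ((ac rho U N hN h x : ETT.fix rho N) : R) = rho (h : G) x := rfl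

/-- the fixed vectors of an intermediate subgroup -/
def eq (hN : N.Normal) (W : Subgroup G) (hNW : N ≤ W) (hWU : W ≤ U) :
    fixd (ac rho U N hN) (W.subgroupOf U) ≃ₗ[ZMod 2] ETT.fix rho W where
  toFun x := ⟨(x : ETT.fix rho N), by
    intro w hw
    have h1 := x.2 ⟨w, hWU hw⟩ (Subgroup.mem_subgroupOf.2 hw)
    exact congrArg Subtype.val h1⟩
  invFun y := ⟨⟨y, fun v hv => y.2 v (hNW hv)⟩, by
    intro w hw
    apply Subtype.ext
    exact y.2 w (Subgroup.mem_subgroupOf.1 hw)⟩
  map_add' _ _ := rfl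
  map_smul' _ _ := rfl
  left_inv _ := rfl
  right_inv _ := rfl

end MOS_

open MOS_

theorem mos_proof (hMON : Stmt_MON) : Stmt_MOS := by
  intro G R _ _ _ S rho hA U hU W hW hWU
  obtain ⟨N, hN, hNW, hNn, k, hk⟩ := S.core W hW
  have hNU : N ≤ U := hNW.trans hWU
  have htop : U.subgroupOf U = ⊤ := Subgroup.subgroupOf_self U
  have e0 := eq rho U N hNn U hNU le_rfl
  rw [htop] at e0
  have e1 := eq rho U N hNn W hNW hWU
  have hfd : FiniteDimensional (ZMod 2) (ETT.fix rho U) := hA.fin U hU
  have hadm : Adm (cf U N hNn k hk) (ac rho U N hNn) := by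
    refine ⟨fun x => ⟨0, fun v hv => ?_⟩, ?_⟩
    · apply Subtype.ext
      exact x.2 v (Subgroup.mem_subgroupOf.1 hv)
    · exact Module.Finite.equiv e0.symm
  have h1 := (hMON U (ETT.fix rho N) (cf U N hNn k hk) (ac rho U N hNn) hadm
    (W.subgroupOf U) ⟨0, Subgroup.comap_mono hNW⟩).2
  rw [e0.finrank_eq, e1.finrank_eq] at h1
  exact h1

end Pool.Agent.ETX
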