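import Pool.Agent.ETX.Stmts

/-!
# Module OPS: the action of the generators on the Mahler basis
-/

set_option autoImplicit false

namespace Pool.Agent.ETX

open Module

namespace OPS_

/-- sums over the antidiagonal -/
lemma anti {M : Type} [AddCommGroup M] [Module (ZMod 2) M] (S : Submodule (ZMod 2) M)
    (f : ℕ × ℕ → M) (A : ℕ)
    (h : ∀ p ∈ Finset.HasAntidiagonal.antidiagonal (A + 1), 2 ≤ p.2 → f p ∈ S) :
    ∑ p ∈ Finset.HasAntidiagonal.antidiagonal (A + 1), f p - f (A + 1, 0) - f (A, 1) ∈ S := by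
  rw [Finset.Nat.sum_antidiagonal_succ']
  rcases A with _ | A
  · simp
  · rw [Finset.Nat.sum_antidiagonal_succ']
    have h1 : f (A + 1 + 1, 0) + (f (A + 1, 0 + 1) +
        ∑ p ∈ Finset.HasAntidiagonal.antidiagonal A, f (p.1, p.2 + 1 + 1)) -
        f (A + 1 + 1, 0) - f (A + 1, 1) =
        ∑ p ∈ Finset.HasAntidiagonal.antidiagonal A, f (p.1, p.2 + 1 + 1) := by
      rw [zero_add]
      abel
    rw [h1]
    refine S.sum_mem fun p hp => h _ ?_ (by omega)
    rw [Finset.HasAntidiagonal.mem_antidiagonal] at hp ⊢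
    simp only
    omega

/-- polynomials of degree at most `D` -/
def P (D : ℕ) : Submodule (ZMod 2) (ℤ_[2] → ZMod 2) :=
  Submodule.span (ZMod 2) {f | ∃ m, m ≤ D ∧ f = fun z => bin z m}

lemma bin_mem {m D : ℕ} (h : m ≤ D) : (fun z => bin z m) ∈ P D :=
  Submodule.subset_span ⟨m, h, rfl⟩

lemma P_mono {D D' : ℕ} (h : D ≤ D') : P D ≤ P D' := by
  refine Submodule.span_mono ?_
  rintro f ⟨m, hm, rfl⟩
  exact ⟨m, hm.trans h, rfl⟩

lemma P_mul (hB : Stmt_BIN) {D D' : ℕ} {f g : ℤ_[2] → ZMod 2} (hf : f ∈ P D) (hg : g ∈ P D') :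
    (fun z => f z * g z) ∈ P (D + D') := by
  obtain ⟨-, -, -, -, -, -, -, h8, -⟩ := hB
  induction hf using Submodule.span_induction with
  | mem f hf =>
    obtain ⟨a, ha, rfl⟩ := hf
    induction hg using Submodule.span_induction with
    | mem g hg =>
      obtain ⟨b, hb, rfl⟩ := hg
      obtain ⟨c, hc⟩ := h8 a b
      have : (fun z => bin z a * bin z b) =
          ∑ m ∈ Finset.range (a + b + 1), c m • (fun z => bin z m) := by
        funext z
        rw [hc z, Finset.sum_apply]
        rfl
      rw [this]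
      refine Submodule.sum_mem _ fun m hm => Submodule.smul_mem _ _ (bin_mem ?_)
      have := Finset.mem_range.1 hm
      omega
    | zero =>
      have : (fun z => bin z a * (0 : ℤ_[2] → ZMod 2) z) = 0 := by
        funext z
        simp
      rw [this]
      exact Submodule.zero_mem _
    | add x y _ _ hx hy =>
      have : (fun z => bin z a * (x + y) z) = (fun z => bin z a * x z) +
          fun z => bin z a * y z := by
        funext z
        simp [mul_add]
      rw [this]
      exact Submodule.add_mem _ hx hy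
    | smul c x _ hx =>
      have : (fun z => bin z a * (c • x) z) = c • fun z => bin z a * x z := by
        funext z
        simp only [Pi.smul_apply, smul_eq_mul]
        ring
      rw [this]
      exact Submodule.smul_mem _ _ hx
  | zero =>
    have : (fun z => (0 : ℤ_[2] → ZMod 2) z * g z) = 0 := by
      funext z
      simp
    rw [this]
    exact Submodule.zero_mem _
  | add x y _ _ hx hy =>
    have : (fun z => (x + y) z * g z) = (fun z => x z * g z) + fun z => y z * g z := by
      funext z
      simp [add_mul]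
    rw [this]
    exact Submodule.add_mem _ hx hy
  | smul c x _ hx =>
    have : (fun z => (c • x) z * g z) = c • fun z => x z * g z := by
      funext z
      simp only [Pi.smul_apply, smul_eq_mul]
      ring
    rw [this]
    exact Submodule.smul_mem _ _ hx

lemma P_four (hB : Stmt_BIN) (s : ℤ_[2]) (d : ℕ) : (fun z => bin (4 * s * z) d) ∈ P (d / 4) := by
  obtain ⟨-, -, -, -, -, h6, -, -, h9⟩ := hB
  have h1 : (fun z => bin (4 * s * z) d) = fun z => if 4 ∣ d then bin (s * z) (d / 4) else 0 := by
    funext z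
    have := h6 2 (s * z) d
    norm_num at this
    rw [mul_assoc, this]
  rw [h1]
  by_cases hd : 4 ∣ d
  · simp only [hd, if_true]
    obtain ⟨c, hc⟩ := h9 (d / 4) s
    have : (fun z => bin (s * z) (d / 4)) =
        ∑ m ∈ Finset.range (d / 4 + 1), c m • (fun z => bin z m) := by
      funext z
      rw [hc z, Finset.sum_apply]
      rfl
    rw [this]
    refine Submodule.sum_mem _ fun m hm => Submodule.smul_mem _ _ (bin_mem ?_)
    have := Finset.mem_range.1 hm
    omega
  · simp only [hd, if_false]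
    exact Submodule.zero_mem _

lemma chi_zero (hB : Stmt_BIN) (w : ℤ_[2]) : bin w 0 = 1 := hB.1 w

lemma P_chi_succ (hB : Stmt_BIN) (s z : ℤ_[2]) (c : ℕ) :
    bin (1 + 4 * s * z) (c + 1) = bin (4 * s * z) (c + 1) + bin (4 * s * z) c := by
  obtain ⟨h1, -, h3, h4, h5, -, -, -, -⟩ := hB
  rw [h5, Finset.Nat.sum_antidiagonal_succ]
  simp only [h1, one_mul]
  congr 1
  rw [Finset.sum_eq_single (0, c)]
  · simp [h3]
  · rintro ⟨x, y⟩ hp hne
    rw [Finset.HasAntidiagonal.mem_antidiagonal] at hp
    simp only at hp ⊢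
    have : x ≠ 0 := by
      rintro rfl
      apply hne
      rw [zero_add] at hp
      rw [hp]
    rw [h4 (x + 1) (by omega), zero_mul]
  · intro h
    exact absurd (Finset.HasAntidiagonal.mem_antidiagonal.2 (by simp)) h

lemma P_chi_one (hB : Stmt_BIN) (s z : ℤ_[2]) : bin (1 + 4 * s * z) 1 = 1 := by
  have h := P_chi_succ hB s z 0
  rw [zero_add] at h
  rw [h, hB.1]
  have h6 := hB.2.2.2.2.2.1 2 (s * z) 1
  norm_num at h6
  rw [mul_assoc, h6, zero_add]

lemma P_chi (hB : Stmt_BIN) (s : ℤ_[2]) (c : ℕ) :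
    (fun z => bin (1 + 4 * s * z) c) ∈ P (c / 4) := by
  rcases c with _ | c
  · have : (fun z => bin (1 + 4 * s * z) 0) = fun z => bin z 0 := by
      funext z
      rw [hB.1, hB.1]
    rw [this]
    exact bin_mem le_rfl
  · have : (fun z => bin (1 + 4 * s * z) (c + 1)) = (fun z => bin (4 * s * z) (c + 1)) +
        fun z => bin (4 * s * z) c := by
      funext z
      exact P_chi_succ hB s z c
    rw [this]
    exact Submodule.add_mem _ (P_four hB s (c + 1)) (P_mono (by omega) (P_four hB s c))

section conc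

variable {n : ℕ} {s : ℤ_[2]}

/-- product with one exponent changed -/
lemma Ef_update (α : Fin (n + 1) → ℕ) (i : Fin (n + 1)) (a : ℕ) (h : Uh n s) :
    Ef n s (Function.update α i a) h =
      bin (h i) a * ∏ l ∈ Finset.univ.erase i, bin (h l) (α l) := by
  unfold Ef
  rw [← Finset.mul_prod_erase Finset.univ _ (Finset.mem_univ i), Function.update_self]
  congr 1
  refine Finset.prod_congr rfl fun l hl => ?_
  rw [Function.update_of_ne (Finset.ne_of_mem_erase hl)]

lemma Ef_update2 (α : Fin (n + 1) → ℕ) (i : Fin (n + 1)) (hi : i ≠ Fin.last n) (a m : ℕ)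
    (h : Uh n s) :
    Ef n s (Function.update (Function.update α i a) (Fin.last n) m) h =
      bin (h i) a * (bin (h (Fin.last n)) m *
        ∏ l ∈ (Finset.univ.erase i).erase (Fin.last n), bin (h l) (α l)) := by
  rw [Ef_update, ← Finset.mul_prod_erase _ _ (Finset.mem_erase.2 ⟨hi, Finset.mem_univ i⟩),
    Function.update_self, Finset.erase_right_comm]
  have : ∏ l ∈ (Finset.univ.erase i).erase (Fin.last n), bin (h l) (Function.update α i a l) =
      ∏ l ∈ (Finset.univ.erase i).erase (Fin.last n), bin (h l) (α l) := by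
    refine Finset.prod_congr rfl fun l hl => ?_
    rw [Function.update_of_ne (Finset.ne_of_mem_erase (Finset.mem_of_mem_erase hl))]
  rw [this]
  ring

/-- translation by a generator -/
lemma mul_gen (h : Uh n s) (i l : Fin (n + 1)) :
    (h * gen n s i) l = if l = i then h i + (1 + 4 * s * h (Fin.last n)) else h l := by
  rw [mul_apply]
  unfold gen chi
  by_cases hl : l = i
  · subst hl
    rw [if_pos rfl, Pi.single_eq_same]
    ring
  · rw [if_neg hl, Pi.single_eq_of_ne hl]
    ring

lemma Ef_mul_gen (α : Fin (n + 1) → ℕ) (h : Uh n s) (i : Fin (n + 1)) :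
    Ef n s α (h * gen n s i) = bin (h i + (1 + 4 * s * h (Fin.last n))) (α i) *
      ∏ l ∈ Finset.univ.erase i, bin (h l) (α l) := by
  unfold Ef
  rw [← Finset.mul_prod_erase Finset.univ _ (Finset.mem_univ i), mul_gen, if_pos rfl]
  congr 1
  refine Finset.prod_congr rfl fun l hl => ?_
  rw [mul_gen, if_neg (Finset.ne_of_mem_erase hl)]

/-- membership in a span, on the level of functions -/
lemma mem_of_fun (b : Basis (Ix n) (ZMod 2) (LC (filt n s))) (hb : IsE b)
    (T : Set (Fin (n + 1) → ℕ)) (f : LC (filt n s))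
    (hf : (f : Uh n s → ZMod 2) ∈ Submodule.span (ZMod 2) (Ef n s '' T)) :
    f ∈ Submodule.span (ZMod 2) (b '' {β | ofLex β ∈ T}) := by
  have h1 : (Submodule.span (ZMod 2) (b '' {β | ofLex β ∈ T})).map (LC (filt n s)).subtype =
      Submodule.span (ZMod 2) (Ef n s '' T) := by
    rw [Submodule.map_span, ← Set.image_comp]
    congr 1
    ext g
    constructor
    · rintro ⟨β, hβ, rfl⟩
      exact ⟨ofLex β, hβ, (hb (ofLex β)).symm⟩
    · rintro ⟨β, hβ, rfl⟩
      exact ⟨toLex β, hβ, hb β⟩
  rw [← h1] at hf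
  obtain ⟨g, hg, hgf⟩ := hf
  have : g = f := Subtype.ext hgf
  rw [← this]
  exact hg

/-- the substitution `z = h_last` -/
def subst (R : Uh n s → ZMod 2) : (ℤ_[2] → ZMod 2) →ₗ[ZMod 2] (Uh n s → ZMod 2) where
  toFun g := fun h => g (h (Fin.last n)) * R h
  map_add' g g' := by
    funext h
    simp [add_mul]
  map_smul' c g := by
    funext h
    simp only [Pi.smul_apply, smul_eq_mul, RingHom.id_apply]
    ring

lemma subst_mem (R : Uh n s → ZMod 2) (D : ℕ) (S : Submodule (ZMod 2) (Uh n s → ZMod 2))
    (h : ∀ m, m ≤ D → (fun h : Uh n s => bin (h (Fin.last n)) m * R h) ∈ S)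
    {g : ℤ_[2] → ZMod 2} (hg : g ∈ P D) : (fun h : Uh n s => g (h (Fin.last n)) * R h) ∈ S := by
  have h1 : P D ≤ S.comap (subst R) := by
    refine Submodule.span_le.2 ?_
    rintro f ⟨m, hm, rfl⟩
    exact h m hm
  exact h1 hg

end conc

end OPS_

open OPS_ in
theorem ops_proof (hB : Stmt_BIN) : Stmt_OPS := by
  intro n s b hb α i
  have hbin0 := hB.1
  have hadd := hB.2.2.2.2.1
  have hcoe : ∀ β : Fin (n + 1) → ℕ, ((b (toLex β) : LC (filt n s)) : Uh n s → ZMod 2) =
      Ef n s β := hb
  -- the main identity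
  have hmain : ∀ (i : Fin (n + 1)) (S : Submodule (ZMod 2) (Uh n s → ZMod 2)), 1 ≤ α i →
      (∀ p ∈ Finset.HasAntidiagonal.antidiagonal (α i), 2 ≤ p.2 →
        (fun h : Uh n s => bin (h i) p.1 * (bin (1 + 4 * s * h (Fin.last n)) p.2 *
          ∏ l ∈ Finset.univ.erase i, bin (h l) (α l))) ∈ S) →
      (((rt (filt n s) (gen n s i) (b (toLex α)) - b (toLex α) -
        b (toLex (α - Pi.single i 1)) : LC (filt n s)) : Uh n s → ZMod 2)) ∈ S := by
    intro i S hα hS
    obtain ⟨A, hA⟩ : ∃ A, α i = A + 1 := ⟨α i - 1, by omega⟩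
    rw [hA] at hS
    have h1 := anti S (fun p => (fun h : Uh n s => bin (h i) p.1 *
      (bin (1 + 4 * s * h (Fin.last n)) p.2 * ∏ l ∈ Finset.univ.erase i, bin (h l) (α l)))) A hS
    refine (congrArg (fun F => F ∈ S) ?_).mp h1
    funext h
    have e1 : Ef n s (α - Pi.single i 1) h = bin (h i) A *
        ∏ l ∈ Finset.univ.erase i, bin (h l) (α l) := by
      have : α - Pi.single i 1 = Function.update α i A := by
        funext l
        by_cases hl : l = i
        · subst hl
          rw [Function.update_self, Pi.sub_apply, Pi.single_eq_same, hA]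
          rfl
        · rw [Function.update_of_ne hl, Pi.sub_apply, Pi.single_eq_of_ne hl]
          rfl
      rw [this, Ef_update]
    have e2 : Ef n s α h = bin (h i) (A + 1) * ∏ l ∈ Finset.univ.erase i, bin (h l) (α l) := by
      have : α = Function.update α i (A + 1) := by
        rw [← hA, Function.update_eq_self]
      rw [this, Ef_update]
      congr 1
      refine Finset.prod_congr rfl fun l hl => ?_
      rw [← this]
    have e3 : ((rt (filt n s) (gen n s i) (b (toLex α)) : LC (filt n s)) : Uh n s → ZMod 2) h =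
        ∑ p ∈ Finset.HasAntidiagonal.antidiagonal (A + 1), bin (h i) p.1 *
          (bin (1 + 4 * s * h (Fin.last n)) p.2 *
            ∏ l ∈ Finset.univ.erase i, bin (h l) (α l)) := by
      rw [rt_apply, hcoe, Ef_mul_gen, hadd, hA, Finset.sum_mul]
      refine Finset.sum_congr rfl fun p _ => ?_
      ring
    simp only [Pi.sub_apply, Finset.sum_apply, Submodule.coe_sub, e3, hcoe, e1, e2, hbin0, one_mul,
      P_chi_one hB]
  refine ⟨?_, ?_, ?_⟩
  · intro h0
    apply Subtype.ext
    funext h
    rw [rt_apply, hcoe, Ef_mul_gen, h0, hbin0]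
    have : α = Function.update α i 0 := by
      rw [← h0, Function.update_eq_self]
    rw [this, Ef_update, hbin0]
    congr 1
    refine Finset.prod_congr rfl fun l hl => ?_
    rw [← this]
  · intro hα hi
    refine mem_of_fun b hb {β | (∀ l, l ≠ i → l ≠ Fin.last n → β l = α l) ∧ β i + 2 ≤ α i} _ ?_
    refine hmain i _ hα ?_
    intro p hp hp2
    have hp' := Finset.HasAntidiagonal.mem_antidiagonal.1 hp
    obtain ⟨R, hR⟩ : ∃ R : Uh n s → ZMod 2, R = fun h => bin (h i) p.1 *
      ∏ l ∈ (Finset.univ.erase i).erase (Fin.last n), bin (h l) (α l) := ⟨_, rfl⟩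
    have e1 : (fun h : Uh n s => bin (h i) p.1 * (bin (1 + 4 * s * h (Fin.last n)) p.2 *
          ∏ l ∈ Finset.univ.erase i, bin (h l) (α l))) =
        fun h : Uh n s => (fun z => bin (1 + 4 * s * z) p.2 * bin z (α (Fin.last n)))
          (h (Fin.last n)) * R h := by
      funext h
      rw [← Finset.mul_prod_erase (Finset.univ.erase i) _
        (Finset.mem_erase.2 ⟨fun h0 => hi h0.symm, Finset.mem_univ (Fin.last n)⟩), hR]
      ring
    rw [e1]
    refine subst_mem R (p.2 / 4 + α (Fin.last n)) _ ?_ (P_mul hB (P_chi hB s p.2) (bin_mem le_rfl))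
    intro m _
    refine Submodule.subset_span ⟨Function.update (Function.update α i p.1) (Fin.last n) m,
      ⟨?_, ?_⟩, ?_⟩
    · intro l hl hl'
      rw [Function.update_of_ne hl', Function.update_of_ne hl]
    · rw [Function.update_of_ne hi, Function.update_self]
      omega
    · funext h
      rw [Ef_update2 α i hi, hR]
      ring
  · intro hα
    refine mem_of_fun b hb {β | (∀ l, l ≠ Fin.last n → β l = α l) ∧
      β (Fin.last n) + 2 ≤ α (Fin.last n)} _ ?_
    refine hmain (Fin.last n) _ hα ?_
    intro p hp hp2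
    have hp' := Finset.HasAntidiagonal.mem_antidiagonal.1 hp
    obtain ⟨R, hR⟩ : ∃ R : Uh n s → ZMod 2, R = fun h =>
      ∏ l ∈ Finset.univ.erase (Fin.last n), bin (h l) (α l) := ⟨_, rfl⟩
    have e1 : (fun h : Uh n s => bin (h (Fin.last n)) p.1 *
          (bin (1 + 4 * s * h (Fin.last n)) p.2 *
          ∏ l ∈ Finset.univ.erase (Fin.last n), bin (h l) (α l))) =
        fun h : Uh n s => (fun z => bin z p.1 * bin (1 + 4 * s * z) p.2)
          (h (Fin.last n)) * R h := by
      funext h
      rw [hR]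
      ring
    rw [e1]
    refine subst_mem R (p.1 + p.2 / 4) _ ?_ (P_mul hB (bin_mem le_rfl) (P_chi hB s p.2))
    intro m hm
    refine Submodule.subset_span ⟨Function.update α (Fin.last n) m, ⟨?_, ?_⟩, ?_⟩
    · intro l hl
      rw [Function.update_of_ne hl]
    · rw [Function.update_self]
      omega
    · funext h
      rw [Ef_update, hR]

end Pool.Agent.ETX
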