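import Pool.Agent.ETX.Stmts

/-!
Squad ETX, module QUO: quotients of `LC^k` are admissible.
-/

set_option autoImplicit false

namespace Pool.Agent.ETX

open Module

namespace QUO_

lemma zmod2 (c : ZMod 2) : c = 0 ∨ c = 1 := by
  revert c
  decide

section lead

variable {I M : Type} [LinearOrder I] [AddCommGroup M] [Module (ZMod 2) M]
  (b : Basis I (ZMod 2) M)

lemma below_repr {i : I} {x : M} (hx : x ∈ below b i) {l : I} (hl : i ≤ l) : b.repr x l = 0 := by
  unfold below at hx
  rw [b.mem_span_image] at hx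
  by_contra hne
  have h1 : l ∈ ((b.repr x).support : Set I) := by
    rw [Finset.mem_coe, Finsupp.mem_support_iff]
    exact hne
  exact absurd (hx h1) (not_lt.2 hl)

lemma lead_repr {i : I} {f : M} (h : f - b i ∈ below b i) : b.repr f i = 1 := by
  have h1 := below_repr b h le_rfl
  rw [map_sub, Finsupp.sub_apply, b.repr_self, Finsupp.single_eq_same, sub_eq_zero] at h1
  exact h1

lemma lead_repr' {i : I} {f : M} (h : f - b i ∈ below b i) {l : I} (hl : i < l) :
    b.repr f l = 0 := by
  have h1 := below_repr b h hl.le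
  rw [map_sub, Finsupp.sub_apply, b.repr_self, Finsupp.single_eq_of_ne hl.ne', sub_zero] at h1
  exact h1

lemma lead_uniq {i j : I} {f : M} (h : f - b i ∈ below b i) (h' : f - b j ∈ below b j) :
    i = j := by
  rcases lt_trichotomy i j with hij | hij | hij
  · have h1 := lead_repr' b h hij
    rw [lead_repr b h'] at h1
    exact absurd h1 one_ne_zero
  · exact hij
  · have h1 := lead_repr' b h' hij
    rw [lead_repr b h] at h1
    exact absurd h1 one_ne_zero

lemma lead_mem {i : I} {f : M} {A : Set I} (hf : f ∈ Submodule.span (ZMod 2) (b '' A))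
    (h : f - b i ∈ below b i) : i ∈ A := by
  rw [b.mem_span_image] at hf
  apply hf
  rw [Finset.mem_coe, Finsupp.mem_support_iff, lead_repr b h]
  exact one_ne_zero

lemma below_mono {i j : I} (hij : i ≤ j) : below b i ≤ below b j := by
  unfold below
  exact Submodule.span_mono (Set.image_mono fun l (hl : l < i) => lt_of_lt_of_le hl hij)

lemma mem_below {i j : I} (hij : i < j) {f : M} (h : f - b i ∈ below b i) : f ∈ below b j := by
  have h1 : b i ∈ below b j := Submodule.subset_span ⟨i, hij, rfl⟩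
  have h2 := (below b j).add_mem (below_mono b hij.le h) h1
  rwa [sub_add_cancel] at h2

/-- the leading exponents of `N + span f` -/
lemma deg_sup (h1 : ∀ f : M, f ≠ 0 → ∃ i, f - b i ∈ below b i) (N : Submodule (ZMod 2) M)
    {f : M} {i : I} (hi : i ∉ Deg b N) (hf : f - b i ∈ below b i) {j : I}
    (hj : j ∈ Deg b (N ⊔ Submodule.span (ZMod 2) {f})) : j ∈ Deg b N ∨ j = i := by
  obtain ⟨g, hg, hgj⟩ := hj
  obtain ⟨m, hm, y, hy, rfl⟩ := Submodule.mem_sup.1 hg
  obtain ⟨c, rfl⟩ := Submodule.mem_span_singleton.1 hy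
  have hc : c = 0 ∨ c = 1 := zmod2 c
  rcases hc with rfl | rfl
  · rw [zero_smul, add_zero] at hgj
    exact Or.inl ⟨m, hm, hgj⟩
  rw [one_smul] at hgj
  by_cases hm0 : m = 0
  · rw [hm0, zero_add] at hgj
    exact Or.inr (lead_uniq b hgj hf)
  obtain ⟨l, hl⟩ := h1 m hm0
  have hlN : l ∈ Deg b N := ⟨m, hm, hl⟩
  have hli : l ≠ i := fun h => hi (h ▸ hlN)
  rcases lt_or_gt_of_ne hli with hlt | hgt
  · right
    refine lead_uniq b hgj ?_
    have h2 := (below b i).add_mem (mem_below b hlt hl) hf
    have h3 : m + f - b i = m + (f - b i) := by abel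
    rw [h3]
    exact h2
  · left
    have h2 := (below b l).add_mem hl (mem_below b hgt hf)
    have h3 : m + f - b l = m - b l + f := by abel
    rw [← h3] at h2
    rw [lead_uniq b hgj h2]
    exact hlN

end lead

lemma smooth_C {n : ℕ} {s : ℤ_[2]} (k : ℕ) (f : Fin k → LC (filt n s)) :
    ∃ j, ∀ v ∈ (filt n s).V j, pw (rt (filt n s)) k v f = f := by
  have h1 : ∀ p, ∃ j, ∀ h, ∀ v ∈ (filt n s).V j, (f p : Uh n s → ZMod 2) (h * v) =
    (f p : Uh n s → ZMod 2) h := fun p => (f p).2
  choose j hj using h1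
  refine ⟨Finset.univ.sup j, fun v hv => ?_⟩
  funext p
  apply Subtype.ext
  funext x
  rw [pw_apply, rt_apply]
  exact hj p x v ((filt n s).anti _ _ (Finset.le_sup (Finset.mem_univ p)) hv)

end QUO_

open QUO_

theorem quo_proof (hLTM : Stmt_LTM) (hBAS : Stmt_BAS) (_hOPS : Stmt_OPS) (hDWN : Stmt_DWN) :
    Stmt_QUO := by
  intro n k s N hN
  set T := pw (rt (filt n s)) k with hT
  obtain ⟨-, -, hB⟩ := hBAS n s
  obtain ⟨B, hBE⟩ := hB k
  obtain ⟨L1, -, L3, L4, -, -, -⟩ := hLTM (Ixk n k) (Fin k → LC (filt n s)) B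
  refine ⟨?_, ?_⟩
  · intro x
    obtain ⟨f, rfl⟩ := N.mkQ_surjective x
    obtain ⟨j, hj⟩ := smooth_C k f
    refine ⟨j, fun v hv => ?_⟩
    rw [quor_mk, hj v hv]
  · -- the space of representatives of the invariants
    let S : Submodule (ZMod 2) (Fin k → LC (filt n s)) :=
      Submodule.span (ZMod 2) (B '' (Deg B N)ᶜ)
    let P : Submodule (ZMod 2) (Fin k → LC (filt n s)) :=
      { carrier := {f | f ∈ S ∧ ∀ h, T h f - f ∈ N}
        add_mem' := by
          rintro f g ⟨hf, hf'⟩ ⟨hg, hg'⟩
          refine ⟨S.add_mem hf hg, fun h => ?_⟩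
          have h1 : T h (f + g) - (f + g) = (T h f - f) + (T h g - g) := by
            rw [map_add]
            abel
          rw [h1]
          exact N.add_mem (hf' h) (hg' h)
        zero_mem' := by
          refine ⟨S.zero_mem, fun h => ?_⟩
          rw [map_zero, sub_zero]
          exact N.zero_mem
        smul_mem' := by
          rintro c f ⟨hf, hf'⟩
          refine ⟨S.smul_mem c hf, fun h => ?_⟩
          rcases zmod2 c with rfl | rfl
          · rw [zero_smul, map_zero, sub_zero]
            exact N.zero_mem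
          · rw [one_smul]
            exact hf' h }
    have hPdef : ∀ f, f ∈ P ↔ f ∈ S ∧ ∀ h, T h f - f ∈ N := fun f => Iff.rfl
    -- leading exponents of `P`
    let A : Fin k → Set (Fin (n + 1) → ℕ) := fun p =>
      {α | ix α p ∉ Deg B N ∧ ∀ β, β ≤ α → β ≠ α → ix β p ∈ Deg B N}
    have hAfin : ∀ p, (A p).Finite := by
      intro p
      have hanti : IsAntichain (· ≤ ·) (A p) := by
        intro α hα α' hα' hne hle
        exact hα.1 (hα'.2 α hle hne)
      exact WellQuasiOrderedLE.finite_of_isAntichain hanti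
    have hdeg : Deg B P ⊆ ⋃ p, (fun α => (ix α p : Ixk n k)) '' A p := by
      rintro i ⟨f, hf, hfi⟩
      obtain ⟨hfS, hfN⟩ := (hPdef f).1 hf
      have hiN : i ∉ Deg B N := lead_mem B hfS hfi
      rw [Set.mem_iUnion]
      refine ⟨(ofLex i).2, ofLex (ofLex i).1, ⟨hiN, ?_⟩, rfl⟩
      intro β hβ hβne
      have hstab : Stab T (N ⊔ Submodule.span (ZMod 2) {f}) := by
        intro h
        refine sup_le ((hN h).trans (Submodule.comap_mono le_sup_left)) ?_
        rw [Submodule.span_le, Set.singleton_subset_iff]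
        change T h f ∈ N ⊔ Submodule.span (ZMod 2) {f}
        have h1 : T h f = (T h f - f) + f := by abel
        rw [h1]
        exact Submodule.add_mem_sup (hfN h) (Submodule.mem_span_singleton_self f)
      have hi' : ix (ofLex (ofLex i).1) (ofLex i).2 ∈
          Deg B (N ⊔ Submodule.span (ZMod 2) {f}) :=
        ⟨f, Submodule.mem_sup_right (Submodule.mem_span_singleton_self f), hfi⟩
      have h2 := hDWN n k s B hBE _ hstab _ β _ hi' hβ
      rcases deg_sup B L1 N hiN hfi h2 with h3 | h3
      · exact h3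
      · exfalso
        apply hβne
        rw [← h3]
        rfl
    have hPfd : FiniteDimensional (ZMod 2) P :=
      (L4 P ((Set.finite_iUnion fun p => (hAfin p).image _).subset hdeg)).1
    have hle : fixd (quor T N hN) ⊤ ≤ P.map N.mkQ := by
      intro x hx
      obtain ⟨f₀, rfl⟩ := N.mkQ_surjective x
      have hcompl := L3 N
      have hmem : f₀ ∈ N ⊔ S := by
        rw [hcompl.sup_eq_top]
        exact Submodule.mem_top
      obtain ⟨m, hm, f, hf, rfl⟩ := Submodule.mem_sup.1 hmem
      have hmf : N.mkQ (m + f) = N.mkQ f := by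
        rw [map_add, (Submodule.Quotient.mk_eq_zero N).2 hm |> fun h => (h : N.mkQ m = 0), zero_add]
      rw [hmf] at hx ⊢
      refine ⟨f, ⟨hf, fun h => ?_⟩, rfl⟩
      have h1 : quor T N hN h (N.mkQ f) = N.mkQ f := hx h (Subgroup.mem_top h)
      rw [quor_mk] at h1
      exact (Submodule.Quotient.eq N).1 h1
    exact Submodule.finiteDimensional_of_le hle

end Pool.Agent.ETX
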