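import Pool.Agent.ETX.Stmts

/-!
Module RES of the squad ETX: the restriction of `LC G` to `Uh` is `LC^(2^m)`.
-/

set_option autoImplicit false

namespace Pool.Agent.ETX

open Module

namespace RES_

section
variable {G : Type} [Group G] (D : IData G)

theorem kap_inv_mul {u v : G} (hu : u ∈ D.U) (hv : v ∈ D.U) :
    D.kap (u⁻¹ * v) = (D.kap u)⁻¹ * D.kap v := by
  have h := D.kap_mul u hu (u⁻¹ * v) (D.U.mul_mem (D.U.inv_mem hu) hv)
  rw [mul_inv_cancel_left] at h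
  rw [h, inv_mul_cancel_left]

theorem exists_equiv : Nonempty ((G ⧸ D.U) ≃ Fin (2 ^ D.m)) := by
  have h : Nat.card (G ⧸ D.U) = 2 ^ D.m := by
    rw [← Subgroup.index_eq_card, D.Uidx]
  have hf : Finite (G ⧸ D.U) := by
    apply Nat.finite_of_card_ne_zero
    rw [h]
    positivity
  exact ⟨Finite.equivFinOfCardEq h⟩

/-- numbering of the cosets -/
noncomputable def e : (G ⧸ D.U) ≃ Fin (2 ^ D.m) := (exists_equiv D).some

/-- the number of the coset of `g` -/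
noncomputable def ii (g : G) : Fin (2 ^ D.m) := e D (QuotientGroup.mk g)

/-- representatives -/
noncomputable def gg (i : Fin (2 ^ D.m)) : G := Quotient.out ((e D).symm i)

theorem mk_gg (i : Fin (2 ^ D.m)) : (QuotientGroup.mk (gg D i) : G ⧸ D.U) = (e D).symm i := by
  unfold gg
  exact Quotient.out_eq _

theorem ii_gg (i : Fin (2 ^ D.m)) : ii D (gg D i) = i := by
  unfold ii
  rw [mk_gg, Equiv.apply_symm_apply]

theorem ii_mul (g : G) {u : G} (hu : u ∈ D.U) : ii D (g * u) = ii D g := by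
  unfold ii
  rw [QuotientGroup.mk_mul_of_mem g hu]

theorem mem_U (g : G) : (gg D (ii D g))⁻¹ * g ∈ D.U := by
  rw [← QuotientGroup.eq, mk_gg]
  unfold ii
  rw [Equiv.symm_apply_apply]

/-- the function on `G` belonging to `2^m` functions on `Uh` -/
noncomputable def Sf (φ : Fin (2 ^ D.m) → LC (filt D.n D.s)) (g : G) : ZMod 2 :=
  (φ (ii D g) : Uh D.n D.s → ZMod 2) (D.kap ((gg D (ii D g))⁻¹ * g))

theorem Sf_mem (φ : Fin (2 ^ D.m) → LC (filt D.n D.s)) : Sf D φ ∈ LC D.F := by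
  have h : ∀ i, ∃ j, ∀ h, ∀ v ∈ (filt D.n D.s).V j,
      (φ i : Uh D.n D.s → ZMod 2) (h * v) = (φ i : Uh D.n D.s → ZMod 2) h := fun i => (φ i).2
  choose J hJ using h
  refine ⟨Finset.univ.sup J, fun g v hv => ?_⟩
  obtain ⟨hvU, hvk⟩ := (D.F_spec _ v).1 hv
  unfold Sf
  rw [ii_mul D g hvU, ← mul_assoc, D.kap_mul _ (mem_U D g) v hvU]
  apply hJ
  exact (filt D.n D.s).anti _ _ (Finset.le_sup (f := J) (Finset.mem_univ _)) hvk

/-- the linear map -/
noncomputable def Sl : (Fin (2 ^ D.m) → LC (filt D.n D.s)) →ₗ[ZMod 2] LC D.F where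
  toFun φ := ⟨Sf D φ, Sf_mem D φ⟩
  map_add' _ _ := rfl
  map_smul' _ _ := rfl

theorem Sl_apply (φ : Fin (2 ^ D.m) → LC (filt D.n D.s)) (g : G) :
    (Sl D φ : G → ZMod 2) g =
      (φ (ii D g) : Uh D.n D.s → ZMod 2) (D.kap ((gg D (ii D g))⁻¹ * g)) := rfl

theorem Sl_inj : Function.Injective (Sl D) := by
  rw [injective_iff_map_eq_zero]
  intro φ h
  funext i
  apply Subtype.ext
  funext k
  obtain ⟨j, hj⟩ := (φ i).2
  obtain ⟨u, hu, huk⟩ := D.kap_onto k j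
  have h1 := hj (D.kap u) _ huk
  rw [mul_inv_cancel_left] at h1
  have h2 : (Sl D φ : G → ZMod 2) (gg D i * u) = 0 := by rw [h]; rfl
  rw [Sl_apply, ii_mul D _ hu, ii_gg, inv_mul_cancel_left] at h2
  rw [h1, h2]
  rfl

theorem Sl_surj : Function.Surjective (Sl D) := by
  intro f
  obtain ⟨j, hj⟩ := f.2
  choose w hwU hw using fun k : Uh D.n D.s => D.kap_onto k j
  -- two elements of `U` near the same point
  have key : ∀ (i : Fin (2 ^ D.m)) (k : Uh D.n D.s) (u u' : G), u ∈ D.U → u' ∈ D.U →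
      (D.kap u)⁻¹ * k ∈ lvl D.n D.s j → (D.kap u')⁻¹ * k ∈ lvl D.n D.s j →
      (f : G → ZMod 2) (gg D i * u') = (f : G → ZMod 2) (gg D i * u) := by
    intro i k u u' hu hu' h h'
    have hm : u⁻¹ * u' ∈ D.F.V j := by
      rw [D.F_spec]
      refine ⟨D.U.mul_mem (D.U.inv_mem hu) hu', ?_⟩
      rw [kap_inv_mul D hu hu']
      have h3 := (lvl D.n D.s j).mul_mem h ((lvl D.n D.s j).inv_mem h')
      have h4 : (D.kap u)⁻¹ * k * ((D.kap u')⁻¹ * k)⁻¹ = (D.kap u)⁻¹ * D.kap u' := by group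
      rwa [h4] at h3
    have h5 := hj (gg D i * u) _ hm
    rwa [← mul_assoc, mul_assoc (gg D i) u u⁻¹, mul_inv_cancel, mul_one] at h5
  have hmem : ∀ i : Fin (2 ^ D.m),
      (fun k : Uh D.n D.s => (f : G → ZMod 2) (gg D i * w k)) ∈ LC (filt D.n D.s) := by
    intro i
    refine ⟨j, fun k v hv => ?_⟩
    apply key i k _ _ (hwU k) (hwU _) (hw k)
    have h1 := (lvl D.n D.s j).mul_mem (hw (k * v)) ((lvl D.n D.s j).inv_mem hv)
    have h2 : (D.kap (w (k * v)))⁻¹ * (k * v) * v⁻¹ = (D.kap (w (k * v)))⁻¹ * k := by group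
    rwa [h2] at h1
  refine ⟨fun i => ⟨_, hmem i⟩, ?_⟩
  apply Subtype.ext
  funext g
  rw [Sl_apply]
  show (f : G → ZMod 2) (gg D (ii D g) * w (D.kap ((gg D (ii D g))⁻¹ * g))) =
    (f : G → ZMod 2) g
  rw [key (ii D g) (D.kap ((gg D (ii D g))⁻¹ * g)) ((gg D (ii D g))⁻¹ * g) _ (mem_U D g)
    (hwU _) (by rw [inv_mul_cancel]; exact (lvl D.n D.s j).one_mem) (hw _), mul_inv_cancel_left]

/-- the isomorphism -/
noncomputable def Se : (Fin (2 ^ D.m) → LC (filt D.n D.s)) ≃ₗ[ZMod 2] LC D.F :=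
  LinearEquiv.ofBijective (Sl D) ⟨Sl_inj D, Sl_surj D⟩

/-- `k` copies -/
noncomputable def Sk (k : ℕ) :
    (Fin (2 ^ D.m * k) → LC (filt D.n D.s)) ≃ₗ[ZMod 2] (Fin k → LC D.F) where
  toFun Φ := fun p => Se D (fun i => Φ (finProdFinEquiv (i, p)))
  map_add' Φ Ψ := by
    funext p
    exact map_add (Se D) (fun i => Φ (finProdFinEquiv (i, p)))
      (fun i => Ψ (finProdFinEquiv (i, p)))
  map_smul' c Φ := by
    funext p
    exact map_smul (Se D) c (fun i => Φ (finProdFinEquiv (i, p)))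
  invFun Ψ := fun q => (Se D).symm (Ψ (finProdFinEquiv.symm q).2) (finProdFinEquiv.symm q).1
  left_inv Φ := by
    funext q
    simp only [LinearEquiv.symm_apply_apply, Prod.mk.eta, Equiv.apply_symm_apply]
  right_inv Ψ := by
    funext p
    simp only [Equiv.symm_apply_apply, LinearEquiv.apply_symm_apply]

theorem Sk_apply (k : ℕ) (Φ : Fin (2 ^ D.m * k) → LC (filt D.n D.s)) (p : Fin k) (g : G) :
    (Sk D k Φ p : G → ZMod 2) g =
      (Φ (finProdFinEquiv (ii D g, p)) : Uh D.n D.s → ZMod 2)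
        (D.kap ((gg D (ii D g))⁻¹ * g)) := rfl

theorem Sk_equi (k : ℕ) (Φ : Fin (2 ^ D.m * k) → LC (filt D.n D.s)) {u : G} (hu : u ∈ D.U) :
    Sk D k (pw (rt (filt D.n D.s)) (2 ^ D.m * k) (D.kap u) Φ) = pw (rt D.F) k u (Sk D k Φ) := by
  funext p
  apply Subtype.ext
  funext g
  rw [Sk_apply, pw_apply, pw_apply, rt_apply, rt_apply, Sk_apply, ii_mul D g hu, ← mul_assoc,
    D.kap_mul _ (mem_U D g) u hu]

theorem smooth_pw (n : ℕ) (s : ℤ_[2]) (K : ℕ) (Φ : Fin K → LC (filt n s)) :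
    ∃ j, ∀ v ∈ lvl n s j, pw (rt (filt n s)) K v Φ = Φ := by
  have h : ∀ q, ∃ j, ∀ h, ∀ v ∈ (filt n s).V j,
      (Φ q : Uh n s → ZMod 2) (h * v) = (Φ q : Uh n s → ZMod 2) h := fun q => (Φ q).2
  choose J hJ using h
  refine ⟨Finset.univ.sup J, fun v hv => ?_⟩
  funext q
  apply Subtype.ext
  funext x
  rw [pw_apply, rt_apply]
  apply hJ
  exact (filt n s).anti _ _ (Finset.le_sup (f := J) (Finset.mem_univ q)) hv

end

end RES_

open RES_ in
theorem res_proof (_hEXT : Stmt_EXT) : Stmt_RES := by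
  intro G _ D k σ hσ
  obtain ⟨hsm, hact⟩ := hσ
  refine ⟨(Sk D k).symm, ?_⟩
  -- equivariance of `Sk`
  have key : ∀ (c : Uh D.n D.s) (Φ : Fin (2 ^ D.m * k) → LC (filt D.n D.s)),
      σ c (Sk D k Φ) = Sk D k (pw (rt (filt D.n D.s)) (2 ^ D.m * k) c Φ) := by
    intro c Φ
    obtain ⟨j1, h1⟩ := hsm (Sk D k Φ)
    obtain ⟨j2, h2⟩ := smooth_pw D.n D.s (2 ^ D.m * k) Φ
    obtain ⟨u, hu, huc⟩ := D.kap_onto c (max j1 j2)
    obtain ⟨v, hv⟩ : ∃ v, v = (D.kap u)⁻¹ * c := ⟨_, rfl⟩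
    have e1 : c = D.kap u * v := by rw [hv, mul_inv_cancel_left]
    rw [← hv] at huc
    rw [e1, map_mul, map_mul, Module.End.mul_apply, Module.End.mul_apply,
      h1 _ ((filt D.n D.s).anti _ _ (le_max_left j1 j2) huc),
      h2 _ ((filt D.n D.s).anti _ _ (le_max_right j1 j2) huc), hact u hu, Sk_equi D k Φ hu]
  intro c x
  show (Sk D k).symm (σ c x) = _
  rw [LinearEquiv.symm_apply_eq]
  have h := key c ((Sk D k).symm x)
  rw [LinearEquiv.apply_symm_apply] at h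
  exact h

end Pool.Agent.ETX
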