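import Pool.Agent.ETX.Stmts

/-!
# ETX, module RNK: rank theory for admissible representations of `Uh n s`
-/

set_option autoImplicit false

namespace Pool.Agent.ETX

open Module

namespace RNK_

section gen

variable {H : Type} [Group H] {M M₁ M₂ : Type} [AddCommGroup M] [Module (ZMod 2) M]
  [AddCommGroup M₁] [Module (ZMod 2) M₁] [AddCommGroup M₂] [Module (ZMod 2) M₂]
  {ρ : Representation (ZMod 2) H M} {ρ₁ : Representation (ZMod 2) H M₁}
  {ρ₂ : Representation (ZMod 2) H M₂}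

theorem stab_range {f : M →ₗ[ZMod 2] M₁} (hf : Equi ρ ρ₁ f) : Stab ρ₁ (LinearMap.range f) := by
  rintro h _ ⟨x, rfl⟩
  exact ⟨ρ h x, hf h x⟩

/-- an injective equivariant map identifies the fixed vectors -/
theorem map_fixd {f : M →ₗ[ZMod 2] M₁} (hf : Equi ρ ρ₁ f) (hi : Function.Injective f)
    (W : Subgroup H) : (fixd ρ W).map f = LinearMap.range f ⊓ fixd ρ₁ W := by
  ext y
  constructor
  · rintro ⟨x, hx, rfl⟩
    exact ⟨⟨x, rfl⟩, fun w hw => by rw [← hf, hx w hw]⟩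
  · rintro ⟨⟨x, rfl⟩, hy⟩
    refine ⟨x, fun w hw => hi ?_, rfl⟩
    rw [hf]
    exact hy w hw

theorem finrank_fixd {f : M →ₗ[ZMod 2] M₁} (hf : Equi ρ ρ₁ f) (hi : Function.Injective f)
    (W : Subgroup H) : finrank (ZMod 2) (fixd ρ W) =
      finrank (ZMod 2) (LinearMap.range f ⊓ fixd ρ₁ W : Submodule (ZMod 2) M₁) := by
  rw [← map_fixd hf hi W]
  exact (Submodule.equivMapOfInjective f hi (fixd ρ W)).finrank_eq

theorem fd_fixd {f : M →ₗ[ZMod 2] M₁} (hf : Equi ρ ρ₁ f) (hi : Function.Injective f)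
    (W : Subgroup H) (h : FiniteDimensional (ZMod 2) (fixd ρ₁ W)) :
    FiniteDimensional (ZMod 2) (fixd ρ W) := by
  have h1 : (fixd ρ W).map f ≤ fixd ρ₁ W := by
    rw [map_fixd hf hi W]
    exact inf_le_right
  have h2 : FiniteDimensional (ZMod 2) ((fixd ρ W).map f) :=
    Submodule.finiteDimensional_of_le h1
  exact LinearEquiv.finiteDimensional
    (Submodule.equivMapOfInjective f hi (fixd ρ W)).symm

theorem ses_le {i : M →ₗ[ZMod 2] M₁} {p : M₁ →ₗ[ZMod 2] M₂} (h : SES ρ ρ₁ ρ₂ i p)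
    (W : Subgroup H) (hfin : FiniteDimensional (ZMod 2) (fixd ρ₁ W))
    (hfin₂ : FiniteDimensional (ZMod 2) (fixd ρ₂ W)) :
    finrank (ZMod 2) (fixd ρ₁ W) ≤
      finrank (ZMod 2) (fixd ρ W) + finrank (ZMod 2) (fixd ρ₂ W) := by
  have h1 := LinearMap.finrank_range_add_finrank_ker (p ∘ₗ (fixd ρ₁ W).subtype)
  have h2 : LinearMap.range (p ∘ₗ (fixd ρ₁ W).subtype) ≤ fixd ρ₂ W := by
    rintro _ ⟨x, rfl⟩ w hw
    show ρ₂ w (p (x : M₁)) = p (x : M₁)
    rw [← h.ep, x.2 w hw]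
  have h3 := Submodule.finrank_mono h2
  have h4 : (LinearMap.ker (p ∘ₗ (fixd ρ₁ W).subtype)).map (fixd ρ₁ W).subtype =
      LinearMap.range i ⊓ fixd ρ₁ W := by
    ext y
    constructor
    · rintro ⟨x, hx, rfl⟩
      exact ⟨(h.exact _).1 hx, x.2⟩
    · rintro ⟨hy1, hy2⟩
      exact ⟨⟨y, hy2⟩, (h.exact _).2 hy1, rfl⟩
  have h5 : finrank (ZMod 2) (LinearMap.ker (p ∘ₗ (fixd ρ₁ W).subtype)) =
      finrank (ZMod 2) (fixd ρ W) := by
    rw [finrank_fixd h.ei h.inj W, ← h4]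
    exact (Submodule.equivMapOfInjective (fixd ρ₁ W).subtype
      (Submodule.injective_subtype _) _).finrank_eq
  omega

end gen

theorem arith {n a b C : ℕ} (h : ∀ j : ℕ, a * 2 ^ ((n + 1) * j) ≤
    b * 2 ^ ((n + 1) * j) + C * 2 ^ (n * j)) : a ≤ b := by
  by_contra hcon
  have hba : b + 1 ≤ a := by omega
  have h1 := h C
  have h2 : 2 ^ ((n + 1) * C) = 2 ^ C * 2 ^ (n * C) := by ring
  rw [h2] at h1
  have h3 : C < 2 ^ C := Nat.lt_two_pow_self
  have h4 : 0 < 2 ^ (n * C) := by positivity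
  have h5 : (b + 1) * (2 ^ C * 2 ^ (n * C)) ≤ a * (2 ^ C * 2 ^ (n * C)) :=
    Nat.mul_le_mul_right _ hba
  have h6 : 2 ^ C * 2 ^ (n * C) ≤ C * 2 ^ (n * C) := by
    have h7 : (b + 1) * (2 ^ C * 2 ^ (n * C)) =
        b * (2 ^ C * 2 ^ (n * C)) + 2 ^ C * 2 ^ (n * C) := by ring
    omega
  have h8 := Nat.le_of_mul_le_mul_right h6 h4
  omega

theorem hasRk_uniq {n : ℕ} {s : ℤ_[2]} {M : Type} [AddCommGroup M] [Module (ZMod 2) M]
    {ρ : Representation (ZMod 2) (Uh n s) M} {r r' : ℕ} (h : HasRk ρ r) (h' : HasRk ρ r') :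
    r ≤ r' := by
  obtain ⟨C, hC⟩ := h
  obtain ⟨C', hC'⟩ := h'
  apply arith (n := n) (C := C + C')
  intro j
  have h1 := (hC j).2
  have h2 := (hC' j).1
  have h3 : (C + C') * 2 ^ (n * j) = C * 2 ^ (n * j) + C' * 2 ^ (n * j) := by ring
  omega

/-- two equivariant maps onto `C^a` (already on the subspace) and `C^b` (zero on the subspace)
give a map onto `C^(a+b)` -/
theorem onto_add {n k a b : ℕ} {s : ℤ_[2]} (N : Submodule (ZMod 2) (Fin k → LC (filt n s)))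
    (g₁ : (Fin k → LC (filt n s)) →ₗ[ZMod 2] (Fin a → LC (filt n s)))
    (g₂ : (Fin k → LC (filt n s)) →ₗ[ZMod 2] (Fin b → LC (filt n s)))
    (e₁ : Equi (pw (rt (filt n s)) k) (pw (rt (filt n s)) a) g₁)
    (e₂ : Equi (pw (rt (filt n s)) k) (pw (rt (filt n s)) b) g₂)
    (s₁ : ∀ u, ∃ y ∈ N, g₁ y = u) (s₂ : Function.Surjective g₂) (z₂ : ∀ y ∈ N, g₂ y = 0) :
    Onto (filt n s) (pw (rt (filt n s)) k) (a + b) := by
  let L : Fin (a + b) → ((Fin k → LC (filt n s)) →ₗ[ZMod 2] LC (filt n s)) :=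
    Fin.addCases (fun i => LinearMap.proj i ∘ₗ g₁) (fun j => LinearMap.proj j ∘ₗ g₂)
  have hL1 : ∀ i x, L (Fin.castAdd b i) x = g₁ x i := by
    intro i x
    simp [L]
  have hL2 : ∀ j x, L (Fin.natAdd a j) x = g₂ x j := by
    intro j x
    simp [L]
  refine ⟨LinearMap.pi L, ?_, ?_⟩
  · intro h x
    funext q
    show L q (pw (rt (filt n s)) k h x) = rt (filt n s) h (L q x)
    refine Fin.addCases (fun i => ?_) (fun j => ?_) q
    · rw [hL1, hL1, e₁ h x]
      rfl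
    · rw [hL2, hL2, e₂ h x]
      rfl
  · intro v
    obtain ⟨x0, hx0⟩ := s₂ (fun j => v (Fin.natAdd a j))
    obtain ⟨y, hy, hgy⟩ := s₁ ((fun i => v (Fin.castAdd b i)) - g₁ x0)
    refine ⟨x0 + y, ?_⟩
    funext q
    show L q (x0 + y) = v q
    refine Fin.addCases (fun i => ?_) (fun j => ?_) q
    · rw [hL1, map_add, hgy, add_sub_cancel]
    · rw [hL2, map_add, z₂ y hy, add_zero, hx0]

section main

variable (hINJ : Stmt_INJ) (hDIM : Stmt_DIM) (hUPB : Stmt_UPB) (hSUR : Stmt_SUR)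
  (hSRC : Stmt_SRC)
include hINJ hDIM hUPB hSUR hSRC

theorem key {n k k'' : ℕ} {s : ℤ_[2]} (B : Basis (Ixk n k) (ZMod 2) (Fin k → LC (filt n s)))
    (hB : IsEk B) (B'' : Basis (Ixk n k'') (ZMod 2) (Fin k'' → LC (filt n s))) (hB'' : IsEk B'')
    {M M'' : Type} [AddCommGroup M] [Module (ZMod 2) M] [AddCommGroup M''] [Module (ZMod 2) M'']
    {ρ : Representation (ZMod 2) (Uh n s) M} {ρ'' : Representation (ZMod 2) (Uh n s) M''}
    {i : M →ₗ[ZMod 2] (Fin k → LC (filt n s))} {p : (Fin k → LC (filt n s)) →ₗ[ZMod 2] M''}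
    (hS : SES ρ (pw (rt (filt n s)) k) ρ'' i p)
    (f : M'' →ₗ[ZMod 2] (Fin k'' → LC (filt n s))) (hf : Equi ρ'' (pw (rt (filt n s)) k'') f)
    (hfi : Function.Injective f) :
    fr B (LinearMap.range i) + fr B'' (LinearMap.range f) = k ∧
      HasRk ρ (fr B (LinearMap.range i)) := by
  have hN := stab_range hS.ei
  have hN'' := stab_range hf
  obtain ⟨C, hC⟩ := hUPB n k s B hB (LinearMap.range i) hN
  obtain ⟨C'', hC''⟩ := hUPB n k'' s B'' hB'' (LinearMap.range f) hN''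
  have hD : ∀ j : ℕ, finrank (ZMod 2) (fixd ρ (lvl n s j)) ≤
      fr B (LinearMap.range i) * 2 ^ ((n + 1) * j) + C * 2 ^ (n * j) := by
    intro j
    rw [finrank_fixd hS.ei hS.inj]
    exact hC j
  have hD'' : ∀ j : ℕ, finrank (ZMod 2) (fixd ρ'' (lvl n s j)) ≤
      fr B'' (LinearMap.range f) * 2 ^ ((n + 1) * j) + C'' * 2 ^ (n * j) := by
    intro j
    rw [finrank_fixd hf hfi]
    exact hC'' j
  have hlow : ∀ j : ℕ, k * 2 ^ ((n + 1) * j) ≤
      finrank (ZMod 2) (fixd ρ (lvl n s j)) + finrank (ZMod 2) (fixd ρ'' (lvl n s j)) := by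
    intro j
    obtain ⟨h1, h2⟩ := (hDIM (Uh n s) (filt n s) k).2 (lvl n s j) ⟨j, le_rfl⟩
    have h3 := ((hDIM (Uh n s) (filt n s) k'').2 (lvl n s j) ⟨j, le_rfl⟩).1
    have h4 := ses_le hS (lvl n s j) h1 (fd_fixd hf hfi _ h3)
    rw [h2, lvl_index, ← pow_mul, mul_comm j (n + 1)] at h4
    exact h4
  have hge : k ≤ fr B (LinearMap.range i) + fr B'' (LinearMap.range f) := by
    apply arith (n := n) (C := C + C'')
    intro j
    have h1 := hlow j
    have h2 := hD j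
    have h3 := hD'' j
    have h4 : (fr B (LinearMap.range i) + fr B'' (LinearMap.range f)) * 2 ^ ((n + 1) * j) +
        (C + C'') * 2 ^ (n * j) =
        (fr B (LinearMap.range i) * 2 ^ ((n + 1) * j) + C * 2 ^ (n * j)) +
        (fr B'' (LinearMap.range f) * 2 ^ ((n + 1) * j) + C'' * 2 ^ (n * j)) := by ring
    omega
  have hle : fr B (LinearMap.range i) + fr B'' (LinearMap.range f) ≤ k := by
    obtain ⟨g, hg, hgs⟩ := hSUR n k s B hB (LinearMap.range i) hN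
    obtain ⟨g₁, hg₁, hg₁'⟩ := hINJ (Uh n s) (LinearMap.range i) (Fin k → LC (filt n s))
      (filt n s) (subr (pw (rt (filt n s)) k) (LinearMap.range i) hN) (pw (rt (filt n s)) k)
      (hDIM (Uh n s) (filt n s) k).1.1 (LinearMap.range i).subtype (fun h x => rfl)
      (Submodule.injective_subtype _) _ g hg
    obtain ⟨g₂, hg₂, hg₂s⟩ := hSUR n k'' s B'' hB'' (LinearMap.range f) hN''
    apply hSRC n k _ s
    refine onto_add (LinearMap.range i) g₁ (g₂ ∘ₗ f.rangeRestrict ∘ₗ p) hg₁ ?_ ?_ ?_ ?_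
    · intro h x
      show g₂ (f.rangeRestrict (p (pw (rt (filt n s)) k h x))) =
        pw (rt (filt n s)) _ h (g₂ (f.rangeRestrict (p x)))
      rw [← hg₂ h (f.rangeRestrict (p x))]
      congr 1
      apply Subtype.ext
      show f (p (pw (rt (filt n s)) k h x)) = pw (rt (filt n s)) k'' h (f (p x))
      rw [hS.ep, hf]
    · intro u
      obtain ⟨y, hy⟩ := hgs u
      refine ⟨y, y.2, ?_⟩
      have h1 : g₁ ((LinearMap.range i).subtype y) = g y := by
        rw [← hg₁']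
        rfl
      exact h1.trans hy
    · exact hg₂s.comp (f.surjective_rangeRestrict.comp hS.surj)
    · intro y hy
      have h1 : p y = 0 := (hS.exact y).2 hy
      show g₂ (f.rangeRestrict (p y)) = 0
      rw [h1, map_zero, map_zero]
  have heq := le_antisymm hle hge
  refine ⟨heq, C + C'', fun j => ⟨?_, ?_⟩⟩
  · have h1 := hD j
    have h2 : (C + C'') * 2 ^ (n * j) = C * 2 ^ (n * j) + C'' * 2 ^ (n * j) := by ring
    omega
  · have h1 := hlow j
    have h3 := hD'' j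
    have h2 : (C + C'') * 2 ^ (n * j) = C * 2 ^ (n * j) + C'' * 2 ^ (n * j) := by ring
    have h4 : k * 2 ^ ((n + 1) * j) = fr B (LinearMap.range i) * 2 ^ ((n + 1) * j) +
        fr B'' (LinearMap.range f) * 2 ^ ((n + 1) * j) := by
      rw [← add_mul, heq]
    omega

end main

end RNK_

theorem rnk_proof (_hLTM : Stmt_LTM) (hBAS : Stmt_BAS) (hEMB : Stmt_EMB) (hINJ : Stmt_INJ)
    (hDIM : Stmt_DIM) (hQUO : Stmt_QUO) (hADQ : Stmt_ADQ) (hUPB : Stmt_UPB) (hSUR : Stmt_SUR)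
    (hSRC : Stmt_SRC) : Stmt_RNK := by
  intro n s
  -- rank of an embedded module
  have hemb : ∀ (M : Type) [AddCommGroup M] [Module (ZMod 2) M]
      (ρ : Representation (ZMod 2) (Uh n s) M) (k : ℕ)
      (B : Basis (Ixk n k) (ZMod 2) (Fin k → LC (filt n s))), IsEk B →
      ∀ f : M →ₗ[ZMod 2] (Fin k → LC (filt n s)), Equi ρ (pw (rt (filt n s)) k) f →
      Function.Injective f → HasRk ρ (fr B (LinearMap.range f)) := by
    intro M _ _ ρ k B hB f hf hfi
    have hN := RNK_.stab_range hf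
    have hS : SES ρ (pw (rt (filt n s)) k)
        (quor (pw (rt (filt n s)) k) (LinearMap.range f) hN) f (LinearMap.range f).mkQ :=
      { ei := hf
        ep := fun h x => rfl
        inj := hfi
        surj := Submodule.mkQ_surjective _
        exact := fun x => by
          rw [Submodule.mkQ_apply, Submodule.Quotient.mk_eq_zero] }
    obtain ⟨f'', hf'', hfi''⟩ := hEMB (Uh n s) _ (filt n s) _ (hQUO n k s (LinearMap.range f) hN) _
      le_rfl
    obtain ⟨B'', hB''⟩ := (hBAS n s).2.2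
      (finrank (ZMod 2) (fixd (quor (pw (rt (filt n s)) k) (LinearMap.range f) hN) ⊤))
    exact (RNK_.key hINJ hDIM hUPB hSUR hSRC B hB B'' hB'' hS f'' hf'' hfi'').2
  refine ⟨?_, ?_, ?_, ?_⟩
  · intro M _ _ ρ hρ
    obtain ⟨f, hf, hfi⟩ := hEMB (Uh n s) M (filt n s) ρ hρ _ le_rfl
    obtain ⟨B, hB⟩ := (hBAS n s).2.2 (finrank (ZMod 2) (fixd ρ ⊤))
    exact ⟨_, hemb M ρ _ B hB f hf hfi, Nat.sub_le _ _⟩
  · intro M _ _ ρ r r' h h'
    exact le_antisymm (RNK_.hasRk_uniq h h') (RNK_.hasRk_uniq h' h)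
  · intro k B hB N hN
    have h1 := hemb N (subr (pw (rt (filt n s)) k) N hN) k B hB N.subtype (fun h x => rfl)
      (Submodule.injective_subtype _)
    rw [Submodule.range_subtype] at h1
    exact h1
  · intro M M'' _ _ _ _ ρ ρ'' k r r'' i p hS hr hr''
    have hA : Adm (filt n s) ρ'' := (hADQ n s (Fin k → LC (filt n s)) M''
      (pw (rt (filt n s)) k) ρ'' p hS.ep).1 hS.surj (hDIM (Uh n s) (filt n s) k).1
    obtain ⟨f'', hf'', hfi''⟩ := hEMB (Uh n s) M'' (filt n s) ρ'' hA _ le_rfl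
    obtain ⟨B, hB⟩ := (hBAS n s).2.2 k
    obtain ⟨B'', hB''⟩ := (hBAS n s).2.2 (finrank (ZMod 2) (fixd ρ'' ⊤))
    obtain ⟨h1, h2⟩ := RNK_.key hINJ hDIM hUPB hSUR hSRC B hB B'' hB'' hS f'' hf'' hfi''
    have h3 := hemb M'' ρ'' _ B'' hB'' f'' hf'' hfi''
    have h4 : r = fr B (LinearMap.range i) :=
      le_antisymm (RNK_.hasRk_uniq hr h2) (RNK_.hasRk_uniq h2 hr)
    have h5 : r'' = fr B'' (LinearMap.range f'') :=
      le_antisymm (RNK_.hasRk_uniq hr'' h3) (RNK_.hasRk_uniq h3 hr'')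
    rw [h4, h5]
    exact h1

end Pool.Agent.ETX
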