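import Pool.Agent.ETX.Stmts

/-! The dual strong rank condition. -/

set_option autoImplicit false

namespace Pool.Agent.ETX

open Module

namespace SRC_

/-- the constant function `1` -/
def cst {H : Type} [Group H] (Φ : Filt H) : LC Φ := ⟨fun _ => 1, 0, fun _ _ _ => rfl⟩

theorem cst_ne {H : Type} [Group H] (Φ : Filt H) : cst Φ ≠ 0 := by
  intro h
  have h1 := congrFun (congrArg Subtype.val h) 1
  exact one_ne_zero (α := ZMod 2) h1

variable {H : Type} [Group H] (Φ : Filt H) {k : ℕ}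
  (F : (Fin k → LC Φ) →ₗ[ZMod 2] (Fin k → LC Φ)) (g : (Fin k → LC Φ) →ₗ[ZMod 2] LC Φ)

/-- the descending chain -/
def chain : ℕ → Submodule (ZMod 2) (Fin k → LC Φ)
  | 0 => ⊤
  | i + 1 => LinearMap.ker g ⊓ (chain i).comap F

theorem chain_le (i : ℕ) : chain Φ F g (i + 1) ≤ chain Φ F g i := by
  induction i with
  | zero => exact le_top
  | succ i ih => exact inf_le_inf le_rfl (Submodule.comap_mono ih)

theorem chain_stab (hF : Equi (pw (rt Φ) k) (pw (rt Φ) k) F) (hg : Equi (pw (rt Φ) k) (rt Φ) g)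
    (i : ℕ) : Stab (pw (rt Φ) k) (chain Φ F g i) := by
  induction i with
  | zero => intro h x _; exact Submodule.mem_top
  | succ i ih =>
    intro h x hx
    obtain ⟨h1, h2⟩ := hx
    refine ⟨?_, ?_⟩
    · change g (pw (rt Φ) k h x) = 0
      rw [hg, (show g x = 0 from h1), map_zero]
    · change F (pw (rt Φ) k h x) ∈ chain Φ F g i
      rw [hF]
      exact ih h h2

theorem chain_down (hs : ∀ (y : Fin k → LC Φ) (c : LC Φ), ∃ x, F x = y ∧ g x = c) (i : ℕ)
    (h : chain Φ F g (i + 1) = chain Φ F g i) : False := by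
  induction i with
  | zero =>
    obtain ⟨x, -, hx⟩ := hs 0 (cst Φ)
    have h1 : x ∈ chain Φ F g (0 + 1) := by rw [h]; exact Submodule.mem_top
    have h2 : g x = 0 := h1.1
    rw [hx] at h2
    exact cst_ne Φ h2
  | succ i ih =>
    apply ih
    apply le_antisymm (chain_le Φ F g i)
    intro y hy
    obtain ⟨x, hx, hx0⟩ := hs y 0
    have h1 : x ∈ chain Φ F g (i + 1) := ⟨hx0, by
      change F x ∈ chain Φ F g i
      rw [hx]; exact hy⟩
    rw [← h] at h1
    have h2 : F x ∈ chain Φ F g (i + 1) := h1.2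
    rw [hx] at h2
    exact h2

end SRC_

theorem src_proof (hDCC : Stmt_DCC) : Stmt_SRC := by
  intro n k r s hon
  by_contra hrk
  push Not at hrk
  obtain ⟨f, hf, hfs⟩ := hon
  have hlt : ∀ p : Fin k, (p : ℕ) < r := fun p => by have := p.2; omega
  let F : (Fin k → LC (filt n s)) →ₗ[ZMod 2] (Fin k → LC (filt n s)) :=
    LinearMap.pi fun p => LinearMap.proj (⟨p, hlt p⟩ : Fin r) ∘ₗ f
  let g : (Fin k → LC (filt n s)) →ₗ[ZMod 2] LC (filt n s) :=
    LinearMap.proj (⟨k, hrk⟩ : Fin r) ∘ₗ f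
  have hFe : Equi (pw (rt (filt n s)) k) (pw (rt (filt n s)) k) F := by
    intro h x
    funext p
    change f (pw (rt (filt n s)) k h x) ⟨p, hlt p⟩ = _
    rw [hf]
    rfl
  have hge : Equi (pw (rt (filt n s)) k) (rt (filt n s)) g := by
    intro h x
    change f (pw (rt (filt n s)) k h x) ⟨k, hrk⟩ = _
    rw [hf]
    rfl
  have hsur : ∀ (y : Fin k → LC (filt n s)) (c : LC (filt n s)), ∃ x, F x = y ∧ g x = c := by
    intro y c
    obtain ⟨x, hx⟩ := hfs fun q => if hq : (q : ℕ) < k then y ⟨q, hq⟩ else c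
    refine ⟨x, ?_, ?_⟩
    · funext p
      change f x ⟨p, hlt p⟩ = y p
      rw [hx]
      simp
    · change f x ⟨k, hrk⟩ = c
      rw [hx]
      simp
  obtain ⟨m, hm⟩ := hDCC n k s (SRC_.chain (filt n s) F g)
    (antitone_nat_of_succ_le (SRC_.chain_le (filt n s) F g))
    (SRC_.chain_stab (filt n s) F g hFe hge)
  exact SRC_.chain_down (filt n s) F g hsur m (hm (m + 1) (Nat.le_succ m))

end Pool.Agent.ETX
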