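import Pool.Agent.ETX.Stmts

/-! A stable subspace of `LC^k` maps onto `LC^(k - |T|)`. -/

set_option autoImplicit false

namespace Pool.Agent.ETX

open Module

theorem sur_proof (hLTM : Stmt_LTM) (hBAS : Stmt_BAS) : Stmt_SUR := by
  classical
  intro n k s B hB N hN
  -- the positions where all exponents occur
  set S : Finset (Fin k) := Finset.univ.filter fun p => p ∉ tset B N with hS
  have hcard : S.card = fr B N := by
    unfold fr
    have h1 : (tset B N).ncard = (Finset.univ.filter fun p => p ∈ tset B N).card := by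
      rw [← Set.ncard_coe_finset]
      congr 1
      ext p; simp
    have h2 := Finset.card_filter_add_card_filter_not (s := (Finset.univ : Finset (Fin k)))
      (fun p => p ∈ tset B N)
    rw [Finset.card_univ, Fintype.card_fin] at h2
    rw [h1, hS]
    omega
  let e : Fin (fr B N) ↪o Fin k := S.orderEmbOfFin hcard
  have heS : ∀ q, e q ∈ S := fun q => S.orderEmbOfFin_mem hcard q
  have hrange : ∀ p ∈ S, ∃ q, e q = p := by
    intro p hp
    have h1 := S.range_orderEmbOfFin hcard
    have h2 : p ∈ Set.range e := by rw [h1]; exact hp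
    exact h2
  obtain ⟨B', hB'⟩ := (hBAS n s).2.2 (fr B N)
  let π : (Fin k → LC (filt n s)) →ₗ[ZMod 2] (Fin (fr B N) → LC (filt n s)) :=
    LinearMap.pi fun q => LinearMap.proj (e q)
  have hπ : ∀ (x : Fin k → LC (filt n s)) q, π x q = x (e q) := fun _ _ => rfl
  have hπB : ∀ (α : Fin (n + 1) → ℕ) (q : Fin (fr B N)), π (B (ix α (e q))) = B' (ix α q) := by
    intro α q
    funext q'
    apply Subtype.ext
    rw [hπ, hB, hB']
    simp only [EmbeddingLike.apply_eq_iff_eq]
  have hπ0 : ∀ (α : Fin (n + 1) → ℕ) (p : Fin k), p ∉ S → π (B (ix α p)) = 0 := by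
    intro α p hp
    funext q'
    apply Subtype.ext
    rw [hπ, hB, if_neg]
    · rfl
    · intro h
      apply hp
      rw [← h]
      exact heS q'
  have hbelow : ∀ (α : Fin (n + 1) → ℕ) (q : Fin (fr B N)),
      below B (ix α (e q)) ≤ (below B' (ix α q)).comap π := by
    intro α q
    unfold below
    rw [Submodule.span_le]
    rintro _ ⟨j, hj, rfl⟩
    obtain ⟨β, p, rfl⟩ : ∃ (β : Fin (n + 1) → ℕ) (p : Fin k), j = ix β p :=
      ⟨ofLex (ofLex j).1, (ofLex j).2, rfl⟩
    change π (B (ix β p)) ∈ below B' (ix α q)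
    by_cases hp : p ∈ S
    · obtain ⟨q', rfl⟩ := hrange p hp
      rw [hπB]
      apply Submodule.subset_span
      refine ⟨ix β q', ?_, rfl⟩
      change ix β (e q') < ix α (e q) at hj
      change ix β q' < ix α q
      rw [Prod.Lex.toLex_lt_toLex] at hj ⊢
      rcases hj with hj | ⟨h1, h2⟩
      · exact Or.inl hj
      · exact Or.inr ⟨h1, e.lt_iff_lt.1 h2⟩
    · rw [hπ0 β p hp]
      exact Submodule.zero_mem _
  have htop : N.map π = ⊤ := by
    have hl := (hLTM (Ixk n (fr B N)) (Fin (fr B N) → LC (filt n s)) B').2.1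
    apply hl (N.map π) ⊤ le_top
    intro j _
    obtain ⟨α, q, rfl⟩ : ∃ (α : Fin (n + 1) → ℕ) (q : Fin (fr B N)), j = ix α q :=
      ⟨ofLex (ofLex j).1, (ofLex j).2, rfl⟩
    have hq : e q ∉ tset B N := (Finset.mem_filter.1 (heS q)).2
    have hdeg : ix α (e q) ∈ Deg B N := by
      by_contra hcon
      exact hq ⟨α, hcon⟩
    obtain ⟨f, hf, hfb⟩ := hdeg
    refine ⟨π f, ⟨f, hf, rfl⟩, ?_⟩
    have h1 := hbelow α q hfb
    rw [Submodule.mem_comap, map_sub, hπB] at h1
    exact h1
  refine ⟨π ∘ₗ N.subtype, ?_, ?_⟩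
  · intro h x
    rfl
  · intro y
    have hy : y ∈ N.map π := by rw [htop]; exact Submodule.mem_top
    obtain ⟨x, hx, hxy⟩ := hy
    exact ⟨⟨x, hx⟩, hxy⟩

end Pool.Agent.ETX
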