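import Pool.Agent.ETX.StmtsS

/-!
# ETX, module SYC: chain of index 2 steps from `G` to a normal admissible subgroup
-/

set_option autoImplicit false

namespace Pool.Agent.ETX

open Module

namespace SYC_

/-- a chain of subgroups of a finite 2-group -/
theorem exists_chain (Q : Type) [Group Q] [Finite Q] (m : ℕ) (hQ : Nat.card Q = 2 ^ m) :
    ∃ K : ℕ → Subgroup Q, K 0 = ⊥ ∧ (∀ k, K k ≤ K (k + 1)) ∧ ∀ k, k ≤ m → Nat.card (K k) = 2 ^ k := by
  have hp : Fact (Nat.Prime 2) := ⟨Nat.prime_two⟩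
  have step : ∀ (k : ℕ) (H : Subgroup Q), Nat.card H = 2 ^ (min k m) →
      ∃ K : Subgroup Q, Nat.card K = 2 ^ (min (k + 1) m) ∧ H ≤ K := by
    intro k H hH
    exact Sylow.exists_subgroup_card_pow_prime_le 2 (by rw [hQ]; exact pow_dvd_pow 2 (min_le_right _ _)) H hH
      (min_le_min_right m (Nat.le_succ k))
  let seq : (k : ℕ) → {H : Subgroup Q // Nat.card H = 2 ^ (min k m)} := fun k =>
    Nat.rec (motive := fun k => {H : Subgroup Q // Nat.card H = 2 ^ (min k m)})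
      ⟨⊥, by rw [Subgroup.card_bot, Nat.zero_min, pow_zero]⟩
      (fun k H => ⟨(step k H.1 H.2).choose, (step k H.1 H.2).choose_spec.1⟩) k
  refine ⟨fun k => (seq k).1, rfl, fun k => (step k (seq k).1 (seq k).2).choose_spec.2, fun k hk => ?_⟩
  have := (seq k).2
  exact this.trans (by rw [min_eq_left hk])

/-- reduction modulo 4 -/
noncomputable def tau : ℤ_[2] →+* ZMod 4 :=
  (ZMod.ringEquivCongr (by norm_num : 2 ^ 2 = 4)).toRingHom.comp (PadicInt.toZModPow (p := 2) 2)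

theorem tau_eq_zero (x : ℤ_[2]) : tau x = 0 ↔ (4 : ℤ_[2]) ∣ x := by
  have h1 : tau x = 0 ↔ PadicInt.toZModPow (p := 2) 2 x = 0 := by
    unfold tau
    rw [RingHom.comp_apply]
    exact (map_eq_zero_iff _ (ZMod.ringEquivCongr (by norm_num : 2 ^ 2 = 4)).injective)
  rw [h1, ← RingHom.mem_ker, PadicInt.ker_toZModPow, Ideal.mem_span_singleton]
  norm_num

theorem two_tau (x : ℤ_[2]) : 2 * tau x = 0 ↔ (2 : ℤ_[2]) ∣ x := by
  have h : 2 * tau x = tau (2 * x) := by rw [map_mul, map_ofNat]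
  rw [h, tau_eq_zero]
  have h4 : (4 : ℤ_[2]) = 2 * 2 := by norm_num
  rw [h4]
  exact mul_dvd_mul_iff_left two_ne_zero

theorem zmod4 : ∀ a : ZMod 4, 2 * a ≠ 0 → a = 1 ∨ a + (a + a) = 1 := by decide

end SYC_

open SYC_

theorem syc_proof : Stmt_SYC := by
  intro G _ S U m hU hN hidx
  have hfi : U.FiniteIndex := ⟨by rw [hidx]; exact pow_ne_zero m two_ne_zero⟩
  have hfin : Finite (G ⧸ U) := Subgroup.finite_quotient_of_finiteIndex
  have hcard : Nat.card (G ⧸ U) = 2 ^ m := by rw [← hidx, Subgroup.index_eq_card]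
  obtain ⟨K, hK0, hK1, hK2⟩ := exists_chain (G ⧸ U) m hcard
  let Gc : ℕ → Subgroup G := fun i => (K (m - i)).comap (QuotientGroup.mk' U)
  have hUle : ∀ i, U ≤ Gc i := by
    intro i u hu
    rw [Subgroup.mem_comap]
    have : QuotientGroup.mk' U u = 1 := (QuotientGroup.eq_one_iff u).2 hu
    rw [this]
    exact one_mem _
  have hadm : ∀ i, Gc i ∈ S.adm := fun i => S.up_mem U hU _ (hUle i)
  have hle : ∀ i, i < m → Gc (i + 1) ≤ Gc i := by
    intro i hi
    refine Subgroup.comap_mono ?_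
    have : m - i = m - (i + 1) + 1 := by omega
    rw [this]
    exact hK1 _
  have hindex : ∀ i, i ≤ m → (Gc i).index = 2 ^ i := by
    intro i hi
    have h1 : (Gc i).index = (K (m - i)).index :=
      Subgroup.index_comap_of_surjective _ (QuotientGroup.mk'_surjective U)
    have h2 := (K (m - i)).card_mul_index
    rw [hK2 _ (Nat.sub_le m i), hcard] at h2
    rw [h1]
    have h3 : 2 ^ m = 2 ^ (m - i) * 2 ^ i := by rw [← pow_add]; congr 1; omega
    rw [h3] at h2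
    exact Nat.eq_of_mul_eq_mul_left (pow_pos two_pos _) h2
  have hrel : ∀ i, i < m → (Gc (i + 1)).relIndex (Gc i) = 2 := by
    intro i hi
    have h1 := Subgroup.relIndex_mul_index (hle i hi)
    rw [hindex i hi.le, hindex (i + 1) hi, pow_succ, mul_comm] at h1
    exact Nat.eq_of_mul_eq_mul_left (pow_pos two_pos _) h1
  have hlift : ∀ i, ∃ chi : G → ℤ_[2], i < m → ETT.IsCoc S.cyc (Gc i) chi ∧
      (∀ j : ℕ, ∃ W' ∈ S.adm, (W' : Set G) = ETT.lev (Gc i) chi j) ∧
      (Gc (i + 1) : Set G) = ETT.lev (Gc i) chi 1 := by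
    intro i
    by_cases hi : i < m
    · obtain ⟨chi, h1, h2, h3⟩ := S.lift (Gc i) (hadm i) (Gc (i + 1)) (hadm (i + 1)) (hle i hi) (hrel i hi)
      exact ⟨chi, fun _ => ⟨h1, h2, h3⟩⟩
    · exact ⟨fun _ => 0, fun h => absurd h hi⟩
  choose c hc using hlift
  have hmem : ∀ i, i < m → ∀ g ∈ Gc i, (g ∈ Gc (i + 1) ↔ 2 * tau (c i g) = 0) := by
    intro i hi g hg
    obtain ⟨-, -, h3⟩ := hc i hi
    rw [two_tau, ← SetLike.mem_coe, h3]
    unfold ETT.lev
    rw [Set.mem_ofPred_eq, pow_one]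
    exact ⟨fun h => h.2, fun h => ⟨hg, h⟩⟩
  have hadd : ∀ i, i < m → ∀ g ∈ Gc i, ∀ h ∈ Gc i, tau (c i (g * h)) = tau (c i g) + tau (c i h) := by
    intro i hi g hg h hh
    obtain ⟨h1, -, -⟩ := hc i hi
    have hcy : tau (S.cyc g : ℤ_[2]) = 1 := by
      have := (tau_eq_zero _).2 (S.cyc4 g)
      rw [map_sub, map_one, sub_eq_zero] at this
      exact this
    rw [h1 g hg h hh, map_add, map_mul, hcy, one_mul]
  refine ⟨Gc, fun i g => tau (c i g), ?_, ?_, hle, hadd, ?_, hmem, ?_⟩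
  · have : K m = ⊤ := by
      rw [← Subgroup.card_eq_iff_eq_top, hK2 m le_rfl, hcard]
    show (K (m - 0)).comap (QuotientGroup.mk' U) = ⊤
    rw [Nat.sub_zero, this, Subgroup.comap_top]
  · show (K (m - m)).comap (QuotientGroup.mk' U) = U
    rw [Nat.sub_self, hK0, MonoidHom.comap_bot, QuotientGroup.ker_mk']
  · intro i hi
    have hne : Gc (i + 1) ≠ Gc i := by
      intro h
      have h1 := hrel i hi
      rw [h, Subgroup.relIndex_self] at h1
      norm_num at h1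
    obtain ⟨g, hg, hg'⟩ : ∃ g ∈ Gc i, g ∉ Gc (i + 1) := by
      by_contra hcon
      push Not at hcon
      exact hne (le_antisymm (hle i hi) hcon)
    rw [hmem i hi g hg] at hg'
    rcases zmod4 _ hg' with h | h
    · exact ⟨g, hg, h⟩
    · refine ⟨g * (g * g), mul_mem hg (mul_mem hg hg), ?_⟩
      show tau (c i (g * (g * g))) = 1
      rw [hadd i hi g hg _ (mul_mem hg hg), hadd i hi g hg g hg]
      exact h
  · intro i hi
    obtain ⟨h1, h2, -⟩ := hc i hi
    refine ⟨c i, fun g hg h hh => h1 g (hUle i hg) h (hUle i hh), fun j => ?_, fun g _ h4 =>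
      (tau_eq_zero _).2 h4⟩
    obtain ⟨W', hW', hW'e⟩ := h2 j
    refine ⟨U ⊓ W', S.inf_mem U hU W' hW', ?_⟩
    rw [Subgroup.coe_inf, hW'e]
    ext g
    unfold ETT.lev
    rw [Set.mem_inter_iff, Set.mem_ofPred_eq, Set.mem_ofPred_eq]
    exact ⟨fun h => ⟨h.1, h.2.2⟩, fun h => ⟨h.1, hUle i h.1, h.2⟩⟩

end Pool.Agent.ETX
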