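import Pool.Agent.ETX.StmtsS

/-!
# ETX, module SYI: the data of THM-I for a normal admissible subgroup
-/

set_option autoImplicit false

namespace Pool.Agent.ETX

open Module

namespace SYI_

variable {G : Type} [Group G] {n : ℕ} {s : ℤ_[2]}

/-- The homomorphism `U → Uh`. -/
noncomputable def hom (U : Subgroup G) (kap : G → Uh n s)
    (hm : ∀ u ∈ U, ∀ v ∈ U, kap (u * v) = kap u * kap v) : U →* Uh n s :=
  MonoidHom.mk' (fun u => kap u) (fun a b => hm a a.2 b b.2)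

/-- The preimage in `U` of a subgroup of `Uh`. -/
noncomputable def pl (U : Subgroup G) (kap : G → Uh n s)
    (hm : ∀ u ∈ U, ∀ v ∈ U, kap (u * v) = kap u * kap v) (W : Subgroup (Uh n s)) : Subgroup G :=
  (W.comap (hom U kap hm)).map U.subtype

theorem mem_pl (U : Subgroup G) (kap : G → Uh n s)
    (hm : ∀ u ∈ U, ∀ v ∈ U, kap (u * v) = kap u * kap v) (W : Subgroup (Uh n s)) (g : G) :
    g ∈ pl U kap hm W ↔ g ∈ U ∧ kap g ∈ W := by
  unfold pl
  constructor
  · rintro ⟨⟨u, hu⟩, h1, rfl⟩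
    exact ⟨hu, h1⟩
  · rintro ⟨hu, h1⟩
    exact ⟨⟨g, hu⟩, h1, rfl⟩

theorem pl_relIndex (U : Subgroup G) (kap : G → Uh n s)
    (hm : ∀ u ∈ U, ∀ v ∈ U, kap (u * v) = kap u * kap v) (W : Subgroup (Uh n s))
    (honto : ∀ c : Uh n s, ∃ u ∈ U, (kap u)⁻¹ * c ∈ W) :
    (pl U kap hm W).relIndex U = W.index := by
  have h1 : (pl U kap hm W).relIndex U = (W.comap (hom U kap hm)).index := by
    rw [Subgroup.relIndex]
    congr 1
    ext u
    rw [Subgroup.mem_subgroupOf, mem_pl]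
    exact ⟨fun h => h.2, fun h => ⟨u.2, h⟩⟩
  rw [h1, Subgroup.index_eq_card, Subgroup.index_eq_card]
  have hl : ∀ a b : U, QuotientGroup.leftRel (W.comap (hom U kap hm)) a b ↔
      ((hom U kap hm a : Uh n s) : Uh n s ⧸ W) = (hom U kap hm b : Uh n s) := by
    intro a b
    rw [QuotientGroup.leftRel_apply, QuotientGroup.eq, Subgroup.mem_comap, map_mul, map_inv]
  refine Nat.card_congr (Equiv.ofBijective (fun q => Quotient.liftOn' q
    (fun u => ((hom U kap hm u : Uh n s) : Uh n s ⧸ W)) ?_) ⟨?_, ?_⟩)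
  · intro a b hab
    exact (hl a b).1 hab
  · rintro ⟨a⟩ ⟨b⟩ hab
    apply Quotient.sound'
    exact (hl a b).2 hab
  · rintro ⟨c⟩
    obtain ⟨u, hu, hc⟩ := honto c
    refine ⟨Quotient.mk'' ⟨u, hu⟩, ?_⟩
    change ((hom U kap hm ⟨u, hu⟩ : Uh n s) : Uh n s ⧸ W) = (c : Uh n s ⧸ W)
    rw [QuotientGroup.eq]
    exact hc

/-- The functional `∑ 2^{e_i} k_i`. -/
noncomputable def yy (e : Fin (n + 1) → ℕ) (k : Uh n s) : ℤ_[2] := ∑ i, (2 : ℤ_[2]) ^ e i * k i

theorem yy_mul (e : Fin (n + 1) → ℕ) (a b : Uh n s) : yy e (a * b) = yy e a + chi a * yy e b := by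
  unfold yy
  rw [Finset.mul_sum, ← Finset.sum_add_distrib]
  refine Finset.sum_congr rfl fun i _ => ?_
  rw [mul_apply]
  ring

theorem inv_mul_mem_levW (e : Fin (n + 1) → ℕ) (j : ℕ) (a b : Uh n s) :
    a⁻¹ * b ∈ levW n s e j ↔ (2 : ℤ_[2]) ^ j ∣ yy e b - yy e a := by
  have h : yy e b - yy e a = chi a * yy e (a⁻¹ * b) := by
    have h1 := yy_mul e a (a⁻¹ * b)
    rw [mul_inv_cancel_left] at h1
    rw [h1]
    ring
  have h2 : a⁻¹ * b ∈ levW n s e j ↔ (2 : ℤ_[2]) ^ j ∣ yy e (a⁻¹ * b) := Iff.rfl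
  rw [h2, h]
  exact ((chi_isUnit a).dvd_mul_left).symm

theorem yy_single (e : Fin (n + 1) → ℕ) (he : e (Fin.last n) = 0) (z : ℤ_[2]) :
    yy (s := s) e (Pi.single (M := fun _ => ℤ_[2]) (Fin.last n) z) = z := by
  unfold yy
  rw [Finset.sum_eq_single (Fin.last n)]
  · have h : (Pi.single (M := fun _ => ℤ_[2]) (Fin.last n) z : Uh n s) (Fin.last n) = z :=
      Pi.single_eq_same (M := fun _ => ℤ_[2]) _ _
    rw [h, he, pow_zero, one_mul]
  · intro i _ hi
    have h : (Pi.single (M := fun _ => ℤ_[2]) (Fin.last n) z : Uh n s) i = 0 :=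
      Pi.single_eq_of_ne (M := fun _ => ℤ_[2]) hi _
    rw [h, mul_zero]
  · intro h
    exact absurd (Finset.mem_univ _) h

theorem levW_index (e : Fin (n + 1) → ℕ) (he : e (Fin.last n) = 0) (j : ℕ) :
    (levW n s e j).index = 2 ^ j := by
  have ee : (Uh n s ⧸ levW n s e j) ≃ ZMod (2 ^ j) := by
    refine Equiv.ofBijective (fun q => Quotient.liftOn' q
      (fun k : Uh n s => PadicInt.toZModPow (p := 2) j (yy e k)) ?_) ⟨?_, ?_⟩
    · intro a b hab
      have h1 := (QuotientGroup.leftRel_apply).1 hab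
      exact (dvd_iff_toZModPow j _ _).1 ((inv_mul_mem_levW e j a b).1 h1)
    · rintro ⟨a⟩ ⟨b⟩ hab
      apply Quotient.sound'
      rw [QuotientGroup.leftRel_apply, inv_mul_mem_levW]
      exact (dvd_iff_toZModPow j _ _).2 hab
    · intro f
      obtain ⟨x, hx⟩ := ZMod.ringHom_surjective (PadicInt.toZModPow (p := 2) j) f
      refine ⟨Quotient.mk'' (Pi.single (M := fun _ => ℤ_[2]) (Fin.last n) x : Uh n s), ?_⟩
      change PadicInt.toZModPow (p := 2) j
        (yy (s := s) e (Pi.single (M := fun _ => ℤ_[2]) (Fin.last n) x)) = f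
      rw [yy_single e he x]
      exact hx
  rw [Subgroup.index_eq_card, Nat.card_congr ee]
  simp

theorem lvl_le_levW (e : Fin (n + 1) → ℕ) (j : ℕ) : lvl n s j ≤ levW n s e j := by
  intro k hk
  change (2 : ℤ_[2]) ^ j ∣ ∑ i, (2 : ℤ_[2]) ^ e i * k i
  exact Finset.dvd_sum fun i _ => Dvd.dvd.mul_left (hk i) _

/-- finite intersections of level sets -/
theorem inter_mem (S : ETT.Sys G) (U : Subgroup G) (hU : U ∈ S.adm) (kap : G → Uh n s)
    (hl : ∀ i (j : ℕ), ∃ W' ∈ S.adm, (W' : Set G) = ETT.lev U (fun g => kap g i) j) (j : ℕ)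
    (t : Finset (Fin (n + 1))) :
    ∃ W ∈ S.adm, (W : Set G) = {g | g ∈ U ∧ ∀ i ∈ t, (2 : ℤ_[2]) ^ j ∣ kap g i} := by
  classical
  induction t using Finset.induction_on with
  | empty =>
    refine ⟨U, hU, ?_⟩
    ext g
    simp
  | insert a t _ ih =>
    obtain ⟨W, hW, hWs⟩ := ih
    obtain ⟨W', hW', hWs'⟩ := hl a j
    refine ⟨W ⊓ W', S.inf_mem _ hW _ hW', ?_⟩
    ext g
    have e1 : g ∈ W ↔ g ∈ U ∧ ∀ i ∈ t, (2 : ℤ_[2]) ^ j ∣ kap g i := by
      rw [← SetLike.mem_coe, hWs]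
      exact Iff.rfl
    have e2 : g ∈ W' ↔ g ∈ U ∧ (2 : ℤ_[2]) ^ j ∣ kap g a := by
      rw [← SetLike.mem_coe, hWs']
      exact Iff.rfl
    rw [SetLike.mem_coe, Subgroup.mem_inf, e1, e2, Set.mem_setOf_eq]
    constructor
    · rintro ⟨⟨h1, h2⟩, -, h3⟩
      refine ⟨h1, fun i hi => ?_⟩
      rcases Finset.mem_insert.1 hi with rfl | hi
      · exact h3
      · exact h2 i hi
    · rintro ⟨h1, h2⟩
      exact ⟨⟨h1, fun i hi => h2 i (Finset.mem_insert_of_mem hi)⟩, h1,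
        h2 a (Finset.mem_insert_self _ _)⟩

/-- the conjugate of a level set -/
theorem conj_lev (S : ETT.Sys G) (U : Subgroup G) (hN : U.Normal) (f : G → ℤ_[2])
    (j : ℕ) (g : G) (h : ∃ W' ∈ S.adm, (W' : Set G) = ETT.lev U f j) :
    ∃ W' ∈ S.adm, (W' : Set G) = ETT.lev U (fun u => f (g * u * g⁻¹)) j := by
  obtain ⟨W, hW, hWs⟩ := h
  refine ⟨W.map (MulAut.conj g⁻¹).toMonoidHom, S.conj_mem W hW g⁻¹, ?_⟩
  have e1 : ∀ x, x ∈ W ↔ x ∈ U ∧ (2 : ℤ_[2]) ^ j ∣ f x := by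
    intro x
    rw [← SetLike.mem_coe, hWs]
    exact Iff.rfl
  ext u
  constructor
  · rintro ⟨w, hw, rfl⟩
    have hw' := (e1 w).1 hw
    have h1 : (MulAut.conj g⁻¹).toMonoidHom w = g⁻¹ * w * g := by
      simp
    rw [h1]
    have h2 : g * (g⁻¹ * w * g) * g⁻¹ = w := by group
    refine ⟨?_, ?_⟩
    · have := hN.conj_mem w hw'.1 g⁻¹
      simpa using this
    · change (2 : ℤ_[2]) ^ j ∣ f (g * (g⁻¹ * w * g) * g⁻¹)
      rw [h2]
      exact hw'.2
  · rintro ⟨hu, hd⟩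
    refine ⟨g * u * g⁻¹, (e1 _).2 ⟨hN.conj_mem u hu g, hd⟩, ?_⟩
    have h1 : (MulAut.conj g⁻¹).toMonoidHom (g * u * g⁻¹) = g⁻¹ * (g * u * g⁻¹) * g := by
      simp
    rw [h1]
    group

end SYI_

open SYI_ in
theorem syi_proof (h1 : Stmt_SYC) (h2 : Stmt_SYN) (h3 : Stmt_SYK) : Stmt_SYI := by
  intro G _ S U m hU hN hidx hne
  obtain ⟨Gc, ch, c0, cm, cle, cmul, cone, cker, copen⟩ := h1 G S U m hU hN hidx
  obtain ⟨n, s, kap, kchi, kmul, kcoc, klev, konto, kuniv⟩ :=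
    h3 G S U hU (h2 G S U m hU hN hidx hne)
  -- the subgroups `V j`
  have hontoW : ∀ (W : Subgroup (Uh n s)) (j : ℕ), lvl n s j ≤ W →
      ∀ c : Uh n s, ∃ u ∈ U, (kap u)⁻¹ * c ∈ W := by
    intro W j hW c
    obtain ⟨u, hu, hc⟩ := konto c j
    exact ⟨u, hu, hW hc⟩
  have hindex : ∀ (W : Subgroup (Uh n s)) (j : ℕ), lvl n s j ≤ W →
      (pl U kap kmul W).index = 2 ^ m * W.index := by
    intro W j hW
    have hle : pl U kap kmul W ≤ U := fun g hg => ((mem_pl U kap kmul W g).1 hg).1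
    rw [← Subgroup.relIndex_mul_index hle, hidx, pl_relIndex U kap kmul W (hontoW W j hW),
      mul_comm]
  have hadm : ∀ j, pl U kap kmul (lvl n s j) ∈ S.adm := by
    intro j
    obtain ⟨W, hW, hWs⟩ := inter_mem S U hU kap klev j Finset.univ
    have : pl U kap kmul (lvl n s j) = W := by
      ext g
      have eW : g ∈ W ↔ g ∈ U ∧ ∀ i ∈ Finset.univ, (2 : ℤ_[2]) ^ j ∣ kap g i := by
        rw [← SetLike.mem_coe, hWs]
        exact Iff.rfl
      rw [mem_pl, eW]
      constructor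
      · rintro ⟨a, b⟩
        exact ⟨a, fun i _ => b i⟩
      · rintro ⟨a, b⟩
        exact ⟨a, fun i => b i (Finset.mem_univ i)⟩
    rw [this]
    exact hW
  have hnrm : ∀ j, (pl U kap kmul (lvl n s j)).Normal := by
    intro j
    refine ⟨fun v hv g => ?_⟩
    rw [mem_pl] at hv ⊢
    refine ⟨hN.conj_mem v hv.1 g, fun i => ?_⟩
    have hcoc : ETT.IsCoc S.cyc U (fun u => kap (g * u * g⁻¹) i) := by
      intro a ha b hb
      have e1 : g * (a * b) * g⁻¹ = (g * a * g⁻¹) * (g * b * g⁻¹) := by group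
      have e2 := kcoc i (g * a * g⁻¹) (hN.conj_mem a ha g) (g * b * g⁻¹) (hN.conj_mem b hb g)
      have e3 : S.cyc (g * a * g⁻¹) = S.cyc a := by
        rw [map_mul, map_mul, map_inv, mul_comm (S.cyc g), mul_assoc, mul_inv_cancel, mul_one]
      change kap (g * (a * b) * g⁻¹) i =
        kap (g * a * g⁻¹) i + (S.cyc a : ℤ_[2]) * kap (g * b * g⁻¹) i
      rw [e1]
      rw [e3] at e2
      exact e2
    exact kuniv _ hcoc (fun j' => conj_lev S U hN (fun u => kap u i) j' g (klev i j')) j v hv.1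
      (fun l => hv.2 l)
  let D : IData G :=
    { n := n
      s := s
      m := m
      U := U
      Unrm := hN
      Uidx := hidx
      kap := kap
      kap_mul := kmul
      kap_onto := konto
      F :=
        { V := fun j => pl U kap kmul (lvl n s j)
          anti := by
            intro i j hij g hg
            rw [mem_pl] at hg ⊢
            exact ⟨hg.1, fun l => (pow_dvd_pow _ hij).trans (hg.2 l)⟩
          nrm := hnrm
          two := fun j => ⟨m + j * (n + 1), by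
            rw [hindex (lvl n s j) j le_rfl, lvl_index, pow_add 2 m, pow_mul]⟩ }
      F_spec := fun j g => mem_pl U kap kmul (lvl n s j) g
      Gc := Gc
      Gc0 := c0
      Gcm := cm
      Gcle := cle
      ch := ch
      ch_mul := cmul
      ch_one := cone
      ch_ker := cker
      ch_open := by
        intro i hi
        obtain ⟨f, fcoc, flev, fker⟩ := copen i hi
        refine ⟨2, fun v hv => ?_⟩
        have hv' := (mem_pl U kap kmul (lvl n s 2) v).1 hv
        have h4 := kuniv f fcoc flev 2 v hv'.1 (fun l => hv'.2 l)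
        apply fker v hv'.1
        have e4 : (2 : ℤ_[2]) ^ 2 = 4 := by norm_num
        rw [e4] at h4
        exact h4 }
  refine ⟨D, rfl, rfl, hadm, ?_⟩
  intro e he
  have hpull : ∀ W : Subgroup (Uh n s), D.pull W = pl U kap kmul W := by
    intro W
    ext g
    rw [mem_pl]
    exact Iff.rfl
  refine ⟨?_, ?_, ?_⟩
  · intro g hg h hh
    change (∑ i, (2 : ℤ_[2]) ^ e i * kap (g * h) i) =
      (∑ i, (2 : ℤ_[2]) ^ e i * kap g i) + (S.cyc g : ℤ_[2]) * ∑ i, (2 : ℤ_[2]) ^ e i * kap h i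
    rw [Finset.mul_sum, ← Finset.sum_add_distrib]
    refine Finset.sum_congr rfl fun i _ => ?_
    have := kcoc i g hg h hh
    have h5 : kap (g * h) i = kap g i + (S.cyc g : ℤ_[2]) * kap h i := this
    rw [h5]
    ring
  · obtain ⟨u, hu, hc⟩ := konto (Pi.single (M := fun _ => ℤ_[2]) (Fin.last n) 1 : Uh n s) 1
    refine ⟨u, hu, fun hd => ?_⟩
    have h6 := (inv_mul_mem_levW e 1 _ _).1 (lvl_le_levW e 1 hc)
    have h7 : yy (s := s) e (Pi.single (M := fun _ => ℤ_[2]) (Fin.last n) 1) = 1 :=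
      yy_single e he 1
    rw [h7, pow_one] at h6
    have h8 : (2 : ℤ_[2]) ∣ yy e (kap u) := hd
    have h9 : (2 : ℤ_[2]) ∣ 1 := by
      have := dvd_add h6 h8
      rwa [sub_add_cancel] at this
    have h10 : IsUnit (2 : ℤ_[2]) := isUnit_of_dvd_one h9
    have h11 := PadicInt.prime_p (p := 2)
    exact h11.not_isUnit (by exact_mod_cast h10)
  · intro j
    have hle : D.F.V j ≤ D.pull (levW D.n D.s e j) := by
      rw [hpull]
      intro g hg
      have hg' := (mem_pl U kap kmul (lvl n s j) g).1 hg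
      rw [mem_pl]
      exact ⟨hg'.1, lvl_le_levW e j hg'.2⟩
    refine ⟨S.up_mem _ (hadm j) _ hle, rfl, ?_, hle⟩
    rw [hpull, hindex (levW n s e j) j (lvl_le_levW e j), levW_index e he j]

end Pool.Agent.ETX
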