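import Pool.Agent.ETX.StmtsS

/-!
# ETX, module SYK: a basis of the admissible cocycles
-/

set_option autoImplicit false

namespace Pool.Agent.ETX

open Module

namespace SYK_

variable {G : Type} [Group G]

/-- admissible cocycles -/
def AC (S : ETT.Sys G) (U : Subgroup G) (κ : G → ℤ_[2]) : Prop :=
  ETT.IsCoc S.cyc U κ ∧ ∀ j : ℕ, ∃ W ∈ S.adm, W ≤ U ∧ ∀ u ∈ W, (2 : ℤ_[2]) ^ j ∣ κ u

lemma coc_one {S : ETT.Sys G} {U : Subgroup G} {κ : G → ℤ_[2]} (h : ETT.IsCoc S.cyc U κ) :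
    κ 1 = 0 := by
  have h1 := h 1 U.one_mem 1 U.one_mem
  rw [mul_one, map_one, Units.val_one, one_mul] at h1
  linear_combination -h1

lemma coc_inv {S : ETT.Sys G} {U : Subgroup G} {κ : G → ℤ_[2]} (h : ETT.IsCoc S.cyc U κ)
    {u : G} (hu : u ∈ U) : κ u⁻¹ = - (S.cyc u⁻¹ : ℤ_[2]) * κ u := by
  have h1 := h u⁻¹ (U.inv_mem hu) u hu
  rw [inv_mul_cancel, coc_one h] at h1
  linear_combination -h1

/-- the level subgroup -/
def levS {S : ETT.Sys G} {U : Subgroup G} {κ : G → ℤ_[2]} (h : ETT.IsCoc S.cyc U κ) (j : ℕ) :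
    Subgroup G where
  carrier := ETT.lev U κ j
  mul_mem' := by
    intro a b ha hb
    refine ⟨U.mul_mem ha.1 hb.1, ?_⟩
    rw [h a ha.1 b hb.1]
    exact dvd_add ha.2 (Dvd.dvd.mul_left hb.2 _)
  one_mem' := ⟨U.one_mem, by rw [coc_one h]; exact dvd_zero _⟩
  inv_mem' := by
    intro a ha
    exact ⟨U.inv_mem ha.1, by rw [coc_inv h ha.1]; exact Dvd.dvd.mul_left ha.2 _⟩

lemma ac_lev {S : ETT.Sys G} {U : Subgroup G} {κ : G → ℤ_[2]} (h : AC S U κ) (j : ℕ) :
    ∃ W' ∈ S.adm, (W' : Set G) = ETT.lev U κ j := by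
  obtain ⟨W, hW, hWU, hd⟩ := h.2 j
  exact ⟨levS h.1 j, S.up_mem W hW _ (fun u hu => ⟨hWU hu, hd u hu⟩), rfl⟩

lemma ac_of_lev {S : ETT.Sys G} {U : Subgroup G} {κ : G → ℤ_[2]} (h : ETT.IsCoc S.cyc U κ)
    (h2 : ∀ j : ℕ, ∃ W' ∈ S.adm, (W' : Set G) = ETT.lev U κ j) : AC S U κ := by
  refine ⟨h, fun j => ?_⟩
  obtain ⟨W, hW, he⟩ := h2 j
  have key : ∀ u ∈ W, u ∈ U ∧ (2 : ℤ_[2]) ^ j ∣ κ u := by
    intro u hu
    have : u ∈ (W : Set G) := hu
    rw [he] at this
    exact this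
  exact ⟨W, hW, fun u hu => (key u hu).1, fun u hu => (key u hu).2⟩

lemma ac_zero {S : ETT.Sys G} {U : Subgroup G} (hU : U ∈ S.adm) : AC S U (fun _ => 0) :=
  ⟨fun g _ h _ => by ring, fun _ => ⟨U, hU, le_rfl, fun _ _ => dvd_zero _⟩⟩

lemma ac_add {S : ETT.Sys G} {U : Subgroup G} {κ κ' : G → ℤ_[2]} (h : AC S U κ)
    (h' : AC S U κ') : AC S U (fun g => κ g + κ' g) := by
  refine ⟨fun g hg k hk => ?_, fun j => ?_⟩
  · simp only
    rw [h.1 g hg k hk, h'.1 g hg k hk]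
    ring
  · obtain ⟨W, hW, hWU, hd⟩ := h.2 j
    obtain ⟨W', hW', hWU', hd'⟩ := h'.2 j
    exact ⟨W ⊓ W', S.inf_mem W hW W' hW', inf_le_left.trans hWU,
      fun u hu => dvd_add (hd u hu.1) (hd' u hu.2)⟩

lemma ac_smul {S : ETT.Sys G} {U : Subgroup G} {κ : G → ℤ_[2]} (h : AC S U κ) (a : ℤ_[2]) :
    AC S U (fun g => a * κ g) := by
  refine ⟨fun g hg k hk => ?_, fun j => ?_⟩
  · simp only
    rw [h.1 g hg k hk]
    ring
  · obtain ⟨W, hW, hWU, hd⟩ := h.2 j
    exact ⟨W, hW, hWU, fun u hu => Dvd.dvd.mul_left (hd u hu) _⟩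

lemma ac_sum {S : ETT.Sys G} {U : Subgroup G} (hU : U ∈ S.adm) {ι : Type} (s : Finset ι)
    (κ : ι → G → ℤ_[2]) (a : ι → ℤ_[2]) (h : ∀ i, AC S U (κ i)) :
    AC S U (fun g => ∑ i ∈ s, a i * κ i g) := by
  classical
  induction s using Finset.induction_on with
  | empty =>
    simp only [Finset.sum_empty]
    exact ac_zero hU
  | insert i s hi ih =>
    simp only [Finset.sum_insert hi]
    exact ac_add (ac_smul (h i) (a i)) ih

/-- division by a nonzero element -/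
lemma ac_div {S : ETT.Sys G} {U : Subgroup G} {κ : G → ℤ_[2]} (h : AC S U κ) (v : ℕ)
    (hd : ∀ u ∈ U, (2 : ℤ_[2]) ^ v ∣ κ u) :
    ∃ κ' : G → ℤ_[2], AC S U κ' ∧ ∀ u ∈ U, κ u = 2 ^ v * κ' u := by
  have h20 : (2 : ℤ_[2]) ^ v ≠ 0 := pow_ne_zero _ two_ne_zero
  choose! κ' hκ' using hd
  refine ⟨κ', ⟨fun g hg k hk => ?_, fun j => ?_⟩, hκ'⟩
  · apply mul_left_cancel₀ h20
    have e1 := h.1 g hg k hk
    rw [hκ' _ (U.mul_mem hg hk), hκ' _ hg, hκ' _ hk] at e1
    rw [e1]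
    ring
  · obtain ⟨W, hW, hWU, hd2⟩ := h.2 (v + j)
    refine ⟨W, hW, hWU, fun u hu => ?_⟩
    have e2 := hd2 u hu
    rw [hκ' u (hWU hu), pow_add] at e2
    exact (mul_dvd_mul_iff_left h20).mp e2

lemma two_dvd_iff (x : ℤ_[2]) : (2 : ℤ_[2]) ∣ x ↔ PadicInt.toZMod x = 0 := by
  have h1 : x ∈ RingHom.ker (PadicInt.toZMod (p := 2)) ↔ (2 : ℤ_[2]) ∣ x := by
    rw [PadicInt.ker_toZMod, PadicInt.maximalIdeal_eq_span_p, Ideal.mem_span_singleton]
    norm_cast
  rw [← h1, RingHom.mem_ker]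

lemma red_cyc (S : ETT.Sys G) (g : G) : PadicInt.toZMod (S.cyc g : ℤ_[2]) = (1 : ZMod 2) := by
  obtain ⟨c, hc⟩ := S.cyc4 g
  have h1 : (2 : ℤ_[2]) ∣ (S.cyc g : ℤ_[2]) - 1 := ⟨2 * c, by rw [hc]; ring⟩
  have h2 := (two_dvd_iff _).mp h1
  rw [map_sub, map_one, sub_eq_zero] at h2
  exact h2

/-- characters mod 2 of `U` with admissible kernel -/
def VV (S : ETT.Sys G) (U : Subgroup G) (hU : U ∈ S.adm) : Submodule (ZMod 2) (U → ZMod 2) where
  carrier := {c | (∀ u v : U, c (u * v) = c u + c v) ∧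
    ∃ W ∈ S.adm, W ≤ U ∧ ∀ u : U, (u : G) ∈ W → c u = 0}
  add_mem' := by
    rintro c c' ⟨h1, W, hW, hWU, h2⟩ ⟨h1', W', hW', hWU', h2'⟩
    refine ⟨fun u v => ?_, W ⊓ W', S.inf_mem W hW W' hW', inf_le_left.trans hWU, fun u hu => ?_⟩
    · simp only [Pi.add_apply]
      rw [h1, h1']
      ring
    · simp only [Pi.add_apply]
      rw [h2 u hu.1, h2' u hu.2, add_zero]
  zero_mem' := ⟨fun u v => by simp, U, hU, le_rfl, fun u _ => rfl⟩
  smul_mem' := by
    rintro a c ⟨h1, W, hW, hWU, h2⟩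
    refine ⟨fun u v => ?_, W, hW, hWU, fun u hu => ?_⟩
    · simp only [Pi.smul_apply, smul_eq_mul]
      rw [h1]
      ring
    · simp only [Pi.smul_apply, smul_eq_mul]
      rw [h2 u hu, mul_zero]

lemma red_mem {S : ETT.Sys G} {U : Subgroup G} (hU : U ∈ S.adm) {κ : G → ℤ_[2]}
    (h : AC S U κ) : (fun u : U => (PadicInt.toZMod (κ u) : ZMod 2)) ∈ VV S U hU := by
  refine ⟨fun u v => ?_, ?_⟩
  · have e := h.1 u u.2 v v.2
    change PadicInt.toZMod (κ ((u : G) * (v : G))) = _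
    rw [e, map_add, map_mul, red_cyc, one_mul]
  · obtain ⟨W, hW, hWU, hd⟩ := h.2 1
    refine ⟨W, hW, hWU, fun u hu => ?_⟩
    have := hd u hu
    rw [pow_one] at this
    exact (two_dvd_iff _).mp this

lemma c_one {U : Subgroup G} {c : U → ZMod 2} (h : ∀ u v : U, c (u * v) = c u + c v) :
    c 1 = 0 := by
  have h1 := h 1 1
  rw [mul_one] at h1
  linear_combination -h1

lemma c_inv {U : Subgroup G} {c : U → ZMod 2} (h : ∀ u v : U, c (u * v) = c u + c v) (u : U) :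
    c u⁻¹ = - c u := by
  have h1 := h u⁻¹ u
  rw [inv_mul_cancel, c_one h] at h1
  linear_combination -h1

/-- the kernel of a character -/
def KK {U : Subgroup G} {c : U → ZMod 2} (h : ∀ u v : U, c (u * v) = c u + c v) :
    Subgroup G where
  carrier := {g | ∃ hg : g ∈ U, c ⟨g, hg⟩ = 0}
  mul_mem' := by
    rintro a b ⟨ha, ha'⟩ ⟨hb, hb'⟩
    refine ⟨U.mul_mem ha hb, ?_⟩
    have := h ⟨a, ha⟩ ⟨b, hb⟩
    rw [ha', hb', add_zero] at this
    exact this
  one_mem' := ⟨U.one_mem, c_one h⟩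
  inv_mem' := by
    rintro a ⟨ha, ha'⟩
    refine ⟨U.inv_mem ha, ?_⟩
    have := c_inv h ⟨a, ha⟩
    rw [ha', neg_zero] at this
    exact this

lemma kk_le {U : Subgroup G} {c : U → ZMod 2} (h : ∀ u v : U, c (u * v) = c u + c v) :
    KK h ≤ U := fun _ hg => hg.1

lemma mem_kk {U : Subgroup G} {c : U → ZMod 2} (h : ∀ u v : U, c (u * v) = c u + c v) (u : U) :
    (u : G) ∈ KK h ↔ c u = 0 := ⟨fun hg => hg.2, fun hg => ⟨u.2, hg⟩⟩

lemma z2 (x : ZMod 2) (h : x ≠ 0) : x = 1 := by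
  revert h
  revert x
  decide

lemma kk_index {U : Subgroup G} {c : U → ZMod 2} (h : ∀ u v : U, c (u * v) = c u + c v)
    (hc : c ≠ 0) : (KK h).relIndex U = 2 := by
  have hex : ∃ a : U, c a = 1 := by
    by_contra hcon
    push Not at hcon
    apply hc
    funext u
    by_contra h1
    exact hcon u (z2 _ h1)
  obtain ⟨a, ha⟩ := hex
  change ((KK h).subgroupOf U).index = 2
  rw [Subgroup.index_eq_two_iff]
  refine ⟨a, fun b => ?_⟩
  rw [Subgroup.mem_subgroupOf, Subgroup.mem_subgroupOf, mem_kk, mem_kk, h, ha]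
  generalize c b = x
  revert x
  unfold Xor
  decide

lemma vv_finite (S : ETT.Sys G) (U : Subgroup G) (hU : U ∈ S.adm) : Finite (VV S U hU) := by
  classical
  have hfin : (insert U {W : Subgroup G | W ∈ S.adm ∧ W ≤ U ∧ W.relIndex U = 2}).Finite :=
    (S.fg U hU).insert U
  haveI := hfin.to_subtype
  refine Finite.of_injective (β := ↥(insert U {W : Subgroup G | W ∈ S.adm ∧ W ≤ U ∧
    W.relIndex U = 2})) (fun c => ⟨KK c.2.1, ?_⟩) ?_
  · by_cases hc : (c : U → ZMod 2) = 0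
    · left
      apply le_antisymm (kk_le _)
      intro g hg
      have := (mem_kk c.2.1 ⟨g, hg⟩).mpr (by rw [hc]; rfl)
      exact this
    · right
      obtain ⟨W, hW, hWU, h2⟩ := c.2.2
      refine ⟨S.up_mem W hW _ (fun u hu => ?_), kk_le _, kk_index _ hc⟩
      exact ⟨hWU hu, h2 ⟨u, hWU hu⟩ hu⟩
  · intro c c' hcc
    have h1 : KK c.2.1 = KK c'.2.1 := congrArg Subtype.val hcc
    apply Subtype.ext
    funext u
    have h2 := mem_kk c.2.1 u
    have h3 := mem_kk c'.2.1 u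
    rw [h1] at h2
    have h4 : (c : U → ZMod 2) u = 0 ↔ (c' : U → ZMod 2) u = 0 := h2.symm.trans h3
    generalize (c : U → ZMod 2) u = x at h4
    generalize (c' : U → ZMod 2) u = y at h4
    revert x y
    decide

lemma exists_lift {S : ETT.Sys G} {U : Subgroup G} (hU : U ∈ S.adm) (c : U → ZMod 2)
    (hc : c ∈ VV S U hU) :
    ∃ κ : G → ℤ_[2], AC S U κ ∧ ∀ u : U, (PadicInt.toZMod (κ u) : ZMod 2) = c u := by
  by_cases h0 : c = 0
  · subst h0
    exact ⟨fun _ => 0, ac_zero hU, fun u => map_zero _⟩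
  · obtain ⟨W, hW, hWU, h2⟩ := hc.2
    have hK : KK hc.1 ∈ S.adm := S.up_mem W hW _ (fun u hu => ⟨hWU hu, h2 ⟨u, hWU hu⟩ hu⟩)
    obtain ⟨κ, h3, h4, h5⟩ := S.lift U hU _ hK (kk_le _) (kk_index _ h0)
    refine ⟨κ, ac_of_lev h3 h4, fun u => ?_⟩
    have h6 : (2 : ℤ_[2]) ∣ κ u ↔ c u = 0 := by
      rw [← mem_kk hc.1 u]
      have : ((u : G) ∈ (KK hc.1 : Set G)) ↔ (u : G) ∈ ETT.lev U κ 1 := by rw [h5]
      constructor
      · intro hd
        exact this.mpr ⟨u.2, by rwa [pow_one]⟩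
      · intro hd
        have := (this.mp hd).2
        rwa [pow_one] at this
    rw [two_dvd_iff] at h6
    generalize (PadicInt.toZMod (κ u) : ZMod 2) = x at h6
    generalize c u = y at h6
    revert x y
    decide

/-- the last coordinate -/
lemma base (S : ETT.Sys G) (U : Subgroup G) (hU : U ∈ S.adm)
    (hex : ∃ W ∈ S.adm, W ≤ U ∧ W.relIndex U = 2) :
    ∃ (s : ℤ_[2]) (κ : G → ℤ_[2]), AC S U κ ∧ (∀ u ∈ U, 1 + 4 * s * κ u = (S.cyc u : ℤ_[2])) ∧
      ∃ u ∈ U, ¬ (2 : ℤ_[2]) ∣ κ u := by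
  by_cases hcyc : ∀ u ∈ U, (S.cyc u : ℤ_[2]) = 1
  · obtain ⟨W, hW, hWU, hi⟩ := hex
    obtain ⟨κ, h3, h4, h5⟩ := S.lift U hU W hW hWU hi
    refine ⟨0, κ, ac_of_lev h3 h4, fun u hu => by rw [hcyc u hu]; ring, ?_⟩
    by_contra hcon
    push Not at hcon
    have h6 : W.relIndex U = 1 := by
      rw [Subgroup.relIndex_eq_one]
      intro u hu
      have : u ∈ (W : Set G) := by
        rw [h5]
        exact ⟨hu, by rw [pow_one]; exact hcon u hu⟩
      exact this
    omega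
  · push Not at hcyc
    obtain ⟨u0, hu0, hne⟩ := hcyc
    have h40 : (4 : ℤ_[2]) ≠ 0 := by norm_num
    have h4 := S.cyc4
    choose c hc using h4
    have hAC : AC S U c := by
      refine ⟨fun g _ h _ => ?_, fun j => ?_⟩
      · apply mul_left_cancel₀ h40
        have e1 := hc (g * h)
        rw [map_mul, Units.val_mul] at e1
        linear_combination -e1 + (S.cyc g : ℤ_[2]) * hc h + hc g
      · obtain ⟨W, hW, he⟩ := S.cycadm (2 + j)
        refine ⟨U ⊓ W, S.inf_mem U hU W hW, inf_le_left, fun u hu => ?_⟩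
        have h5 : u ∈ (W : Set G) := hu.2
        rw [he] at h5
        have h6 : (2 : ℤ_[2]) ^ (2 + j) ∣ (S.cyc u : ℤ_[2]) - 1 := h5
        rw [hc u, pow_add] at h6
        have h7 : (2 : ℤ_[2]) ^ 2 = 4 := by norm_num
        rw [h7] at h6
        exact (mul_dvd_mul_iff_left h40).mp h6
    have hc0 : c u0 ≠ 0 := by
      intro h0
      apply hne
      have := hc u0
      rw [h0, mul_zero] at this
      linear_combination this
    have hexn : ∃ n : ℕ, ¬ ∀ u ∈ U, (2 : ℤ_[2]) ^ n ∣ c u := by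
      have hnu : ¬ IsUnit (2 : ℤ_[2]) := by
        have := (PadicInt.prime_p (p := 2)).not_isUnit
        exact_mod_cast this
      obtain ⟨n, hn⟩ := FiniteMultiplicity.of_not_isUnit hnu hc0
      exact ⟨n + 1, fun h => hn (h u0 hu0)⟩
    classical
    obtain ⟨v, hv1, hv2⟩ : ∃ v : ℕ, (∀ u ∈ U, (2 : ℤ_[2]) ^ v ∣ c u) ∧
        ¬ ∀ u ∈ U, (2 : ℤ_[2]) ^ (v + 1) ∣ c u := by
      have hn0 : Nat.find hexn ≠ 0 := by
        intro h0
        have := Nat.find_spec hexn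
        rw [h0] at this
        exact this (fun u _ => by rw [pow_zero]; exact one_dvd _)
      obtain ⟨v, hv⟩ := Nat.exists_eq_succ_of_ne_zero hn0
      refine ⟨v, ?_, ?_⟩
      · have := Nat.find_min hexn (m := v) (by omega)
        exact not_not.mp this
      · have := Nat.find_spec hexn
        rw [hv] at this
        exact this
    obtain ⟨κ, hκ, hκe⟩ := ac_div hAC v hv1
    refine ⟨2 ^ v, κ, hκ, fun u hu => ?_, ?_⟩
    · have := hc u
      rw [hκe u hu] at this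
      linear_combination -this
    · push Not at hv2
      obtain ⟨u, hu, hd⟩ := hv2
      refine ⟨u, hu, fun h2 => hd ?_⟩
      rw [hκe u hu, pow_succ]
      exact mul_dvd_mul_left _ h2

/-- a basis with prescribed last vector -/
lemma exists_basis {V : Type} [AddCommGroup V] [Module (ZMod 2) V] [Finite V] (v : V)
    (hv : v ≠ 0) : ∃ (n : ℕ) (b : Basis (Fin (n + 1)) (ZMod 2) V), b (Fin.last n) = v := by
  classical
  have hli : LinearIndepOn (ZMod 2) id ({v} : Set V) := LinearIndepOn.singleton (v := id) (i := v) hv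
  let b0 := Basis.extend hli
  have hmem : v ∈ hli.extend (Set.subset_univ _) :=
    hli.subset_extend (Set.subset_univ _) (Set.mem_singleton v)
  have : Module.Finite (ZMod 2) V := Module.Finite.of_finite
  have hfi : Finite ↥(hli.extend (Set.subset_univ _)) := Module.Finite.finite_basis b0
  obtain ⟨m, ⟨e⟩⟩ := Finite.exists_equiv_fin ↥(hli.extend (Set.subset_univ _))
  have hm : m ≠ 0 := by
    rintro rfl
    exact (e ⟨v, hmem⟩).elim0
  obtain ⟨n, rfl⟩ := Nat.exists_eq_succ_of_ne_zero hm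
  refine ⟨n, b0.reindex (e.trans (Equiv.swap (e ⟨v, hmem⟩) (Fin.last n))), ?_⟩
  rw [Basis.reindex_apply]
  have h1 : (e.trans (Equiv.swap (e ⟨v, hmem⟩) (Fin.last n))).symm (Fin.last n) = ⟨v, hmem⟩ := by
    rw [Equiv.symm_apply_eq]
    simp
  rw [h1]
  exact Basis.extend_apply_self hli ⟨v, hmem⟩

/-- surjectivity mod 2 by duality -/
lemma onto_two {U : Subgroup G} {n : ℕ} (c : Fin (n + 1) → U → ZMod 2)
    (hadd : ∀ i, ∀ u v : U, c i (u * v) = c i u + c i v) (hli : LinearIndependent (ZMod 2) c)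
    (d : Fin (n + 1) → ZMod 2) : ∃ u : U, ∀ i, c i u = d i := by
  classical
  let P : Submodule (ZMod 2) (Fin (n + 1) → ZMod 2) :=
    { carrier := {x | ∃ u : U, ∀ i, c i u = x i}
      add_mem' := by
        rintro x y ⟨u, hu⟩ ⟨v, hv⟩
        exact ⟨u * v, fun i => by rw [hadd, hu, hv]; rfl⟩
      zero_mem' := ⟨1, fun i => c_one (hadd i)⟩
      smul_mem' := by
        rintro a x ⟨u, hu⟩
        by_cases ha : a = 0
        · subst ha
          exact ⟨1, fun i => by rw [c_one (hadd i), zero_smul]; rfl⟩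
        · have := z2 a ha
          subst this
          exact ⟨u, fun i => by rw [one_smul]; exact hu i⟩ }
  by_contra hcon
  have hP : P < ⊤ := by
    rw [lt_top_iff_ne_top]
    intro h
    apply hcon
    have : d ∈ P := by rw [h]; trivial
    exact this
  obtain ⟨f, hf, hPf⟩ := Submodule.exists_le_ker_of_lt_top P hP
  apply hf
  have h1 : ∑ i, f (Pi.single i 1) • c i = 0 := by
    funext u
    have h2 : f (fun i => c i u) = 0 := hPf (show (fun i => c i u) ∈ P from ⟨u, fun i => rfl⟩)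
    have h3 : (fun i => c i u) = ∑ i, c i u • (Pi.single i (1 : ZMod 2) : Fin (n + 1) → ZMod 2) := by
      funext k
      rw [Finset.sum_apply, Finset.sum_eq_single k]
      · simp
      · intro b _ hb
        simp [hb.symm]
      · simp
    rw [h3, map_sum] at h2
    simp only [map_smul, smul_eq_mul] at h2
    rw [Finset.sum_apply]
    simp only [Pi.smul_apply, smul_eq_mul, Pi.zero_apply]
    rw [← h2]
    exact Finset.sum_congr rfl fun i _ => mul_comm _ _
  have h4 := (Fintype.linearIndependent_iff.mp hli) (fun i => f (Pi.single i 1)) h1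
  apply LinearMap.pi_ext'
  intro i
  apply LinearMap.ext_ring
  exact h4 i

end SYK_

theorem syk_proof : Stmt_SYK := by
  intro G _ S U hU hex
  classical
  obtain ⟨s, κ0, hκ0, hs, u0, hu0, hodd⟩ := SYK_.base S U hU hex
  have hfin := SYK_.vv_finite S U hU
  let r0 : SYK_.VV S U hU := ⟨_, SYK_.red_mem hU hκ0⟩
  have hr0 : r0 ≠ 0 := by
    intro h
    apply hodd
    rw [SYK_.two_dvd_iff]
    have := congrFun (congrArg Subtype.val h) ⟨u0, hu0⟩
    exact this
  obtain ⟨n, b, hb⟩ := SYK_.exists_basis r0 hr0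
  have hlift : ∀ i : Fin (n + 1), ∃ κ : G → ℤ_[2], SYK_.AC S U κ ∧
      (∀ u : U, (PadicInt.toZMod (κ u) : ZMod 2) = (b i : U → ZMod 2) u) ∧
      (i = Fin.last n → κ = κ0) := by
    intro i
    by_cases hi : i = Fin.last n
    · refine ⟨κ0, hκ0, fun u => ?_, fun _ => rfl⟩
      rw [hi, hb]
    · obtain ⟨κ, h1, h2⟩ := SYK_.exists_lift hU _ (b i).2
      exact ⟨κ, h1, h2, fun h => absurd h hi⟩
  choose κ hκ hred hlast using hlift
  have hlast' : κ (Fin.last n) = κ0 := hlast _ rfl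
  obtain ⟨kap, hkap⟩ : ∃ kap : G → Uh n s, ∀ g i, kap g i = κ i g :=
    ⟨fun g i => κ i g, fun _ _ => rfl⟩
  have hkf : ∀ i, (fun g => kap g i) = κ i := fun i => funext fun g => hkap g i
  have hchi : ∀ u ∈ U, chi (kap u) = (S.cyc u : ℤ_[2]) := by
    intro u hu
    unfold chi
    rw [hkap, hlast']
    exact hs u hu
  have hmul : ∀ u ∈ U, ∀ v ∈ U, kap (u * v) = kap u * kap v := by
    intro u hu v hv
    funext i
    rw [mul_apply, hchi u hu, hkap, hkap, hkap]
    exact (hκ i).1 u hu v hv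
  have hB : ∀ j : ℕ, ∀ d : Uh n s, (∀ i, (2 : ℤ_[2]) ^ j ∣ d i) →
      ∃ v ∈ U, ∀ i, (2 : ℤ_[2]) ^ (j + 1) ∣ d i - κ i v := by
    intro j
    induction j with
    | zero =>
      intro d _
      obtain ⟨u, hu⟩ := SYK_.onto_two (fun i => (b i : U → ZMod 2)) (fun i => (b i).2.1)
        (b.linearIndependent.map' (SYK_.VV S U hU).subtype
          (Submodule.ker_subtype _)) (fun i => PadicInt.toZMod (d i))
      refine ⟨u, u.2, fun i => ?_⟩
      rw [zero_add, pow_one, SYK_.two_dvd_iff, map_sub, hred i u, hu i, sub_self]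
    | succ j ih =>
      intro d hd
      have hd2 : ∀ i, ∃ x : ℤ_[2], (2 : ℤ_[2]) ^ j ∣ x ∧ d i = 2 * x := by
        intro i
        obtain ⟨x, hx⟩ := hd i
        exact ⟨2 ^ j * x, dvd_mul_right _ _, by rw [hx]; ring⟩
      choose d' hd' hdd using hd2
      obtain ⟨v, hv, hvd⟩ := ih d' hd'
      refine ⟨v * v, U.mul_mem hv hv, fun i => ?_⟩
      have e1 : κ i (v * v) = κ i v + (S.cyc v : ℤ_[2]) * κ i v := (hκ i).1 v hv v hv
      have e2 : d i - κ i (v * v) = 2 * (d' i - κ i v) - 4 * (s * κ0 v) * κ i v := by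
        rw [e1, hdd i, ← hs v hv]
        ring
      have h1 : (2 : ℤ_[2]) ^ (j + 1 + 1) ∣ 2 * (d' i - κ i v) := by
        rw [pow_succ' _ (j + 1)]
        exact mul_dvd_mul_left 2 (hvd i)
      have h2 : (2 : ℤ_[2]) ^ j ∣ κ i v := by
        have h3 : (2 : ℤ_[2]) ^ j ∣ d' i - κ i v :=
          (pow_dvd_pow 2 (Nat.le_succ j)).trans (hvd i)
        have h4 := dvd_sub (hd' i) h3
        rwa [sub_sub_cancel] at h4
      have h5 : (2 : ℤ_[2]) ^ (j + 1 + 1) ∣ 4 * (s * κ0 v) * κ i v := by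
        obtain ⟨y, hy⟩ := h2
        exact ⟨s * κ0 v * y, by rw [hy]; ring⟩
      rw [e2]
      exact dvd_sub h1 h5
  refine ⟨n, s, kap, hchi, hmul, fun i => by rw [hkf]; exact (hκ i).1,
    fun i j => by rw [hkf]; exact SYK_.ac_lev (hκ i) j, ?_, ?_⟩
  · intro c j
    induction j with
    | zero => exact ⟨1, U.one_mem, fun i => by rw [pow_zero]; exact one_dvd _⟩
    | succ j ih =>
      obtain ⟨u, hu, hd⟩ := ih
      obtain ⟨v, hv, hvd⟩ := hB j _ hd
      refine ⟨u * v, U.mul_mem hu hv, ?_⟩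
      rw [hmul u hu v hv, mul_inv_rev, mul_assoc, inv_mul_mem_lvl]
      intro i
      rw [hkap]
      exact hvd i
  · intro χ h1 h2 j
    have hAC := SYK_.ac_of_lev h1 h2
    clear h1 h2
    induction j generalizing χ with
    | zero =>
      intro u _ _
      rw [pow_zero]
      exact one_dvd _
    | succ j ih =>
      intro u hu hd
      simp only [hkap] at hd ih
      let x : SYK_.VV S U hU := ⟨_, SYK_.red_mem hU hAC⟩
      let A : Fin (n + 1) → ℤ_[2] := fun i => ((b.repr x i).val : ℤ_[2])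
      have hA : ∀ i, (PadicInt.toZMod (A i) : ZMod 2) = b.repr x i := by
        intro i
        change PadicInt.toZMod (((b.repr x i).val : ℕ) : ℤ_[2]) = _
        rw [map_natCast, ZMod.natCast_zmod_val]
      have hψ : SYK_.AC S U (fun g => χ g + ∑ i ∈ Finset.univ, (-A i) * κ i g) :=
        SYK_.ac_add hAC (SYK_.ac_sum hU Finset.univ κ (fun i => -A i) hκ)
      have hev : ∀ w ∈ U, (2 : ℤ_[2]) ^ 1 ∣ χ w + ∑ i ∈ Finset.univ, (-A i) * κ i w := by
        intro w hw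
        rw [pow_one, SYK_.two_dvd_iff, map_add, map_sum]
        have e1 : (∑ i, b.repr x i • b i) = x := b.sum_repr x
        have e2 : (PadicInt.toZMod (χ w) : ZMod 2) =
            ∑ i, b.repr x i * (b i : U → ZMod 2) ⟨w, hw⟩ := by
          have e3 := congrFun (congrArg Subtype.val e1) ⟨w, hw⟩
          rw [Submodule.coe_sum, Finset.sum_apply] at e3
          exact e3.symm
        rw [e2, ← Finset.sum_add_distrib]
        apply Finset.sum_eq_zero
        intro i _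
        rw [map_mul, map_neg, hA, hred i ⟨w, hw⟩]
        ring
      obtain ⟨χ', hχ', he⟩ := SYK_.ac_div hψ 1 hev
      have h3 : (2 : ℤ_[2]) ^ j ∣ χ' u :=
        ih χ' hχ' u hu (fun i => (pow_dvd_pow 2 (Nat.le_succ j)).trans (hd i))
      have h4 : (2 : ℤ_[2]) ^ (j + 1) ∣ χ u + ∑ i ∈ Finset.univ, (-A i) * κ i u := by
        rw [he u hu, pow_one, pow_succ']
        exact mul_dvd_mul_left 2 h3
      have h5 : (2 : ℤ_[2]) ^ (j + 1) ∣ ∑ i ∈ Finset.univ, (-A i) * κ i u :=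
        Finset.dvd_sum fun i _ => Dvd.dvd.mul_left (hd i) _
      exact (dvd_add_left h5).mp h4

end Pool.Agent.ETX
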