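import Pool.Agent.ETX.StmtsS

/-!
# ETX, module SYN: every normal admissible subgroup has an admissible subgroup of index 2
-/

set_option autoImplicit false

namespace Pool.Agent.ETX

open Module

namespace SYN_

lemma two_dvd_iff (x : ℤ_[2]) : (2 : ℤ_[2]) ∣ x ↔ PadicInt.toZMod x = 0 := by
  have h : PadicInt.toZMod x = 0 ↔ x ∈ RingHom.ker (PadicInt.toZMod (p := 2)) := by
    rw [RingHom.mem_ker]
  rw [h, PadicInt.ker_toZMod, PadicInt.maximalIdeal_eq_span_p, Ideal.mem_span_singleton]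
  norm_num

end SYN_

open SYN_ in
theorem syn_proof (hSYC : Stmt_SYC) : Stmt_SYN := by
  intro G _ S U m hU hN hm hne
  obtain ⟨Gc, ch, h0, hmU, hle, hadd, hone, hker, -⟩ := hSYC G S U m hU hN hm
  have hm0 : m ≠ 0 := by
    intro h
    rw [h] at hmU
    exact hne (hmU.symm.trans h0)
  obtain ⟨k, rfl⟩ : ∃ k, m = k + 1 := ⟨m - 1, by omega⟩
  have hk : k < k + 1 := by omega
  set T := Gc k with hT
  have hUT : U ≤ T := by rw [← hmU]; exact hle k hk
  have hTadm : T ∈ S.adm := S.up_mem U hU T hUT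
  have hadd' := hadd k hk
  obtain ⟨g1, hg1, hg1'⟩ := hone k hk
  have hker' : ∀ g ∈ T, (g ∈ U ↔ 2 * ch k g = 0) := by
    intro g hg
    rw [← hmU]
    exact hker k hk g hg
  have h2 : U.relIndex T = 2 := by
    rw [Subgroup.relIndex_eq_two_iff_exists_notMem_and]
    refine ⟨g1, hg1, ?_, ?_⟩
    · rw [hker' g1 hg1, hg1']
      decide
    · intro b hb
      rw [hker' (b * g1) (T.mul_mem hb hg1), hker' b hb, hadd' b hb g1 hg1, hg1']
      generalize ch k b = x
      revert x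
      decide
  obtain ⟨chi, hcoc, hlev, hU1⟩ := S.lift T hTadm U hU hUT h2
  obtain ⟨W, hW, hW2⟩ := hlev 2
  have hmemU : ∀ g, g ∈ U ↔ g ∈ T ∧ (2 : ℤ_[2]) ∣ chi g := by
    intro g
    have h := Set.ext_iff.mp hU1 g
    rw [SetLike.mem_coe] at h
    rw [h]
    simp only [ETT.lev, pow_one, Set.mem_ofPred_eq]
  have hmemW : ∀ g, g ∈ W ↔ g ∈ T ∧ (2 : ℤ_[2]) ^ 2 ∣ chi g := by
    intro g
    have h := Set.ext_iff.mp hW2 g
    rw [SetLike.mem_coe] at h
    rw [h]
    simp only [ETT.lev, Set.mem_ofPred_eq]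
  have hWU : W ≤ U := by
    intro g hg
    rw [hmemW] at hg
    rw [hmemU]
    exact ⟨hg.1, (Dvd.intro_left (2 : ℤ_[2]) (by ring)).trans hg.2⟩
  refine ⟨W, hW, hWU, ?_⟩
  -- an element outside of `U`
  have hg1U : g1 ∉ U := by
    rw [hker' g1 hg1, hg1']
    decide
  have hodd : PadicInt.toZMod (chi g1) = 1 := by
    have h3 : PadicInt.toZMod (chi g1) ≠ 0 := by
      intro h
      exact hg1U ((hmemU g1).mpr ⟨hg1, (two_dvd_iff _).mpr h⟩)
    revert h3
    generalize PadicInt.toZMod (chi g1) = x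
    revert x
    decide
  obtain ⟨d1, hd1⟩ := S.cyc4 g1
  have hc1 : (S.cyc g1 : ℤ_[2]) = 1 + 4 * d1 := by rw [← hd1]; ring
  have hsq : chi (g1 * g1) = 2 * (chi g1 * (1 + 2 * d1)) := by
    rw [hcoc g1 hg1 g1 hg1, hc1]
    ring
  have h4 : ∀ x : ℤ_[2], (2 : ℤ_[2]) ^ 2 ∣ 2 * x ↔ PadicInt.toZMod x = 0 := by
    intro x
    rw [pow_two, mul_dvd_mul_iff_left (by norm_num), two_dvd_iff]
  have htwo : PadicInt.toZMod (p := 2) (2 : ℤ_[2]) = 0 := by
    rw [map_ofNat]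
    decide
  have hgam : PadicInt.toZMod (chi g1 * (1 + 2 * d1)) = 1 := by
    rw [map_mul, map_add, map_mul, htwo, hodd, map_one, zero_mul, add_zero, mul_one]
  rw [Subgroup.relIndex_eq_two_iff_exists_notMem_and]
  refine ⟨g1 * g1, ?_, ?_, ?_⟩
  · rw [hmemU]
    exact ⟨T.mul_mem hg1 hg1, by rw [hsq]; exact Dvd.intro _ rfl⟩
  · rw [hmemW, hsq]
    rintro ⟨-, h⟩
    rw [h4, hgam] at h
    exact one_ne_zero h
  · intro b hb
    have hb' := (hmemU b).mp hb
    obtain ⟨be, hbe⟩ := hb'.2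
    obtain ⟨d, hd⟩ := S.cyc4 b
    have hc : (S.cyc b : ℤ_[2]) = 1 + 4 * d := by rw [← hd]; ring
    have hprod : chi (b * (g1 * g1)) = 2 * (be + (1 + 2 * (2 * d)) * (chi g1 * (1 + 2 * d1))) := by
      rw [hcoc b hb'.1 _ (T.mul_mem hg1 hg1), hbe, hsq, hc]
      ring
    rw [hmemW, hmemW, hprod, hbe, h4, h4]
    have h5 : PadicInt.toZMod (be + (1 + 2 * (2 * d)) * (chi g1 * (1 + 2 * d1))) =
        PadicInt.toZMod be + 1 := by
      rw [map_add, map_mul, hgam, map_add, map_mul, htwo, map_one, zero_mul, add_zero, mul_one]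
    rw [h5]
    have h6 : PadicInt.toZMod be + 1 = 0 ∨ PadicInt.toZMod be = 0 := by
      generalize PadicInt.toZMod be = x
      revert x
      decide
    rcases h6 with h6 | h6
    · left
      exact ⟨T.mul_mem hb'.1 (T.mul_mem hg1 hg1), h6⟩
    · right
      exact ⟨hb'.1, h6⟩

end Pool.Agent.ETX
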