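import Pool.Agent.ETX.Stmts

set_option autoImplicit false

namespace Pool.Agent.ETX

open Module

theorem THI_.lvl_le_levW (n : ℕ) (s : ℤ_[2]) (e : Fin (n + 1) → ℕ) (j : ℕ) :
    lvl n s j ≤ levW n s e j := by
  intro k hk
  change (2 : ℤ_[2]) ^ j ∣ ∑ i, (2 : ℤ_[2]) ^ e i * k i
  exact Finset.dvd_sum fun i _ => Dvd.dvd.mul_left (hk i) _

theorem thi_proof (hEXT : Stmt_EXT) (hRNK : Stmt_RNK) (hKRG : Stmt_KRG) (hDVS : Stmt_DVS) :
    Stmt_THI := by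
  intro G M _ _ _ D ρ hs hfd
  obtain ⟨hE1, _, hE3, _⟩ := hEXT G D
  obtain ⟨σ, hσ⟩ := hE1 M ρ hs
  have hpull : D.pull ⊤ = D.U := by
    ext g
    constructor
    · intro hg
      exact hg.1
    · intro hg
      exact ⟨hg, Subgroup.mem_top _⟩
  have htop : fixd σ ⊤ = fixd ρ D.U := by
    rw [hE3 M ρ σ hσ ⊤ 0 le_top, hpull]
  have hadm : Adm (filt D.n D.s) σ := by
    refine ⟨hσ.1, ?_⟩
    rw [htop]
    exact hfd
  obtain ⟨r, hr, hrle⟩ := (hRNK D.n D.s).1 M σ hadm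
  obtain ⟨r0, hr0⟩ := hDVS G M D ρ σ r hs hfd hσ hr
  obtain ⟨e, C, he, hC⟩ := hKRG D.n D.s M σ r hadm hr
  refine ⟨r0, ?_, e, C, he, fun j => ?_⟩
  · rw [htop] at hrle
    rw [mul_comm, ← hr0]
    exact hrle
  · have h1 := hC j
    rw [hE3 M ρ σ hσ (levW D.n D.s e j) j (THI_.lvl_le_levW _ _ _ _), hr0] at h1
    rw [mul_comm r0]
    exact h1

end Pool.Agent.ETX
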