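import Pool.Agent.ETX.Stmts

/-!
# ETX, module UPB: upper bound for the invariants of level `j`
-/

set_option autoImplicit false

namespace Pool.Agent.ETX

open Module

namespace UPB_

variable {n k : ℕ} {s : ℤ_[2]}

theorem ix_surj (i : Ixk n k) : ∃ (α : Fin (n + 1) → ℕ) (p : Fin k), i = ix α p :=
  ⟨ofLex (ofLex i).1, (ofLex i).2, rfl⟩

theorem ix_inj (α α' : Fin (n + 1) → ℕ) (p p' : Fin k) :
    ix α p = ix α' p' ↔ α = α' ∧ p = p' := by
  constructor
  · intro h
    have h1 : (toLex α, p) = (toLex α', p') := toLex.injective h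
    rw [Prod.mk.injEq] at h1
    exact ⟨toLex.injective h1.1, h1.2⟩
  · rintro ⟨rfl, rfl⟩
    rfl

/-- coordinates in `LC^k` -/
theorem repr_eq (b : Basis (Ix n) (ZMod 2) (LC (filt n s))) (hb : IsE b)
    (B : Basis (Ixk n k) (ZMod 2) (Fin k → LC (filt n s))) (hB : IsEk B)
    (x : Fin k → LC (filt n s)) (α : Fin (n + 1) → ℕ) (p : Fin k) :
    B.repr x (ix α p) = b.repr (x p) (toLex α) := by
  classical
  have h : (Finsupp.lapply (ix α p) : (Ixk n k →₀ ZMod 2) →ₗ[ZMod 2] ZMod 2) ∘ₗ
        (B.repr : (Fin k → LC (filt n s)) →ₗ[ZMod 2] (Ixk n k →₀ ZMod 2)) =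
      (Finsupp.lapply (toLex α) : (Ix n →₀ ZMod 2) →ₗ[ZMod 2] ZMod 2) ∘ₗ
        (b.repr : LC (filt n s) →ₗ[ZMod 2] (Ix n →₀ ZMod 2)) ∘ₗ LinearMap.proj p := by
    refine B.ext fun i => ?_
    obtain ⟨α', p', rfl⟩ := ix_surj i
    have hBp : B (ix α' p') p = if p = p' then b (toLex α') else 0 := by
      apply Subtype.ext
      rw [hB α' p' p]
      split_ifs
      · exact (hb α').symm
      · rfl
    change B.repr (B (ix α' p')) (ix α p) = b.repr (B (ix α' p') p) (toLex α)
    rw [hBp, Basis.repr_self, Finsupp.single_apply]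
    by_cases hp : p = p'
    · subst hp
      rw [if_pos rfl, Basis.repr_self, Finsupp.single_apply]
      have h1 : ix α' p = ix α p ↔ toLex α' = toLex α := by
        rw [ix_inj]
        exact ⟨fun h => congrArg toLex h.1, fun h => ⟨toLex.injective h, rfl⟩⟩
      simp only [h1]
    · rw [if_neg hp, map_zero, Finsupp.zero_apply, if_neg]
      intro h
      exact hp ((ix_inj _ _ _ _).1 h).2.symm
  exact LinearMap.congr_fun h x

/-- the box of exponents -/
def box (n j : ℕ) : Finset (Fin (n + 1) → ℕ) := Fintype.piFinset fun _ => Finset.range (2 ^ j)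

theorem card_box (n j : ℕ) : (box n j).card = 2 ^ ((n + 1) * j) := by
  unfold box
  rw [Fintype.card_piFinset]
  simp only [Finset.card_range, Finset.prod_const, Finset.card_univ, Fintype.card_fin]
  rw [← pow_mul, mul_comm]

/-- the slice of the box -/
def slice (n j : ℕ) (i : Fin (n + 1)) (c : ℕ) : Finset (Fin (n + 1) → ℕ) :=
  Fintype.piFinset (Function.update (fun _ => Finset.range (2 ^ j)) i (Finset.range c))

theorem card_slice (n j : ℕ) (i : Fin (n + 1)) (c : ℕ) :
    (slice n j i c).card = c * 2 ^ (n * j) := by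
  unfold slice
  rw [Fintype.card_piFinset]
  have h : ∀ l : Fin (n + 1), (Function.update (fun _ => Finset.range (2 ^ j)) i (Finset.range c) l :
      Finset ℕ).card = Function.update (fun _ => 2 ^ j) i c l := by
    intro l
    by_cases hl : l = i
    · subst hl
      simp
    · rw [Function.update_of_ne hl, Function.update_of_ne hl, Finset.card_range]
  simp only [h]
  rw [Finset.prod_update_of_mem (Finset.mem_univ i)]
  simp only [Finset.prod_const]
  rw [Finset.card_sdiff_of_subset (Finset.subset_univ _), Finset.card_univ, Fintype.card_fin,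
    Finset.card_singleton, Nat.add_sub_cancel, ← pow_mul, mul_comm j n]

/-- the leading exponents of the invariants of level `j` lie in the box -/
theorem deg_sub (b : Basis (Ix n) (ZMod 2) (LC (filt n s))) (hb : IsE b)
    (hbox : ∀ j : ℕ, fixd (rt (filt n s)) (lvl n s j) =
        Submodule.span (ZMod 2) (b '' {α | ∀ i, (ofLex α) i < 2 ^ j}))
    (B : Basis (Ixk n k) (ZMod 2) (Fin k → LC (filt n s))) (hB : IsEk B)
    (N : Submodule (ZMod 2) (Fin k → LC (filt n s))) (j : ℕ) (α : Fin (n + 1) → ℕ) (p : Fin k)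
    (h : ix α p ∈ Deg B (N ⊓ fixd (pw (rt (filt n s)) k) (lvl n s j))) :
    ix α p ∈ Deg B N ∧ α ∈ box n j := by
  obtain ⟨f, hf, hlead⟩ := h
  refine ⟨⟨f, hf.1, hlead⟩, ?_⟩
  -- the coordinate of `f` at `ix α p` is not zero
  have h1 : B.repr f (ix α p) ≠ 0 := by
    have h2 : B.repr (f - B (ix α p)) (ix α p) = 0 := by
      by_contra hne
      have h3 := (Basis.mem_span_image B).1 hlead
      have h4 : ix α p ∈ (B.repr (f - B (ix α p))).support := Finsupp.mem_support_iff.2 hne
      have h5 : ix α p < ix α p := h3 (Finset.mem_coe.2 h4)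
      exact lt_irrefl _ h5
    rw [map_sub, Finsupp.sub_apply, Basis.repr_self, Finsupp.single_eq_same, sub_eq_zero] at h2
    rw [h2]
    exact one_ne_zero
  rw [repr_eq b hb B hB] at h1
  have h6 : f p ∈ fixd (rt (filt n s)) (lvl n s j) := by
    intro w hw
    exact congrFun (hf.2 w hw) p
  rw [hbox j, Basis.mem_span_image] at h6
  have h7 := h6 (Finset.mem_coe.2 (Finsupp.mem_support_iff.2 h1))
  unfold box
  rw [Fintype.mem_piFinset]
  intro i
  rw [Finset.mem_range]
  exact h7 i

end UPB_

open UPB_ in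
theorem upb_proof (hLTM : Stmt_LTM) (hBAS : Stmt_BAS) (hDWN : Stmt_DWN) : Stmt_UPB := by
  classical
  intro n k s B hB N hN
  obtain ⟨⟨b, hb⟩, hbox, -⟩ := hBAS n s
  -- exponents outside `Deg B N`
  have hex : ∀ p : Fin k, ∃ a : Fin (n + 1) → ℕ, p ∈ tset B N → ix a p ∉ Deg B N := by
    intro p
    by_cases hp : p ∈ tset B N
    · obtain ⟨a, ha⟩ := hp
      exact ⟨a, fun _ => ha⟩
    · exact ⟨0, fun h => absurd h hp⟩
  choose a ha using hex
  refine ⟨∑ p, ∑ i, a p i, fun j => ?_⟩
  let T : Finset (Fin k) := Finset.univ.filter (fun p => p ∉ tset B N)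
  let F1 : Finset (Ixk n k) := T.biUnion fun p => (box n j).image fun α => ix α p
  let F2 : Finset (Ixk n k) := Finset.univ.biUnion fun p => Finset.univ.biUnion fun i =>
    (slice n j i (a p i)).image fun α => ix α p
  have hsub : Deg B (N ⊓ fixd (pw (rt (filt n s)) k) (lvl n s j)) ⊆ ((F1 ∪ F2 : Finset _) : Set _) := by
    intro x hx
    obtain ⟨α, p, rfl⟩ := ix_surj x
    obtain ⟨h1, h2⟩ := deg_sub b hb (hbox b hb) B hB N j α p hx
    rw [Finset.mem_coe, Finset.mem_union]
    by_cases hp : p ∈ tset B N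
    · right
      have h3 : ¬ a p ≤ α := fun hle => ha p hp (hDWN n k s B hB N hN α (a p) p h1 hle)
      rw [Pi.le_def] at h3
      push Not at h3
      obtain ⟨i, hi⟩ := h3
      refine Finset.mem_biUnion.2 ⟨p, Finset.mem_univ _, Finset.mem_biUnion.2
        ⟨i, Finset.mem_univ _, Finset.mem_image.2 ⟨α, ?_, rfl⟩⟩⟩
      unfold slice
      rw [Fintype.mem_piFinset]
      intro l
      by_cases hl : l = i
      · subst hl
        rw [Function.update_self, Finset.mem_range]
        exact hi
      · rw [Function.update_of_ne hl]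
        exact (Fintype.mem_piFinset.1 h2) l
    · left
      exact Finset.mem_biUnion.2 ⟨p, Finset.mem_filter.2 ⟨Finset.mem_univ _, hp⟩,
        Finset.mem_image.2 ⟨α, h2, rfl⟩⟩
  have hfin : (Deg B (N ⊓ fixd (pw (rt (filt n s)) k) (lvl n s j))).Finite :=
    (Finset.finite_toSet _).subset hsub
  have hrank := ((hLTM _ _ B).2.2.2.1 _ hfin).2
  rw [hrank]
  have hcard : (Deg B (N ⊓ fixd (pw (rt (filt n s)) k) (lvl n s j))).ncard ≤ (F1 ∪ F2).card := by
    rw [← Set.ncard_coe_finset]
    exact Set.ncard_le_ncard hsub (Finset.finite_toSet _)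
  refine hcard.trans ((Finset.card_union_le _ _).trans (add_le_add ?_ ?_))
  · refine Finset.card_biUnion_le.trans ?_
    have h1 : ∀ p ∈ T, ((box n j).image fun α => ix α p).card ≤ 2 ^ ((n + 1) * j) := fun p _ =>
      Finset.card_image_le.trans (card_box n j).le
    refine (Finset.sum_le_sum h1).trans ?_
    rw [Finset.sum_const, smul_eq_mul]
    refine Nat.mul_le_mul_right _ ?_
    -- `T.card = k - |tset|`
    unfold fr
    have h2 : (tset B N).ncard = (Finset.univ.filter (fun p => p ∈ tset B N)).card := by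
      rw [← Set.ncard_coe_finset]
      congr 1
      ext p
      simp
    rw [h2]
    have h3 := Finset.card_filter_add_card_filter_not (s := (Finset.univ : Finset (Fin k)))
      (fun p => p ∈ tset B N)
    rw [Finset.card_univ, Fintype.card_fin] at h3
    have h4 : T.card = (Finset.univ.filter (fun p => ¬ p ∈ tset B N)).card := rfl
    omega
  · refine Finset.card_biUnion_le.trans ?_
    rw [Finset.sum_mul]
    refine Finset.sum_le_sum fun p _ => Finset.card_biUnion_le.trans ?_
    rw [Finset.sum_mul]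
    refine Finset.sum_le_sum fun i _ => Finset.card_image_le.trans ?_
    rw [card_slice]

end Pool.Agent.ETX
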