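import Pool.Agent.ETX.ADQ
import Pool.Agent.ETX.BAS
import Pool.Agent.ETX.BI1
import Pool.Agent.ETX.BIN
import Pool.Agent.ETX.CLI
import Pool.Agent.ETX.DCC
import Pool.Agent.ETX.DIM
import Pool.Agent.ETX.DVS
import Pool.Agent.ETX.DWN
import Pool.Agent.ETX.EMB
import Pool.Agent.ETX.EXT
import Pool.Agent.ETX.FIX
import Pool.Agent.ETX.FRO
import Pool.Agent.ETX.GOA
import Pool.Agent.ETX.GOB
import Pool.Agent.ETX.GOC
import Pool.Agent.ETX.GOI
import Pool.Agent.ETX.INJ
import Pool.Agent.ETX.IWG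
import Pool.Agent.ETX.KRC
import Pool.Agent.ETX.KRG
import Pool.Agent.ETX.LTM
import Pool.Agent.ETX.MON
import Pool.Agent.ETX.MOS
import Pool.Agent.ETX.OPS
import Pool.Agent.ETX.QUO
import Pool.Agent.ETX.RES
import Pool.Agent.ETX.RNK
import Pool.Agent.ETX.SRC
import Pool.Agent.ETX.SUR
import Pool.Agent.ETX.SYC
import Pool.Agent.ETX.SYI
import Pool.Agent.ETX.SYK
import Pool.Agent.ETX.SYN
import Pool.Agent.ETX.THI
import Pool.Agent.ETX.UPB

/-! # ETX: assembly of the twisted group theorem -/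

namespace Pool.Agent.ETX

theorem q_fro : Stmt_FRO := fro_proof
theorem q_fix : Stmt_FIX := fix_proof
theorem q_emb : Stmt_EMB := emb_proof q_fro q_fix
theorem q_inj : Stmt_INJ := inj_proof q_fro
theorem q_dim : Stmt_DIM := dim_proof
theorem q_mon : Stmt_MON := mon_proof q_emb q_dim
theorem q_ltm : Stmt_LTM := ltm_proof
theorem q_bin : Stmt_BIN := bin_proof
theorem q_bi1 : Stmt_BI1 := bi1_proof q_bin
theorem q_bas : Stmt_BAS := bas_proof q_bin q_bi1
theorem q_ops : Stmt_OPS := ops_proof q_bin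
theorem q_dwn : Stmt_DWN := dwn_proof q_ltm q_bas q_ops
theorem q_dcc : Stmt_DCC := dcc_proof q_ltm q_bas q_dwn
theorem q_quo : Stmt_QUO := quo_proof q_ltm q_bas q_ops q_dwn
theorem q_adq : Stmt_ADQ := adq_proof q_emb q_quo q_dim
theorem q_upb : Stmt_UPB := upb_proof q_ltm q_bas q_dwn
theorem q_sur : Stmt_SUR := sur_proof q_ltm q_bas
theorem q_src : Stmt_SRC := src_proof q_dcc
theorem q_rnk : Stmt_RNK :=
  rnk_proof q_ltm q_bas q_emb q_inj q_dim q_quo q_adq q_upb q_sur q_src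
theorem q_krc : Stmt_KRC := krc_proof q_bin q_bi1
theorem q_krg : Stmt_KRG := krg_proof q_ltm q_bas q_ops q_dim q_emb q_rnk q_krc
theorem q_goi : Stmt_GOI := goi_proof
theorem q_goa : Stmt_GOA := goa_proof q_bas q_ops
theorem q_gob : Stmt_GOB := gob_proof q_dim q_goi q_goa
theorem q_goc : Stmt_GOC := goc_proof q_emb q_dim q_fix q_goi q_goa
theorem q_ext : Stmt_EXT := ext_proof
theorem q_res : Stmt_RES := res_proof q_ext
theorem q_cli : Stmt_CLI := cli_proof
theorem q_dvs : Stmt_DVS := dvs_proof q_emb q_dim q_adq q_rnk q_gob q_goc q_ext q_res q_cli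
theorem q_thi : Stmt_THI := thi_proof q_ext q_rnk q_krg q_dvs
theorem q_syc : Stmt_SYC := syc_proof
theorem q_syn : Stmt_SYN := syn_proof q_syc
theorem q_syk : Stmt_SYK := syk_proof
theorem q_syi : Stmt_SYI := syi_proof q_syc q_syn q_syk
theorem q_mos : Stmt_MOS := mos_proof q_mon

/-- The twisted group theorem: `IWG` for every system, without any condition on the cyclotomic
character. -/
theorem iwg : ETT.Stmt_IWG := iwg_proof q_syn q_syi q_mos q_thi

end Pool.Agent.ETX
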