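import Pool.Agent.ETX.Stmts

set_option autoImplicit false

namespace Pool.Agent.ETX

open Module

namespace ADQ_

/-- subobjects of admissible modules are admissible -/
theorem inj_adm {H : Type} [Group H] (Φ : Filt H) {M M' : Type} [AddCommGroup M]
    [Module (ZMod 2) M] [AddCommGroup M'] [Module (ZMod 2) M']
    (ρ : Representation (ZMod 2) H M) (ρ' : Representation (ZMod 2) H M')
    (f : M →ₗ[ZMod 2] M') (hf : Equi ρ ρ' f) (hi : Function.Injective f) (ha : Adm Φ ρ') :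
    Adm Φ ρ := by
  obtain ⟨hs, hd⟩ := ha
  refine ⟨?_, ?_⟩
  · intro x
    obtain ⟨j, hj⟩ := hs (f x)
    refine ⟨j, fun v hv => hi ?_⟩
    rw [hf v x, hj v hv]
  · have hmem : ∀ x : fixd ρ ⊤, f (x : M) ∈ fixd ρ' ⊤ := by
      intro x w hw
      rw [← hf w x, x.2 w hw]
    let g : fixd ρ ⊤ →ₗ[ZMod 2] fixd ρ' ⊤ :=
      (f.comp (fixd ρ ⊤).subtype).codRestrict (fixd ρ' ⊤) hmem
    have hg : Function.Injective g := by
      intro a b hab
      have h1 : ((g a : fixd ρ' ⊤) : M') = (g b : fixd ρ' ⊤) := by rw [hab]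
      have h2 : f (a : M) = f (b : M) := h1
      exact Subtype.ext (hi h2)
    exact FiniteDimensional.of_injective g hg

/-- the map `M' → Q` induced by `e : M → C` and a surjection `f : M → M'` -/
theorem exists_map {H : Type} [Group H] {M M' C : Type} [AddCommGroup M]
    [Module (ZMod 2) M] [AddCommGroup M'] [Module (ZMod 2) M'] [AddCommGroup C]
    [Module (ZMod 2) C] (ρ : Representation (ZMod 2) H M) (ρ' : Representation (ZMod 2) H M')
    (σ : Representation (ZMod 2) H C) (f : M →ₗ[ZMod 2] M') (hf : Equi ρ ρ' f)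
    (hs : Function.Surjective f) (e : M →ₗ[ZMod 2] C) (he : Equi ρ σ e)
    (hi : Function.Injective e) :
    ∃ (N : Submodule (ZMod 2) C) (hN : Stab σ N) (g : M' →ₗ[ZMod 2] C ⧸ N),
      Equi ρ' (quor σ N hN) g ∧ Function.Injective g := by
  have hN : Stab σ ((LinearMap.ker f).map e) := by
    intro h x hx
    obtain ⟨y, hy, rfl⟩ := hx
    change σ h (e y) ∈ (LinearMap.ker f).map e
    rw [← he h y]
    refine Submodule.mem_map_of_mem ?_
    have hy' : f y = 0 := hy
    rw [LinearMap.mem_ker, hf h y, hy', map_zero]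
  have hle : LinearMap.ker f ≤ ((LinearMap.ker f).map e).comap e := fun x hx =>
    Submodule.mem_map_of_mem hx
  let E := LinearMap.quotKerEquivOfSurjective f hs
  let q : (M ⧸ LinearMap.ker f) →ₗ[ZMod 2] C ⧸ (LinearMap.ker f).map e :=
    Submodule.mapQ (LinearMap.ker f) ((LinearMap.ker f).map e) e hle
  let g : M' →ₗ[ZMod 2] C ⧸ (LinearMap.ker f).map e := q.comp E.symm.toLinearMap
  have hE : ∀ x : M, E.symm (f x) = (LinearMap.ker f).mkQ x := by
    intro x
    rw [LinearEquiv.symm_apply_eq]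
    rfl
  have hg : ∀ x : M, g (f x) = ((LinearMap.ker f).map e).mkQ (e x) := by
    intro x
    change q (E.symm (f x)) = _
    rw [hE x]
    rfl
  refine ⟨_, hN, g, ?_, ?_⟩
  · intro h y
    obtain ⟨x, rfl⟩ := hs y
    rw [← hf h x, hg, hg, quor_mk, he h x]
  · rw [injective_iff_map_eq_zero]
    intro y hy
    obtain ⟨x, rfl⟩ := hs y
    rw [hg, Submodule.mkQ_apply, Submodule.Quotient.mk_eq_zero] at hy
    obtain ⟨z, hz, hzx⟩ := hy
    have := hi hzx
    rw [← this]
    exact hz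

end ADQ_

theorem adq_proof (hEMB : Stmt_EMB) (hQUO : Stmt_QUO) (_hDIM : Stmt_DIM) : Stmt_ADQ := by
  intro n s M M' _ _ _ _ ρ ρ' f hf
  refine ⟨fun hs ha => ?_, fun hi ha => ADQ_.inj_adm (filt n s) ρ ρ' f hf hi ha⟩
  obtain ⟨e, he, hei⟩ := hEMB (Uh n s) M (filt n s) ρ ha _ le_rfl
  obtain ⟨N, hN, g, hg, hgi⟩ := ADQ_.exists_map ρ ρ' (pw (rt (filt n s)) _) f hf hs e he hei
  exact ADQ_.inj_adm (filt n s) ρ' (quor (pw (rt (filt n s)) _) N hN) g hg hgi
    (hQUO n _ s N hN)

end Pool.Agent.ETX
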