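import Mathlib

/-!
# ETX: the twisted Iwasawa part of the field theorem (MP_d26ff6_al), definitions

Everything is discrete: smooth representations over `ZMod 2`, locally constant functions,
the concrete group `Uh n s` = `Z_2^{n+1}` with the law `k * k' = k + (1 + 4 s k_last) k'`.
-/

set_option autoImplicit false

namespace Pool.Agent.ETX

open Module

/-! ## General groups with a filtration -/

section General

variable {H : Type} [Group H]

/-- A filtration of `H` by normal subgroups of 2-power index. -/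
structure Filt (H : Type) [Group H] where
  V : ℕ → Subgroup H
  anti : ∀ i j, i ≤ j → V j ≤ V i
  nrm : ∀ j, (V j).Normal
  two : ∀ j, ∃ c : ℕ, (V j).index = 2 ^ c

/-- Locally constant `F_2`-valued functions. -/
def LC (Φ : Filt H) : Submodule (ZMod 2) (H → ZMod 2) where
  carrier := {f | ∃ j, ∀ h, ∀ v ∈ Φ.V j, f (h * v) = f h}
  add_mem' := by
    rintro f g ⟨i, hi⟩ ⟨j, hj⟩
    refine ⟨max i j, fun h v hv => ?_⟩
    have h1 := hi h v (Φ.anti i _ (le_max_left i j) hv)
    have h2 := hj h v (Φ.anti j _ (le_max_right i j) hv)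
    simp only [Pi.add_apply, h1, h2]
  zero_mem' := ⟨0, fun h v _ => rfl⟩
  smul_mem' := by
    rintro c f ⟨i, hi⟩
    refine ⟨i, fun h v hv => ?_⟩
    simp only [Pi.smul_apply, hi h v hv]

/-- Right translation on `LC`: `(h f)(x) = f (x h)`. -/
def rt (Φ : Filt H) : Representation (ZMod 2) H (LC Φ) where
  toFun h :=
    { toFun := fun f => ⟨fun x => (f : H → ZMod 2) (x * h), by
        obtain ⟨j, hj⟩ := f.2
        refine ⟨j, fun x v hv => ?_⟩
        have hv' : h⁻¹ * v * h ∈ Φ.V j := by
          have := (Φ.nrm j).conj_mem v hv h⁻¹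
          simpa using this
        have h2 := hj (x * h) _ hv'
        have h3 : x * h * (h⁻¹ * v * h) = x * v * h := by group
        rw [h3] at h2
        exact h2⟩
      map_add' := fun f g => rfl
      map_smul' := fun c f => rfl }
  map_one' := by
    ext f x
    simp
  map_mul' := fun a b => by
    ext f x
    simp [mul_assoc]

@[simp] theorem rt_apply (Φ : Filt H) (h : H) (f : LC Φ) (x : H) :
    (rt Φ h f : H → ZMod 2) x = (f : H → ZMod 2) (x * h) := rfl

/-- Componentwise action on `k` copies. -/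
def pw {M : Type} [AddCommGroup M] [Module (ZMod 2) M] (ρ : Representation (ZMod 2) H M)
    (k : ℕ) : Representation (ZMod 2) H (Fin k → M) where
  toFun h := LinearMap.pi fun p => ρ h ∘ₗ LinearMap.proj p
  map_one' := by
    ext f x
    simp
  map_mul' := fun a b => by
    ext f x
    simp

@[simp] theorem pw_apply {M : Type} [AddCommGroup M] [Module (ZMod 2) M]
    (ρ : Representation (ZMod 2) H M) (k : ℕ) (h : H) (x : Fin k → M) (p : Fin k) :
    pw ρ k h x p = ρ h (x p) := rfl

/-- A representation is smooth if every vector is fixed by some `V j`. -/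
def Smooth (Φ : Filt H) {M : Type} [AddCommGroup M] [Module (ZMod 2) M]
    (ρ : Representation (ZMod 2) H M) : Prop :=
  ∀ x : M, ∃ j, ∀ v ∈ Φ.V j, ρ v x = x

/-- The fixed vectors of a subgroup. -/
def fixd {M : Type} [AddCommGroup M] [Module (ZMod 2) M]
    (ρ : Representation (ZMod 2) H M) (W : Subgroup H) : Submodule (ZMod 2) M where
  carrier := {x | ∀ w ∈ W, ρ w x = x}
  add_mem' := by
    intro a b ha hb g hg
    rw [map_add, ha g hg, hb g hg]
  zero_mem' := by
    intro g _
    rw [map_zero]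
  smul_mem' := by
    intro c x hx g hg
    rw [map_smul, hx g hg]

/-- Equivariant linear maps. -/
def Equi {M M' : Type} [AddCommGroup M] [Module (ZMod 2) M] [AddCommGroup M']
    [Module (ZMod 2) M'] (ρ : Representation (ZMod 2) H M) (ρ' : Representation (ZMod 2) H M')
    (f : M →ₗ[ZMod 2] M') : Prop :=
  ∀ h x, f (ρ h x) = ρ' h (f x)

/-- Stable subspaces. -/
def Stab {M : Type} [AddCommGroup M] [Module (ZMod 2) M] (ρ : Representation (ZMod 2) H M)
    (N : Submodule (ZMod 2) M) : Prop :=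
  ∀ h, N ≤ N.comap (ρ h)

/-- The subrepresentation on a stable subspace. -/
def subr {M : Type} [AddCommGroup M] [Module (ZMod 2) M] (ρ : Representation (ZMod 2) H M)
    (N : Submodule (ZMod 2) M) (hN : Stab ρ N) : Representation (ZMod 2) H N where
  toFun h := (ρ h).restrict (fun _ hx => hN h hx)
  map_one' := by
    ext x
    simp
  map_mul' := fun a b => by
    ext x
    simp

@[simp] theorem subr_apply {M : Type} [AddCommGroup M] [Module (ZMod 2) M]
    (ρ : Representation (ZMod 2) H M) (N : Submodule (ZMod 2) M) (hN : Stab ρ N) (h : H)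
    (x : N) : ((subr ρ N hN h x : N) : M) = ρ h x := rfl

/-- The quotient representation. -/
def quor {M : Type} [AddCommGroup M] [Module (ZMod 2) M] (ρ : Representation (ZMod 2) H M)
    (N : Submodule (ZMod 2) M) (hN : Stab ρ N) : Representation (ZMod 2) H (M ⧸ N) where
  toFun h := Submodule.mapQ N N (ρ h) (hN h)
  map_one' := by
    ext x
    simp
  map_mul' := fun a b => by
    ext x
    simp

@[simp] theorem quor_mk {M : Type} [AddCommGroup M] [Module (ZMod 2) M]
    (ρ : Representation (ZMod 2) H M) (N : Submodule (ZMod 2) M) (hN : Stab ρ N) (h : H)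
    (x : M) : quor ρ N hN h (N.mkQ x) = N.mkQ (ρ h x) := rfl

/-- Admissible: smooth with finitely many invariants. -/
def Adm (Φ : Filt H) {M : Type} [AddCommGroup M] [Module (ZMod 2) M]
    (ρ : Representation (ZMod 2) H M) : Prop :=
  Smooth Φ ρ ∧ FiniteDimensional (ZMod 2) (fixd ρ ⊤)

/-- `M` maps onto `LC^r`. -/
def Onto (Φ : Filt H) {M : Type} [AddCommGroup M] [Module (ZMod 2) M]
    (ρ : Representation (ZMod 2) H M) (r : ℕ) : Prop :=
  ∃ f : M →ₗ[ZMod 2] (Fin r → LC Φ), Equi ρ (pw (rt Φ) r) f ∧ Function.Surjective f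

/-- An equivariant short exact sequence `0 → M' → M → M'' → 0`. -/
structure SES {M' M M'' : Type} [AddCommGroup M'] [Module (ZMod 2) M'] [AddCommGroup M]
    [Module (ZMod 2) M] [AddCommGroup M''] [Module (ZMod 2) M'']
    (ρ' : Representation (ZMod 2) H M') (ρ : Representation (ZMod 2) H M)
    (ρ'' : Representation (ZMod 2) H M'') (i : M' →ₗ[ZMod 2] M) (p : M →ₗ[ZMod 2] M'') :
    Prop where
  ei : Equi ρ' ρ i
  ep : Equi ρ ρ'' p
  inj : Function.Injective i
  surj : Function.Surjective p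
  exact : ∀ x, p x = 0 ↔ x ∈ LinearMap.range i

end General

/-! ## Leading terms -/

section Leading

variable {I M : Type} [LinearOrder I] [AddCommGroup M] [Module (ZMod 2) M]

/-- span of the basis vectors below `i` -/
def below (b : Basis I (ZMod 2) M) (i : I) : Submodule (ZMod 2) M :=
  Submodule.span (ZMod 2) (b '' {j | j < i})

/-- the set of leading exponents of the elements of `N` -/
def Deg (b : Basis I (ZMod 2) M) (N : Submodule (ZMod 2) M) : Set I :=
  {i | ∃ f ∈ N, f - b i ∈ below b i}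

end Leading

/-! ## The concrete group -/

/-- `Z_2^{n+1}` with the law `k * k' = k + (1 + 4 s k_last) k'`. -/
def Uh (n : ℕ) (_s : ℤ_[2]) : Type := Fin (n + 1) → ℤ_[2]

noncomputable section Conc

variable {n : ℕ} {s : ℤ_[2]}

/-- The character `1 + 4 s k_last`. -/
def chi (k : Uh n s) : ℤ_[2] := 1 + 4 * s * k (Fin.last n)

theorem chi_isUnit (k : Uh n s) : IsUnit (chi k) := by
  have h : (4 * s * k (Fin.last n) : ℤ_[2]) ∈ nonunits ℤ_[2] := by
    intro hu
    have h1 : IsUnit ((2 : ℤ_[2]) * (2 * s * k (Fin.last n))) := by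
      convert hu using 1
      ring
    have h2 : IsUnit (2 : ℤ_[2]) := isUnit_of_mul_isUnit_left h1
    have h3 := PadicInt.prime_p (p := 2)
    exact h3.not_isUnit (by exact_mod_cast h2)
  have h4 := IsLocalRing.isUnit_one_sub_self_of_mem_nonunits
    (-(4 * s * k (Fin.last n) : ℤ_[2])) (by
      intro hu
      exact h (by simpa using hu.neg))
  unfold chi
  simpa using h4

instance : Group (Uh n s) where
  mul k k' := fun i => k i + chi k * k' i
  one := fun _ => 0
  inv k := fun i => - (((chi_isUnit k).unit⁻¹ : ℤ_[2]ˣ) : ℤ_[2]) * k i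
  mul_assoc a b c := by
    funext i
    change (a i + chi a * b i) + chi (fun i => a i + chi a * b i : Uh n s) * c i =
      a i + chi a * (b i + chi b * c i)
    unfold chi
    ring
  one_mul a := by
    funext i
    change (0 : ℤ_[2]) + chi (fun _ => 0 : Uh n s) * a i = a i
    unfold chi
    ring
  mul_one a := by
    funext i
    change a i + chi a * 0 = a i
    ring
  inv_mul_cancel a := by
    funext i
    change - (((chi_isUnit a).unit⁻¹ : ℤ_[2]ˣ) : ℤ_[2]) * a i +
      chi (fun i => - (((chi_isUnit a).unit⁻¹ : ℤ_[2]ˣ) : ℤ_[2]) * a i : Uh n s) * a i = 0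
    have h1 : (((chi_isUnit a).unit⁻¹ : ℤ_[2]ˣ) : ℤ_[2]) * chi a = 1 :=
      IsUnit.val_inv_mul (chi_isUnit a)
    set u := (((chi_isUnit a).unit⁻¹ : ℤ_[2]ˣ) : ℤ_[2]) with hu
    have h2 : chi (n := n) (s := s) (fun i => - u * a i) = 1 - u * (4 * s * a (Fin.last n)) := by
      unfold chi
      ring
    rw [h2]
    have h3 : u * (1 + 4 * s * a (Fin.last n)) = 1 := h1
    linear_combination (- a i) * h3

theorem mul_apply (k k' : Uh n s) (i : Fin (n + 1)) : (k * k') i = k i + chi k * k' i := rfl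

theorem one_apply (i : Fin (n + 1)) : (1 : Uh n s) i = 0 := rfl

theorem chi_mul (k k' : Uh n s) : chi (k * k') = chi k * chi k' := by
  unfold chi
  rw [mul_apply]
  unfold chi
  ring

theorem chi_one : chi (1 : Uh n s) = 1 := by
  unfold chi
  rw [one_apply]
  ring

theorem inv_apply (k : Uh n s) (i : Fin (n + 1)) : chi k * (k⁻¹) i = - k i := by
  have h := congrFun (mul_inv_cancel k) i
  rw [mul_apply] at h
  have h1 : (1 : Uh n s) i = 0 := rfl
  rw [h1] at h
  linear_combination h

/-- The subgroup `2^j Z_2^{n+1}`. -/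
def lvl (n : ℕ) (s : ℤ_[2]) (j : ℕ) : Subgroup (Uh n s) where
  carrier := {k | ∀ i, (2 : ℤ_[2]) ^ j ∣ k i}
  mul_mem' := by
    intro a b ha hb i
    rw [mul_apply]
    exact dvd_add (ha i) (Dvd.dvd.mul_left (hb i) _)
  one_mem' := fun i => by
    rw [one_apply]
    exact dvd_zero _
  inv_mem' := by
    intro a ha i
    have h := inv_apply a i
    have h1 : (2 : ℤ_[2]) ^ j ∣ chi a * a⁻¹ i := by
      rw [h]
      exact (dvd_neg).2 (ha i)
    exact ((chi_isUnit a).dvd_mul_left).1 h1

theorem dvd_iff_toZModPow (j : ℕ) (x y : ℤ_[2]) :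
    (2 : ℤ_[2]) ^ j ∣ y - x ↔ PadicInt.toZModPow (p := 2) j x = PadicInt.toZModPow (p := 2) j y := by
  have h := PadicInt.ker_toZModPow (p := 2) j
  have h1 : y - x ∈ RingHom.ker (PadicInt.toZModPow (p := 2) j) ↔ (2 : ℤ_[2]) ^ j ∣ y - x := by
    rw [h, Ideal.mem_span_singleton]
    norm_cast
  rw [← h1, RingHom.mem_ker, map_sub, sub_eq_zero]
  exact eq_comm

theorem inv_mul_mem_lvl (j : ℕ) (k k' : Uh n s) :
    k⁻¹ * k' ∈ lvl n s j ↔ ∀ i, (2 : ℤ_[2]) ^ j ∣ k' i - k i := by
  have h : ∀ i, k' i - k i = chi k * (k⁻¹ * k') i := by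
    intro i
    have h1 := congrFun (mul_inv_cancel_left k k') i
    rw [mul_apply] at h1
    linear_combination - h1
  constructor
  · intro hk i
    rw [h i]
    exact Dvd.dvd.mul_left (hk i) _
  · intro hk i
    have := hk i
    rw [h i] at this
    exact ((chi_isUnit k).dvd_mul_left).1 this

theorem lvl_index (n : ℕ) (s : ℤ_[2]) (j : ℕ) : (lvl n s j).index = (2 ^ j) ^ (n + 1) := by
  have e : (Uh n s ⧸ lvl n s j) ≃ (Fin (n + 1) → ZMod (2 ^ j)) := by
    refine Equiv.ofBijective (fun q => Quotient.liftOn' q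
      (fun k : Uh n s => fun i => PadicInt.toZModPow (p := 2) j (k i)) ?_) ⟨?_, ?_⟩
    · intro a b hab
      have h1 := (QuotientGroup.leftRel_apply).1 hab
      have h2 := (inv_mul_mem_lvl j a b).1 h1
      funext i
      exact (dvd_iff_toZModPow j _ _).1 (h2 i)
    · rintro ⟨a⟩ ⟨b⟩ hab
      apply Quotient.sound'
      rw [QuotientGroup.leftRel_apply, inv_mul_mem_lvl]
      intro i
      exact (dvd_iff_toZModPow j _ _).2 (congrFun hab i)
    · intro f
      have hs : ∀ i, ∃ x : ℤ_[2], PadicInt.toZModPow (p := 2) j x = f i := fun i =>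
        ZMod.ringHom_surjective (PadicInt.toZModPow (p := 2) j) (f i)
      choose x hx using hs
      exact ⟨Quotient.mk'' (x : Uh n s), funext hx⟩
  rw [Subgroup.index_eq_card, Nat.card_congr e, Nat.card_fun]
  simp

/-- The filtration of `Uh n s` by the subgroups `2^j Z_2^{n+1}`. -/
def filt (n : ℕ) (s : ℤ_[2]) : Filt (Uh n s) where
  V := lvl n s
  anti i j hij := fun _ hk l => (pow_dvd_pow _ hij).trans (hk l)
  nrm j := ⟨fun a ha g => by
    intro i
    have h1 : chi g * (g⁻¹) i = - g i := inv_apply g i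
    have h2 : (g * a * g⁻¹) i = chi g * a i + g i * (1 - chi a) := by
      rw [mul_apply, mul_apply, chi_mul]
      linear_combination chi a * h1
    have h3 : (2 : ℤ_[2]) ^ j ∣ 1 - chi a := by
      unfold chi
      obtain ⟨c, hc⟩ := ha (Fin.last n)
      exact ⟨-(4 * s * c), by rw [hc]; ring⟩
    rw [h2]
    exact dvd_add (Dvd.dvd.mul_left (ha i) _) (Dvd.dvd.mul_left h3 _)⟩
  two j := ⟨j * (n + 1), by rw [lvl_index, pow_mul]⟩

/-- The subgroup of level `j` of the cocycle `∑ 2^{e_i} k_i`. -/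
def levW (n : ℕ) (s : ℤ_[2]) (e : Fin (n + 1) → ℕ) (j : ℕ) : Subgroup (Uh n s) where
  carrier := {k | (2 : ℤ_[2]) ^ j ∣ ∑ i, (2 : ℤ_[2]) ^ e i * k i}
  mul_mem' := by
    intro a b ha hb
    have h : ∑ i, (2 : ℤ_[2]) ^ e i * (a * b) i =
        ∑ i, (2 : ℤ_[2]) ^ e i * a i + chi a * ∑ i, (2 : ℤ_[2]) ^ e i * b i := by
      rw [Finset.mul_sum, ← Finset.sum_add_distrib]
      refine Finset.sum_congr rfl fun i _ => ?_
      rw [mul_apply]
      ring
    change (2 : ℤ_[2]) ^ j ∣ ∑ i, (2 : ℤ_[2]) ^ e i * (a * b) i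
    rw [h]
    exact dvd_add ha (Dvd.dvd.mul_left hb _)
  one_mem' := by
    change (2 : ℤ_[2]) ^ j ∣ ∑ i, (2 : ℤ_[2]) ^ e i * (1 : Uh n s) i
    simp [one_apply]
  inv_mem' := by
    intro a ha
    change (2 : ℤ_[2]) ^ j ∣ ∑ i, (2 : ℤ_[2]) ^ e i * (a⁻¹) i
    have h : chi a * ∑ i, (2 : ℤ_[2]) ^ e i * (a⁻¹) i = - ∑ i, (2 : ℤ_[2]) ^ e i * a i := by
      rw [Finset.mul_sum, ← Finset.sum_neg_distrib]
      refine Finset.sum_congr rfl fun i _ => ?_
      have := inv_apply a i
      linear_combination (2 : ℤ_[2]) ^ e i * this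
    have h1 : (2 : ℤ_[2]) ^ j ∣ chi a * ∑ i, (2 : ℤ_[2]) ^ e i * (a⁻¹) i := by
      rw [h]
      exact (dvd_neg).2 ha
    exact ((chi_isUnit a).dvd_mul_left).1 h1

/-- The closed normal subgroup of the `k` with `k_l = 0` for all `l ≥ i`. -/
def subA (n : ℕ) (s : ℤ_[2]) (i : ℕ) : Subgroup (Uh n s) where
  carrier := {k | ∀ l : Fin (n + 1), i ≤ (l : ℕ) → k l = 0}
  mul_mem' := by
    intro a b ha hb l hl
    rw [mul_apply, ha l hl, hb l hl]
    ring
  one_mem' := fun l _ => rfl
  inv_mem' := by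
    intro a ha l hl
    have h := inv_apply a l
    rw [ha l hl, neg_zero] at h
    exact ((chi_isUnit a).mul_right_eq_zero).1 h

/-- Binomial coefficients of 2-adic integers modulo 2. -/
def bin (z : ℤ_[2]) (a : ℕ) : ZMod 2 := PadicInt.toZMod (Ring.choose z a)

/-- The Mahler basis of `LC`: `E α (k) = ∏ binom(k_i, α_i)` (membership in `LC` is module
BIN, so this is only a function here). -/
def Ef (n : ℕ) (s : ℤ_[2]) (α : Fin (n + 1) → ℕ) : Uh n s → ZMod 2 := fun k => ∏ i, bin (k i) (α i)

/-- The index set of the basis, ordered lexicographically (coordinate `0` is the most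
significant one, the last coordinate the least significant one). -/
abbrev Ix (n : ℕ) : Type := Lex (Fin (n + 1) → ℕ)

/-- Index set for `k` copies: compare the exponent first, then the position. -/
abbrev Ixk (n k : ℕ) : Type := Lex (Ix n × Fin k)

/-- The index `(α, p)`. -/
abbrev ix {n k : ℕ} (α : Fin (n + 1) → ℕ) (p : Fin k) : Ixk n k := toLex (toLex α, p)

/-- Unit vector in the group. -/
def gen (n : ℕ) (s : ℤ_[2]) (i : Fin (n + 1)) : Uh n s := Pi.single (M := fun _ => ℤ_[2]) i 1

end Conc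

end Pool.Agent.ETX
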