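import Pool.Agent.ETX.StmtsS

/-!
# ETX: module IWG (the twisted group theorem from THM-I)
-/

set_option autoImplicit false

namespace Pool.Agent.ETX

open Module

namespace IWG_

/-- the vectors fixed by some `V j` -/
def un {G R : Type} [Group G] [AddCommGroup R] [Module (ZMod 2) R]
    (rho : Representation (ZMod 2) G R) (F : Filt G) : Submodule (ZMod 2) R where
  carrier := {x | ∃ j, ∀ v ∈ F.V j, rho v x = x}
  add_mem' := by
    rintro a b ⟨i, hi⟩ ⟨j, hj⟩
    refine ⟨max i j, fun v hv => ?_⟩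
    rw [map_add, hi v (F.anti i _ (le_max_left i j) hv), hj v (F.anti j _ (le_max_right i j) hv)]
  zero_mem' := ⟨0, fun v _ => map_zero _⟩
  smul_mem' := by
    rintro c x ⟨j, hj⟩
    refine ⟨j, fun v hv => ?_⟩
    rw [map_smul, hj v hv]

lemma un_stab {G R : Type} [Group G] [AddCommGroup R] [Module (ZMod 2) R]
    (rho : Representation (ZMod 2) G R) (F : Filt G) : Stab rho (un rho F) := by
  rintro h x ⟨j, hj⟩
  rw [Submodule.mem_comap]
  refine ⟨j, fun v hv => ?_⟩
  have h1 : h⁻¹ * v * h ∈ F.V j := by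
    have := (F.nrm j).conj_mem v hv h⁻¹
    simpa using this
  have h2 : v * h = h * (h⁻¹ * v * h) := by group
  rw [← Module.End.mul_apply, ← map_mul, h2, map_mul, Module.End.mul_apply, hj _ h1]

lemma un_smooth {G R : Type} [Group G] [AddCommGroup R] [Module (ZMod 2) R]
    (rho : Representation (ZMod 2) G R) (F : Filt G) :
    Smooth F (subr rho (un rho F) (un_stab rho F)) := by
  rintro ⟨x, j, hj⟩
  refine ⟨j, fun v hv => ?_⟩
  ext
  exact hj v hv

lemma map_fixd {G R : Type} [Group G] [AddCommGroup R] [Module (ZMod 2) R]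
    (rho : Representation (ZMod 2) G R) (F : Filt G) (W : Subgroup G) (j : ℕ)
    (hW : F.V j ≤ W) :
    (fixd (subr rho (un rho F) (un_stab rho F)) W).map (un rho F).subtype = ETT.fix rho W := by
  ext x
  rw [Submodule.mem_map]
  constructor
  · rintro ⟨y, hy, rfl⟩ g hg
    exact congrArg Subtype.val (hy g hg)
  · intro hx
    refine ⟨⟨x, j, fun v hv => hx v (hW hv)⟩, ?_, rfl⟩
    intro g hg
    ext
    exact hx g hg

lemma finrank_fixd {G R : Type} [Group G] [AddCommGroup R] [Module (ZMod 2) R]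
    (rho : Representation (ZMod 2) G R) (F : Filt G) (W : Subgroup G) (j : ℕ)
    (hW : F.V j ≤ W) :
    finrank (ZMod 2) (fixd (subr rho (un rho F) (un_stab rho F)) W) = ETT.bb rho W := by
  unfold ETT.bb
  rw [← map_fixd rho F W j hW]
  exact (Submodule.finrank_map_subtype_eq _ _).symm

lemma fd_fixd {G R : Type} [Group G] [AddCommGroup R] [Module (ZMod 2) R]
    (rho : Representation (ZMod 2) G R) (F : Filt G) (W : Subgroup G) (j : ℕ)
    (hW : F.V j ≤ W) (hfd : FiniteDimensional (ZMod 2) (ETT.fix rho W)) :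
    FiniteDimensional (ZMod 2) (fixd (subr rho (un rho F) (un_stab rho F)) W) := by
  rw [← map_fixd rho F W j hW] at hfd
  exact LinearEquiv.finiteDimensional
    (Submodule.equivSubtypeMap (un rho F) (fixd (subr rho (un rho F) (un_stab rho F)) W)).symm

end IWG_

open IWG_ in
theorem iwg_proof (_hSYN : Stmt_SYN) (hSYI : Stmt_SYI) (hMOS : Stmt_MOS) (hTHI : Stmt_THI) :
    Stmt_IWG := by
  intro G _ S R _ _ rho hadm hW0
  obtain ⟨W0, hW0m, hW0t⟩ := hW0
  -- finite index
  have hidx : ∀ U ∈ S.adm, U.index ≠ 0 := by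
    intro U hU
    obtain ⟨N, _, hNU, _, k, hk⟩ := S.core U hU
    have h1 : N.index ≠ 0 := by
      rw [hk]
      exact pow_ne_zero _ two_ne_zero
    have h2 := Subgroup.relIndex_mul_index hNU
    intro h0
    rw [h0, mul_zero] at h2
    exact h1 h2.symm
  -- the minimum
  let Z : Set ℕ := {q | ∃ U ∈ S.adm, q = ETT.bb rho U / U.index}
  have hZne : Z.Nonempty := ⟨_, ⊤, S.top_mem, rfl⟩
  obtain ⟨U0, hU0m, hU0⟩ := Nat.sInf_mem hZne
  set beta := sInf Z with hbeta
  have hmin : ∀ U ∈ S.adm, beta * U.index ≤ ETT.bb rho U := by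
    intro U hU
    have h1 : beta ≤ ETT.bb rho U / U.index := Nat.sInf_le ⟨U, hU, rfl⟩
    exact (Nat.mul_le_mul_right _ h1).trans (Nat.div_mul_le_self _ _)
  refine ⟨beta, hmin, ?_⟩
  -- the core
  obtain ⟨N, hNm, hNle, hNn, m, hm⟩ := S.core (U0 ⊓ W0) (S.inf_mem _ hU0m _ hW0m)
  have hNU0 : N ≤ U0 := hNle.trans inf_le_left
  have hNt : N ≠ ⊤ := by
    intro h
    refine hW0t (top_le_iff.1 ?_)
    rw [← h]
    exact hNle.trans inf_le_right
  have hbbN : ETT.bb rho N < (beta + 1) * 2 ^ m := by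
    have h1 := hMOS G R S rho hadm U0 hU0m N hNm hNU0
    have h2 : ETT.bb rho U0 < (beta + 1) * U0.index := by
      rw [hU0]
      have := Nat.lt_div_mul_add (a := ETT.bb rho U0) (Nat.pos_of_ne_zero (hidx U0 hU0m))
      rw [add_mul, one_mul]
      exact this
    have h3 : N.relIndex U0 * U0.index = 2 ^ m := by
      rw [Subgroup.relIndex_mul_index hNU0, hm]
    have h4 : 0 < N.relIndex U0 := by
      rcases Nat.eq_zero_or_pos (N.relIndex U0) with h | h
      · rw [h, zero_mul] at h3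
        exact absurd h3.symm (pow_ne_zero _ two_ne_zero)
      · exact h
    calc ETT.bb rho N ≤ ETT.bb rho U0 * N.relIndex U0 := h1
      _ < ((beta + 1) * U0.index) * N.relIndex U0 := Nat.mul_lt_mul_of_pos_right h2 h4
      _ = (beta + 1) * 2 ^ m := by rw [← h3]; ring
  obtain ⟨D, hDU, hDm, hDadm, hD⟩ := hSYI G S N m hNm hNn hm hNt
  have hV0 : ∀ j, D.F.V j ≤ D.U := fun j g hg => ((D.F_spec j g).1 hg).1
  have hfdN : FiniteDimensional (ZMod 2)
      (fixd (subr rho (un rho D.F) (un_stab rho D.F)) D.U) := by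
    refine fd_fixd rho D.F D.U 0 (hV0 0) ?_
    rw [hDU]
    exact hadm.fin N hNm
  obtain ⟨r, hr, e, C, he, hC⟩ := hTHI G (un rho D.F) D
    (subr rho (un rho D.F) (un_stab rho D.F)) (un_smooth rho D.F) hfdN
  obtain ⟨hcoc, hodd, hlev⟩ := hD e he
  have hrb : r ≤ beta := by
    rw [finrank_fixd rho D.F D.U 0 (hV0 0), hDU, hDm] at hr
    have h1 : r * 2 ^ m < (beta + 1) * 2 ^ m := lt_of_le_of_lt hr hbbN
    have h2 := Nat.lt_of_mul_lt_mul_right h1
    omega
  refine ⟨N, hNm, kx D e, hcoc, hodd, C, fun j => ?_⟩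
  obtain ⟨hm1, hm2, hm3, hm4⟩ := hlev j
  refine ⟨_, hm1, hm2, ?_⟩
  have h1 := hC j
  rw [finrank_fixd rho D.F _ j hm4, hDm] at h1
  rw [hm3]
  refine h1.trans ?_
  have h2 : r * 2 ^ m * 2 ^ j ≤ beta * (2 ^ m * 2 ^ j) := by
    rw [mul_assoc]
    exact Nat.mul_le_mul_right _ hrb
  omega

end Pool.Agent.ETX
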