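import Pool.Agent.ETX.Stmts
import Pool.Agent.ETT.Iface

/-!
# ETX part S: from the admissible systems of ETT to THM-I
-/

set_option autoImplicit false

namespace Pool.Agent.ETX

open Module

/-- SYC: chain of index 2 steps from `G` to a normal admissible subgroup, with characters
mod 4. -/
def Stmt_SYC : Prop :=
  ∀ (G : Type) [Group G] (S : ETT.Sys G) (U : Subgroup G) (m : ℕ), U ∈ S.adm → U.Normal →
    U.index = 2 ^ m →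
    ∃ (Gc : ℕ → Subgroup G) (ch : ℕ → G → ZMod 4),
      Gc 0 = ⊤ ∧ Gc m = U ∧ (∀ i, i < m → Gc (i + 1) ≤ Gc i) ∧
      (∀ i, i < m → ∀ g ∈ Gc i, ∀ h ∈ Gc i, ch i (g * h) = ch i g + ch i h) ∧
      (∀ i, i < m → ∃ g ∈ Gc i, ch i g = 1) ∧
      (∀ i, i < m → ∀ g ∈ Gc i, (g ∈ Gc (i + 1) ↔ 2 * ch i g = 0)) ∧
      (∀ i, i < m → ∃ chi : G → ℤ_[2], ETT.IsCoc S.cyc U chi ∧
        (∀ j : ℕ, ∃ W' ∈ S.adm, (W' : Set G) = ETT.lev U chi j) ∧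
        ∀ g ∈ U, (4 : ℤ_[2]) ∣ chi g → ch i g = 0)

/-- SYN: every normal admissible `U ≠ ⊤` has an admissible subgroup of index 2. -/
def Stmt_SYN : Prop :=
  ∀ (G : Type) [Group G] (S : ETT.Sys G) (U : Subgroup G) (m : ℕ), U ∈ S.adm → U.Normal →
    U.index = 2 ^ m → U ≠ ⊤ → ∃ W ∈ S.adm, W ≤ U ∧ W.relIndex U = 2

/-- SYK: a basis of the admissible cocycles on `U`. -/
def Stmt_SYK : Prop :=
  ∀ (G : Type) [Group G] (S : ETT.Sys G) (U : Subgroup G), U ∈ S.adm →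
    (∃ W ∈ S.adm, W ≤ U ∧ W.relIndex U = 2) →
    ∃ (n : ℕ) (s : ℤ_[2]) (kap : G → Uh n s),
      (∀ u ∈ U, chi (kap u) = (S.cyc u : ℤ_[2])) ∧
      (∀ u ∈ U, ∀ v ∈ U, kap (u * v) = kap u * kap v) ∧
      (∀ i, ETT.IsCoc S.cyc U (fun g => kap g i)) ∧
      (∀ i (j : ℕ), ∃ W' ∈ S.adm, (W' : Set G) = ETT.lev U (fun g => kap g i) j) ∧
      (∀ (c : Uh n s) (j : ℕ), ∃ u ∈ U, (kap u)⁻¹ * c ∈ lvl n s j) ∧
      (∀ chi : G → ℤ_[2], ETT.IsCoc S.cyc U chi →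
        (∀ j : ℕ, ∃ W' ∈ S.adm, (W' : Set G) = ETT.lev U chi j) →
        ∀ (j : ℕ), ∀ u ∈ U, (∀ i, (2 : ℤ_[2]) ^ j ∣ kap u i) → (2 : ℤ_[2]) ^ j ∣ chi u)

/-- The cocycle `∑ 2^{e_i} kap_i`. -/
noncomputable def kx {G : Type} [Group G] (D : IData G) (e : Fin (D.n + 1) → ℕ) : G → ℤ_[2] :=
  fun g => ∑ i, (2 : ℤ_[2]) ^ e i * D.kap g i

/-- SYI: the data of THM-I for a normal admissible subgroup. -/
def Stmt_SYI : Prop :=
  ∀ (G : Type) [Group G] (S : ETT.Sys G) (U : Subgroup G) (m : ℕ), U ∈ S.adm → U.Normal →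
    U.index = 2 ^ m → U ≠ ⊤ →
    ∃ D : IData G, D.U = U ∧ D.m = m ∧ (∀ j, D.F.V j ∈ S.adm) ∧
      ∀ e : Fin (D.n + 1) → ℕ, e (Fin.last D.n) = 0 →
        ETT.IsCoc S.cyc U (kx D e) ∧ (∃ g ∈ U, ¬ (2 : ℤ_[2]) ∣ kx D e g) ∧
        ∀ j : ℕ, D.pull (levW D.n D.s e j) ∈ S.adm ∧
          (D.pull (levW D.n D.s e j) : Set G) = ETT.lev U (kx D e) j ∧
          (D.pull (levW D.n D.s e j)).index = 2 ^ m * 2 ^ j ∧
          D.F.V j ≤ D.pull (levW D.n D.s e j)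

/-- MOS: monotonicity of `b_U / [G:U]`. -/
def Stmt_MOS : Prop :=
  ∀ (G R : Type) [Group G] [AddCommGroup R] [Module (ZMod 2) R] (S : ETT.Sys G)
    (rho : Representation (ZMod 2) G R), ETT.IsAdmMod S rho →
    ∀ U ∈ S.adm, ∀ W ∈ S.adm, W ≤ U → ETT.bb rho W ≤ ETT.bb rho U * W.relIndex U

/-- IWG: the twisted group theorem (target of ETX). -/
def Stmt_IWG : Prop := ETT.Stmt_IWG

end Pool.Agent.ETX
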